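import Mathlib

/-!
MP_bd232a_nt, parts N and A: the cubic field `K = ℚ(ζ₇)⁺ = ℚ[X]/(X³ + 7X² + 14X + 7)`.
The generator `β = 2cos(2π/7) - 2` is Eisenstein at 7.
-/

open Polynomial NumberField

namespace Pool.Agent.Helper88.BD

/-- The polynomial `X³ + 7X² + 14X + 7` over `ℤ` (minimal polynomial of `2cos(2π/7) - 2`). -/
noncomputable def gz : ℤ[X] := X ^ 3 + 7 * X ^ 2 + 14 * X + 7

theorem gz_natDegree : gz.natDegree = 3 := by
  unfold gz; compute_degree!

theorem gz_monic : gz.Monic := by
  unfold gz; monicity!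

theorem gz_eisenstein : gz.IsEisensteinAt (Ideal.span {(7 : ℤ)}) := by
  have e : gz = X ^ 3 + C 7 * X ^ 2 + C 14 * X + C 7 := by
    unfold gz; simp
  constructor
  · rw [gz_monic.leadingCoeff, Ideal.mem_span_singleton]
    norm_num
  · intro n hn
    rw [gz_natDegree] at hn
    rw [Ideal.mem_span_singleton, e]
    interval_cases n <;> simp [coeff_X, coeff_X_pow]
  · rw [e, Ideal.span_singleton_pow, Ideal.mem_span_singleton]
    simp [coeff_X, coeff_X_pow]

theorem gz_irreducible : Irreducible gz :=
  gz_eisenstein.irreducible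
    ((Ideal.span_singleton_prime (by norm_num)).mpr (by norm_num)) gz_monic.isPrimitive
    (by rw [gz_natDegree]; norm_num)

/-- The same polynomial over `ℚ`. -/
noncomputable def gq : ℚ[X] := gz.map (Int.castRingHom ℚ)

theorem gq_eq : gq = X ^ 3 + 7 * X ^ 2 + 14 * X + 7 := by
  unfold gq gz
  simp only [Polynomial.map_add, Polynomial.map_mul, Polynomial.map_pow, map_X]
  simp

theorem gq_natDegree : gq.natDegree = 3 := by
  rw [gq, gz_monic.natDegree_map, gz_natDegree]

theorem gq_monic : gq.Monic := gz_monic.map _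

theorem gq_irreducible : Irreducible gq :=
  (Polynomial.IsPrimitive.Int.irreducible_iff_irreducible_map_cast gz_monic.isPrimitive).mp
    gz_irreducible

instance instFactGq : Fact (Irreducible gq) := ⟨gq_irreducible⟩

/-- The cubic field `ℚ(ζ₇)⁺`. -/
def K : Type := AdjoinRoot gq

noncomputable instance instFieldK : Field K := inferInstanceAs (Field (AdjoinRoot gq))

/-- The identification of `K` with the quotient ring. -/
noncomputable def toAR : K ≃+* AdjoinRoot gq := RingEquiv.refl _

instance instCharZeroK : CharZero K :=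
  (RingHom.charZero_iff (toAR.symm.toRingHom.comp (AdjoinRoot.of gq)).injective).mp inferInstance

/-- The generator `β`. -/
noncomputable def β : K := toAR.symm (AdjoinRoot.root gq)

/-- The identification as `ℚ`-algebras. -/
noncomputable def toARalg : @AlgEquiv ℚ K (AdjoinRoot gq) _ _
    (AdjoinRoot.instCommRing gq).toCommSemiring.toSemiring _ (AdjoinRoot.instAlgebra gq) :=
  @AlgEquiv.ofRingEquiv ℚ K (AdjoinRoot gq) _ _
    (AdjoinRoot.instCommRing gq).toCommSemiring.toSemiring _ (AdjoinRoot.instAlgebra gq) toAR (by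
    intro x
    exact RingHom.congr_fun (RingHom.ext_rat (toAR.toRingHom.comp (algebraMap ℚ K))
      (AdjoinRoot.of gq)) x)

/-- The power basis `1, β, β²`. -/
noncomputable def pb : PowerBasis ℚ K :=
  (AdjoinRoot.powerBasis gq_irreducible.ne_zero).map toARalg.symm

theorem pb_gen : pb.gen = β := by
  rw [pb, PowerBasis.map_gen, AdjoinRoot.powerBasis_gen]
  rfl

theorem pb_dim : pb.dim = 3 := by
  rw [pb, PowerBasis.map_dim, AdjoinRoot.powerBasis_dim, gq_natDegree]

instance instFinDimK : FiniteDimensional ℚ K := pb.finite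

instance instNumberFieldK : NumberField K where

theorem finrank_K : Module.finrank ℚ K = 3 := by
  rw [pb.finrank, pb_dim]

theorem aeval_β : aeval β gq = 0 := by
  have h := RingHom.ext_rat (toAR.toRingHom.comp (algebraMap ℚ K)) (AdjoinRoot.of gq)
  have h2 : toAR β = AdjoinRoot.root gq := rfl
  apply toAR.injective
  rw [map_zero, aeval_def]
  change toAR.toRingHom (eval₂ (algebraMap ℚ K) β gq) = 0
  rw [Polynomial.hom_eval₂, h]
  change eval₂ (AdjoinRoot.of gq) (AdjoinRoot.root gq) gq = 0
  exact AdjoinRoot.eval₂_root gq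

theorem β_root : β ^ 3 + 7 * β ^ 2 + 14 * β + 7 = 0 := by
  have h : eval₂ (algebraMap ℚ K) β (X ^ 3 + 7 * X ^ 2 + 14 * X + 7 : ℚ[X]) = 0 := by
    rw [← gq_eq]; exact aeval_β
  simpa [eval₂_add, eval₂_mul, eval₂_pow] using h

theorem β_integral : IsIntegral ℤ β := by
  refine ⟨gz, gz_monic, ?_⟩
  have h := β_root
  unfold gz
  simpa [eval₂_add, eval₂_mul, eval₂_pow] using h

theorem minpoly_rat : minpoly ℚ β = gq :=
  (minpoly.eq_of_irreducible_of_monic gq_irreducible aeval_β gq_monic).symm

theorem minpoly_int : minpoly ℤ β = gz := by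
  have h := minpoly.isIntegrallyClosed_eq_field_fractions' ℚ β_integral
  rw [minpoly_rat] at h
  have h2 : Function.Injective (Polynomial.map (algebraMap ℤ ℚ)) :=
    Polynomial.map_injective _ (algebraMap ℤ ℚ).injective_int
  apply h2
  rw [← h, gq]
  rfl

end Pool.Agent.Helper88.BD
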