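import Mathlib
import Pool.Agent.Helper88.BD.Field

/-!
MP_bd232a_nt: the three real roots of `X³ + 7X² + 14X + 7` and the three real embeddings.
-/

open Polynomial NumberField

namespace Pool.Agent.Helper88.BD

/-- The three real roots `-4 sin²(π(j+1)/7)`, `j = 0, 1, 2`. -/
noncomputable def rt (j : Fin 3) : ℝ := -4 * Real.sin (Real.pi * ((j : ℕ) + 1) / 7) ^ 2

theorem sin_seven (x : ℝ) : Real.sin (7 * x) = Real.sin x *
    ((-4 * Real.sin x ^ 2) ^ 3 + 7 * (-4 * Real.sin x ^ 2) ^ 2 + 14 * (-4 * Real.sin x ^ 2) + 7) := by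
  have h3 := Real.sin_three_mul x
  have c3 := Real.cos_three_mul x
  have e6 : Real.sin (7 * x) = Real.sin (2 * (3 * x) + x) := by ring_nf
  have hc : Real.cos x ^ 2 = 1 - Real.sin x ^ 2 := Real.cos_sq' x
  rw [e6, Real.sin_add, Real.sin_two_mul, Real.cos_two_mul', h3, c3]
  have : ∀ s c : ℝ, c ^ 2 = 1 - s ^ 2 →
      2 * (3 * s - 4 * s ^ 3) * (4 * c ^ 3 - 3 * c) * c +
        ((4 * c ^ 3 - 3 * c) ^ 2 - (3 * s - 4 * s ^ 3) ^ 2) * s =
      s * ((-4 * s ^ 2) ^ 3 + 7 * (-4 * s ^ 2) ^ 2 + 14 * (-4 * s ^ 2) + 7) := by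
    intro s c h
    have h4 : c ^ 4 = (1 - s ^ 2) ^ 2 := by rw [← h]; ring
    have h6 : c ^ 6 = (1 - s ^ 2) ^ 3 := by rw [← h]; ring
    have : 2 * (3 * s - 4 * s ^ 3) * (4 * c ^ 3 - 3 * c) * c +
        ((4 * c ^ 3 - 3 * c) ^ 2 - (3 * s - 4 * s ^ 3) ^ 2) * s =
        2 * (3 * s - 4 * s ^ 3) * (4 * c ^ 4 - 3 * c ^ 2) +
        ((16 * c ^ 6 - 24 * c ^ 4 + 9 * c ^ 2) - (3 * s - 4 * s ^ 3) ^ 2) * s := by ring
    rw [this, h6, h4, h]
    ring
  exact this _ _ hc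

theorem sin_pos_j (j : Fin 3) : 0 < Real.sin (Real.pi * ((j : ℕ) + 1) / 7) := by
  have hj : ((j : ℕ) : ℝ) ≤ 2 := by
    have := j.isLt
    exact_mod_cast (by omega : (j : ℕ) ≤ 2)
  have hj0 : (0 : ℝ) ≤ ((j : ℕ) : ℝ) := by positivity
  apply Real.sin_pos_of_pos_of_lt_pi
  · have := Real.pi_pos
    positivity
  · have := Real.pi_pos
    nlinarith

theorem rt_root (j : Fin 3) : rt j ^ 3 + 7 * rt j ^ 2 + 14 * rt j + 7 = 0 := by
  have h := sin_seven (Real.pi * ((j : ℕ) + 1) / 7)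
  have h0 : Real.sin (7 * (Real.pi * ((j : ℕ) + 1) / 7)) = 0 := by
    rw [show 7 * (Real.pi * (((j : ℕ) : ℝ) + 1) / 7) = (((j : ℕ) + 1 : ℕ) : ℝ) * Real.pi by
      push_cast; ring]
    exact Real.sin_nat_mul_pi _
  rw [h0] at h
  have := (mul_eq_zero.mp h.symm).resolve_left (sin_pos_j j).ne'
  exact this

theorem rt_strictAnti : StrictAnti rt := by
  intro i j hij
  have hj : ((j : ℕ) : ℝ) ≤ 2 := by
    have := j.isLt
    exact_mod_cast (by omega : (j : ℕ) ≤ 2)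
  have hi0 : (0 : ℝ) ≤ ((i : ℕ) : ℝ) := by positivity
  have hlt : ((i : ℕ) : ℝ) < ((j : ℕ) : ℝ) := by exact_mod_cast hij
  have hs : Real.sin (Real.pi * ((i : ℕ) + 1) / 7) < Real.sin (Real.pi * ((j : ℕ) + 1) / 7) := by
    have := Real.pi_pos
    apply Real.sin_lt_sin_of_lt_of_le_pi_div_two
    · have : 0 ≤ Real.pi * (((i : ℕ) : ℝ) + 1) / 7 := by positivity
      linarith
    · nlinarith
    · nlinarith
  have h0 := sin_pos_j i
  unfold rt
  nlinarith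

theorem rt_injective : Function.Injective rt := rt_strictAnti.injective

theorem rt_elem : (rt 0 + rt 1 + rt 2 = -7) ∧ (rt 0 * rt 1 + rt 0 * rt 2 + rt 1 * rt 2 = 14) ∧
    (rt 0 * rt 1 * rt 2 = -7) := by
  have h01 : rt 0 - rt 1 ≠ 0 := sub_ne_zero.mpr (rt_injective.ne (by decide))
  have h02 : rt 0 - rt 2 ≠ 0 := sub_ne_zero.mpr (rt_injective.ne (by decide))
  have h12 : rt 1 - rt 2 ≠ 0 := sub_ne_zero.mpr (rt_injective.ne (by decide))
  have r0 := rt_root 0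
  have r1 := rt_root 1
  have r2 := rt_root 2
  generalize rt 0 = a at *
  generalize rt 1 = b at *
  generalize rt 2 = c at *
  have e1 : a ^ 2 + a * b + b ^ 2 + 7 * (a + b) + 14 = 0 := by
    apply mul_left_cancel₀ h01
    linear_combination r0 - r1
  have e2 : a ^ 2 + a * c + c ^ 2 + 7 * (a + c) + 14 = 0 := by
    apply mul_left_cancel₀ h02
    linear_combination r0 - r2
  have e3 : a + b + c + 7 = 0 := by
    apply mul_left_cancel₀ h12
    linear_combination e1 - e2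
  have hs : a + b + c = -7 := by linarith
  have h2 : a * b + a * c + b * c = 14 := by
    have : c = -7 - a - b := by linarith
    subst this
    linear_combination -e1
  refine ⟨hs, h2, ?_⟩
  · have : c = -7 - a - b := by linarith
    subst this
    linear_combination r0 - a * e1

/-- The three real embeddings of `K`. -/
noncomputable def φ (j : Fin 3) : K →+* ℝ :=
  (AdjoinRoot.lift (algebraMap ℚ ℝ) (rt j) (by
    rw [gq_eq]
    simpa [eval₂_add, eval₂_mul, eval₂_pow] using rt_root j)).comp toAR.toRingHom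

theorem φ_β (j : Fin 3) : φ j β = rt j := by
  have h : gq.eval₂ (algebraMap ℚ ℝ) (rt j) = 0 := by
    rw [gq_eq]
    simpa [eval₂_add, eval₂_mul, eval₂_pow] using rt_root j
  exact AdjoinRoot.lift_root (i := algebraMap ℚ ℝ) h

/-- The embedding `ℤ³ = ℤ + ℤβ + ℤβ² → ℝ³`. -/
noncomputable def emb (m : Fin 3 → ℤ) (j : Fin 3) : ℝ := m 0 + m 1 * rt j + m 2 * rt j ^ 2

/-- The norm form. -/
def nrm (m : Fin 3 → ℤ) : ℤ :=
  m 0 ^ 3 - 7 * m 0 ^ 2 * m 1 + 21 * m 0 ^ 2 * m 2 + 14 * m 0 * m 1 ^ 2 - 77 * m 0 * m 1 * m 2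
    + 98 * m 0 * m 2 ^ 2 - 7 * m 1 ^ 3 + 49 * m 1 ^ 2 * m 2 - 98 * m 1 * m 2 ^ 2 + 49 * m 2 ^ 3

theorem prod_emb (m : Fin 3 → ℤ) : ∏ j, emb m j = (nrm m : ℝ) := by
  obtain ⟨h1, h2, h3⟩ := rt_elem
  rw [Fin.prod_univ_three]
  unfold emb nrm
  push_cast
  generalize rt 0 = a at *
  generalize rt 1 = b at *
  generalize rt 2 = c at *
  have key : (m 0 + m 1 * a + m 2 * a ^ 2 : ℝ) * (m 0 + m 1 * b + m 2 * b ^ 2) *
      (m 0 + m 1 * c + m 2 * c ^ 2) =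
      (m 0 : ℝ) ^ 3 + (m 0 : ℝ) ^ 2 * m 1 * (a + b + c) +
      (m 0 : ℝ) ^ 2 * m 2 * ((a + b + c) ^ 2 - 2 * (a * b + a * c + b * c)) +
      (m 0 : ℝ) * m 1 ^ 2 * (a * b + a * c + b * c) +
      (m 0 : ℝ) * m 1 * m 2 * ((a + b + c) * (a * b + a * c + b * c) - 3 * (a * b * c)) +
      (m 0 : ℝ) * m 2 ^ 2 * ((a * b + a * c + b * c) ^ 2 - 2 * (a + b + c) * (a * b * c)) +
      (m 1 : ℝ) ^ 3 * (a * b * c) + (m 1 : ℝ) ^ 2 * m 2 * ((a * b * c) * (a + b + c)) +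
      (m 1 : ℝ) * m 2 ^ 2 * ((a * b * c) * (a * b + a * c + b * c)) +
      (m 2 : ℝ) ^ 3 * (a * b * c) ^ 2 := by ring
  rw [key, h1, h2, h3]
  ring

end Pool.Agent.Helper88.BD
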