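import Mathlib
import Pool.Agent.Helper19.BD.Defs
import Pool.Agent.Helper88.BD.Roots

/-!
MP_bd232a_nt, parts N (arithmetic) and A (analysis): definitions.
`K = ℚ(ζ₇)⁺`, `𝓞 K = ℤ + ℤβ + ℤβ²`, `φ j` the three real embeddings, `ε` fundamental units, `L i j = log |φ_j(ε_i)|`.
-/

open Polynomial NumberField MeasureTheory Set
open scoped ComplexConjugate

namespace Pool.Agent.Helper88.BD

/-! ### Arithmetic -/

/-- `β` as an algebraic integer. -/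
noncomputable def βi : 𝓞 K := ⟨β, β_integral⟩

/-- `m ↦ m₀ + m₁β + m₂β²`; it is a bijection `ℤ³ → 𝓞 K` (block N3). -/
noncomputable def ofC (m : Fin 3 → ℤ) : 𝓞 K := (m 0 : 𝓞 K) + (m 1 : 𝓞 K) * βi + (m 2 : 𝓞 K) * βi ^ 2

theorem φ_ofC (m : Fin 3 → ℤ) (j : Fin 3) : φ j ((ofC m : 𝓞 K) : K) = emb m j := by
  have hb : algebraMap (𝓞 K) K βi = β := rfl
  have h : ((ofC m : 𝓞 K) : K) = (m 0 : K) + (m 1 : K) * β + (m 2 : K) * β ^ 2 := by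
    change algebraMap (𝓞 K) K _ = _
    rw [ofC, map_add, map_add, map_mul, map_mul, map_pow, hb, map_intCast, map_intCast, map_intCast]
  rw [h]
  simp [φ_β, emb]

/-- `M ε` has rows `(1,1,1)`, `(log |φ_j(ε_0)|)_j`, `(log |φ_j(ε_1)|)_j`. -/
noncomputable def unitMat (ε : Fin 2 → (𝓞 K)ˣ) : Matrix (Fin 3) (Fin 3) ℝ :=
  ![fun _ => 1, fun j => Real.log |φ j ((ε 0 : 𝓞 K) : K)|, fun j => Real.log |φ j ((ε 1 : 𝓞 K) : K)|]

/-- `ε` is a system of fundamental units. -/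
def IsFund (ε : Fin 2 → (𝓞 K)ˣ) : Prop :=
  (∀ u : (𝓞 K)ˣ, ∃! p : ℤˣ × (Fin 2 → ℤ),
    (u : 𝓞 K) = (((p.1 : ℤˣ) : ℤ) : 𝓞 K) * ((∏ i, ε i ^ p.2 i : (𝓞 K)ˣ) : 𝓞 K)) ∧
  (unitMat ε).det ≠ 0

/-- The chosen fundamental units. -/
noncomputable def ε : Fin 2 → (𝓞 K)ˣ := Classical.epsilon IsFund

/-- Logarithms of the fundamental units. -/
noncomputable def L (i : Fin 2) (j : Fin 3) : ℝ := Real.log |φ j ((ε i : 𝓞 K) : K)|

/-- The matrix with rows `(1,1,1)`, `L 0`, `L 1`. -/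
noncomputable def LM : Matrix (Fin 3) (Fin 3) ℝ := ![fun _ => 1, L 0, L 1]

/-- A chosen generator of an ideal (all ideals are principal, block N4). -/
noncomputable def gen (I : Ideal (𝓞 K)) : 𝓞 K := Classical.epsilon (fun g => Ideal.span {g} = I)

/-- The absolute values of the conjugates of the generator. -/
noncomputable def ga (I : Ideal (𝓞 K)) (j : Fin 3) : ℝ := |φ j ((gen I : 𝓞 K) : K)|

/-- `χ_ν(x) = ∏ |x_j|^{i ν_j}`. -/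
noncomputable def chi (ν x : Fin 3 → ℝ) : ℂ :=
  Complex.exp (((∑ j, ν j * Real.log |x j| : ℝ) : ℂ) * Complex.I)

/-- Infinity types of unramified Groessencharacters. -/
def IsNu (ν : Fin 3 → ℝ) : Prop :=
  ∑ j, ν j = 0 ∧ ∀ i, ∃ k : ℤ, ∑ j, ν j * L i j = 2 * Real.pi * k

/-- Nonzero ideals. -/
abbrev NI : Type := {I : Ideal (𝓞 K) // I ≠ ⊥}

/-- The Dirichlet coefficients `a_n = ∑_{N I = n} χ_ν(I)`. -/
noncomputable def coef (ν : Fin 3 → ℝ) (n : ℕ) : ℂ :=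
  ∑' I : {I : Ideal (𝓞 K) // I ≠ ⊥ ∧ Ideal.absNorm I = n}, chi ν (ga I.1)

/-- Coefficients of the logarithm: `b_n = ∑_{N P^k = n} χ_ν(P)^k / k`. -/
noncomputable def bco (ν : Fin 3 → ℝ) (n : ℕ) : ℂ :=
  ∑' p : {p : Ideal (𝓞 K) × ℕ // p.1.IsPrime ∧ p.1 ≠ ⊥ ∧ 1 ≤ p.2 ∧ Ideal.absNorm p.1 ^ p.2 = n},
    chi ν (ga p.1.1) ^ p.1.2 / (p.1.2 : ℂ)

/-- Unit coordinates: `log |x_j| = a + ∑_i (bc x i) L_i j`. -/
noncomputable def bc (x : Fin 3 → ℝ) (i : Fin 2) : ℝ :=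
  (LM.transpose⁻¹.mulVec (fun j => Real.log |x j|)) i.succ

/-! ### Analysis -/

/-- The symmetric unit square. -/
def Dm : Set (Fin 2 → ℝ) := Set.Icc (fun _ => -(1 / 2)) (fun _ => 1 / 2)

/-- Norm-one directions and radius. -/
noncomputable def tt (τ : ℝ) (y : Fin 2 → ℝ) (j : Fin 3) : ℝ :=
  τ * Real.exp (2 * ∑ i, y i * L i j)

/-- Gaussian terms. -/
noncomputable def gau (c t : Fin 3 → ℝ) (m : Fin 3 → ℤ) : ℝ :=
  Real.exp (-Real.pi * ∑ j, t j * c j * emb m j ^ 2)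

/-- Theta function with weights. -/
noncomputable def Th (W : (Fin 3 → ℤ) → ℂ) (c t : Fin 3 → ℝ) : ℂ :=
  ∑' m : Fin 3 → ℤ, W m * (gau c t m : ℂ)

/-- Character of the torus of units. -/
noncomputable def ch (ν : Fin 3 → ℝ) (y : Fin 2 → ℝ) : ℂ :=
  Complex.exp (-(((∑ j, ν j * ∑ i, y i * L i j : ℝ) : ℂ) * Complex.I))

/-- The one-variable theta function. -/
noncomputable def fW (ν : Fin 3 → ℝ) (W : (Fin 3 → ℤ) → ℂ) (c : Fin 3 → ℝ) (τ : ℝ) : ℂ :=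
  ∫ y in Dm, Th W c (tt τ y) * ch ν y

/-- The different `δ = g'(β)`. -/
noncomputable def δ (j : Fin 3) : ℝ := 3 * rt j ^ 2 + 14 * rt j + 14

/-- The pairing `tr(x y / δ)` in coordinates. -/
def pair (n r : Fin 3 → ℤ) : ℤ :=
  n 0 * r 2 + n 1 * r 1 + n 2 * r 0 - 7 * (n 1 * r 2 + n 2 * r 1) + 35 * (n 2 * r 2)

/-- Dual weights. -/
noncomputable def Wh (M : ℕ) (W : (Fin 3 → ℤ) → ℂ) (n : Fin 3 → ℤ) : ℂ :=
  ∑ r : Fin 3 → Fin M, W (fun i => ((r i : ℕ) : ℤ)) *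
    Complex.exp (2 * Real.pi * Complex.I * (pair n (fun i => ((r i : ℕ) : ℤ)) : ℂ) / (M : ℂ))

/-- Dual scaling. -/
noncomputable def cd (M : ℕ) (j : Fin 3) : ℝ := 1 / ((M : ℝ) ^ 2 * δ j ^ 2)

/-- The norm weight attached to a function on `ℤ/M`. -/
def nw {M : ℕ} (w : ZMod M → ℂ) (m : Fin 3 → ℤ) : ℂ := w (nrm m : ZMod M)

/-- The gamma factor `∏ Γ_ℝ(s - i ν_j)`. -/
noncomputable def gam (ν : Fin 3 → ℝ) (s : ℂ) : ℂ :=
  ∏ j, Complex.Gammaℝ (s - (ν j : ℂ) * Complex.I)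

/-- The Hecke `L`-function, twisted by the weight `w` on norms, as an entire function (for `ν ≠ 0`). -/
noncomputable def Fw (ν : Fin 3 → ℝ) {M : ℕ} (w : ZMod M → ℂ) (s : ℂ) : ℂ :=
  2 * |LM.det| * (gam ν s)⁻¹ * mellin (fW ν (nw w) 1) (3 * s / 2)

/-- The Hecke `L`-function. -/
noncomputable def F (ν : Fin 3 → ℝ) (s : ℂ) : ℂ := Fw (M := 1) ν (fun _ => 1) s

/-- The functional equation data of `F ν`: `Q = 7 π^{-3/2}`, `λ_j = 1/2`, `μ_j = -i ν_j / 2`,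
`ω = ∏ |δ_j|^{i ν_j}`. -/
noncomputable def FEdata (ν : Fin 3 → ℝ) : Helper19.BD.FE where
  Q := 7 * Real.pi ^ (-(3 / 2) : ℝ)
  k := 3
  lam := fun _ => 1 / 2
  mu := fun j => -((ν j : ℂ) * Complex.I) / 2
  om := chi ν δ
  hQ := by positivity
  hlam := fun _ => by norm_num
  hmu := fun j => by simp
  hom := by
    unfold chi
    rw [Complex.norm_exp_ofReal_mul_I]

end Pool.Agent.Helper88.BD
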