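import Mathlib
import Pool.Agent.Helper88.BD.Defs
import Pool.Agent.Helper52.Circle.Poisson

/-!
MP_bd232a_nt, block A2P. Poisson summation on ℤ^d for functions of fast decay.
Proof idea: copy the proof of Helper52.Circle.poisson (280 lines, lemmas integral_unfold, chr_add_int, ... reusable as they are): the
periodization per f is continuous because the sum converges locally uniformly (|f(y+v)| ≤ C ∏ (1+(y_i+v_i)²)^{-1} ≤ C' ∏ (1+v_i²)^{-1} for bounded y).
(helper77)
-/

open Polynomial NumberField MeasureTheory Set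
open scoped ComplexConjugate

namespace Pool.Agent.Helper88.BD

namespace PDecay

open Helper52.Circle

variable {d : Type} [Fintype d]

theorem summable_pi {g : ℤ → ℝ} (hg : ∀ n, 0 ≤ g n) (hs : Summable g) :
    Summable (fun v : d → ℤ => ∏ i, g (v i)) := by
  classical
  refine summable_of_sum_le (c := ∏ _i : d, ∑' n, g n) (fun v => Finset.prod_nonneg fun i _ => hg _) fun s => ?_
  have h1 : s ⊆ Fintype.piFinset (fun i : d => s.image (fun v => v i)) := by
    intro v hv
    rw [Fintype.mem_piFinset]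
    intro i
    exact Finset.mem_image_of_mem _ hv
  calc ∑ v ∈ s, ∏ i, g (v i) ≤ ∑ v ∈ Fintype.piFinset (fun i : d => s.image (fun v => v i)), ∏ i, g (v i) :=
        Finset.sum_le_sum_of_subset_of_nonneg h1 (fun v _ _ => Finset.prod_nonneg fun i _ => hg _)
    _ = ∏ i : d, ∑ n ∈ s.image (fun v => v i), g n := (Finset.prod_univ_sum _ _).symm
    _ ≤ ∏ _i : d, ∑' n, g n := by
        refine Finset.prod_le_prod (fun i _ => Finset.sum_nonneg fun n _ => hg n) fun i _ => ?_
        exact hs.sum_le_tsum _ (fun n _ => hg n)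

theorem summable_inv_sq : Summable (fun n : ℤ => (1 + (n : ℝ) ^ 2)⁻¹) := by
  have h : Summable (fun n : ℤ => 1 / (n : ℝ) ^ 2) := Real.summable_one_div_int_pow.2 (by norm_num)
  refine (Summable.of_norm_bounded_eventually (g := fun n : ℤ => 1 / (n : ℝ) ^ 2) h ?_)
  rw [Filter.eventually_cofinite]
  refine (Set.finite_singleton (0 : ℤ)).subset fun n hn => ?_
  by_contra h0
  apply hn
  have hn0 : (n : ℝ) ≠ 0 := Int.cast_ne_zero.2 h0
  rw [Real.norm_of_nonneg (by positivity), one_div]
  gcongr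
  linarith

theorem shift_bound (y v : ℝ) : (1 + (y + v) ^ 2)⁻¹ ≤ 2 * (1 + y ^ 2) * (1 + v ^ 2)⁻¹ := by
  rw [← div_eq_mul_inv, inv_eq_one_div, div_le_div_iff₀ (by positivity) (by positivity)]
  nlinarith [mul_nonneg (sq_nonneg y) (sq_nonneg (y + v)), sq_nonneg (2 * y + v)]

theorem C_nonneg {f : (d → ℝ) → ℂ} {C : ℝ} (hC : ∀ y, ‖f y‖ ≤ C * ∏ i, (1 + y i ^ 2)⁻¹) : 0 ≤ C := by
  have := (norm_nonneg _).trans (hC 0)
  simpa using this

theorem per_cont (f : (d → ℝ) → ℂ) (hf : Continuous f) {C : ℝ}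
    (hC : ∀ y, ‖f y‖ ≤ C * ∏ i, (1 + y i ^ 2)⁻¹) : Continuous (per f) := by
  have hC0 := C_nonneg hC
  rw [continuous_iff_continuousAt]
  intro y₀
  have hsum := summable_pi (d := d) (g := fun n : ℤ => (1 + (n : ℝ) ^ 2)⁻¹) (fun n => by positivity) summable_inv_sq
  have hon : ContinuousOn (per f) (Metric.ball y₀ 1) := by
    unfold per
    refine continuousOn_tsum (u := fun v : d → ℤ => C * (∏ _i : d, 2 * (1 + (1 + ‖y₀‖) ^ 2)) * ∏ i, (1 + (v i : ℝ) ^ 2)⁻¹) ?_ ?_ ?_
    · intro v
      exact (hf.comp (continuous_id.add continuous_const)).continuousOn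
    · exact hsum.mul_left _
    · intro v y hy
      have hy1 : ‖y‖ ≤ 1 + ‖y₀‖ := by
        have h2 : ‖y - y₀‖ < 1 := by simpa [dist_eq_norm] using hy
        have h3 := norm_sub_norm_le y y₀
        linarith
      refine (hC _).trans ?_
      rw [mul_assoc, ← Finset.prod_mul_distrib]
      refine mul_le_mul_of_nonneg_left ?_ hC0
      refine Finset.prod_le_prod (fun i _ => by positivity) fun i _ => ?_
      have h4 : y i ^ 2 ≤ (1 + ‖y₀‖) ^ 2 := by
        rw [← sq_abs]
        exact pow_le_pow_left₀ (abs_nonneg _) ((norm_le_pi_norm y i).trans hy1) 2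
      calc (1 + (y + toR v) i ^ 2)⁻¹ ≤ 2 * (1 + y i ^ 2) * (1 + (v i : ℝ) ^ 2)⁻¹ := shift_bound (y i) (v i)
        _ ≤ 2 * (1 + (1 + ‖y₀‖) ^ 2) * (1 + (v i : ℝ) ^ 2)⁻¹ := by gcongr
  exact hon.continuousAt (Metric.ball_mem_nhds y₀ one_pos)

theorem f_int (f : (d → ℝ) → ℂ) (hf : Continuous f) {C : ℝ}
    (hC : ∀ y, ‖f y‖ ≤ C * ∏ i, (1 + y i ^ 2)⁻¹) : Integrable f := by
  have h1 : Integrable (fun y : d → ℝ => C * ∏ i, (1 + y i ^ 2)⁻¹) := by
    refine Integrable.const_mul ?_ C
    exact Integrable.fintype_prod (f := fun (_ : d) (t : ℝ) => (1 + t ^ 2)⁻¹) (fun _ => integrable_inv_one_add_sq)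
  exact h1.mono' hf.aestronglyMeasurable (Filter.Eventually.of_forall hC)

end PDecay

open PDecay Helper52.Circle UnitAddTorus in
theorem poisson_decay {d : Type} [Fintype d] (f : (d → ℝ) → ℂ) (hf : Continuous f) {C : ℝ}
    (hC : ∀ y, ‖f y‖ ≤ C * ∏ i, (1 + y i ^ 2)⁻¹)
    (hs : Summable (fun k : d → ℤ => ∫ y, Helper52.Circle.chr k y * f y)) :
    HasSum (fun k : d → ℤ => ∫ y, Helper52.Circle.chr k y * f y) (∑' v : d → ℤ, f (Helper52.Circle.toR v)) := by
  have hfi := f_int f hf hC
  have hnorm : ∀ (k : d → ℤ) (y : d → ℝ), ‖chr k y‖ = 1 := by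
    intro k y
    rw [chr_eq]
    have : -(2 * Real.pi * Complex.I * ∑ i, (k i : ℂ) * (y i : ℂ)) =
        ((-(2 * Real.pi * ∑ i, (k i : ℝ) * y i) : ℝ) : ℂ) * Complex.I := by
      push_cast
      ring
    rw [this, Complex.norm_exp_ofReal_mul_I]
  have hint : ∀ k : d → ℤ, Integrable (fun y => chr k y * f y) := by
    intro k
    exact hfi.bdd_mul (c := 1) (continuous_chr k).aestronglyMeasurable (Filter.Eventually.of_forall fun y => (hnorm k y).le)
  have hcont : Continuous (perT f) := by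
    rw [isOpenQuotientMap_proj.isQuotientMap.continuous_iff]
    have : perT f ∘ proj = per f := by
      funext y
      exact perT_proj f y
    rw [this]
    exact per_cont f hf hC
  let F : C(UnitAddTorus d, ℂ) := ⟨perT f, hcont⟩
  have hcoef : ∀ k : d → ℤ, mFourierCoeff F k = ∫ y, chr k y * f y := by
    intro k
    rw [mFourierCoeff_eq_integral (F) k (fun _ => 0), ← integral_unfold _ (hint k)]
    have hset : {x : d → ℝ | ∀ (i : d), x i ∈ Ioc (0:ℝ) (0 + 1)} = box (0 : d → ℤ) := by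
      ext x
      simp [box]
    rw [hset]
    apply integral_congr_ae
    filter_upwards with x
    have h1 : F (fun i => (x i : UnitAddCircle)) = per f x := perT_proj f x
    rw [h1]
    simp_rw [chr_add_int]
    rw [tsum_mul_left]
    rfl
  have h0 := hasSum_mFourier_series_apply_of_summable (f := F) (by
    rw [funext hcoef]
    exact hs) (proj 0)
  have h1 : F (proj 0) = ∑' v : d → ℤ, f (toR v) := by
    change perT f (proj 0) = _
    rw [perT_proj]
    unfold per
    simp
  rw [h1] at h0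
  convert h0 using 2 with k
  rw [hcoef k]
  have : mFourier k (proj (0 : d → ℝ)) = 1 := by
    simp [mFourier, proj]
  rw [this, smul_eq_mul, mul_one]

end Pool.Agent.Helper88.BD
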