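import Mathlib
import Pool.Agent.Helper88.BD.Defs

/-!
MP_bd232a_nt, block N8p. At most 3 primes above p, and at most (k+1)³ ideals of norm p^k.
Proof idea: `Ideal.sum_ramification_inertia` (Σ e f = 3) gives at most 3 primes above p; an ideal of norm p^k is a product of powers P^a, a ≤ k,
of primes above p.
-/

open Polynomial NumberField MeasureTheory Set
open scoped ComplexConjugate

namespace Pool.Agent.Helper88.BD

set_option linter.deprecated false in
theorem primes_subset {p : ℕ} (hp : p.Prime) :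
    ∃ S : Finset (Ideal (𝓞 K)), S.card ≤ 3 ∧
      ∀ P : Ideal (𝓞 K), P.IsPrime → (p : 𝓞 K) ∈ P → P ∈ S := by
  have hpz : Prime (p : ℤ) := Nat.prime_iff_prime_int.1 hp
  have hne : Ideal.span {(p : ℤ)} ≠ ⊥ := by
    rw [Ne, Ideal.span_singleton_eq_bot]; exact hpz.ne_zero
  have hprime : (Ideal.span {(p : ℤ)}).IsPrime := (Ideal.span_singleton_prime hpz.ne_zero).2 hpz
  have hmax : (Ideal.span {(p : ℤ)}).IsMaximal := hprime.isMaximal hne
  refine ⟨IsDedekindDomain.primesOverFinset (Ideal.span {(p : ℤ)}) (𝓞 K), ?_, ?_⟩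
  · rw [← finrank_K]
    exact Ideal.card_primesOverFinset_le_finrank (S := 𝓞 K) ℚ K hne
  · intro P hP hpP
    rw [IsDedekindDomain.mem_primesOverFinset_iff hne]
    refine ⟨hP, ⟨?_⟩⟩
    refine hmax.eq_of_le ?_ ?_
    · have : (P.under ℤ).IsPrime := inferInstance
      exact this.ne_top
    · rw [Ideal.span_singleton_le_iff_mem, Ideal.under_def, Ideal.mem_comap]
      simpa using hpP

theorem primes_finite {p : ℕ} (hp : p.Prime) :
    Finite {P : Ideal (𝓞 K) // P.IsPrime ∧ (p : 𝓞 K) ∈ P} := by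
  obtain ⟨S, _, hS⟩ := primes_subset hp
  exact Finite.of_injective (fun P : {P : Ideal (𝓞 K) // P.IsPrime ∧ (p : 𝓞 K) ∈ P} =>
    (⟨P.1, hS P.1 P.2.1 P.2.2⟩ : S)) (fun P Q h => Subtype.ext (congrArg (fun x => x.1) h))

theorem card_primes {p : ℕ} (hp : p.Prime) :
    Nat.card {P : Ideal (𝓞 K) // P.IsPrime ∧ (p : 𝓞 K) ∈ P} ≤ 3 := by
  obtain ⟨S, hS3, hS⟩ := primes_subset hp
  refine le_trans (Nat.card_le_card_of_injective
    (fun P : {P : Ideal (𝓞 K) // P.IsPrime ∧ (p : 𝓞 K) ∈ P} =>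
      (⟨P.1, hS P.1 P.2.1 P.2.2⟩ : S)) (fun P Q h => Subtype.ext (congrArg (fun x => x.1) h))) ?_
  simpa using hS3

open UniqueFactorizationMonoid in
theorem card_prime_pow {p : ℕ} (hp : p.Prime) (k : ℕ) :
    Nat.card {I : Ideal (𝓞 K) // Ideal.absNorm I = p ^ k} ≤ (k + 1) ^ 3 := by
  classical
  have hfin := primes_finite hp
  have := Fintype.ofFinite {P : Ideal (𝓞 K) // P.IsPrime ∧ (p : 𝓞 K) ∈ P}
  -- the exponents are at most `k`
  have hcount : ∀ I : Ideal (𝓞 K), Ideal.absNorm I = p ^ k →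
      ∀ P : Ideal (𝓞 K), P.IsPrime → (p : 𝓞 K) ∈ P → (normalizedFactors I).count P < k + 1 := by
    intro I hI P hP hpP
    have hI0 : I ≠ ⊥ := by
      intro h
      rw [h, Ideal.absNorm_bot] at hI
      exact (pow_pos hp.pos k).ne hI
    set a := (normalizedFactors I).count P with ha
    have h1 : P ^ a ∣ I := by
      have h2 : Multiset.replicate a P ≤ normalizedFactors I :=
        Multiset.le_count_iff_replicate_le.1 le_rfl
      have h3 := Multiset.prod_dvd_prod_of_le h2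
      rwa [Multiset.prod_replicate, Ideal.prod_normalizedFactors_eq_self hI0] at h3
    have h4 : Ideal.absNorm P ^ a ∣ p ^ k := by
      rw [← hI, ← map_pow]
      exact map_dvd _ h1
    have h5 : Ideal.absNorm P ∣ p ^ 3 := by
      have h6 : Ideal.absNorm P ∣ Ideal.absNorm (Ideal.span {(p : 𝓞 K)}) :=
        Ideal.absNorm_dvd_absNorm_of_le ((Ideal.span_singleton_le_iff_mem _).2 hpP)
      rw [Ideal.absNorm_span_natCast, RingOfIntegers.rank, finrank_K] at h6
      exact h6
    have h7 : Ideal.absNorm P ≠ 1 := by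
      rw [Ne, Ideal.absNorm_eq_one_iff]; exact hP.ne_top
    obtain ⟨j, _, hj⟩ := (Nat.dvd_prime_pow hp).1 h5
    have hj0 : j ≠ 0 := by
      intro h; rw [h, pow_zero] at hj; exact h7 hj
    rw [hj, ← pow_mul] at h4
    have h8 := (Nat.pow_dvd_pow_iff_le_right hp.one_lt).1 h4
    have h9 : a ≤ j * a := Nat.le_mul_of_pos_left _ (Nat.pos_of_ne_zero hj0)
    omega
  let f : {I : Ideal (𝓞 K) // Ideal.absNorm I = p ^ k} →
      ({P : Ideal (𝓞 K) // P.IsPrime ∧ (p : 𝓞 K) ∈ P} → Fin (k + 1)) :=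
    fun I P => ⟨(normalizedFactors I.1).count P.1, hcount I.1 I.2 P.1 P.2.1 P.2.2⟩
  have hne : ∀ I : {I : Ideal (𝓞 K) // Ideal.absNorm I = p ^ k}, I.1 ≠ ⊥ := by
    intro I h
    have hI := I.2
    rw [h, Ideal.absNorm_bot] at hI
    exact (pow_pos hp.pos k).ne hI
  have hmem : ∀ I : {I : Ideal (𝓞 K) // Ideal.absNorm I = p ^ k}, ∀ Q ∈ normalizedFactors I.1,
      Q.IsPrime ∧ (p : 𝓞 K) ∈ Q := by
    intro I Q hQ
    have hQp := prime_of_normalized_factor Q hQ
    have hQP : Q.IsPrime := Ideal.isPrime_of_prime hQp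
    refine ⟨hQP, ?_⟩
    have h1 : I.1 ≤ Q := Ideal.le_of_dvd (dvd_of_mem_normalizedFactors hQ)
    have h2 : (Ideal.absNorm I.1 : 𝓞 K) ∈ I.1 := Ideal.absNorm_mem I.1
    rw [I.2, Nat.cast_pow] at h2
    exact hQP.mem_of_pow_mem k (h1 h2)
  have hinj : Function.Injective f := by
    intro I J hIJ
    have hcnt : normalizedFactors I.1 = normalizedFactors J.1 := by
      ext Q
      by_cases hQ : Q.IsPrime ∧ (p : 𝓞 K) ∈ Q
      · have := congrFun hIJ ⟨Q, hQ⟩
        exact congrArg Fin.val this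
      · rw [Multiset.count_eq_zero_of_notMem fun h => hQ (hmem I Q h),
          Multiset.count_eq_zero_of_notMem fun h => hQ (hmem J Q h)]
    apply Subtype.ext
    rw [← Ideal.prod_normalizedFactors_eq_self (hne I), ← Ideal.prod_normalizedFactors_eq_self (hne J), hcnt]
  refine le_trans (Nat.card_le_card_of_injective f hinj) ?_
  rw [Nat.card_fun, Nat.card_fin]
  exact Nat.pow_le_pow_right (by omega) (card_primes hp)

end Pool.Agent.Helper88.BD
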