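import Mathlib
import Pool.Agent.Helper88.BD.Defs
import Pool.Agent.Helper88.BD.CardPP

/-!
MP_bd232a_nt, block N9a. Coefficients of the logarithm. Proof idea: norm of a prime ideal is a power of the prime p below it; for n = p^j the pairs (P,k) with
N P^k = n are determined by P, P one of the ≤ 3 primes above p (card_primes), each term has modulus 1/k ≤ 1 (|chi| = 1).
-/

open Polynomial NumberField MeasureTheory Set
open scoped ComplexConjugate

namespace Pool.Agent.Helper88.BD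

namespace BcoAux

/-- The index type of `bco`. -/
abbrev BcoIdx (n : ℕ) : Type :=
  {p : Ideal (𝓞 K) × ℕ // p.1.IsPrime ∧ p.1 ≠ ⊥ ∧ 1 ≤ p.2 ∧ Ideal.absNorm p.1 ^ p.2 = n}

end BcoAux

open BcoAux in
theorem bco_eq_zero (ν : Fin 3 → ℝ) {n : ℕ} (hn : ¬ IsPrimePow n) : bco ν n = 0 := by
  unfold bco
  have : IsEmpty (BcoIdx n) := by
    constructor
    rintro ⟨⟨P, k⟩, hP, h0, hk, h⟩
    have hP' : P.IsPrime := hP
    have : P.IsMaximal := hP'.isMaximal h0
    obtain ⟨p, f, hf, -, hp, hN⟩ := Ideal.exists_prime_and_absNorm_eq_pow P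
    apply hn
    change Ideal.absNorm P ^ k = n at h
    change 1 ≤ k at hk
    rw [← h, hN, ← pow_mul]
    exact hp.isPrimePow.pow (Nat.mul_ne_zero hf.ne' (by omega))
  exact tsum_empty

namespace BcoAux

theorem norm_chi_bco (ν x : Fin 3 → ℝ) : ‖chi ν x‖ = 1 := by
  unfold chi
  exact Complex.norm_exp_ofReal_mul_I _

theorem finite_primes {p : ℕ} (hp : p.Prime) :
    Finite {P : Ideal (𝓞 K) // P.IsPrime ∧ (p : 𝓞 K) ∈ P} := by
  have h0 : Ideal.absNorm (Ideal.span {(p : 𝓞 K)}) ≠ 0 := by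
    rw [Ideal.absNorm_span_natCast]
    exact pow_ne_zero _ hp.ne_zero
  refine ((Ideal.finite_setOfPred_absNorm_le (S := 𝓞 K)
    (Ideal.absNorm (Ideal.span {(p : 𝓞 K)}))).subset ?_).to_subtype
  rintro P ⟨hP, hpP⟩
  exact Nat.le_of_dvd (Nat.pos_of_ne_zero h0) (Ideal.absNorm_dvd_absNorm_of_le
    ((Ideal.span_singleton_le_iff_mem P).mpr hpP))

end BcoAux

open BcoAux in
theorem bco_bound (ν : Fin 3 → ℝ) (n : ℕ) : ‖bco ν n‖ ≤ 3 := by
  by_cases hn : IsPrimePow n
  swap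
  · rw [bco_eq_zero ν hn, norm_zero]
    norm_num
  rw [isPrimePow_nat_iff] at hn
  obtain ⟨p, j, hp, hj, hpj⟩ := hn
  have key : ∀ q : BcoIdx n, (p : 𝓞 K) ∈ q.1.1 := by
    rintro ⟨⟨P, k⟩, hP, h0, hk, h⟩
    have hP' : P.IsPrime := hP
    have : P.IsMaximal := hP'.isMaximal h0
    obtain ⟨q, f, hf, hqP, hq, hN⟩ := Ideal.exists_prime_and_absNorm_eq_pow P
    change Ideal.absNorm P ^ k = n at h
    change 1 ≤ k at hk
    rw [hN, ← pow_mul, ← hpj] at h
    have h1 : q ∣ p ^ j := h ▸ dvd_pow_self q (Nat.mul_ne_zero hf.ne' (by omega))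
    have h2 : q = p := (Nat.prime_dvd_prime_iff_eq hq hp).mp (hq.dvd_of_dvd_pow h1)
    rw [← h2]
    exact hqP
  let g : BcoIdx n → {P : Ideal (𝓞 K) // P.IsPrime ∧ (p : 𝓞 K) ∈ P} :=
    fun q => ⟨q.1.1, q.2.1, key q⟩
  have hg : Function.Injective g := by
    rintro ⟨⟨P, k⟩, hP, h0, hk, h⟩ ⟨⟨P', k'⟩, hP2, h02, hk2, h2⟩ he
    have hPP : P = P' := congrArg Subtype.val he
    subst hPP
    have hN1 : 1 < Ideal.absNorm P := by
      have hP' : P.IsPrime := hP
      have : P.IsMaximal := hP'.isMaximal h0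
      obtain ⟨q, f, hf, hqP, hq, hN⟩ := Ideal.exists_prime_and_absNorm_eq_pow P
      rw [hN]
      exact Nat.one_lt_pow hf.ne' hq.one_lt
    have hkk : k = k' := Nat.pow_right_injective hN1 (h.trans h2.symm)
    subst hkk
    rfl
  have := finite_primes hp
  have : Finite (BcoIdx n) := Finite.of_injective g hg
  have := Fintype.ofFinite (BcoIdx n)
  have hcard : Fintype.card (BcoIdx n) ≤ 3 := by
    rw [← Nat.card_eq_fintype_card]
    exact (Nat.card_le_card_of_injective g hg).trans (card_primes hp)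
  unfold bco
  rw [tsum_fintype]
  refine (norm_sum_le _ _).trans ?_
  calc ∑ q : BcoIdx n, ‖chi ν (ga q.1.1) ^ q.1.2 / (q.1.2 : ℂ)‖ ≤ ∑ _q : BcoIdx n, (1 : ℝ) := by
        refine Finset.sum_le_sum fun q _ => ?_
        rw [norm_div, norm_pow, norm_chi_bco, one_pow, Complex.norm_natCast]
        have h1 : (1 : ℝ) ≤ (q.1.2 : ℝ) := by exact_mod_cast q.2.2.2.1
        rw [div_le_one (by linarith)]
        exact h1
    _ = (Fintype.card (BcoIdx n) : ℝ) := by simp
    _ ≤ 3 := by exact_mod_cast hcard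

end Pool.Agent.Helper88.BD
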