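import Mathlib
import Pool.Agent.Helper88.BD.Defs

/-!
MP_bd232a_nt, block N8m. Ideals of norm mn, gcd(m,n)=1, factor uniquely. Statement for the counting function (≤ is enough) .
Proof idea: I ↦ (I ⊔ (m), I ⊔ (n)); for I of norm mn one has mn ∈ I, (I ⊔ (m)) * (I ⊔ (n)) = I (coprime), norms are m and n
(norm of I ⊔ (m) divides mn and is coprime to n because it contains m, ...). Injective because I is recovered as the product.
-/

open Polynomial NumberField MeasureTheory Set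
open scoped ComplexConjugate

namespace Pool.Agent.Helper88.BD

/-- The product of `I ⊔ (m)` and `I ⊔ (n)`. -/
theorem sup_mul_sup {m n : ℕ} (h : Nat.Coprime m n) (I : Ideal (𝓞 K))
    (hI : ((m * n : ℕ) : 𝓞 K) ∈ I) :
    (I ⊔ Ideal.span {(m : 𝓞 K)}) * (I ⊔ Ideal.span {(n : 𝓞 K)}) = I := by
  apply le_antisymm
  · rw [Ideal.sup_mul, Ideal.mul_sup, Ideal.mul_sup]
    have hl : ∀ A B : Ideal (𝓞 K), A * B ≤ A := fun A B =>
      Ideal.mul_le.2 fun a ha b _ => Ideal.mul_mem_right b A ha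
    have hr : ∀ A B : Ideal (𝓞 K), A * B ≤ B := fun A B =>
      Ideal.mul_le.2 fun a _ b hb => Ideal.mul_mem_left B a hb
    refine sup_le (sup_le (hl _ _) (hl _ _)) (sup_le (hr _ _) ?_)
    rw [Ideal.span_singleton_mul_span_singleton, Ideal.span_singleton_le_iff_mem]
    rwa [Nat.cast_mul] at hI
  · have htop : Ideal.span {(m : 𝓞 K)} ⊔ Ideal.span {(n : 𝓞 K)} = ⊤ := by
      rw [Ideal.eq_top_iff_one]
      have hc : IsCoprime (m : 𝓞 K) (n : 𝓞 K) := by
        have := (Nat.isCoprime_iff_coprime.2 h).map (Int.castRingHom (𝓞 K))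
        simpa using this
      obtain ⟨a, b, hab⟩ := hc
      rw [← hab]
      exact Ideal.add_mem _
        (Ideal.mem_sup_left (Ideal.mul_mem_left _ _ (Ideal.mem_span_singleton_self _)))
        (Ideal.mem_sup_right (Ideal.mul_mem_left _ _ (Ideal.mem_span_singleton_self _)))
    calc I = I * (Ideal.span {(m : 𝓞 K)} ⊔ Ideal.span {(n : 𝓞 K)}) := by
          rw [htop, Ideal.mul_top]
      _ = I * Ideal.span {(m : 𝓞 K)} ⊔ I * Ideal.span {(n : 𝓞 K)} := Ideal.mul_sup _ _ _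
      _ ≤ _ := by
          refine sup_le ?_ ?_
          · rw [mul_comm I]
            exact Ideal.mul_mono le_sup_right le_sup_left
          · exact Ideal.mul_mono le_sup_left le_sup_right

theorem absNorm_sup_coprime {m n : ℕ} (h : Nat.Coprime m n) (I : Ideal (𝓞 K)) :
    Nat.Coprime (Ideal.absNorm (I ⊔ Ideal.span {(m : 𝓞 K)})) n := by
  have h1 : Ideal.absNorm (I ⊔ Ideal.span {(m : 𝓞 K)}) ∣ Ideal.absNorm (Ideal.span {(m : 𝓞 K)}) :=
    Ideal.absNorm_dvd_absNorm_of_le le_sup_right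
  rw [Ideal.absNorm_span_natCast] at h1
  exact Nat.Coprime.coprime_dvd_left h1 (Nat.Coprime.pow_left _ h)

theorem absNorm_sup {m n : ℕ} (hm : 1 ≤ m) (hn : 1 ≤ n) (h : Nat.Coprime m n)
    (I : Ideal (𝓞 K)) (hI : Ideal.absNorm I = m * n) :
    Ideal.absNorm (I ⊔ Ideal.span {(m : 𝓞 K)}) = m ∧
      Ideal.absNorm (I ⊔ Ideal.span {(n : 𝓞 K)}) = n := by
  have hmem : ((m * n : ℕ) : 𝓞 K) ∈ I := by
    rw [← hI]; exact Ideal.absNorm_mem I
  have hprod := congrArg Ideal.absNorm (sup_mul_sup h I hmem)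
  rw [map_mul, hI] at hprod
  have h1 := absNorm_sup_coprime h I
  have h2 := absNorm_sup_coprime h.symm I
  set a := Ideal.absNorm (I ⊔ Ideal.span {(m : 𝓞 K)})
  set b := Ideal.absNorm (I ⊔ Ideal.span {(n : 𝓞 K)})
  have ha : a ∣ m := h1.dvd_of_dvd_mul_right (hprod ▸ Dvd.intro _ rfl)
  have hb : b ∣ n := h2.dvd_of_dvd_mul_left (hprod ▸ Dvd.intro_left _ rfl)
  have hale := Nat.le_of_dvd hm ha
  have hble := Nat.le_of_dvd hn hb
  constructor
  · by_contra hne
    have hlt : a < m := lt_of_le_of_ne hale hne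
    have : a * b < m * n := lt_of_le_of_lt (Nat.mul_le_mul_left a hble)
      (Nat.mul_lt_mul_of_pos_right hlt hn)
    omega
  · by_contra hne
    have hlt : b < n := lt_of_le_of_ne hble hne
    have : a * b < m * n := lt_of_le_of_lt (Nat.mul_le_mul_right b hale)
      (Nat.mul_lt_mul_of_pos_left hlt hm)
    omega

theorem card_mul {m n : ℕ} (hm : 1 ≤ m) (hn : 1 ≤ n) (h : Nat.Coprime m n) :
    Nat.card {I : Ideal (𝓞 K) // Ideal.absNorm I = m * n} ≤
      Nat.card {I : Ideal (𝓞 K) // Ideal.absNorm I = m} * Nat.card {I : Ideal (𝓞 K) // Ideal.absNorm I = n} := by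
  have hfin : ∀ k : ℕ, 1 ≤ k → Finite {I : Ideal (𝓞 K) // Ideal.absNorm I = k} := fun k hk =>
    (Ideal.finite_setOfPred_absNorm_eq k).to_subtype
  have := hfin m hm
  have := hfin n hn
  rw [← Nat.card_prod]
  let f : {I : Ideal (𝓞 K) // Ideal.absNorm I = m * n} →
      {I : Ideal (𝓞 K) // Ideal.absNorm I = m} × {I : Ideal (𝓞 K) // Ideal.absNorm I = n} :=
    fun I => (⟨_, (absNorm_sup hm hn h I.1 I.2).1⟩, ⟨_, (absNorm_sup hm hn h I.1 I.2).2⟩)
  refine Nat.card_le_card_of_injective f ?_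
  intro I J hIJ
  have h1 : I.1 ⊔ Ideal.span {(m : 𝓞 K)} = J.1 ⊔ Ideal.span {(m : 𝓞 K)} :=
    congrArg (fun x => x.1.1) hIJ
  have h2 : I.1 ⊔ Ideal.span {(n : 𝓞 K)} = J.1 ⊔ Ideal.span {(n : 𝓞 K)} :=
    congrArg (fun x => x.2.1) hIJ
  have hmem : ∀ A : Ideal (𝓞 K), Ideal.absNorm A = m * n → ((m * n : ℕ) : 𝓞 K) ∈ A := by
    intro A hA
    rw [← hA]
    exact Ideal.absNorm_mem A
  apply Subtype.ext
  rw [← sup_mul_sup h I.1 (hmem _ I.2), ← sup_mul_sup h J.1 (hmem _ J.2), h1, h2]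

end Pool.Agent.Helper88.BD
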