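import Mathlib
import Pool.Agent.Helper88.BD.Defs

/-!
MP_bd232a_nt, block N2. The norm is the product of the three real embeddings: the product over all
embeddings `K →ₐ[ℚ] ℂ`, which are the three `φ j` followed by `ℝ → ℂ`.
-/

open Polynomial NumberField MeasureTheory Set
open scoped ComplexConjugate

namespace Pool.Agent.Helper88.BD

/-- The three real embeddings as `ℚ`-algebra maps to `ℂ`. -/
noncomputable def φC (j : Fin 3) : K →ₐ[ℚ] ℂ := (Complex.ofRealHom.comp (φ j)).toRatAlgHom

theorem φC_apply (j : Fin 3) (x : K) : φC j x = ((φ j x : ℝ) : ℂ) := rfl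

theorem φC_injective : Function.Injective φC := by
  intro i j hij
  have h : φC i β = φC j β := by rw [hij]
  rw [φC_apply, φC_apply, Complex.ofReal_inj, φ_β, φ_β] at h
  exact rt_injective h

theorem φC_bijective : Function.Bijective φC := by
  refine (Fintype.bijective_iff_injective_and_card φC).mpr ⟨φC_injective, ?_⟩
  rw [AlgHom.card, finrank_K, Fintype.card_fin]

theorem norm_eq_prod (x : K) : ((Algebra.norm ℚ x : ℚ) : ℝ) = ∏ j, φ j x := by
  have h := Algebra.norm_eq_prod_embeddings ℚ ℂ x
  have h2 : ∏ σ : K →ₐ[ℚ] ℂ, σ x = ∏ j, (((φ j x : ℝ) : ℂ)) :=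
    (Fintype.prod_bijective φC φC_bijective (fun j => ((φ j x : ℝ) : ℂ)) (fun σ => σ x)
      (fun j => (φC_apply j x).symm)).symm
  rw [h2] at h
  apply Complex.ofReal_injective
  rw [Complex.ofReal_prod, ← h]
  simp

end Pool.Agent.Helper88.BD
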