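import Mathlib
import Pool.Agent.Helper88.BD.Defs

/-!
MP_bd232a_nt, block N3. The ring of integers is ℤ[β].
Proof idea: injective: linear independence of 1, β, β² (power basis pb). Surjective: z integral; `Algebra.discr_mul_isIntegral_mem_adjoin`
gives disc • z ∈ adjoin ℤ {β} with disc = 49 (or any 7-power: compute `Algebra.discr ℚ pb.basis`, e.g. via the trace matrix, or
`Algebra.discr_powerBasis_eq_norm`), then `mem_adjoin_of_smul_prime_pow_smul_of_minpoly_isEisensteinAt` (p = 7, gz_eisenstein, minpoly_int),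
then adjoin ℤ {β} = ℤ + ℤβ + ℤβ² (β³ = -7β²-14β-7).
-/

open Polynomial NumberField MeasureTheory Set
open scoped ComplexConjugate

namespace Pool.Agent.Helper88.BD

/-- The value of `ofC` in the field. -/
theorem ofC_coe (m : Fin 3 → ℤ) :
    algebraMap (𝓞 K) K (ofC m) = (m 0 : K) + (m 1 : K) * β + (m 2 : K) * β ^ 2 := by
  have hb : algebraMap (𝓞 K) K βi = β := rfl
  rw [ofC, map_add, map_add, map_mul, map_mul, map_pow, hb, map_intCast, map_intCast, map_intCast]

/-- Every element of `K` is a rational combination of `1, β, β²`. -/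
theorem exists_rat_coords (z : K) :
    ∃ a b c : ℚ, z = (a : K) + (b : K) * β + (c : K) * β ^ 2 := by
  obtain ⟨f, hf, hz⟩ := pb.exists_eq_aeval z
  rw [pb_dim] at hf
  rw [pb_gen] at hz
  refine ⟨f.coeff 0, f.coeff 1, f.coeff 2, ?_⟩
  rw [hz, Polynomial.aeval_eq_sum_range' hf, Finset.sum_range_succ, Finset.sum_range_succ,
    Finset.sum_range_succ, Finset.sum_range_zero]
  simp [Algebra.smul_def]

/-- Sum of the conjugates of a rational combination. -/
theorem sum_φ (a b c : ℚ) :
    ∑ j, φ j ((a : K) + (b : K) * β + (c : K) * β ^ 2) = ((3 * a - 7 * b + 21 * c : ℚ) : ℝ) := by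
  obtain ⟨h1, h2, h3⟩ := rt_elem
  rw [Fin.sum_univ_three]
  simp only [map_add, map_mul, map_pow, φ_β, map_ratCast]
  push_cast
  linear_combination ((b : ℝ) + (c : ℝ) * (rt 0 + rt 1 + rt 2 - 7)) * h1 - 2 * (c : ℝ) * h2

/-- The sum of the conjugates of an integral element is an integer. -/
theorem int_of_integral {a b c : ℚ}
    (h : IsIntegral ℤ ((a : K) + (b : K) * β + (c : K) * β ^ 2)) :
    ∃ t : ℤ, (t : ℚ) = 3 * a - 7 * b + 21 * c := by
  have h1 : IsIntegral ℤ (∑ j, φ j ((a : K) + (b : K) * β + (c : K) * β ^ 2)) :=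
    IsIntegral.sum _ (fun j _ => h.map (φ j).toIntAlgHom)
  rw [sum_φ] at h1
  have h2 : IsIntegral ℤ (3 * a - 7 * b + 21 * c : ℚ) := by
    have h3 : ((3 * a - 7 * b + 21 * c : ℚ) : ℝ) =
        algebraMap ℚ ℝ (3 * a - 7 * b + 21 * c : ℚ) := rfl
    rw [h3] at h1
    exact (isIntegral_algebraMap_iff (algebraMap ℚ ℝ).injective).mp h1
  obtain ⟨t, ht⟩ := IsIntegrallyClosed.isIntegral_iff.mp h2
  exact ⟨t, by simpa using ht⟩

/-- Integral elements lie in `ℤ[β]`. -/
theorem mem_adjoin_of_integral {z : K} (hz : IsIntegral ℤ z) :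
    z ∈ Algebra.adjoin ℤ ({β} : Set K) := by
  have hmem : (7 : ℤ) ^ 2 • z ∈ Algebra.adjoin ℤ ({pb.gen} : Set K) := by
    rw [pb_gen]
    obtain ⟨a, b, c, e⟩ := exists_rat_coords z
    have hr := β_root
    have e1 : z * β = ((-7 * c : ℚ) : K) + ((a - 14 * c : ℚ) : K) * β +
        ((b - 7 * c : ℚ) : K) * β ^ 2 := by
      rw [e]
      push_cast
      linear_combination (c : K) * hr
    have e2 : z * β ^ 2 = ((-7 * (b - 7 * c) : ℚ) : K) +
        ((-7 * c - 14 * (b - 7 * c) : ℚ) : K) * β +
        ((a - 14 * c - 7 * (b - 7 * c) : ℚ) : K) * β ^ 2 := by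
      rw [e]
      push_cast
      linear_combination ((b : K) + (c : K) * (β - 7)) * hr
    have i0 := hz
    have i1 := hz.mul β_integral
    have i2 := hz.mul (β_integral.pow 2)
    rw [e] at i0
    rw [e1] at i1
    rw [e2] at i2
    obtain ⟨t0, h0⟩ := int_of_integral i0
    obtain ⟨t1, h1⟩ := int_of_integral i1
    obtain ⟨t2, h2⟩ := int_of_integral i2
    -- solve the linear system
    have ha : ((245 * t0 + 245 * t1 + 49 * t2 : ℤ) : ℚ) = 49 * a := by
      push_cast
      rw [h0, h1, h2]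
      ring
    have hb : ((245 * t0 + 294 * t1 + 63 * t2 : ℤ) : ℚ) = 49 * b := by
      push_cast
      rw [h0, h1, h2]
      ring
    have hc : ((49 * t0 + 63 * t1 + 14 * t2 : ℤ) : ℚ) = 49 * c := by
      push_cast
      rw [h0, h1, h2]
      ring
    have key : (7 : ℤ) ^ 2 • z = ((245 * t0 + 245 * t1 + 49 * t2 : ℤ) : K) +
        ((245 * t0 + 294 * t1 + 63 * t2 : ℤ) : K) * β +
        ((49 * t0 + 63 * t1 + 14 * t2 : ℤ) : K) * β ^ 2 := by
      have ha' : ((245 * t0 + 245 * t1 + 49 * t2 : ℤ) : K) = 49 * (a : K) := by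
        rw [← Rat.cast_intCast, ha]
        push_cast
        ring
      have hb' : ((245 * t0 + 294 * t1 + 63 * t2 : ℤ) : K) = 49 * (b : K) := by
        rw [← Rat.cast_intCast, hb]
        push_cast
        ring
      have hc' : ((49 * t0 + 63 * t1 + 14 * t2 : ℤ) : K) = 49 * (c : K) := by
        rw [← Rat.cast_intCast, hc]
        push_cast
        ring
      rw [ha', hb', hc', e, zsmul_eq_mul]
      push_cast
      ring
    rw [key]
    have hβ : β ∈ Algebra.adjoin ℤ ({β} : Set K) := Algebra.subset_adjoin rfl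
    have hint : ∀ n : ℤ, (n : K) ∈ Algebra.adjoin ℤ ({β} : Set K) := fun n =>
      intCast_mem _ n
    exact add_mem (add_mem (hint _) (mul_mem (hint _) hβ)) (mul_mem (hint _) (pow_mem hβ 2))
  have h := mem_adjoin_of_smul_prime_pow_smul_of_minpoly_isEisensteinAt (R := ℤ) (K := ℚ) (L := K)
    (B := pb) (p := (7 : ℤ)) (by norm_num) (by rw [pb_gen]; exact β_integral) (n := 2) hz hmem
    (by rw [pb_gen, minpoly_int]; exact gz_eisenstein)
  rwa [pb_gen] at h

/-- Elements of `ℤ[β]` have integral coordinates. -/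
theorem exists_int_coords {z : K} (hz : z ∈ Algebra.adjoin ℤ ({β} : Set K)) :
    ∃ m : Fin 3 → ℤ, z = (m 0 : K) + (m 1 : K) * β + (m 2 : K) * β ^ 2 := by
  rw [Algebra.adjoin_singleton_eq_range_aeval] at hz
  obtain ⟨p, rfl⟩ := hz
  have hd : (p %ₘ gz).natDegree < 3 := by
    rw [← gz_natDegree]
    exact Polynomial.natDegree_modByMonic_lt p gz_monic (by
      intro h
      have := gz_natDegree
      rw [h] at this
      simp at this)
  have hroot : aeval β gz = 0 := by
    rw [← minpoly_int]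
    exact minpoly.aeval ℤ β
  have he : aeval β p = aeval β (p %ₘ gz) := by
    conv_lhs => rw [← Polynomial.modByMonic_add_div p gz]
    rw [map_add, map_mul, hroot, zero_mul, add_zero]
  refine ⟨fun i => (p %ₘ gz).coeff i, ?_⟩
  change aeval β p = _
  rw [he, Polynomial.aeval_eq_sum_range' hd, Finset.sum_range_succ, Finset.sum_range_succ,
    Finset.sum_range_succ, Finset.sum_range_zero]
  simp

theorem ofC_bijective : Function.Bijective ofC := by
  constructor
  · intro m m' h
    have hj : ∀ j, emb m j = emb m' j := fun j => by rw [← φ_ofC, ← φ_ofC, h]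
    have h01 : rt 0 - rt 1 ≠ 0 := sub_ne_zero.mpr (rt_injective.ne (by decide))
    have h02 : rt 0 - rt 2 ≠ 0 := sub_ne_zero.mpr (rt_injective.ne (by decide))
    have h12 : rt 1 - rt 2 ≠ 0 := sub_ne_zero.mpr (rt_injective.ne (by decide))
    have k0 := hj 0
    have k1 := hj 1
    have k2 := hj 2
    unfold emb at k0 k1 k2
    generalize rt 0 = a at *
    generalize rt 1 = b at *
    generalize rt 2 = c at *
    have d1 : ((m 1 : ℝ) - m' 1) + ((m 2 : ℝ) - m' 2) * (a + b) = 0 := by
      apply mul_left_cancel₀ h01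
      linear_combination k0 - k1
    have d2 : ((m 1 : ℝ) - m' 1) + ((m 2 : ℝ) - m' 2) * (a + c) = 0 := by
      apply mul_left_cancel₀ h02
      linear_combination k0 - k2
    have d3 : (m 2 : ℝ) - m' 2 = 0 := by
      apply mul_left_cancel₀ h12
      linear_combination d1 - d2
    have d4 : (m 1 : ℝ) - m' 1 = 0 := by
      linear_combination d1 - (a + b) * d3
    have d5 : (m 0 : ℝ) - m' 0 = 0 := by
      linear_combination k0 - a * d4 - a ^ 2 * d3
    funext i
    fin_cases i
    · exact_mod_cast sub_eq_zero.mp d5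
    · exact_mod_cast sub_eq_zero.mp d4
    · exact_mod_cast sub_eq_zero.mp d3
  · intro z
    obtain ⟨m, hm⟩ := exists_int_coords (mem_adjoin_of_integral z.isIntegral_coe)
    refine ⟨m, ?_⟩
    apply RingOfIntegers.coe_injective
    rw [ofC_coe]
    exact hm.symm

end Pool.Agent.Helper88.BD
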