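import Mathlib
import Pool.Agent.Helper88.BD.Defs
import Pool.Agent.Helper88.BD.Coords

/-!
MP_bd232a_nt, block N4. The discriminant of K is 49.
Proof idea: by N3 the elements 1, β, β² form a ℤ-basis of 𝓞 K; `NumberField.discr_eq_discr_of_...` / `NumberField.discr` = discriminant of
any integral basis = det of the trace matrix: traces of β^k, k=0..4: 3, -7, 21, -70, 245 (p_1=-7, p_2=e1^2-2e2=21,
p_3=-7p_2-14p_1-7*3=-147+98-21=-70, p_4=-7p_3-14p_2-7p_1=490-294+49=245); det [[3,-7,21],[-7,21,-70],[21,-70,245]] = 49.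
-/

open Polynomial NumberField MeasureTheory Set
open scoped ComplexConjugate

namespace Pool.Agent.Helper88.BD

/-- `ofC` as a linear map. -/
noncomputable def ofCLin : (Fin 3 → ℤ) →ₗ[ℤ] 𝓞 K where
  toFun := ofC
  map_add' a b := by simp only [ofC, Pi.add_apply, Int.cast_add]; ring
  map_smul' c a := by
    simp only [ofC, Pi.smul_apply, smul_eq_mul, Int.cast_mul, eq_intCast, zsmul_eq_mul,
      Int.cast_id]; ring

/-- The integral basis `1, β, β²`. -/
noncomputable def zb : Module.Basis (Fin 3) ℤ (𝓞 K) :=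
  Module.Basis.ofEquivFun (LinearEquiv.ofBijective ofCLin ofC_bijective).symm

theorem zb_repr_ofC (m : Fin 3 → ℤ) (i : Fin 3) : zb.repr (ofC m) i = m i := by
  have h : zb.equivFun = (LinearEquiv.ofBijective ofCLin ofC_bijective).symm :=
    Module.Basis.equivFun_ofEquivFun _
  have h2 : zb.equivFun (ofC m) = m := by
    rw [h]
    exact (LinearEquiv.ofBijective ofCLin ofC_bijective).symm_apply_apply m
  calc zb.repr (ofC m) i = zb.equivFun (ofC m) i := rfl
    _ = m i := by rw [h2]

theorem zb_apply (i : Fin 3) : zb i = βi ^ (i : ℕ) := by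
  have h : zb i = ofC (Pi.single i 1) := by
    rw [zb, Module.Basis.coe_ofEquivFun, LinearEquiv.symm_symm]
    rfl
  rw [h]
  fin_cases i <;> simp [ofC, Pi.single_apply]

theorem βi_root : βi ^ 3 = -7 + (-14) * βi + (-7) * βi ^ 2 := by
  apply RingOfIntegers.ext
  have h := β_root
  have hb : algebraMap (𝓞 K) K βi = β := rfl
  simp only [map_pow, map_add, map_mul, map_neg, map_ofNat, hb]
  linear_combination h

/-- Multiplication by `β`. -/
def Mβ : Matrix (Fin 3) (Fin 3) ℤ := !![0, 0, -7; 1, 0, -14; 0, 1, -7]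

theorem leftMul_βi : Algebra.leftMulMatrix zb βi = Mβ := by
  have h0 : βi * zb 0 = ofC ![0, 1, 0] := by rw [zb_apply]; simp [ofC]
  have h1 : βi * zb 1 = ofC ![0, 0, 1] := by rw [zb_apply]; simp [ofC]; ring
  have h2 : βi * zb 2 = ofC ![-7, -14, -7] := by
    rw [zb_apply]
    have : βi * βi ^ ((2 : Fin 3) : ℕ) = βi ^ 3 := by
      change βi * βi ^ 2 = βi ^ 3
      ring
    rw [this, βi_root]
    simp [ofC]
  ext i j
  rw [Algebra.leftMulMatrix_eq_repr_mul]
  fin_cases j
  · change zb.repr (βi * zb 0) i = _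
    rw [h0, zb_repr_ofC]
    fin_cases i <;> rfl
  · change zb.repr (βi * zb 1) i = _
    rw [h1, zb_repr_ofC]
    fin_cases i <;> rfl
  · change zb.repr (βi * zb 2) i = _
    rw [h2, zb_repr_ofC]
    fin_cases i <;> rfl

theorem trace_βi_pow (k : ℕ) : Algebra.trace ℤ (𝓞 K) (βi ^ k) = Matrix.trace (Mβ ^ k) := by
  rw [Algebra.trace_eq_matrix_trace zb, map_pow, leftMul_βi]

theorem discr_K : NumberField.discr K = 49 := by
  rw [← NumberField.discr_eq_discr K zb, Algebra.discr_def]
  have h : Algebra.traceMatrix ℤ (⇑zb) =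
      Matrix.of fun i j : Fin 3 => Matrix.trace (Mβ ^ ((i : ℕ) + (j : ℕ))) := by
    ext i j
    rw [Algebra.traceMatrix_apply, Algebra.traceForm_apply, zb_apply, zb_apply, ← pow_add,
      trace_βi_pow, Matrix.of_apply]
  rw [h]
  decide +kernel

end Pool.Agent.Helper88.BD
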