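import Mathlib
import Pool.Agent.Helper88.BD.Defs
import Pool.Agent.Helper88.BD.Discr

/-!
MP_bd232a_nt, block N4p. The class number is one.
Proof idea: `NumberField.RingOfIntegers.isPrincipalIdealRing_of_abs_discr_lt`: |49| < (2 * (π/4)^r2 * (27/6))^2, where r2 = 0 (or any r2 ≤ 1:
(2*(π/4)*4.5)^2 = 49.96 > 49 also works, but r2 = 0 is easy: all embeddings are real, or 3 = r1 + 2 r2 and K has 3 real places).
-/

open Polynomial NumberField MeasureTheory Set
open scoped ComplexConjugate

namespace Pool.Agent.Helper88.BD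

theorem isPrincipal : IsPrincipalIdealRing (𝓞 K) := by
  apply RingOfIntegers.isPrincipalIdealRing_of_abs_discr_lt
  have h1 : InfinitePlace.nrComplexPlaces K ≤ 1 := by
    have h := InfinitePlace.card_add_two_mul_card_eq_rank K
    rw [finrank_K] at h
    omega
  have hf : (Nat.factorial 3 : ℝ) = 6 := by norm_num [Nat.factorial]
  have hpi := Real.pi_gt_d2
  have hpi0 := Real.pi_pos
  rw [discr_K, finrank_K, hf]
  have h49 : ((|(49 : ℤ)| : ℤ) : ℝ) = 49 := by norm_num
  rw [h49]
  obtain h0 | h0 : InfinitePlace.nrComplexPlaces K = 0 ∨ InfinitePlace.nrComplexPlaces K = 1 := by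
    omega
  · rw [h0]; norm_num
  · rw [h0]
    push_cast
    nlinarith

end Pool.Agent.Helper88.BD
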