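import Mathlib
import Pool.Agent.Helper88.BD.Defs
import Pool.Agent.Helper88.BD.Pid
import Pool.Agent.Helper88.BD.Norm

/-!
MP_bd232a_nt, block N4g. Generators of ideals.
Proof idea: `Classical.epsilon_spec` and N4p; `Ideal.absNorm_span_singleton`, `Algebra.coe_norm_int`, N2; φ j injective.
-/

open Polynomial NumberField MeasureTheory Set
open scoped ComplexConjugate

namespace Pool.Agent.Helper88.BD

theorem gen_spec (I : Ideal (𝓞 K)) : Ideal.span {gen I} = I := by
  have := isPrincipal
  have h : ∃ g : 𝓞 K, Ideal.span {g} = I := by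
    obtain ⟨g, hg⟩ := (IsPrincipalIdealRing.principal I).principal
    exact ⟨g, hg.symm⟩
  exact Classical.epsilon_spec h

theorem gen_ne_zero (I : NI) : gen I.1 ≠ 0 := by
  intro h
  apply I.2
  rw [← gen_spec I.1, h, Ideal.span_singleton_eq_bot.mpr rfl]

theorem prod_ga (I : Ideal (𝓞 K)) : ∏ j, ga I j = (Ideal.absNorm I : ℝ) := by
  unfold ga
  rw [← Finset.abs_prod, ← norm_eq_prod, ← Algebra.coe_norm_int]
  conv_rhs => rw [← gen_spec I, Ideal.absNorm_span_singleton]
  rw [Rat.cast_intCast, Nat.cast_natAbs, Int.cast_abs]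

theorem ga_pos (I : NI) (j : Fin 3) : 0 < ga I.1 j := by
  unfold ga
  rw [abs_pos]
  intro h
  apply gen_ne_zero I
  have h2 : ((gen I.1 : 𝓞 K) : K) = 0 := (φ j).injective (by rw [h, map_zero])
  exact_mod_cast h2

end Pool.Agent.Helper88.BD
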