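import Mathlib
import Pool.Agent.Helper88.BD.Defs

/-!
MP_bd232a_nt, block N5a. The three infinite places.
Proof idea: InfinitePlace.mk of (algebraMap ℝ ℂ).comp (φ j); injective because φ i β ≠ φ j β (real, so equal or conjugate embeddings agree);
surjective because a ring hom ψ : K → ℂ sends β to a root of X³+7X²+14X+7 = ∏(X - rt j), and ψ is determined by ψ β.
-/

open Polynomial NumberField MeasureTheory Set
open scoped ComplexConjugate

namespace Pool.Agent.Helper88.BD

/-- the complex embeddings -/
noncomputable def φR (j : Fin 3) : K →+* ℂ := (Complex.ofRealHom).comp (φ j)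

theorem φR_apply (j : Fin 3) (x : K) : φR j x = ((φ j x : ℝ) : ℂ) := rfl

theorem exists_φR (ψ : K →+* ℂ) : ∃ j, ψ = φR j := by
  have h := congrArg ψ β_root
  simp only [map_add, map_mul, map_pow, map_ofNat, map_zero] at h
  obtain ⟨h1, h2, h3⟩ := rt_elem
  have c1 : ((rt 0 : ℝ) : ℂ) + rt 1 + rt 2 = -7 := by exact_mod_cast congrArg Complex.ofReal h1
  have c2 : ((rt 0 : ℝ) : ℂ) * rt 1 + rt 0 * rt 2 + rt 1 * rt 2 = 14 := by
    exact_mod_cast congrArg Complex.ofReal h2
  have c3 : ((rt 0 : ℝ) : ℂ) * rt 1 * rt 2 = -7 := by exact_mod_cast congrArg Complex.ofReal h3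
  have key : (ψ β - rt 0) * (ψ β - rt 1) * (ψ β - rt 2) = 0 := by
    linear_combination h - ψ β ^ 2 * c1 + ψ β * c2 - c3
  have ext : ∀ j, ψ β = rt j → ψ = φR j := by
    intro j hj
    have : ψ.toRatAlgHom = (φR j).toRatAlgHom := by
      apply pb.algHom_ext
      rw [pb_gen]
      simp [φR_apply, φ_β, hj]
    ext x
    exact DFunLike.congr_fun this x
  rcases mul_eq_zero.mp key with h | h
  · rcases mul_eq_zero.mp h with h | h
    · exact ⟨0, ext 0 (sub_eq_zero.mp h)⟩
    · exact ⟨1, ext 1 (sub_eq_zero.mp h)⟩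
  · exact ⟨2, ext 2 (sub_eq_zero.mp h)⟩

theorem places : ∃ e : Fin 3 ≃ InfinitePlace K, ∀ (j : Fin 3) (x : K), e j x = |φ j x| := by
  have hb : Function.Bijective (fun j : Fin 3 => InfinitePlace.mk (φR j)) := by
    constructor
    · intro i j hij
      simp only [InfinitePlace.mk_eq_iff] at hij
      have : ∀ x, φ i x = φ j x := by
        intro x
        rcases hij with h | h
        · have := RingHom.congr_fun h x
          rw [φR_apply, φR_apply] at this
          exact_mod_cast this
        · have := RingHom.congr_fun h x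
          rw [ComplexEmbedding.conjugate_coe_eq, φR_apply, φR_apply, Complex.conj_ofReal] at this
          exact_mod_cast this
      apply rt_injective
      rw [← φ_β, ← φ_β, this]
    · intro w
      obtain ⟨j, hj⟩ := exists_φR w.embedding
      refine ⟨j, ?_⟩
      change InfinitePlace.mk (φR j) = w
      rw [← hj, InfinitePlace.mk_embedding]
  refine ⟨Equiv.ofBijective _ hb, fun j x => ?_⟩
  change InfinitePlace.mk (φR j) x = _
  rw [InfinitePlace.apply, φR_apply, Complex.norm_real, Real.norm_eq_abs]

theorem nrComplexPlaces_K : InfinitePlace.nrComplexPlaces K = 0 := by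
  classical
  rw [InfinitePlace.nrComplexPlaces, Fintype.card_eq_zero_iff]
  constructor
  rintro ⟨w, hw⟩
  rw [← InfinitePlace.not_isReal_iff_isComplex] at hw
  apply hw
  obtain ⟨j, hj⟩ := exists_φR w.embedding
  rw [InfinitePlace.isReal_iff, hj, ComplexEmbedding.isReal_iff]
  ext x
  rw [ComplexEmbedding.conjugate_coe_eq, φR_apply, Complex.conj_ofReal]

theorem rank_K : NumberField.Units.rank K = 2 := by
  obtain ⟨e, -⟩ := places
  rw [NumberField.Units.rank, ← Fintype.card_congr e]
  rfl

end Pool.Agent.Helper88.BD
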