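import Mathlib
import Pool.Agent.Helper88.BD.Defs
import Pool.Agent.Helper88.BD.Places

/-!
MP_bd232a_nt, block N5. Dirichlet's unit theorem for K in our coordinates.
Proof idea: rank K = 2 (N5a); take fundSystem K composed with Fin 2 ≃ Fin (rank K); `NumberField.Units.exist_unique_eq_mul_prod`,
`torsion_eq_one_or_neg_one_of_odd_finrank` (finrank_K) give the first part. Determinant: suppose a(1,1,1)+c0 L0+c1 L1 = 0; sum over j:
3a = 0 (the sum of log|φ_j u| over j is log|norm| = 0); then c0 L0 + c1 L1 = 0, but logEmbedding of the fundSystem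
(`logEmbedding_fundSystem`) is the basis basisUnitLattice of the ℤ-lattice unitLattice, whose vectors are ℝ-linearly independent
(`Basis.ofZLatticeBasis`, unitLattice_span_eq_top). Or use regulator ≠ 0 with `NumberField.Units.regulator_eq_det`.
-/

open Polynomial NumberField MeasureTheory Set
open scoped ComplexConjugate

namespace Pool.Agent.Helper88.BD

open NumberField.Units NumberField.Units.dirichletUnitTheorem Module

theorem mult_K (w : InfinitePlace K) : w.mult = 1 := by
  classical
  have h := nrComplexPlaces_K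
  rw [InfinitePlace.nrComplexPlaces, Fintype.card_eq_zero_iff] at h
  have hw : w.IsReal := by
    by_contra hw
    rw [InfinitePlace.not_isReal_iff_isComplex] at hw
    exact h.false ⟨w, hw⟩
  exact InfinitePlace.mult_isReal ⟨w, hw⟩

theorem sum_log_units (u : (𝓞 K)ˣ) : ∑ j, Real.log |φ j ((u : 𝓞 K) : K)| = 0 := by
  obtain ⟨e, he⟩ := places
  have h := sum_mult_mul_log u
  rw [← e.sum_comp] at h
  rw [← h]
  refine Finset.sum_congr rfl fun j _ => ?_
  rw [mult_K, he]
  simp

/-- a sign as a unit -/
noncomputable def sgU (σ : ℤˣ) : (𝓞 K)ˣ := Units.map (Int.castRingHom (𝓞 K)).toMonoidHom σ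

theorem sgU_one : sgU 1 = 1 := map_one _

theorem sgU_neg_one : sgU (-1) = -1 := by
  ext
  simp [sgU]

theorem sgU_coe (σ : ℤˣ) : ((sgU σ : (𝓞 K)ˣ) : 𝓞 K) = (((σ : ℤˣ) : ℤ) : 𝓞 K) := rfl

theorem sgU_mem (σ : ℤˣ) : sgU σ ∈ torsion K := by
  rcases Int.units_eq_one_or σ with rfl | rfl
  · rw [sgU_one]; exact one_mem _
  · rw [sgU_neg_one]; exact neg_one_mem_torsion

theorem sgU_injective : Function.Injective sgU := by
  intro a b h
  have h2 : ((a : ℤ) : 𝓞 K) = ((b : ℤ) : 𝓞 K) := by rw [← sgU_coe, ← sgU_coe, h]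
  ext
  exact_mod_cast h2

theorem exists_fund : ∃ ε, IsFund ε := by
  classical
  let f : Fin 2 ≃ Fin (rank K) := finCongr rank_K.symm
  refine ⟨fun i => fundSystem K (f i), ?_, ?_⟩
  · intro u
    obtain ⟨⟨ζ, e⟩, h, huniq⟩ := exist_unique_eq_mul_prod K u
    have hodd : Odd (finrank ℚ K) := by rw [finrank_K]; decide
    obtain ⟨σ, hσ⟩ : ∃ σ : ℤˣ, sgU σ = (ζ : (𝓞 K)ˣ) := by
      rcases torsion_eq_one_or_neg_one_of_odd_finrank hodd ζ with h1 | h1
      · exact ⟨1, by rw [h1, sgU_one]⟩
      · exact ⟨-1, by rw [h1, sgU_neg_one]⟩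
    have hprod : ∀ e : Fin (rank K) → ℤ, ∏ i, fundSystem K (f i) ^ e (f i) =
        ∏ i, fundSystem K i ^ e i := fun e => f.prod_comp (fun i => fundSystem K i ^ e i)
    refine ⟨(σ, fun i => e (f i)), ?_, ?_⟩
    · change (u : 𝓞 K) = ((σ : ℤ) : 𝓞 K) * ((∏ i, fundSystem K (f i) ^ e (f i) : (𝓞 K)ˣ) : 𝓞 K)
      rw [hprod, ← sgU_coe, ← Units.val_mul, hσ]
      exact congrArg _ h
    · rintro ⟨σ', e'⟩ h'
      have h'' : u = sgU σ' * ∏ i, fundSystem K i ^ e' (f.symm i) := by
        ext
        rw [Units.val_mul, sgU_coe, ← f.prod_comp]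
        simp only [Equiv.symm_apply_apply]
        exact congrArg _ h'
      have := huniq (⟨sgU σ', sgU_mem σ'⟩, fun i => e' (f.symm i)) h''
      rw [Prod.mk.injEq] at this
      obtain ⟨h1, h2⟩ := this
      rw [Prod.mk.injEq]
      constructor
      · apply sgU_injective
        rw [hσ, ← h1]
      · ext i
        rw [← h2]
        simp
  · intro hdet
    obtain ⟨v, hv, hv0⟩ := Matrix.exists_vecMul_eq_zero_iff.mpr hdet
    have heq : ∀ j, v 0 + v 1 * Real.log |φ j ((fundSystem K (f 0) : 𝓞 K) : K)| +
        v 2 * Real.log |φ j ((fundSystem K (f 1) : 𝓞 K) : K)| = 0 := by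
      intro j
      have := congrFun hv0 j
      simpa [Matrix.vecMul, dotProduct, Fin.sum_univ_three, unitMat] using this
    have h0 : v 0 = 0 := by
      have s0 := sum_log_units (fundSystem K (f 0))
      have s1 := sum_log_units (fundSystem K (f 1))
      rw [Fin.sum_univ_three] at s0 s1
      have e0 := heq 0
      have e1 := heq 1
      have e2 := heq 2
      linear_combination (1 / 3) * (e0 + e1 + e2) - (1 / 3) * v 1 * s0 - (1 / 3) * v 2 * s1
    obtain ⟨e, he⟩ := places
    let B := (basisUnitLattice K).ofZLatticeBasis ℝ (unitLattice K)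
    have hB := Fintype.linearIndependent_iff.mp B.linearIndependent
      (fun i => v (f.symm i).succ) (by
        ext w
        obtain ⟨j, hj⟩ := e.surjective w.1
        rw [Finset.sum_apply, ← f.sum_comp, Fin.sum_univ_two]
        simp only [Equiv.symm_apply_apply, Pi.smul_apply, smul_eq_mul, Pi.zero_apply]
        have hb : ∀ i, B i w = Real.log |φ j ((fundSystem K i : 𝓞 K) : K)| := by
          intro i
          have hBi : B i = logEmbedding K (Additive.ofMul (fundSystem K i)) := by
            rw [logEmbedding_fundSystem]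
            exact (basisUnitLattice K).ofZLatticeBasis_apply ℝ (unitLattice K) i
          rw [hBi, logEmbedding_component, mult_K, ← hj, he]
          simp
        rw [hb, hb]
        have := heq j
        rw [h0] at this
        simpa using this)
    apply hv
    have h1 := hB (f 0)
    have h2 := hB (f 1)
    simp only [Equiv.symm_apply_apply] at h1 h2
    ext i
    fin_cases i
    · exact h0
    · exact h1
    · exact h2

end Pool.Agent.Helper88.BD
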