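import Mathlib
import Pool.Agent.Helper88.BD.Defs
import Pool.Agent.Helper88.BD.Fund
import Pool.Agent.Helper88.BD.Norm

/-!
MP_bd232a_nt, block N5b. Basic facts on the chosen units. Proof idea: `Classical.epsilon_spec exists_fund`; norm of a unit is ±1 and N2.
-/

open Polynomial NumberField MeasureTheory Set
open scoped ComplexConjugate

namespace Pool.Agent.Helper88.BD

theorem ε_spec : IsFund ε := Classical.epsilon_spec exists_fund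

theorem φ_unit_ne_zero (u : (𝓞 K)ˣ) (j : Fin 3) : φ j ((u : 𝓞 K) : K) ≠ 0 := by
  have h : ((u : 𝓞 K) : K) ≠ 0 := by
    simp
  exact (map_ne_zero (φ j)).mpr h

theorem abs_prod_φ_unit (u : (𝓞 K)ˣ) : |∏ j, φ j ((u : 𝓞 K) : K)| = 1 := by
  have h := (NumberField.isUnit_iff_norm (x := (u : 𝓞 K))).mp u.isUnit
  have h2 : |(Algebra.norm ℚ ((u : 𝓞 K) : K) : ℚ)| = 1 := by
    rw [← h]; rfl
  rw [← norm_eq_prod]
  have h3 : (|((Algebra.norm ℚ ((u : 𝓞 K) : K) : ℚ) : ℝ)|) = ((|(Algebra.norm ℚ ((u : 𝓞 K) : K) : ℚ)| : ℚ) : ℝ) := by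
    rw [Rat.cast_abs]
  rw [h3, h2, Rat.cast_one]

theorem L_sum (i : Fin 2) : ∑ j, L i j = 0 := by
  unfold L
  rw [← Real.log_prod (fun j _ => abs_ne_zero.mpr (φ_unit_ne_zero (ε i) j)), ← Finset.abs_prod,
    abs_prod_φ_unit, Real.log_one]

theorem LM_det : LM.det ≠ 0 := ε_spec.2

/-- `|φ_j (ε₀^{k₀} ε₁^{k₁})| = exp (k₀ L_0j + k₁ L_1j)` -/
theorem abs_φ_unit (k : Fin 2 → ℤ) (j : Fin 3) :
    |φ j (((∏ i, ε i ^ k i : (𝓞 K)ˣ) : 𝓞 K) : K)| = Real.exp (∑ i, k i * L i j) := by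
  let f : (𝓞 K)ˣ →* ℝˣ := Units.map (((φ j).comp (algebraMap (𝓞 K) K)) : 𝓞 K →* ℝ)
  have hf : ∀ u : (𝓞 K)ˣ, φ j ((u : 𝓞 K) : K) = ((f u : ℝˣ) : ℝ) := fun u => rfl
  rw [hf, map_prod, Units.coe_prod, Finset.abs_prod, Real.exp_sum]
  refine Finset.prod_congr rfl fun i _ => ?_
  rw [map_zpow, Units.val_zpow_eq_zpow_val, abs_zpow, ← hf, mul_comm, Real.exp_mul, Real.rpow_intCast]
  congr 1
  unfold L
  rw [Real.exp_log (abs_pos.mpr (φ_unit_ne_zero (ε i) j))]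

end Pool.Agent.Helper88.BD
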