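import Mathlib
import Pool.Agent.Helper88.BD.Defs
import Pool.Agent.Helper88.BD.Gen
import Pool.Agent.Helper88.BD.Units

/-!
MP_bd232a_nt, block N6b. The Groessencharacter is multiplicative on ideals.
Proof idea: two generators differ by a unit ± ε^k (ε_spec.1, abs_φ_unit) and ∏|φ_j(unit)|^{iν_j} = exp(i Σ_i k_i Σ_j ν_j L_ij) = 1 by IsNu.
chi_nat: φ_j(n) = n and Σ ν_j = 0.
-/

open Polynomial NumberField MeasureTheory Set
open scoped ComplexConjugate

namespace Pool.Agent.Helper88.BD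

theorem chi_ga (ν : Fin 3 → ℝ) (I : Ideal (𝓞 K)) :
    chi ν (ga I) = chi ν (fun j => φ j ((gen I : 𝓞 K) : K)) := by
  unfold chi ga
  simp only [abs_abs]

theorem φ_ne_zero' {x : 𝓞 K} (hx : x ≠ 0) (j : Fin 3) : φ j (x : K) ≠ 0 := by
  intro h
  apply hx
  have h1 : (x : K) = 0 := (φ j).injective (by rw [h, map_zero])
  exact_mod_cast h1

theorem chi_mul_aux {ν x y z : Fin 3 → ℝ} (h : ∀ j, Real.log |z j| = Real.log |x j| + Real.log |y j|) :
    chi ν z = chi ν x * chi ν y := by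
  unfold chi
  rw [← Complex.exp_add]
  congr 1
  have : ∑ j, ν j * Real.log |z j| = ∑ j, ν j * Real.log |x j| + ∑ j, ν j * Real.log |y j| := by
    rw [← Finset.sum_add_distrib]
    apply Finset.sum_congr rfl
    intro j _
    rw [h j]; ring
  rw [this]
  push_cast
  ring

theorem chi_φ_mul {ν : Fin 3 → ℝ} {x y : 𝓞 K} (hx : x ≠ 0) (hy : y ≠ 0) :
    chi ν (fun j => φ j ((x * y : 𝓞 K) : K)) =
      chi ν (fun j => φ j (x : K)) * chi ν (fun j => φ j (y : K)) := by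
  apply chi_mul_aux
  intro j
  have h1 : ((x * y : 𝓞 K) : K) = (x : K) * (y : K) := rfl
  rw [h1, map_mul, abs_mul, Real.log_mul (abs_ne_zero.2 (φ_ne_zero' hx j))
    (abs_ne_zero.2 (φ_ne_zero' hy j))]

theorem chi_unit {ν : Fin 3 → ℝ} (hν : IsNu ν) (u : (𝓞 K)ˣ) :
    chi ν (fun j => φ j (((u : 𝓞 K)) : K)) = 1 := by
  obtain ⟨⟨s, k⟩, hp, -⟩ := ε_spec.1 u
  have hlog : ∀ j, Real.log |φ j ((u : 𝓞 K) : K)| = ∑ i, k i * L i j := by
    intro j
    have h1 : ((u : 𝓞 K) : K) = (((s : ℤ) : 𝓞 K) : K) *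
        (((∏ i, ε i ^ k i : (𝓞 K)ˣ) : 𝓞 K) : K) := by
      have := congrArg (fun z : 𝓞 K => (z : K)) hp
      exact this
    have h2 : |φ j (((s : ℤ) : 𝓞 K) : K)| = 1 := by
      rcases Int.units_eq_one_or s with hs | hs <;> rw [hs] <;> simp
    rw [h1, map_mul, abs_mul, h2, one_mul, abs_φ_unit, Real.log_exp]
  choose c hc using hν.2
  unfold chi
  have h3 : ∑ j, ν j * Real.log |φ j ((u : 𝓞 K) : K)| = (∑ i, k i * c i : ℤ) * (2 * Real.pi) := by
    have h4 : ∀ j, ν j * Real.log |φ j ((u : 𝓞 K) : K)| = ∑ i, (k i : ℝ) * (ν j * L i j) := by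
      intro j
      rw [hlog j, Finset.mul_sum]
      apply Finset.sum_congr rfl
      intro i _
      ring
    simp only [h4]
    rw [Finset.sum_comm]
    push_cast
    rw [Finset.sum_mul]
    apply Finset.sum_congr rfl
    intro i _
    rw [← Finset.mul_sum, hc i]
    ring
  rw [h3]
  have h5 : (((((∑ i, k i * c i : ℤ) : ℝ) * (2 * Real.pi) : ℝ)) : ℂ) * Complex.I =
      ((∑ i, k i * c i : ℤ) : ℂ) * (2 * Real.pi * Complex.I) := by
    push_cast
    ring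
  rw [h5]
  exact Complex.exp_int_mul_two_pi_mul_I _

theorem chi_span {ν : Fin 3 → ℝ} (hν : IsNu ν) {x : 𝓞 K} (hx : x ≠ 0) :
    chi ν (ga (Ideal.span {x})) = chi ν (fun j => φ j (x : K)) := by
  rw [chi_ga]
  obtain ⟨u, hu⟩ := Ideal.span_singleton_eq_span_singleton.1 (gen_spec (Ideal.span {x}))
  have hg : gen (Ideal.span {x}) ≠ 0 := by
    intro h
    rw [h, zero_mul] at hu
    exact hx hu.symm
  rw [← hu]
  have h1 : gen (Ideal.span {gen (Ideal.span {x}) * (u : 𝓞 K)}) = gen (Ideal.span {x}) := by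
    rw [hu]
  rw [h1, chi_φ_mul hg u.ne_zero, chi_unit hν, mul_one]

theorem chi_mul {ν : Fin 3 → ℝ} (hν : IsNu ν) {I J : Ideal (𝓞 K)} (hI : I ≠ ⊥) (hJ : J ≠ ⊥) :
    chi ν (ga (I * J)) = chi ν (ga I) * chi ν (ga J) := by
  have hgI : gen I ≠ 0 := gen_ne_zero ⟨I, hI⟩
  have hgJ : gen J ≠ 0 := gen_ne_zero ⟨J, hJ⟩
  have h1 : I * J = Ideal.span {gen I * gen J} := by
    rw [← Ideal.span_singleton_mul_span_singleton, gen_spec, gen_spec]
  rw [h1, chi_span hν (mul_ne_zero hgI hgJ), chi_φ_mul hgI hgJ, ← chi_ga, ← chi_ga]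

theorem chi_top {ν : Fin 3 → ℝ} (hν : IsNu ν) : chi ν (ga ⊤) = 1 := by
  rw [← Ideal.span_singleton_one, chi_span hν one_ne_zero]
  unfold chi
  simp

theorem chi_nat {ν : Fin 3 → ℝ} (hν : IsNu ν) {n : ℕ} (hn : n ≠ 0) :
    chi ν (ga (Ideal.span {(n : 𝓞 K)})) = 1 := by
  rw [chi_span hν (by exact_mod_cast hn)]
  unfold chi
  have h1 : ∀ j, φ j (((n : 𝓞 K)) : K) = n := by
    intro j
    simp
  simp only [h1]
  rw [← Finset.sum_mul, hν.1]
  simp

end Pool.Agent.Helper88.BD
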