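import Mathlib
import Pool.Agent.Helper88.BD.Defs

/-!
MP_bd232a_nt, block N8d. A sub-multiplicative function which is (k+1)³ at prime powers is O(n^η).
Proof idea: (k+1)³ ≤ C_η 2^{ηk} for all k and (k+1)³ ≤ p^{ηk} for all k ≥ 0 once p ≥ p_0(η); induction on the factorization
(`Nat.recOnPosPrimePosCoprime` / `Nat.multiplicative_factorization`): g(n) ≤ C_η^{π(p_0)} n^η; for the induction use the function
h(n) = ∏_{p^k ∥ n} c_p p^{ηk}, c_p = max over k of (k+1)³ p^{-ηk}.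
-/

open Polynomial NumberField MeasureTheory Set
open scoped ComplexConjugate

namespace Pool.Agent.Helper88.BD

theorem mult_bound (g : ℕ → ℝ) (g0 : ∀ n, 0 ≤ g n) (g1 : g 1 ≤ 1)
    (hm : ∀ m n, 1 ≤ m → 1 ≤ n → Nat.Coprime m n → g (m * n) ≤ g m * g n)
    (hp : ∀ p k : ℕ, p.Prime → g (p ^ k) ≤ ((k : ℝ) + 1) ^ 3) {η : ℝ} (hη : 0 < η) :
    ∃ C : ℝ, ∀ n : ℕ, 1 ≤ n → g n ≤ C * (n : ℝ) ^ η := by
  classical
  -- the constant at small primes
  have hA : ∃ A : ℝ, 1 ≤ A ∧ ∀ k : ℕ, ((k : ℝ) + 1) ^ 3 ≤ A * ((2 : ℝ) ^ η) ^ k := by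
    have hr : 1 < (2 : ℝ) ^ η := Real.one_lt_rpow (by norm_num) hη
    set r : ℝ := (2 : ℝ) ^ η with hrdef
    obtain ⟨m, hm⟩ : ∃ m : ℕ, 1 ≤ (m : ℝ) * (r - 1) := by
      obtain ⟨m, hm⟩ := exists_nat_ge (1 / (r - 1))
      exact ⟨m, by rwa [div_le_iff₀ (by linarith)] at hm⟩
    -- `k + 1 ≤ (m + 1) * r ^ k`
    have hlin : ∀ k : ℕ, (k : ℝ) + 1 ≤ ((m : ℝ) + 1) * r ^ k := by
      intro k
      have hb : 1 + (k : ℝ) * (r - 1) ≤ r ^ k := by
        have := one_add_mul_le_pow (a := r - 1) (by linarith) k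
        simpa using this
      have hm0 : (0 : ℝ) ≤ m := Nat.cast_nonneg m
      have hk0 : (0 : ℝ) ≤ k := Nat.cast_nonneg k
      nlinarith [mul_le_mul_of_nonneg_left hb hm0, mul_le_mul_of_nonneg_left hm hk0,
        one_le_pow₀ (n := k) hr.le]
    -- use `r' = r ^ (1/3)` through the same lemma with `η / 3`
    have hr3 : 1 < (2 : ℝ) ^ (η / 3) := Real.one_lt_rpow (by norm_num) (by positivity)
    set s : ℝ := (2 : ℝ) ^ (η / 3) with hsdef
    have hs3 : s ^ 3 = r := by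
      rw [hsdef, hrdef, ← Real.rpow_natCast, ← Real.rpow_mul (by norm_num)]
      congr 1
      push_cast
      ring
    obtain ⟨m', hm'⟩ : ∃ m : ℕ, 1 ≤ (m : ℝ) * (s - 1) := by
      obtain ⟨m, hm⟩ := exists_nat_ge (1 / (s - 1))
      exact ⟨m, by rwa [div_le_iff₀ (by linarith)] at hm⟩
    have hlin' : ∀ k : ℕ, (k : ℝ) + 1 ≤ ((m' : ℝ) + 1) * s ^ k := by
      intro k
      have hb : 1 + (k : ℝ) * (s - 1) ≤ s ^ k := by
        have := one_add_mul_le_pow (a := s - 1) (by linarith) k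
        simpa using this
      have hm0 : (0 : ℝ) ≤ m' := Nat.cast_nonneg m'
      have hk0 : (0 : ℝ) ≤ k := Nat.cast_nonneg k
      nlinarith [mul_le_mul_of_nonneg_left hb hm0, mul_le_mul_of_nonneg_left hm' hk0,
        one_le_pow₀ (n := k) hr3.le]
    refine ⟨((m' : ℝ) + 1) ^ 3, one_le_pow₀ (by linarith [(Nat.cast_nonneg m' : (0:ℝ) ≤ m')]), ?_⟩
    intro k
    calc ((k : ℝ) + 1) ^ 3 ≤ (((m' : ℝ) + 1) * s ^ k) ^ 3 := by
          gcongr
          exact hlin' k
      _ = ((m' : ℝ) + 1) ^ 3 * r ^ k := by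
          rw [mul_pow, ← pow_mul, mul_comm k 3, pow_mul, hs3]
  obtain ⟨A, hA1, hA⟩ := hA
  obtain ⟨N0, hN0⟩ : ∃ N0 : ℕ, ∀ p : ℕ, N0 ≤ p → (8 : ℝ) ≤ (p : ℝ) ^ η := by
    have h := (tendsto_rpow_atTop hη).comp tendsto_natCast_atTop_atTop
    obtain ⟨N0, hN0⟩ := Filter.eventually_atTop.1 (h.eventually_ge_atTop 8)
    exact ⟨N0, fun p hp => hN0 p hp⟩
  set c : ℕ → ℝ := fun p => if p < N0 then A else 1 with hc
  have hc1 : ∀ p, 1 ≤ c p := by
    intro p; simp only [hc]; split_ifs <;> linarith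
  have hpp : ∀ p k : ℕ, p.Prime → g (p ^ k) ≤ c p * (((p ^ k : ℕ) : ℝ)) ^ η := by
    intro p k hpr
    refine le_trans (hp p k hpr) ?_
    have hpk : (((p ^ k : ℕ) : ℝ)) ^ η = ((p : ℝ) ^ η) ^ k := by
      rw [Nat.cast_pow, ← Real.rpow_natCast, ← Real.rpow_natCast, ← Real.rpow_mul (by positivity),
        ← Real.rpow_mul (by positivity), mul_comm]
    rw [hpk]
    simp only [hc]
    split_ifs with h
    · refine le_trans (hA k) ?_
      gcongr
      exact_mod_cast hpr.two_le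
    · have h8 := hN0 p (not_lt.1 h)
      have h2 : (k : ℝ) + 1 ≤ 2 ^ k := by
        have : k + 1 ≤ 2 ^ k := Nat.lt_two_pow_self
        exact_mod_cast this
      calc ((k : ℝ) + 1) ^ 3 ≤ (2 ^ k) ^ 3 := by gcongr
        _ = 8 ^ k := by rw [← pow_mul, mul_comm, pow_mul]; norm_num
        _ ≤ ((p : ℝ) ^ η) ^ k := by gcongr
        _ = 1 * ((p : ℝ) ^ η) ^ k := (one_mul _).symm
  have hmain : ∀ n : ℕ, 1 ≤ n → g n ≤ (∏ p ∈ n.primeFactors, c p) * (n : ℝ) ^ η := by
    intro n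
    induction n using Nat.recOnPosPrimePosCoprime with
    | prime_pow p k hpr hk =>
      intro _
      rw [Nat.primeFactors_prime_pow hk.ne' hpr, Finset.prod_singleton]
      exact hpp p k hpr
    | zero => intro h; omega
    | one => intro _; simpa using g1
    | coprime a b ha hb hab iha ihb =>
      intro _
      have ha' := iha ha.le
      have hb' := ihb hb.le
      rw [hab.primeFactors_mul, Finset.prod_union hab.disjoint_primeFactors, Nat.cast_mul,
        Real.mul_rpow (by positivity) (by positivity)]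
      refine le_trans (hm a b ha.le hb.le hab) ?_
      refine le_trans (mul_le_mul ha' hb' (g0 b) (le_trans (g0 a) ha')) (le_of_eq ?_)
      ring
  refine ⟨A ^ N0, fun n hn => le_trans (hmain n hn) ?_⟩
  gcongr
  have h1 : ∏ p ∈ n.primeFactors, c p ≤ ∏ p ∈ n.primeFactors.filter (fun p => p < N0), A := by
    rw [Finset.prod_filter]
  refine le_trans h1 ?_
  rw [Finset.prod_const]
  apply pow_le_pow_right₀ hA1
  calc _ ≤ (Finset.range N0).card := Finset.card_le_card fun p hp => by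
        simpa using (Finset.mem_filter.1 hp).2
    _ = N0 := Finset.card_range N0

end Pool.Agent.Helper88.BD
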