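import Mathlib
import Pool.Agent.Helper88.BD.Defs
import Pool.Agent.Helper88.BD.MultBound
import Pool.Agent.Helper88.BD.CardMul
import Pool.Agent.Helper88.BD.CardPP
import Pool.Agent.Helper88.BD.Chi

/-!
MP_bd232a_nt, block N8. Ramanujan bound. Proof idea: N8d, N8m, N8p; triangle inequality (finitely many ideals of given norm:
`Ideal.finite_setOf_absNorm_eq`); the only ideal of norm 1 is ⊤ and chi_top.
-/

open Polynomial NumberField MeasureTheory Set
open scoped ComplexConjugate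

namespace Pool.Agent.Helper88.BD

theorem card_ideals {η : ℝ} (hη : 0 < η) : ∃ C : ℝ, ∀ n : ℕ, 1 ≤ n →
    (Nat.card {I : Ideal (𝓞 K) // Ideal.absNorm I = n} : ℝ) ≤ C * (n : ℝ) ^ η := by
  refine mult_bound (fun n => (Nat.card {I : Ideal (𝓞 K) // Ideal.absNorm I = n} : ℝ))
    (fun n => by positivity) ?_ ?_ ?_ hη
  · have h1 : Nat.card {I : Ideal (𝓞 K) // Ideal.absNorm I = 1} ≤ 1 := by
      have hsub : Subsingleton {I : Ideal (𝓞 K) // Ideal.absNorm I = 1} := by
        constructor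
        rintro ⟨I, hI⟩ ⟨J, hJ⟩
        apply Subtype.ext
        change I = J
        rw [Ideal.absNorm_eq_one_iff.1 hI, Ideal.absNorm_eq_one_iff.1 hJ]
      exact Finite.card_le_one_iff_subsingleton.2 hsub
    exact_mod_cast h1
  · intro m n hm hn h
    exact_mod_cast card_mul hm hn h
  · intro p k hp
    exact_mod_cast card_prime_pow hp k

theorem norm_coef (ν : Fin 3 → ℝ) (n : ℕ) :
    ‖coef ν n‖ ≤ (Nat.card {I : Ideal (𝓞 K) // Ideal.absNorm I = n} : ℝ) := by
  unfold coef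
  have hchi : ∀ x, ‖chi ν x‖ = 1 := by
    intro x
    unfold chi
    rw [Complex.norm_exp_ofReal_mul_I]
  rcases Nat.eq_zero_or_pos n with h0 | h0
  · subst h0
    have : IsEmpty {I : Ideal (𝓞 K) // I ≠ ⊥ ∧ Ideal.absNorm I = 0} := by
      constructor
      rintro ⟨I, hI, hI2⟩
      exact hI (Ideal.absNorm_eq_zero_iff.1 hI2)
    rw [tsum_empty]
    simp
  · have hfin : Finite {I : Ideal (𝓞 K) // Ideal.absNorm I = n} :=
      Set.Finite.to_subtype (Ideal.finite_setOfPred_absNorm_eq n)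
    have hfin2 : Finite {I : Ideal (𝓞 K) // I ≠ ⊥ ∧ Ideal.absNorm I = n} :=
      Finite.of_injective (fun I => (⟨I.1, I.2.2⟩ : {I : Ideal (𝓞 K) // Ideal.absNorm I = n}))
        (fun a b h => Subtype.ext (congrArg (fun x => x.1) h))
    have := Fintype.ofFinite {I : Ideal (𝓞 K) // I ≠ ⊥ ∧ Ideal.absNorm I = n}
    rw [tsum_fintype]
    refine (norm_sum_le _ _).trans ?_
    simp only [hchi, Finset.sum_const, nsmul_eq_mul, mul_one]
    rw [Finset.card_univ, ← Nat.card_eq_fintype_card]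
    exact_mod_cast Nat.card_le_card_of_injective
      (fun I : {I : Ideal (𝓞 K) // I ≠ ⊥ ∧ Ideal.absNorm I = n} =>
        (⟨I.1, I.2.2⟩ : {I : Ideal (𝓞 K) // Ideal.absNorm I = n}))
      (fun a b h => Subtype.ext (congrArg (fun x => x.1) h))

theorem coef_zero (ν : Fin 3 → ℝ) : coef ν 0 = 0 := by
  unfold coef
  have : IsEmpty {I : Ideal (𝓞 K) // I ≠ ⊥ ∧ Ideal.absNorm I = 0} := by
    constructor
    rintro ⟨I, hI, hI2⟩
    exact hI (Ideal.absNorm_eq_zero_iff.1 hI2)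
  rw [tsum_empty]

theorem coef_one {ν : Fin 3 → ℝ} (hν : IsNu ν) : coef ν 1 = 1 := by
  unfold coef
  have hU : ∀ I : {I : Ideal (𝓞 K) // I ≠ ⊥ ∧ Ideal.absNorm I = 1}, I.1 = ⊤ :=
    fun I => Ideal.absNorm_eq_one_iff.1 I.2.2
  rw [tsum_eq_single (⟨⊤, top_ne_bot, Ideal.absNorm_eq_one_iff.2 rfl⟩ :
    {I : Ideal (𝓞 K) // I ≠ ⊥ ∧ Ideal.absNorm I = 1})]
  · exact chi_top hν
  · intro I hI
    exact absurd (Subtype.ext (hU I)) hI

end Pool.Agent.Helper88.BD
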