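import Mathlib
import Pool.Agent.Helper88.BD.Defs
import Pool.Agent.Helper88.BD.Units

/-!
MP_bd232a_nt, block A4a. The character of the unit torus. Proof idea: Σ_j ν_j Σ_i y_i L_ij = 2π Σ_i k_i y_i with integers k_i, not both zero if ν ≠ 0 (LM_det);
product of one-dimensional integrals of exp(-2πi k y) over [-1/2,1/2].
-/

open Polynomial NumberField MeasureTheory Set
open scoped ComplexConjugate

namespace Pool.Agent.Helper88.BD

namespace CharAux

theorem ch_exponent (ν : Fin 3 → ℝ) (k : Fin 2 → ℤ) (hk : ∀ i, ∑ j, ν j * L i j = 2 * Real.pi * k i)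
    (y : Fin 2 → ℝ) : ∑ j, ν j * ∑ i, y i * L i j = ∑ i, 2 * Real.pi * k i * y i := by
  calc ∑ j, ν j * ∑ i, y i * L i j = ∑ j, ∑ i, ν j * (y i * L i j) := by
        simp only [Finset.mul_sum]
    _ = ∑ i, ∑ j, ν j * (y i * L i j) := Finset.sum_comm
    _ = ∑ i, (∑ j, ν j * L i j) * y i := by
        refine Finset.sum_congr rfl fun i _ => ?_
        rw [Finset.sum_mul]
        exact Finset.sum_congr rfl fun j _ => by ring
    _ = ∑ i, 2 * Real.pi * k i * y i := Finset.sum_congr rfl fun i _ => by rw [hk i]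

end CharAux

open CharAux in
theorem ch_period {ν : Fin 3 → ℝ} (hν : IsNu ν) (y : Fin 2 → ℝ) (k : Fin 2 → ℤ) :
    ch ν (fun i => y i + k i) = ch ν y := by
  choose n hn using hν.2
  unfold ch
  rw [ch_exponent ν n hn, ch_exponent ν n hn]
  rw [Complex.exp_eq_exp_iff_exists_int]
  refine ⟨-∑ i, n i * k i, ?_⟩
  simp only [Fin.sum_univ_two]
  push_cast
  ring

namespace CharAux

theorem ch_eq_prod {ν : Fin 3 → ℝ} (n : Fin 2 → ℤ) (hn : ∀ i, ∑ j, ν j * L i j = 2 * Real.pi * n i)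
    (y : Fin 2 → ℝ) : ch ν y = ∏ i, Complex.exp ((-(2 * Real.pi * n i) * Complex.I) * (y i : ℂ)) := by
  unfold ch
  rw [ch_exponent ν n hn, ← Complex.exp_sum]
  congr 1
  simp only [Fin.sum_univ_two]
  push_cast
  ring

theorem int_exp_zero {n : ℤ} (hn : n ≠ 0) :
    ∫ t in Icc (-(1 / 2) : ℝ) (1 / 2), Complex.exp ((-(2 * Real.pi * n) * Complex.I) * (t : ℂ)) = 0 := by
  rw [integral_Icc_eq_integral_Ioc, ← intervalIntegral.integral_of_le (by norm_num)]
  have hc : (-(2 * Real.pi * n) * Complex.I : ℂ) ≠ 0 := by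
    have h1 : (n : ℂ) ≠ 0 := by exact_mod_cast hn
    have h2 : (Real.pi : ℂ) ≠ 0 := by exact_mod_cast Real.pi_ne_zero
    simp [h1, h2, Complex.I_ne_zero]
  rw [integral_exp_mul_complex hc]
  have h : Complex.exp (-(2 * Real.pi * n) * Complex.I * ((1 / 2 : ℝ) : ℂ)) =
      Complex.exp (-(2 * Real.pi * n) * Complex.I * ((-(1 / 2) : ℝ) : ℂ)) := by
    rw [Complex.exp_eq_exp_iff_exists_int]
    refine ⟨-n, ?_⟩
    push_cast
    ring
  rw [h, sub_self, zero_div]

end CharAux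

open CharAux in
theorem ch_integral {ν : Fin 3 → ℝ} (hν : IsNu ν) (h0 : ν ≠ 0) : ∫ y in Dm, ch ν y = 0 := by
  choose n hn using hν.2
  have hne : ∃ i, n i ≠ 0 := by
    by_contra hcon
    push Not at hcon
    apply h0
    apply Matrix.eq_zero_of_mulVec_eq_zero LM_det
    funext i
    have h1 := hν.1
    have h2 := hn 0
    have h3 := hn 1
    rw [hcon] at h2 h3
    simp only [Fin.sum_univ_three] at h1 h2 h3
    fin_cases i
    · simp [LM, Matrix.mulVec, dotProduct, Fin.sum_univ_three]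
      linarith
    · simp [LM, Matrix.mulVec, dotProduct, Fin.sum_univ_three]
      simp at h2
      linarith
    · simp [LM, Matrix.mulVec, dotProduct, Fin.sum_univ_three]
      simp at h3
      linarith
  obtain ⟨i, hi⟩ := hne
  have hD : Dm = Set.univ.pi (fun _ : Fin 2 => Icc (-(1 / 2) : ℝ) (1 / 2)) := by
    unfold Dm
    rw [← Set.pi_univ_Icc]
  rw [hD, volume_pi, Measure.restrict_pi_pi]
  simp_rw [ch_eq_prod n hn]
  rw [integral_fintype_prod_eq_prod (fun (i : Fin 2) (t : ℝ) =>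
    Complex.exp ((-(2 * Real.pi * n i) * Complex.I) * (t : ℂ)))]
  exact Finset.prod_eq_zero (Finset.mem_univ i) (int_exp_zero hi)

theorem ch_norm (ν : Fin 3 → ℝ) (y : Fin 2 → ℝ) : ‖ch ν y‖ = 1 := by
  unfold ch
  rw [← neg_mul, ← Complex.ofReal_neg, Complex.norm_exp_ofReal_mul_I]

theorem ch_neg (ν : Fin 3 → ℝ) (y : Fin 2 → ℝ) : ch ν (-y) = ch (-ν) y := by
  unfold ch
  congr 3
  simp [Fin.sum_univ_two, Fin.sum_univ_three]
  ring

end Pool.Agent.Helper88.BD
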