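import Mathlib
import Pool.Agent.Helper88.BD.Defs
import Pool.Agent.Helper88.BD.Coords

/-!
MP_bd232a_nt, block N10. Inert primes. Proof idea: (1) X³+7X²+14X+7 has no root a in F_p: let x in a field extension (AlgebraicClosure or GF(p²)) satisfy
x² - (a+2)x + 1 = 0, i.e. a = (x-1)²/x; then x³ g7(a) = x^6+...+1 = 0 so x^7 = 1, x ≠ 1 (else 7 = 0 in F_p), x in F_{p²} so 7 | p²-1,
contradiction with p mod 7. (2) a cubic without roots is irreducible mod p. (3) 𝓞 K/(p) = F_p[X]/(g7) by N3 (or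
`NumberField.RingOfIntegers` KummerDedekind: ZModXQuotSpanEquivQuotSpan with θ = βi, exponent 1), a field.
-/

open Polynomial NumberField MeasureTheory Set
open scoped ComplexConjugate

namespace Pool.Agent.Helper88.BD

private theorem no_root {p : ℕ} (hp : p.Prime) (h : p % 7 = 2 ∨ p % 7 = 3 ∨ p % 7 = 4 ∨ p % 7 = 5)
    (a : ZMod p) : a ^ 3 + 7 * a ^ 2 + 14 * a + 7 ≠ 0 := by
  intro ha
  have : Fact p.Prime := ⟨hp⟩
  set E := AlgebraicClosure (ZMod p)
  set a' : E := algebraMap (ZMod p) E a with ha'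
  have ha2 : a' ^ 3 + 7 * a' ^ 2 + 14 * a' + 7 = 0 := by
    have := congrArg (algebraMap (ZMod p) E) ha
    rw [map_add, map_add, map_add, map_mul, map_mul, map_pow, map_pow, map_zero,
      map_ofNat (algebraMap (ZMod p) E) 7, map_ofNat (algebraMap (ZMod p) E) 14] at this
    exact this
  have hchar : CharP E p := charP_of_injective_algebraMap (algebraMap (ZMod p) E).injective p
  obtain ⟨x, hx⟩ : ∃ x : E, x ^ 2 - (a' + 2) * x + 1 = 0 := by
    obtain ⟨x, hx⟩ := IsAlgClosed.exists_root (X ^ 2 - C (a' + 2) * X + 1 : E[X]) (by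
      have : (X ^ 2 - C (a' + 2) * X + 1 : E[X]).degree = 2 := by compute_degree!
      rw [this]; decide)
    refine ⟨x, ?_⟩
    simpa [IsRoot] using hx
  have hx0 : x ≠ 0 := by
    rintro rfl
    simp at hx
  have hxa : a' * x = (x - 1) ^ 2 := by linear_combination -hx
  have h7 : x ^ 6 + x ^ 5 + x ^ 4 + x ^ 3 + x ^ 2 + x + 1 = 0 := by
    have h1 : x ^ 3 * (a' ^ 3 + 7 * a' ^ 2 + 14 * a' + 7) = 0 := by rw [ha2, mul_zero]
    have h2 : x ^ 3 * (a' ^ 3 + 7 * a' ^ 2 + 14 * a' + 7) =
      (a' * x) ^ 3 + 7 * (a' * x) ^ 2 * x + 14 * (a' * x) * x ^ 2 + 7 * x ^ 3 := by ring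
    rw [h2, hxa] at h1
    linear_combination h1
  have hx7 : x ^ 7 = 1 := by linear_combination (x - 1) * h7
  have hp7 : ((7 : ℕ) : E) ≠ 0 := by
    intro h0
    rw [CharP.cast_eq_zero_iff E p] at h0
    have h1 := (Nat.prime_dvd_prime_iff_eq hp (by norm_num)).1 h0
    subst h1
    norm_num at h
  have hx1 : x ≠ 1 := by
    rintro rfl
    apply hp7
    push_cast
    linear_combination h7
  -- Frobenius
  have hfrob : (x ^ p) ^ 2 - (a' + 2) * x ^ p + 1 = 0 := by
    have h1 := congrArg (frobenius E p) hx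
    rw [map_add, map_sub, map_mul, map_pow, map_add, map_one, map_zero] at h1
    have h2 : frobenius E p a' = a' := by
      rw [frobenius_def, ha', ← map_pow, ZMod.pow_card]
    have h3 : frobenius E p 2 = 2 := by
      have := map_ofNat (frobenius E p) 2
      exact this
    rw [h2, h3, frobenius_def] at h1
    exact h1
  have hcase : (x ^ p - x) * (x ^ p + x - (a' + 2)) = 0 := by linear_combination hfrob - hx
  have inst7 : Fact (Nat.Prime 7) := ⟨by norm_num⟩
  have hord : orderOf x = 7 := orderOf_eq_prime hx7 hx1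
  rcases mul_eq_zero.1 hcase with h1 | h1
  · -- x^(p-1) = 1
    have h2 : x ^ (p - 1) = 1 := by
      have h3 : x ^ (p - 1) * x = 1 * x := by
        rw [← pow_succ, Nat.sub_add_cancel hp.one_le, one_mul]
        exact sub_eq_zero.1 h1
      exact mul_right_cancel₀ hx0 h3
    have h3 := orderOf_dvd_of_pow_eq_one h2
    rw [hord] at h3
    have := hp.two_le
    omega
  · have h2 : x ^ (p + 1) = 1 := by
      rw [pow_succ]
      linear_combination x * h1 - hx
    have h3 := orderOf_dvd_of_pow_eq_one h2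
    rw [hord] at h3
    omega

private theorem βi_root : βi ^ 3 + 7 * βi ^ 2 + 14 * βi + 7 = 0 := by
  have hb : algebraMap (𝓞 K) K βi = β := rfl
  apply NumberField.RingOfIntegers.coe_injective
  simp only [map_add, map_mul, map_pow, map_ofNat, map_zero, hb]
  exact β_root

theorem inert_prime {p : ℕ} (hp : p.Prime) (h : p % 7 = 2 ∨ p % 7 = 3 ∨ p % 7 = 4 ∨ p % 7 = 5) :
    (Ideal.span {(p : 𝓞 K)}).IsPrime := by
  have inst : Fact p.Prime := ⟨hp⟩
  have hne : Ideal.span {(p : 𝓞 K)} ≠ ⊤ := by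
    intro htop
    rw [Ideal.eq_top_iff_one, Ideal.mem_span_singleton] at htop
    obtain ⟨z, hz⟩ := htop
    obtain ⟨m, rfl⟩ := ofC_bijective.2 z
    have h1 : ofC ![1, 0, 0] = ofC (fun i => (p : ℤ) * m i) := by
      have e1 : ofC ![1, 0, 0] = 1 := by simp [ofC]
      have e2 : ofC (fun i => (p : ℤ) * m i) = (p : 𝓞 K) * ofC m := by
        simp only [ofC]; push_cast; ring
      rw [e1, e2]; exact hz
    have h2 := congrFun (ofC_bijective.1 h1) 0
    simp at h2
    have h3 : (p : ℤ) ∣ 1 := ⟨m 0, h2⟩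
    have h4 : (p : ℤ) ≤ 1 := Int.le_of_dvd one_pos h3
    have := hp.two_le
    omega
  obtain ⟨P, hP, hle⟩ := Ideal.exists_le_maximal _ hne
  have hPp : (p : 𝓞 K) ∈ P := hle (Ideal.mem_span_singleton_self _)
  let _ : Field (𝓞 K ⧸ P) := Ideal.Quotient.field P
  set π := Ideal.Quotient.mk P with hπ
  have hp0 : ((p : ℕ) : 𝓞 K ⧸ P) = 0 := by
    rw [← map_natCast π]; exact Ideal.Quotient.eq_zero_iff_mem.2 hPp
  have hchar : CharP (𝓞 K ⧸ P) p := by
    refine (CharP.charP_iff_prime_eq_zero hp).2 hp0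
  let _ : Algebra (ZMod p) (𝓞 K ⧸ P) := ZMod.algebra _ p
  set b : 𝓞 K ⧸ P := π βi with hb
  have hbroot : b ^ 3 + 7 * b ^ 2 + 14 * b + 7 = 0 := by
    have := congrArg π βi_root
    rw [map_add, map_add, map_add, map_mul, map_mul, map_pow, map_pow, map_zero,
      map_ofNat π 7, map_ofNat π 14] at this
    exact this
  set g : (ZMod p)[X] := X ^ 3 + C 7 * X ^ 2 + C 14 * X + C 7 with hg
  have hgdeg : g.natDegree = 3 := by
    rw [hg]; compute_degree!
  have hgm : g.Monic := by
    rw [hg]; monicity!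
  have hgirr : Irreducible g := by
    rw [hgm.irreducible_iff_roots_eq_zero_of_degree_le_three (by omega) (by omega)]
    refine Multiset.eq_zero_of_forall_notMem fun r hr => ?_
    rw [mem_roots hgm.ne_zero, IsRoot.def] at hr
    apply no_root hp h r
    simpa [hg] using hr
  have hgb : aeval b g = 0 := by
    rw [hg]
    simp only [map_add, map_mul, map_pow, aeval_X, aeval_C]
    have e7 : (algebraMap (ZMod p) (𝓞 K ⧸ P)) 7 = 7 := map_ofNat _ 7
    have e14 : (algebraMap (ZMod p) (𝓞 K ⧸ P)) 14 = 14 := map_ofNat _ 14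
    rw [e7, e14]; exact hbroot
  have hmin : g = minpoly (ZMod p) b := minpoly.eq_of_irreducible_of_monic hgirr hgb hgm
  have hPle : P ≤ Ideal.span {(p : 𝓞 K)} := by
    intro z hz
    obtain ⟨m, rfl⟩ := ofC_bijective.2 z
    have h0 : π (ofC m) = 0 := Ideal.Quotient.eq_zero_iff_mem.2 hz
    have h1 : (m 0 : 𝓞 K ⧸ P) + (m 1 : 𝓞 K ⧸ P) * b + (m 2 : 𝓞 K ⧸ P) * b ^ 2 = 0 := by
      rw [← h0, ofC, map_add, map_add, map_mul, map_mul, map_pow, map_intCast, map_intCast, map_intCast]
    set f : (ZMod p)[X] := C (m 0 : ZMod p) + C (m 1 : ZMod p) * X + C (m 2 : ZMod p) * X ^ 2 with hf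
    have hfb : aeval b f = 0 := by
      rw [hf]
      simp only [map_add, map_mul, map_pow, aeval_X, map_intCast]
      exact h1
    have hdvd : g ∣ f := by
      rw [hmin]; exact minpoly.dvd _ _ hfb
    have hfdeg : f.natDegree ≤ 2 := by
      rw [hf]; compute_degree!
    have hf0 : f = 0 := eq_zero_of_dvd_of_natDegree_lt hdvd (by omega)
    have hc : ∀ i : Fin 3, ((m i : ℤ) : ZMod p) = 0 := by
      intro i
      fin_cases i
      · have := congrArg (fun f => coeff f 0) hf0
        simpa [hf, coeff_X, coeff_X_pow] using this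
      · have := congrArg (fun f => coeff f 1) hf0
        simp only [hf, coeff_add, coeff_C_mul, coeff_C, coeff_X, coeff_X_pow, coeff_zero] at this
        simpa using this
      · have := congrArg (fun f => coeff f 2) hf0
        simp only [hf, coeff_add, coeff_C_mul, coeff_C, coeff_X, coeff_X_pow, coeff_zero] at this
        simpa using this
    have hdv : ∀ i : Fin 3, ∃ k : ℤ, m i = (p : ℤ) * k := fun i =>
      (ZMod.intCast_zmod_eq_zero_iff_dvd (m i) p).1 (hc i)
    choose k hk using hdv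
    rw [Ideal.mem_span_singleton]
    refine ⟨ofC k, ?_⟩
    simp only [ofC]
    rw [hk 0, hk 1, hk 2]
    push_cast; ring
  have heq : Ideal.span {(p : 𝓞 K)} = P := le_antisymm hle hPle
  rw [heq]
  exact hP.isPrime

end Pool.Agent.Helper88.BD
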