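import Mathlib
import Pool.Agent.Helper88.BD.Defs
import Pool.Agent.Helper88.BD.Inert
import Pool.Agent.Helper88.BD.Chi

/-!
MP_bd232a_nt, block N10b. Coefficients at inert primes. Proof idea: (p) is a prime ideal of norm p³ and the only prime ideal containing p, so an ideal I of norm p^k m,
p ∤ m, is (p)^j J with N J prime to p; so k = 3j and N J = m; chi(I) = chi(p)^j chi(J) = chi(J) by chi_nat.
-/

open Polynomial NumberField MeasureTheory Set
open scoped ComplexConjugate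

namespace Pool.Agent.Helper88.BD

theorem absNorm_span_nat (p : ℕ) : Ideal.absNorm (Ideal.span {(p : 𝓞 K)}) = p ^ 3 := by
  rw [Ideal.absNorm_span_singleton]
  have h : (p : 𝓞 K) = algebraMap ℤ (𝓞 K) p := by simp
  rw [h, Algebra.norm_algebraMap, RingOfIntegers.rank, finrank_K, Int.natAbs_pow, Int.natAbs_natCast]

/-- an ideal which is coprime to `p` has norm prime to `p` -/
theorem not_dvd_absNorm {p : ℕ} (hp : p.Prime) {J : Ideal (𝓞 K)}
    (h : J ⊔ Ideal.span {(p : 𝓞 K)} = ⊤) : ¬ p ∣ Ideal.absNorm J := by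
  intro hdvd
  rw [Ideal.absNorm_apply, Submodule.cardQuot_apply] at hdvd
  have : Fact p.Prime := ⟨hp⟩
  by_cases hfin : Finite (𝓞 K ⧸ J)
  · obtain ⟨x, hx⟩ := exists_prime_addOrderOf_dvd_card' p hdvd
    obtain ⟨y, rfl⟩ := Ideal.Quotient.mk_surjective x
    have h1 : (1 : 𝓞 K) ∈ J ⊔ Ideal.span {(p : 𝓞 K)} := by rw [h]; trivial
    obtain ⟨a, ha, b, hb, hab⟩ := Submodule.mem_sup.1 h1
    obtain ⟨c, rfl⟩ := Ideal.mem_span_singleton'.1 hb
    have h2 : p • (Ideal.Quotient.mk J) y = 0 := by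
      rw [← hx]; exact addOrderOf_nsmul_eq_zero _
    have h3 : (Ideal.Quotient.mk J) y = 0 := by
      have h4 : y = a * y + c * (p * y) := by
        calc y = 1 * y := (one_mul y).symm
          _ = (a + c * p) * y := by rw [hab]
          _ = a * y + c * (p * y) := by ring
      have h5 : (Ideal.Quotient.mk J) (a * y) = 0 :=
        Ideal.Quotient.eq_zero_iff_mem.2 (J.mul_mem_right _ ha)
      have h6 : (Ideal.Quotient.mk J) ((p : 𝓞 K) * y) = 0 := by
        rw [map_mul, map_natCast, ← nsmul_eq_mul]; exact h2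
      rw [h4, map_add, h5, zero_add, map_mul, h6, mul_zero]
    rw [h3, addOrderOf_zero] at hx
    exact hp.one_lt.ne hx
  · -- the quotient is finite
    have hJ : J = ⊥ := by
      by_contra hne
      exact hfin (Ideal.finiteQuotientOfFreeOfNeBot J hne)
    rw [hJ, bot_sup_eq, Ideal.span_singleton_eq_top] at h
    have h1 := Ideal.absNorm_eq_one_iff.2 (Ideal.span_singleton_eq_top.2 h)
    rw [absNorm_span_nat] at h1
    exact (Nat.one_lt_pow (by norm_num) hp.one_lt).ne' h1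

theorem inert_decomp {p : ℕ} (hp : p.Prime)
    (hP : (Ideal.span {(p : 𝓞 K)}).IsPrime) {I : Ideal (𝓞 K)} (hI : I ≠ ⊥) :
    ∃ (j : ℕ) (J : Ideal (𝓞 K)), I = Ideal.span {(p : 𝓞 K)} ^ j * J ∧ J ≠ ⊥ ∧
      ¬ p ∣ Ideal.absNorm J := by
  have hfin : FiniteMultiplicity (Ideal.span {(p : 𝓞 K)}) I := by
    apply FiniteMultiplicity.of_not_isUnit _ hI
    rw [Ideal.isUnit_iff]
    exact hP.ne_top
  obtain ⟨J, hJ, hnd⟩ := hfin.exists_eq_pow_mul_and_not_dvd
  refine ⟨_, J, hJ, ?_, ?_⟩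
  · rintro rfl
    rw [Ideal.mul_bot] at hJ
    exact hI hJ
  · apply not_dvd_absNorm hp
    have hp0 : (p : 𝓞 K) ≠ 0 := by exact_mod_cast hp.ne_zero
    have hPb : Ideal.span {(p : 𝓞 K)} ≠ ⊥ := by
      rw [Ne, Ideal.span_singleton_eq_bot]; exact hp0
    have hmax : (Ideal.span {(p : 𝓞 K)}).IsMaximal := hP.isMaximal hPb
    rw [Ideal.dvd_iff_le] at hnd
    apply hmax.1.2
    apply lt_of_le_of_ne le_sup_right
    intro heq
    apply hnd
    rw [heq]
    exact le_sup_left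

theorem pow_mul_inj {p a b x y : ℕ} (hp : p.Prime) (hx : ¬ p ∣ x) (hy : ¬ p ∣ y)
    (h : p ^ a * x = p ^ b * y) : a = b ∧ x = y := by
  have key : ∀ a b x y : ℕ, ¬ p ∣ x → p ^ a * x = p ^ b * y → b ≤ a := by
    intro a b x y hx h
    by_contra hlt
    rw [not_le] at hlt
    obtain ⟨c, rfl⟩ := Nat.exists_eq_add_of_lt hlt
    rw [show a + c + 1 = a + (c + 1) by ring, pow_add, mul_assoc] at h
    have h1 := Nat.eq_of_mul_eq_mul_left (pow_pos hp.pos a) h
    apply hx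
    rw [h1, pow_succ]
    exact ⟨p ^ c * y, by ring⟩
  have hab : a = b := le_antisymm (key b a y x hy h.symm) (key a b x y hx h)
  subst hab
  exact ⟨rfl, Nat.eq_of_mul_eq_mul_left (pow_pos hp.pos a) h⟩

theorem chi_inert_pow {ν : Fin 3 → ℝ} (hν : IsNu ν) {p : ℕ} (hp : p.Prime) (j : ℕ)
    {J : Ideal (𝓞 K)} (hJ : J ≠ ⊥) :
    chi ν (ga (Ideal.span {(p : 𝓞 K)} ^ j * J)) = chi ν (ga J) := by
  have hp0 : (p : 𝓞 K) ≠ 0 := by exact_mod_cast hp.ne_zero
  have hPb : Ideal.span {(p : 𝓞 K)} ≠ ⊥ := by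
    rw [Ne, Ideal.span_singleton_eq_bot]; exact hp0
  induction j with
  | zero => rw [pow_zero, one_mul]
  | succ j ih =>
    have h1 : Ideal.span {(p : 𝓞 K)} ^ j * J ≠ ⊥ := by
      intro h
      rcases Ideal.mul_eq_bot.1 h with h | h
      · exact pow_ne_zero j hPb h
      · exact hJ h
    rw [pow_succ', mul_assoc, chi_mul hν hPb h1, chi_nat hν hp.ne_zero, one_mul, ih]

theorem coef_inert {ν : Fin 3 → ℝ} (hν : IsNu ν) {p : ℕ} (hp : p.Prime)
    (h : p % 7 = 2 ∨ p % 7 = 3 ∨ p % 7 = 4 ∨ p % 7 = 5) {m : ℕ} (hm : ¬ p ∣ m) (k : ℕ) :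
    coef ν (p ^ k * m) = if 3 ∣ k then coef ν m else 0 := by
  have hP := inert_prime hp h
  have hp0 : (p : 𝓞 K) ≠ 0 := by exact_mod_cast hp.ne_zero
  have hPb : Ideal.span {(p : 𝓞 K)} ≠ ⊥ := by
    rw [Ne, Ideal.span_singleton_eq_bot]; exact hp0
  have hnorm : ∀ (j : ℕ) (J : Ideal (𝓞 K)),
      Ideal.absNorm (Ideal.span {(p : 𝓞 K)} ^ j * J) = p ^ (3 * j) * Ideal.absNorm J := by
    intro j J
    rw [map_mul, map_pow, absNorm_span_nat, ← pow_mul]
  have hdec : ∀ I : {I : Ideal (𝓞 K) // I ≠ ⊥ ∧ Ideal.absNorm I = p ^ k * m},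
      ∃ (j : ℕ) (J : Ideal (𝓞 K)), I.1 = Ideal.span {(p : 𝓞 K)} ^ j * J ∧ J ≠ ⊥ ∧
        3 * j = k ∧ Ideal.absNorm J = m := by
    rintro ⟨I, hI, hn⟩
    obtain ⟨j, J, hIJ, hJ, hnd⟩ := inert_decomp hp hP hI
    have h1 : p ^ (3 * j) * Ideal.absNorm J = p ^ k * m := by
      rw [← hnorm, ← hIJ, hn]
    obtain ⟨h2, h3⟩ := pow_mul_inj hp hnd hm h1
    exact ⟨j, J, hIJ, hJ, h2, h3⟩
  split_ifs with h3
  · obtain ⟨j, rfl⟩ := h3
    have hne : ∀ J : Ideal (𝓞 K), J ≠ ⊥ → Ideal.span {(p : 𝓞 K)} ^ j * J ≠ ⊥ := by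
      intro J hJ h
      rcases Ideal.mul_eq_bot.1 h with h | h
      · exact pow_ne_zero j hPb h
      · exact hJ h
    let e : {J : Ideal (𝓞 K) // J ≠ ⊥ ∧ Ideal.absNorm J = m} →
        {I : Ideal (𝓞 K) // I ≠ ⊥ ∧ Ideal.absNorm I = p ^ (3 * j) * m} :=
      fun J => ⟨Ideal.span {(p : 𝓞 K)} ^ j * J.1, hne J.1 J.2.1, by rw [hnorm, J.2.2]⟩
    have he : Function.Bijective e := by
      constructor
      · intro J J' hJJ
        have h1 : Ideal.span {(p : 𝓞 K)} ^ j * J.1 = Ideal.span {(p : 𝓞 K)} ^ j * J'.1 :=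
          congrArg Subtype.val hJJ
        apply Subtype.ext
        exact mul_left_cancel₀ (pow_ne_zero j hPb) h1
      · intro I
        obtain ⟨j', J, hIJ, hJ, hj, hn⟩ := hdec I
        have : j' = j := by omega
        subst this
        exact ⟨⟨J, hJ, hn⟩, Subtype.ext hIJ.symm⟩
    unfold coef
    rw [← (Equiv.ofBijective e he).tsum_eq]
    apply tsum_congr
    intro J
    exact chi_inert_pow hν hp j J.2.1
  · unfold coef
    have hemp : IsEmpty {I : Ideal (𝓞 K) // I ≠ ⊥ ∧ Ideal.absNorm I = p ^ k * m} := by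
      constructor
      intro I
      obtain ⟨j, J, -, -, hj, -⟩ := hdec I
      exact h3 ⟨j, hj.symm⟩
    exact tsum_empty

end Pool.Agent.Helper88.BD
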