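import Mathlib
import Pool.Agent.Helper88.BD.Defs

/-!
MP_bd232a_nt, block A1. Gaussian sums. Proof idea: Σ_j (emb m j)² ≥ κ0 Σ_i m_i² (the Vandermonde matrix of rt is invertible: rt_injective), κ0 > 0;
Σ_m exp(-a Σ m_i²) = (Σ_n exp(-a n²))³ converges; for t_j ≥ T ≥ 1 and m ≠ 0: exp(-π Σ t_j c_j emb²) ≤ exp(-κ T) exp(-κ Σ m_i²) with 2κ = π κ0 min c_j.
(helper77)
-/

open Polynomial NumberField MeasureTheory Set
open scoped ComplexConjugate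

namespace Pool.Agent.Helper88.BD

namespace Gau

/-- the Vandermonde matrix -/
noncomputable def VM : Matrix (Fin 3) (Fin 3) ℝ := Matrix.vandermonde rt

theorem VM_det : VM.det ≠ 0 := Matrix.det_vandermonde_ne_zero_iff.2 rt_injective

theorem VM_apply (x : Fin 3 → ℝ) (j : Fin 3) : VM.mulVec x j = x 0 + x 1 * rt j + x 2 * rt j ^ 2 := by
  simp only [Matrix.mulVec, dotProduct, Fin.sum_univ_three, VM, Matrix.vandermonde_apply, Fin.val_zero, Fin.val_one,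
    Fin.val_two, pow_zero, pow_one]
  ring

theorem real_lower : ∃ κ : ℝ, 0 < κ ∧ ∀ x : Fin 3 → ℝ, κ * ∑ i, x i ^ 2 ≤ ∑ j, (x 0 + x 1 * rt j + x 2 * rt j ^ 2) ^ 2 := by
  set L : (Fin 3 → ℝ) →L[ℝ] (Fin 3 → ℝ) := LinearMap.toContinuousLinearMap (Matrix.toLin' VM⁻¹) with hL
  have hLx : ∀ x, L (VM.mulVec x) = x := by
    intro x
    rw [hL, LinearMap.coe_toContinuousLinearMap', Matrix.toLin'_apply, Matrix.mulVec_mulVec,
      Matrix.nonsing_inv_mul VM (isUnit_iff_ne_zero.2 VM_det), Matrix.one_mulVec]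
  have hK : 0 < ‖L‖ ^ 2 + 1 := by positivity
  refine ⟨(3 * (‖L‖ ^ 2 + 1))⁻¹, by positivity, fun x => ?_⟩
  rw [inv_mul_le_iff₀ (by positivity)]
  have h1 : ∀ y : Fin 3 → ℝ, ∑ i, y i ^ 2 ≤ 3 * ‖y‖ ^ 2 := by
    intro y
    have : ∀ i, y i ^ 2 ≤ ‖y‖ ^ 2 := fun i => by
      rw [← sq_abs]
      exact pow_le_pow_left₀ (abs_nonneg _) (norm_le_pi_norm y i) 2
    calc ∑ i, y i ^ 2 ≤ ∑ _i : Fin 3, ‖y‖ ^ 2 := Finset.sum_le_sum fun i _ => this i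
      _ = 3 * ‖y‖ ^ 2 := by simp
  have h2 : ∀ y : Fin 3 → ℝ, ‖y‖ ^ 2 ≤ ∑ i, y i ^ 2 := by
    intro y
    have h0 : 0 ≤ ∑ i, y i ^ 2 := Finset.sum_nonneg fun i _ => sq_nonneg _
    have : ‖y‖ ≤ Real.sqrt (∑ i, y i ^ 2) := by
      refine (pi_norm_le_iff_of_nonneg (Real.sqrt_nonneg _)).2 fun i => ?_
      refine Real.le_sqrt_of_sq_le ?_
      rw [Real.norm_eq_abs, sq_abs]
      exact Finset.single_le_sum (f := fun i => y i ^ 2) (fun i _ => sq_nonneg _) (Finset.mem_univ i)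
    calc ‖y‖ ^ 2 ≤ Real.sqrt (∑ i, y i ^ 2) ^ 2 := pow_le_pow_left₀ (norm_nonneg _) this 2
      _ = _ := Real.sq_sqrt h0
  have h3 : ‖x‖ ≤ ‖L‖ * ‖VM.mulVec x‖ := by
    calc ‖x‖ = ‖L (VM.mulVec x)‖ := by rw [hLx]
      _ ≤ _ := L.le_opNorm _
  have h4 : ‖x‖ ^ 2 ≤ ‖L‖ ^ 2 * ‖VM.mulVec x‖ ^ 2 := by
    rw [← mul_pow]
    exact pow_le_pow_left₀ (norm_nonneg _) h3 2
  have h5 := h2 (VM.mulVec x)
  simp only [VM_apply] at h5
  calc ∑ i, x i ^ 2 ≤ 3 * ‖x‖ ^ 2 := h1 x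
    _ ≤ 3 * (‖L‖ ^ 2 * ‖VM.mulVec x‖ ^ 2) := by gcongr
    _ ≤ 3 * ((‖L‖ ^ 2 + 1) * ‖VM.mulVec x‖ ^ 2) := by gcongr; linarith
    _ ≤ 3 * ((‖L‖ ^ 2 + 1) * ∑ j, (x 0 + x 1 * rt j + x 2 * rt j ^ 2) ^ 2) := by gcongr
    _ = _ := by ring

theorem summable_one {a : ℝ} (ha : 0 < a) : Summable (fun n : ℤ => Real.exp (-(a * (n : ℝ) ^ 2))) := by
  have h := (summable_pow_mul_jacobiTheta₂_term_bound 0 (T := a / Real.pi) (div_pos ha Real.pi_pos) 0)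
  refine h.congr fun n => ?_
  simp only [pow_zero, one_mul]
  congr 1
  field_simp
  ring

theorem summable_cube {a : ℝ} (ha : 0 < a) : Summable (fun m : Fin 3 → ℤ => Real.exp (-(a * ∑ i, (m i : ℝ) ^ 2))) := by
  have h1 := summable_one ha
  have h2 : Summable (fun p : ℤ × ℤ => Real.exp (-(a * (p.1 : ℝ) ^ 2)) * Real.exp (-(a * (p.2 : ℝ) ^ 2))) :=
    h1.mul_of_nonneg h1 (fun _ => (Real.exp_pos _).le) (fun _ => (Real.exp_pos _).le)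
  have h3 : Summable (fun p : ℤ × (ℤ × ℤ) => Real.exp (-(a * (p.1 : ℝ) ^ 2)) *
      (Real.exp (-(a * (p.2.1 : ℝ) ^ 2)) * Real.exp (-(a * (p.2.2 : ℝ) ^ 2)))) :=
    h1.mul_of_nonneg h2 (fun _ => (Real.exp_pos _).le) (fun _ => mul_nonneg (Real.exp_pos _).le (Real.exp_pos _).le)
  set e : (Fin 3 → ℤ) → ℤ × (ℤ × ℤ) := fun m => (m 0, (m 1, m 2)) with he
  have hinj : Function.Injective e := by
    intro m n h
    simp only [he, Prod.mk.injEq] at h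
    funext i
    fin_cases i
    · exact h.1
    · exact h.2.1
    · exact h.2.2
  refine (h3.comp_injective hinj).congr fun m => ?_
  simp only [Function.comp, he, Fin.sum_univ_three]
  rw [← Real.exp_add, ← Real.exp_add]
  congr 1
  ring

theorem low3 {c : Fin 3 → ℝ} (hc : ∀ j, 0 < c j) : ∃ κ : ℝ, 0 < κ ∧ ∀ j, κ ≤ c j := by
  refine ⟨min (c 0) (min (c 1) (c 2)), lt_min (hc 0) (lt_min (hc 1) (hc 2)), fun j => ?_⟩
  fin_cases j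
  · exact min_le_left _ _
  · exact (min_le_right _ _).trans (min_le_left _ _)
  · exact (min_le_right _ _).trans (min_le_right _ _)

end Gau

open Gau

theorem emb_lower : ∃ κ : ℝ, 0 < κ ∧ ∀ m : Fin 3 → ℤ, κ * ∑ i, (m i : ℝ) ^ 2 ≤ ∑ j, emb m j ^ 2 := by
  obtain ⟨κ, h1, h2⟩ := real_lower
  exact ⟨κ, h1, fun m => h2 (fun i => (m i : ℝ))⟩

theorem gau_bound {c : Fin 3 → ℝ} (hc : ∀ j, 0 < c j) : ∃ κ : ℝ, 0 < κ ∧ ∀ (t : Fin 3 → ℝ) (T : ℝ), 0 ≤ T →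
    (∀ j, T ≤ t j) → ∀ m, gau c t m ≤ Real.exp (-(κ * T * ∑ i, (m i : ℝ) ^ 2)) := by
  obtain ⟨κ, h1, h2⟩ := emb_lower
  obtain ⟨k, h3, h4⟩ := low3 hc
  refine ⟨Real.pi * (k * κ), by positivity, fun t T hT ht m => ?_⟩
  unfold gau
  apply Real.exp_le_exp.2
  have h5 : T * k * ∑ j, emb m j ^ 2 ≤ ∑ j, t j * c j * emb m j ^ 2 := by
    rw [Finset.mul_sum]
    refine Finset.sum_le_sum fun j _ => ?_
    exact mul_le_mul_of_nonneg_right (mul_le_mul (ht j) (h4 j) h3.le (hT.trans (ht j))) (sq_nonneg _)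
  have h6 : T * k * (κ * ∑ i, (m i : ℝ) ^ 2) ≤ T * k * ∑ j, emb m j ^ 2 :=
    mul_le_mul_of_nonneg_left (h2 m) (by positivity)
  have h7 := mul_le_mul_of_nonneg_left (h6.trans h5) Real.pi_pos.le
  have : Real.pi * (k * κ) * T * ∑ i, (m i : ℝ) ^ 2 = Real.pi * (T * k * (κ * ∑ i, (m i : ℝ) ^ 2)) := by ring
  rw [this]
  linarith

theorem gau_pos (c t : Fin 3 → ℝ) (m : Fin 3 → ℤ) : 0 < gau c t m := Real.exp_pos _

theorem gau_summable {c t : Fin 3 → ℝ} (hc : ∀ j, 0 < c j) (ht : ∀ j, 0 < t j) : Summable (gau c t) := by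
  obtain ⟨κ, h1, h2⟩ := gau_bound hc
  obtain ⟨T, h3, h4⟩ := low3 ht
  exact Summable.of_nonneg_of_le (fun m => (gau_pos c t m).le) (fun m => h2 t T h3.le h4 m) (summable_cube (mul_pos h1 h3))

theorem gau_mono {c t t' : Fin 3 → ℝ} (hc : ∀ j, 0 < c j) (h : ∀ j, t j ≤ t' j) (m : Fin 3 → ℤ) :
    gau c t' m ≤ gau c t m := by
  unfold gau
  apply Real.exp_le_exp.2
  have : ∑ j, t j * c j * emb m j ^ 2 ≤ ∑ j, t' j * c j * emb m j ^ 2 := by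
    refine Finset.sum_le_sum fun j _ => ?_
    exact mul_le_mul_of_nonneg_right (mul_le_mul_of_nonneg_right (h j) (hc j).le) (sq_nonneg _)
  have := mul_le_mul_of_nonneg_left this Real.pi_pos.le
  linarith

theorem gau_tail {c : Fin 3 → ℝ} (hc : ∀ j, 0 < c j) : ∃ C κ : ℝ, 0 < κ ∧ ∀ (t : Fin 3 → ℝ) (T : ℝ), 1 ≤ T →
    (∀ j, T ≤ t j) → ∑' m : {m : Fin 3 → ℤ // m ≠ 0}, gau c t m.1 ≤ C * Real.exp (-(κ * T)) := by
  obtain ⟨κ, h1, h2⟩ := gau_bound hc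
  have hs := summable_cube (a := κ / 2) (by positivity)
  refine ⟨∑' m : Fin 3 → ℤ, Real.exp (-(κ / 2 * ∑ i, (m i : ℝ) ^ 2)), κ / 2, by positivity, fun t T hT ht => ?_⟩
  have hb : ∀ m : {m : Fin 3 → ℤ // m ≠ 0}, gau c t m.1 ≤ Real.exp (-(κ / 2 * ∑ i, (m.1 i : ℝ) ^ 2)) * Real.exp (-(κ / 2 * T)) := by
    intro m
    refine (h2 t T (by linarith) ht m.1).trans ?_
    rw [← Real.exp_add]
    apply Real.exp_le_exp.2
    have h3 : 1 ≤ ∑ i, (m.1 i : ℝ) ^ 2 := by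
      obtain ⟨i, hi⟩ := Function.ne_iff.1 m.2
      have h4 : (1 : ℝ) ≤ (m.1 i : ℝ) ^ 2 := by
        have h5 : 0 < (m.1 i) ^ 2 := by
          have : m.1 i ≠ 0 := hi
          positivity
        exact_mod_cast h5
      exact h4.trans (Finset.single_le_sum (f := fun i => (m.1 i : ℝ) ^ 2) (fun i _ => sq_nonneg _) (Finset.mem_univ i))
    nlinarith [mul_le_mul_of_nonneg_left h3 (by positivity : (0 : ℝ) ≤ κ / 2 * T),
      mul_le_mul_of_nonneg_right hT (by positivity : (0 : ℝ) ≤ κ / 2 * ∑ i, (m.1 i : ℝ) ^ 2)]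
  have hs2 : Summable (fun m : {m : Fin 3 → ℤ // m ≠ 0} => Real.exp (-(κ / 2 * ∑ i, (m.1 i : ℝ) ^ 2)) * Real.exp (-(κ / 2 * T))) :=
    (hs.subtype _).mul_right _
  have hs3 : Summable (fun m : {m : Fin 3 → ℤ // m ≠ 0} => gau c t m.1) :=
    Summable.of_nonneg_of_le (fun m => (gau_pos c t m.1).le) hb hs2
  calc ∑' m : {m : Fin 3 → ℤ // m ≠ 0}, gau c t m.1
      ≤ ∑' m : {m : Fin 3 → ℤ // m ≠ 0}, Real.exp (-(κ / 2 * ∑ i, (m.1 i : ℝ) ^ 2)) * Real.exp (-(κ / 2 * T)) :=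
        hs3.tsum_le_tsum hb hs2
    _ = (∑' m : {m : Fin 3 → ℤ // m ≠ 0}, Real.exp (-(κ / 2 * ∑ i, (m.1 i : ℝ) ^ 2))) * Real.exp (-(κ / 2 * T)) := tsum_mul_right
    _ ≤ _ := by
      refine mul_le_mul_of_nonneg_right ?_ (Real.exp_pos _).le
      exact hs.tsum_subtype_le (fun m : Fin 3 → ℤ => Real.exp (-(κ / 2 * ∑ i, (m i : ℝ) ^ 2))) {m | m ≠ 0} (fun _ => (Real.exp_pos _).le)

end Pool.Agent.Helper88.BD
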