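import Mathlib
import Pool.Agent.Helper88.BD.Defs
import Pool.Agent.Helper88.BD.Gau

/-!
MP_bd232a_nt, block A3. Continuity. Proof idea: (τ,y) ↦ Th W c (tt τ y) is continuous on (0,∞)×ℝ² (continuousOn_tsum, dominated by B gau c (τ0 e^{-a}..) via gau_mono,
gau_summable), then the integral over the compact Dm. (helper77)
-/

open Polynomial NumberField MeasureTheory Set
open scoped ComplexConjugate

namespace Pool.Agent.Helper88.BD

theorem Th_continuousOn {W : (Fin 3 → ℤ) → ℂ} {B : ℝ} (hW : ∀ m, ‖W m‖ ≤ B)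
    {c : Fin 3 → ℝ} (hc : ∀ j, 0 < c j) :
    ContinuousOn (fun p : ℝ × (Fin 2 → ℝ) => Th W c (tt p.1 p.2)) (Ioi 0 ×ˢ univ) := by
  intro p₀ hp₀
  have hpos : 0 < p₀.1 := (Set.mem_prod.1 hp₀).1
  have htc : ∀ j, Continuous (fun p : ℝ × (Fin 2 → ℝ) => tt p.1 p.2 j) := by
    intro j
    unfold tt
    fun_prop
  set s : Fin 3 → ℝ := fun j => tt p₀.1 p₀.2 j / 2 with hs
  have htp : ∀ j, 0 < tt p₀.1 p₀.2 j := fun j => by
    unfold tt
    positivity
  have hsp : ∀ j, 0 < s j := fun j => half_pos (htp j)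
  set U : Set (ℝ × (Fin 2 → ℝ)) := ⋂ j, {p | s j < tt p.1 p.2 j} with hU
  have hUo : IsOpen U := isOpen_iInter_of_finite fun j => isOpen_lt continuous_const (htc j)
  have hp₀U : p₀ ∈ U := by
    rw [hU, mem_iInter]
    intro j
    have := htp j
    simp only [mem_setOf_eq, hs]
    linarith
  have hon : ContinuousOn (fun p : ℝ × (Fin 2 → ℝ) => Th W c (tt p.1 p.2)) U := by
    unfold Th
    refine continuousOn_tsum (u := fun m => B * gau c s m) ?_ ((gau_summable hc hsp).mul_left B) ?_
    · intro m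
      refine Continuous.continuousOn ?_
      have : Continuous (fun p : ℝ × (Fin 2 → ℝ) => gau c (tt p.1 p.2) m) := by
        unfold gau
        have h0 := htc 0
        have h1 := htc 1
        have h2 := htc 2
        simp only [Fin.sum_univ_three]
        fun_prop
      fun_prop
    · intro m p hp
      rw [hU, mem_iInter] at hp
      rw [norm_mul]
      have hg : ‖((gau c (tt p.1 p.2) m : ℝ) : ℂ)‖ ≤ gau c s m := by
        rw [Complex.norm_real, Real.norm_of_nonneg (gau_pos _ _ _).le]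
        exact gau_mono hc (fun j => (hp j).le) m
      exact mul_le_mul (hW m) hg (norm_nonneg _) ((norm_nonneg _).trans (hW m))
  exact (hon.continuousAt (hUo.mem_nhds hp₀U)).continuousWithinAt

theorem gen_continuousOn {f : ℝ → (Fin 2 → ℝ) → ℂ} (hf : ContinuousOn (Function.uncurry f) (Ioi 0 ×ˢ univ))
    {k : Set (Fin 2 → ℝ)} (hk : IsCompact k) : ContinuousOn (fun τ => ∫ y in k, f τ y) (Ioi 0) := by
  rw [continuousOn_iff_continuous_restrict]
  have hf' : Continuous (Function.uncurry (fun (τ : Ioi (0 : ℝ)) (y : Fin 2 → ℝ) => f τ.1 y)) := by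
    have hg : Continuous (fun q : (Ioi (0 : ℝ)) × (Fin 2 → ℝ) => ((q.1.1, q.2) : ℝ × (Fin 2 → ℝ))) :=
      (continuous_subtype_val.comp continuous_fst).prodMk continuous_snd
    exact hf.comp_continuous hg (fun q => ⟨q.1.2, mem_univ _⟩)
  haveI : LocallyCompactSpace (Ioi (0 : ℝ)) := isOpen_Ioi.locallyCompactSpace
  exact continuous_parametric_integral_of_continuous hf' hk

theorem ch_cont (ν : Fin 3 → ℝ) : Continuous (ch ν) := by
  unfold ch
  refine Complex.continuous_exp.comp (Continuous.neg (Continuous.mul (Complex.continuous_ofReal.comp ?_) continuous_const))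
  refine continuous_finsetSum _ fun j _ => continuous_const.mul ?_
  exact continuous_finsetSum _ fun i _ => (continuous_apply i).mul continuous_const

theorem fW_continuousOn (ν : Fin 3 → ℝ) {W : (Fin 3 → ℤ) → ℂ} {B : ℝ} (hW : ∀ m, ‖W m‖ ≤ B)
    {c : Fin 3 → ℝ} (hc : ∀ j, 0 < c j) : ContinuousOn (fW ν W c) (Ioi 0) := by
  have hTh := Th_continuousOn hW hc
  refine gen_continuousOn (f := fun τ y => Th W c (tt τ y) * ch ν y) ?_ isCompact_Icc
  exact hTh.mul ((ch_cont ν).comp continuous_snd).continuousOn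

end Pool.Agent.Helper88.BD
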