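import Mathlib
import Pool.Agent.Helper88.BD.Defs
import Pool.Agent.Helper88.BD.Gau
import Pool.Agent.Helper88.BD.Char
import Pool.Agent.Helper88.BD.Cont

/-!
MP_bd232a_nt, block A4. Rapid decay. Proof idea: the m = 0 term integrates to 0 (ch_integral); the rest is ≤ B Σ_{m≠0} gau c (tt τ y) m; tt τ y j ≥ τ e^{-a} on Dm;
write t = tt τ y * e^a, c' = c e^{-a} and use gau_tail for c' with T = τ.
-/

open Polynomial NumberField MeasureTheory Set
open scoped ComplexConjugate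

namespace Pool.Agent.Helper88.BD

private theorem tt_pos_decay {τ : ℝ} (hτ : 0 < τ) (y : Fin 2 → ℝ) (j : Fin 3) : 0 < tt τ y j :=
  mul_pos hτ (Real.exp_pos _)

private theorem gau_pos_decay (c t : Fin 3 → ℝ) (m : Fin 3 → ℤ) : 0 < gau c t m := Real.exp_pos _

private theorem gau_zero_decay (c t : Fin 3 → ℝ) : gau c t 0 = 1 := by
  unfold gau emb
  simp

private theorem summable_decay {W : (Fin 3 → ℤ) → ℂ} {B : ℝ} (hW : ∀ m, ‖W m‖ ≤ B)
    {c t : Fin 3 → ℝ} (hc : ∀ j, 0 < c j) (ht : ∀ j, 0 < t j) :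
    Summable (fun m : Fin 3 → ℤ => W m * (gau c t m : ℂ)) := by
  apply Summable.of_norm_bounded ((gau_summable hc ht).mul_left B)
  intro m
  rw [norm_mul, Complex.norm_real, Real.norm_of_nonneg (gau_pos_decay c t m).le]
  exact mul_le_mul_of_nonneg_right (hW m) (gau_pos_decay c t m).le

private theorem ch_cont_decay (ν : Fin 3 → ℝ) : Continuous (ch ν) := by
  unfold ch
  fun_prop

theorem fW_eq {ν : Fin 3 → ℝ} (hν : IsNu ν) (h0 : ν ≠ 0) {W : (Fin 3 → ℤ) → ℂ} {B : ℝ} (hW : ∀ m, ‖W m‖ ≤ B)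
    {c : Fin 3 → ℝ} (hc : ∀ j, 0 < c j) {τ : ℝ} (hτ : 0 < τ) :
    fW ν W c τ = ∫ y in Dm, (∑' m : {m : Fin 3 → ℤ // m ≠ 0}, W m.1 * (gau c (tt τ y) m.1 : ℂ)) * ch ν y := by
  have hTh : ∀ y : Fin 2 → ℝ, Th W c (tt τ y) =
      W 0 + ∑' m : {m : Fin 3 → ℤ // m ≠ 0}, W m.1 * (gau c (tt τ y) m.1 : ℂ) := by
    intro y
    have hs := summable_decay hW hc (fun j => tt_pos_decay hτ y j)
    have h1 := hs.tsum_subtype_add_tsum_subtype_compl {0}
    rw [tsum_singleton (0 : Fin 3 → ℤ) (fun m => W m * (gau c (tt τ y) m : ℂ)), gau_zero_decay,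
      Complex.ofReal_one, mul_one] at h1
    exact h1.symm
  have hcomp : IsCompact Dm := isCompact_Icc
  have hc1 : Continuous (fun y : Fin 2 → ℝ => Th W c (tt τ y)) := by
    have hg : Continuous (fun y : Fin 2 → ℝ => ((τ, y) : ℝ × (Fin 2 → ℝ))) := by fun_prop
    have h := (Th_continuousOn hW hc).comp_continuous hg (fun y => ⟨hτ, mem_univ _⟩)
    exact h
  have hi1 : IntegrableOn (fun y => Th W c (tt τ y) * ch ν y) Dm := by
    have h2 : Continuous (fun y => Th W c (tt τ y) * ch ν y) := hc1.mul (ch_cont_decay ν)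
    exact h2.continuousOn.integrableOn_compact hcomp
  have hi2 : IntegrableOn (fun y => W 0 * ch ν y) Dm := by
    have h2 : Continuous (fun y => W 0 * ch ν y) := continuous_const.mul (ch_cont_decay ν)
    exact h2.continuousOn.integrableOn_compact hcomp
  have h2 : ∀ y : Fin 2 → ℝ, (∑' m : {m : Fin 3 → ℤ // m ≠ 0}, W m.1 * (gau c (tt τ y) m.1 : ℂ)) * ch ν y =
      Th W c (tt τ y) * ch ν y - W 0 * ch ν y := by
    intro y
    rw [hTh y]; ring
  simp only [h2]
  rw [integral_sub hi1 hi2]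
  have h3 : ∫ y in Dm, W 0 * ch ν y = W 0 * ∫ y in Dm, ch ν y := integral_const_mul _ _
  rw [h3, ch_integral hν h0, mul_zero, sub_zero]
  rfl

theorem fW_decay {ν : Fin 3 → ℝ} (hν : IsNu ν) (h0 : ν ≠ 0) {W : (Fin 3 → ℤ) → ℂ} {B : ℝ} (hW : ∀ m, ‖W m‖ ≤ B)
    {c : Fin 3 → ℝ} (hc : ∀ j, 0 < c j) :
    ∃ C κ : ℝ, 0 < κ ∧ ∀ τ : ℝ, 1 ≤ τ → ‖fW ν W c τ‖ ≤ C * Real.exp (-(κ * τ)) := by
  obtain ⟨a, ha⟩ : ∃ a, a = ∑ i, ∑ j, |L i j| := ⟨_, rfl⟩
  have hc' : ∀ j, 0 < (fun j => c j * Real.exp (-a)) j := fun j => mul_pos (hc j) (Real.exp_pos _)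
  obtain ⟨C, κ, hκ, hC⟩ := gau_tail hc'
  have hB : 0 ≤ B := (norm_nonneg _).trans (hW 0)
  refine ⟨B * C * volume.real Dm, κ, hκ, fun τ hτ => ?_⟩
  have hτ0 : 0 < τ := by linarith
  rw [fW_eq hν h0 hW hc hτ0]
  have hfin : volume Dm < ⊤ := (isCompact_Icc : IsCompact Dm).measure_lt_top
  have hb : ∀ y ∈ Dm, ‖(∑' m : {m : Fin 3 → ℤ // m ≠ 0}, W m.1 * (gau c (tt τ y) m.1 : ℂ)) * ch ν y‖ ≤
      B * C * Real.exp (-(κ * τ)) := by
    intro y hy
    rw [norm_mul, ch_norm, mul_one]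
    have hs0 := gau_summable hc (fun j => tt_pos_decay hτ0 y j)
    have hs1 : Summable (fun m : {m : Fin 3 → ℤ // m ≠ 0} => gau c (tt τ y) m.1) :=
      hs0.subtype {m : Fin 3 → ℤ | m ≠ 0}
    have hle : ∀ m : {m : Fin 3 → ℤ // m ≠ 0}, ‖W m.1 * (gau c (tt τ y) m.1 : ℂ)‖ ≤
        B * gau c (tt τ y) m.1 := by
      intro m
      rw [norm_mul, Complex.norm_real, Real.norm_of_nonneg (gau_pos_decay _ _ _).le]
      exact mul_le_mul_of_nonneg_right (hW m.1) (gau_pos_decay _ _ _).le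
    have hs2 : Summable (fun m : {m : Fin 3 → ℤ // m ≠ 0} => ‖W m.1 * (gau c (tt τ y) m.1 : ℂ)‖) :=
      Summable.of_nonneg_of_le (fun _ => norm_nonneg _) hle (hs1.mul_left B)
    have h1 : ∀ m : Fin 3 → ℤ, gau c (tt τ y) m =
        gau (fun j => c j * Real.exp (-a)) (fun j => tt τ y j * Real.exp a) m := by
      intro m
      unfold gau
      congr 2
      apply Finset.sum_congr rfl
      intro j _
      have : Real.exp a * Real.exp (-a) = 1 := by rw [← Real.exp_add, add_neg_cancel, Real.exp_zero]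
      calc tt τ y j * c j * emb m j ^ 2 = tt τ y j * c j * (Real.exp a * Real.exp (-a)) * emb m j ^ 2 := by
            rw [this, mul_one]
        _ = _ := by ring
    have h2 : ∀ j, τ ≤ (fun j => tt τ y j * Real.exp a) j := by
      intro j
      show τ ≤ tt τ y j * Real.exp a
      unfold tt
      rw [mul_assoc, ← Real.exp_add]
      have h3 : 0 ≤ 2 * ∑ i, y i * L i j + a := by
        have h4 : ∀ i, -(|L i j| / 2) ≤ y i * L i j := by
          intro i
          have hy1 : |y i| ≤ 1 / 2 := by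
            rw [abs_le]
            exact ⟨by have := hy.1 i; simpa using this, by have := hy.2 i; simpa using this⟩
          have h5 : |y i * L i j| ≤ |L i j| / 2 := by
            rw [abs_mul]
            nlinarith [abs_nonneg (L i j)]
          exact (abs_le.1 h5).1
        have h6 : -(∑ i, |L i j|) / 2 ≤ ∑ i, y i * L i j := by
          have := Finset.sum_le_sum (fun i (_ : i ∈ Finset.univ) => h4 i)
          rw [Finset.sum_neg_distrib, ← Finset.sum_div] at this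
          linarith
        have h7 : ∑ i, |L i j| ≤ a := by
          rw [ha]
          apply Finset.sum_le_sum
          intro i _
          exact Finset.single_le_sum (f := fun j => |L i j|) (fun j _ => abs_nonneg _) (Finset.mem_univ j)
        linarith
      calc τ = τ * 1 := (mul_one _).symm
        _ ≤ τ * Real.exp (2 * ∑ i, y i * L i j + a) :=
          mul_le_mul_of_nonneg_left (Real.one_le_exp h3) hτ0.le
    calc ‖∑' m : {m : Fin 3 → ℤ // m ≠ 0}, W m.1 * (gau c (tt τ y) m.1 : ℂ)‖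
        ≤ ∑' m : {m : Fin 3 → ℤ // m ≠ 0}, ‖W m.1 * (gau c (tt τ y) m.1 : ℂ)‖ :=
          norm_tsum_le_tsum_norm hs2
      _ ≤ ∑' m : {m : Fin 3 → ℤ // m ≠ 0}, B * gau c (tt τ y) m.1 :=
          hs2.tsum_le_tsum hle (hs1.mul_left B)
      _ = B * ∑' m : {m : Fin 3 → ℤ // m ≠ 0}, gau c (tt τ y) m.1 := tsum_mul_left
      _ ≤ B * (C * Real.exp (-(κ * τ))) := by
          apply mul_le_mul_of_nonneg_left _ hB
          have h8 := hC (fun j => tt τ y j * Real.exp a) τ hτ h2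
          simp only [← h1] at h8
          exact h8
      _ = B * C * Real.exp (-(κ * τ)) := by ring
  calc ‖∫ y in Dm, (∑' m : {m : Fin 3 → ℤ // m ≠ 0}, W m.1 * (gau c (tt τ y) m.1 : ℂ)) * ch ν y‖
      ≤ B * C * Real.exp (-(κ * τ)) * volume.real Dm := norm_setIntegral_le_of_norm_le_const hfin hb
    _ = B * C * volume.real Dm * Real.exp (-(κ * τ)) := by ring

end Pool.Agent.Helper88.BD
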