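import Mathlib
import Pool.Agent.Helper88.BD.Defs

/-!
MP_bd232a_nt, block N9F. Abstract Euler product. Proof idea: for a finite set S of indices the sum over n supported in S is the finite product
of geometric series (induction on S) = ∏_{i∈S} (1-z_i)^{-1} = exp(Σ_{i∈S} -log(1-z_i)); apply it first to |z_i| to get summability
(partial sums bounded by exp(Σ -log(1-|z_i|)), convergent since -log(1-x) ≤ C x for x ≤ 1/2 and only finitely many |z_i| > 1/2), then let S grow.
(Compare Mathlib/NumberTheory/EulerProduct/Basic.lean.)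
-/

open Polynomial NumberField MeasureTheory Set
open scoped ComplexConjugate

namespace Pool.Agent.Helper88.BD

/-- Splitting off one coordinate. -/
noncomputable def finsuppInsert {ι : Type} [DecidableEq ι] (S : Finset ι) (i : ι) (hi : i ∉ S) :
    ℕ × {n : ι →₀ ℕ // n.support ⊆ S} ≃ {n : ι →₀ ℕ // n.support ⊆ insert i S} where
  toFun x := ⟨x.2.1 + Finsupp.single i x.1, by
    refine Finsupp.support_add.trans (Finset.union_subset ?_ ?_)
    · exact x.2.2.trans (Finset.subset_insert i S)
    · exact Finsupp.support_single_subset.trans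
        (Finset.singleton_subset_iff.2 (Finset.mem_insert_self i S))⟩
  invFun m := (m.1 i, ⟨m.1.erase i, by
    rw [Finsupp.support_erase]
    intro j hj
    rw [Finset.mem_erase] at hj
    exact (Finset.mem_insert.1 (m.2 hj.2)).resolve_left hj.1⟩)
  left_inv x := by
    obtain ⟨k, n, hn⟩ := x
    have hni : n i = 0 := by
      by_contra h
      exact hi (hn (Finsupp.mem_support_iff.2 h))
    refine Prod.ext ?_ (Subtype.ext ?_)
    · simp [hni]
    · ext j
      by_cases hj : j = i
      · subst hj; simp [hni]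
      · simp [Finsupp.erase_ne hj]
  right_inv m := by
    apply Subtype.ext
    ext j
    by_cases hj : j = i
    · subst hj; simp
    · simp [Finsupp.erase_ne hj, Ne.symm hj]

theorem hasSum_supp {R : Type} [NormedField R] [CompleteSpace R] {ι : Type} [DecidableEq ι]
    (z : ι → R) (h1 : ∀ i, ‖z i‖ < 1) (S : Finset ι) :
    (Summable fun n : {n : ι →₀ ℕ // n.support ⊆ S} => ‖n.1.prod fun i k => z i ^ k‖) ∧
    HasSum (fun n : {n : ι →₀ ℕ // n.support ⊆ S} => n.1.prod fun i k => z i ^ k)
      (∏ i ∈ S, (1 - z i)⁻¹) := by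
  induction S using Finset.induction_on with
  | empty =>
    have hu : ∀ n : {n : ι →₀ ℕ // n.support ⊆ (∅ : Finset ι)}, n = ⟨0, by simp⟩ := by
      intro n
      apply Subtype.ext
      exact Finsupp.support_eq_empty.1 (Finset.subset_empty.1 n.2)
    have : Unique {n : ι →₀ ℕ // n.support ⊆ (∅ : Finset ι)} := ⟨⟨⟨0, by simp⟩⟩, hu⟩
    refine ⟨Summable.of_finite, ?_⟩
    have h := hasSum_unique (fun n : {n : ι →₀ ℕ // n.support ⊆ (∅ : Finset ι)} =>
      n.1.prod fun i k => z i ^ k)
    rw [hu default] at h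
    simpa using h
  | insert i S hi ih =>
    obtain ⟨ihs, ihh⟩ := ih
    have hval : ∀ x : ℕ × {n : ι →₀ ℕ // n.support ⊆ S},
        ((finsuppInsert S i hi x).1.prod fun i k => z i ^ k) =
          z i ^ x.1 * (x.2.1.prod fun i k => z i ^ k) := by
      intro x
      change ((x.2.1 + Finsupp.single i x.1).prod fun i k => z i ^ k) = _
      rw [Finsupp.prod_add_index' (fun a => pow_zero _) (fun a b c => pow_add _ _ _),
        Finsupp.prod_single_index (h := fun i k => z i ^ k) (pow_zero _), mul_comm]
    have hgs : Summable fun k : ℕ => ‖z i ^ k‖ := by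
      simp only [norm_pow]
      exact summable_geometric_of_lt_one (norm_nonneg _) (h1 i)
    have hgh : HasSum (fun k : ℕ => z i ^ k) (1 - z i)⁻¹ :=
      hasSum_geometric_of_norm_lt_one (h1 i)
    have hns : Summable fun x : ℕ × {n : ι →₀ ℕ // n.support ⊆ S} =>
        ‖z i ^ x.1 * (x.2.1.prod fun i k => z i ^ k)‖ :=
      Summable.mul_norm (f := fun k : ℕ => z i ^ k)
        (g := fun n : {n : ι →₀ ℕ // n.support ⊆ S} => n.1.prod fun i k => z i ^ k) hgs ihs
    have hh : HasSum (fun x : ℕ × {n : ι →₀ ℕ // n.support ⊆ S} =>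
        z i ^ x.1 * (x.2.1.prod fun i k => z i ^ k)) ((1 - z i)⁻¹ * ∏ i ∈ S, (1 - z i)⁻¹) := by
      have hsm := hns.of_norm
      exact HasSum.mul (f := fun k : ℕ => z i ^ k)
        (g := fun n : {n : ι →₀ ℕ // n.support ⊆ S} => n.1.prod fun i k => z i ^ k) hgh ihh hsm
    constructor
    · rw [← (finsuppInsert S i hi).summable_iff]
      refine hns.congr fun x => ?_
      simp only [Function.comp]
      rw [hval]
    · rw [Finset.prod_insert hi, ← (finsuppInsert S i hi).hasSum_iff]
      refine hh.congr_fun fun x => ?_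
      simp only [Function.comp]
      rw [hval]

theorem summable_finsupp {ι : Type} {z : ι → ℂ} (hz : Summable fun i => ‖z i‖)
    (h1 : ∀ i, ‖z i‖ < 1) : Summable (fun n : ι →₀ ℕ => ‖n.prod fun i k => z i ^ k‖) := by
  classical
  have hlog : Summable fun i => Real.log (1 + -‖z i‖) :=
    Real.summable_log_one_add_of_summable hz.neg
  have hnorm : ∀ n : ι →₀ ℕ, ‖n.prod fun i k => z i ^ k‖ = n.prod fun i k => ‖z i‖ ^ k := by
    intro n
    simp only [Finsupp.prod, norm_prod, norm_pow]
  have hpos : ∀ i, 0 < 1 - ‖z i‖ := fun i => by linarith [h1 i]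
  refine summable_of_sum_le (c := Real.exp (∑' i, -Real.log (1 + -‖z i‖)))
    (fun n => norm_nonneg _) fun T => ?_
  set S : Finset ι := T.biUnion (fun n => n.support) with hS
  obtain ⟨hs, hh⟩ := hasSum_supp (fun i => ‖z i‖) (fun i => by simpa using h1 i) S
  have hT : ∀ n ∈ T, n.support ⊆ S := fun n hn => Finset.subset_biUnion_of_mem (fun n : ι →₀ ℕ => n.support) hn
  calc ∑ n ∈ T, ‖n.prod fun i k => z i ^ k‖ = ∑ n ∈ T, n.prod fun i k => ‖z i‖ ^ k :=
        Finset.sum_congr rfl fun n _ => hnorm n
    _ = ∑ n ∈ T.attach.map ⟨fun n => (⟨n.1, hT n.1 n.2⟩ : {n : ι →₀ ℕ // n.support ⊆ S}),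
          fun a b h => Subtype.ext (congrArg (fun x => x.1) h)⟩,
          n.1.prod fun i k => ‖z i‖ ^ k := by
        rw [Finset.sum_map]
        exact (Finset.sum_attach T fun n => n.prod fun i k => ‖z i‖ ^ k).symm
    _ ≤ ∏ i ∈ S, (1 - ‖z i‖)⁻¹ := by
        refine sum_le_hasSum _ (fun n _ => ?_) hh
        exact Finset.prod_nonneg fun i _ => pow_nonneg (norm_nonneg _) _
    _ = Real.exp (∑ i ∈ S, -Real.log (1 + -‖z i‖)) := by
        rw [Real.exp_sum]
        refine Finset.prod_congr rfl fun i _ => ?_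
        rw [Real.exp_neg, ← sub_eq_add_neg, Real.exp_log (hpos i)]
    _ ≤ Real.exp (∑' i, -Real.log (1 + -‖z i‖)) := by
        refine Real.exp_le_exp.2 (hlog.neg.sum_le_tsum S fun i _ => ?_)
        have : Real.log (1 + -‖z i‖) ≤ 0 :=
          Real.log_nonpos (by linarith [hpos i]) (by linarith [norm_nonneg (z i)])
        linarith

theorem hasSum_finsupp {ι : Type} {z : ι → ℂ} (hz : Summable fun i => ‖z i‖) (h1 : ∀ i, ‖z i‖ < 1) :
    HasSum (fun n : ι →₀ ℕ => n.prod fun i k => z i ^ k) (Complex.exp (∑' i, -Complex.log (1 - z i))) := by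
  classical
  have hsn := summable_finsupp hz h1
  have hs : Summable (fun n : ι →₀ ℕ => n.prod fun i k => z i ^ k) := hsn.of_norm
  have hlog : Summable fun i => Complex.log (1 + -z i) :=
    Complex.summable_log_one_add_of_summable hz.of_norm.neg
  have hlog' : Summable fun i => -Complex.log (1 - z i) := by
    simpa [sub_eq_add_neg] using hlog.neg
  have hne : ∀ i, (1 - z i) ≠ 0 := by
    intro i h
    have : z i = 1 := (sub_eq_zero.1 h).symm
    have h2 := h1 i
    rw [this] at h2
    simp at h2
  -- the sums over restricted supports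
  have hsum : ∀ S : Finset ι, ∑' n : ι →₀ ℕ,
      Set.indicator {n : ι →₀ ℕ | n.support ⊆ S} (fun n => n.prod fun i k => z i ^ k) n =
      Complex.exp (∑ i ∈ S, -Complex.log (1 - z i)) := by
    intro S
    rw [← tsum_subtype]
    have hh := (hasSum_supp z h1 S).2
    have : ∑' n : {n : ι →₀ ℕ | n.support ⊆ S}, (n.1.prod fun i k => z i ^ k) =
        ∏ i ∈ S, (1 - z i)⁻¹ := hh.tsum_eq
    rw [this, Complex.exp_sum]
    refine Finset.prod_congr rfl fun i _ => ?_
    rw [Complex.exp_neg, Complex.exp_log (hne i)]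
  have hlim1 : Filter.Tendsto (fun S : Finset ι => ∑' n : ι →₀ ℕ,
      Set.indicator {n : ι →₀ ℕ | n.support ⊆ S} (fun n => n.prod fun i k => z i ^ k) n)
      Filter.atTop (nhds (∑' n : ι →₀ ℕ, n.prod fun i k => z i ^ k)) := by
    refine tendsto_tsum_of_dominated_convergence hsn ?_ ?_
    · intro n
      refine tendsto_const_nhds.congr' ?_
      filter_upwards [Filter.eventually_ge_atTop n.support] with S hS
      rw [Set.indicator_of_mem]
      exact hS
    · refine Filter.Eventually.of_forall fun S n => ?_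
      exact norm_indicator_le_norm_self _ _
  have hlim2 : Filter.Tendsto (fun S : Finset ι => Complex.exp (∑ i ∈ S, -Complex.log (1 - z i)))
      Filter.atTop (nhds (Complex.exp (∑' i, -Complex.log (1 - z i)))) :=
    (Complex.continuous_exp.tendsto _).comp hlog'.hasSum
  have heq := tendsto_nhds_unique (hlim1.congr hsum) hlim2
  rw [← heq]
  exact hs.hasSum

end Pool.Agent.Helper88.BD
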