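import Mathlib
import Pool.Agent.Helper88.BD.Defs

/-!
MP_bd232a_nt, block N9U. Unique factorization of nonzero ideals. Proof idea: 𝓞 K is a Dedekind domain; `UniqueFactorizationMonoid` for ideals,
normalizedFactors / Associates.count / `Ideal.finprod_heightOneSpectrum_factorization`.
-/

open Polynomial NumberField MeasureTheory Set
open scoped ComplexConjugate

namespace Pool.Agent.Helper88.BD

namespace IdealFinAux

open UniqueFactorizationMonoid

/-- The multiset of prime ideals attached to a finitely supported exponent function. -/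
noncomputable def ms (n : {P : Ideal (𝓞 K) // P.IsPrime ∧ P ≠ ⊥} →₀ ℕ) : Multiset (Ideal (𝓞 K)) :=
  (Finsupp.toMultiset n).map Subtype.val

theorem ms_prod (n : {P : Ideal (𝓞 K) // P.IsPrime ∧ P ≠ ⊥} →₀ ℕ) :
    (ms n).prod = n.prod fun P k => P.1 ^ k := by
  classical
  unfold ms
  refine Finsupp.induction n ?_ ?_
  · simp
  · intro a b f ha _ ih
    rw [map_add, Multiset.map_add, Multiset.prod_add, ih, Finsupp.prod_add_index']
    · rw [Finsupp.toMultiset_single, Finsupp.prod_single_index (by simp)]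
      simp [Multiset.map_nsmul, Multiset.prod_nsmul]
    · intro a; simp
    · intro a b c; exact pow_add _ _ _

theorem ms_prime (n : {P : Ideal (𝓞 K) // P.IsPrime ∧ P ≠ ⊥} →₀ ℕ) :
    ∀ P ∈ ms n, Prime P := by
  intro P hP
  unfold ms at hP
  obtain ⟨Q, _, rfl⟩ := Multiset.mem_map.mp hP
  exact Ideal.prime_of_isPrime Q.2.2 Q.2.1

theorem ms_inj {n n' : {P : Ideal (𝓞 K) // P.IsPrime ∧ P ≠ ⊥} →₀ ℕ} (h : ms n = ms n') : n = n' := by
  classical
  have h1 : Finsupp.toMultiset n = Finsupp.toMultiset n' :=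
    Multiset.map_injective Subtype.val_injective h
  rw [← Finsupp.toMultiset_toFinsupp n, ← Finsupp.toMultiset_toFinsupp n', h1]

theorem prod_ne_bot (n : {P : Ideal (𝓞 K) // P.IsPrime ∧ P ≠ ⊥} →₀ ℕ) :
    (n.prod fun P k => P.1 ^ k) ≠ ⊥ := by
  rw [← ms_prod]
  have : (0 : Ideal (𝓞 K)) ∉ ms n := fun h0 => (ms_prime n 0 h0).ne_zero rfl
  exact Multiset.prod_ne_zero this

end IdealFinAux

open IdealFinAux UniqueFactorizationMonoid in
theorem ideal_finsupp : ∃ e : ({P : Ideal (𝓞 K) // P.IsPrime ∧ P ≠ ⊥} →₀ ℕ) ≃ NI,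
    ∀ n, (e n).1 = n.prod fun P k => P.1 ^ k := by
  classical
  refine ⟨Equiv.ofBijective (fun n => (⟨n.prod fun P k => P.1 ^ k, prod_ne_bot n⟩ : NI)) ⟨?_, ?_⟩,
    fun n => rfl⟩
  · intro n n' h
    have h1 : (n.prod fun P k => P.1 ^ k) = n'.prod fun P k => P.1 ^ k := congrArg Subtype.val h
    rw [← ms_prod, ← ms_prod] at h1
    apply ms_inj
    rw [← normalizedFactors_prod_of_prime (ms_prime n), ← normalizedFactors_prod_of_prime (ms_prime n'), h1]
  · intro I
    have hmem : ∀ P ∈ normalizedFactors I.1, P.IsPrime ∧ P ≠ ⊥ := by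
      intro P hP
      have := prime_of_normalized_factor P hP
      exact ⟨Ideal.isPrime_of_prime this, this.ne_zero⟩
    refine ⟨Multiset.toFinsupp ((normalizedFactors I.1).attach.map fun P => ⟨P.1, hmem P.1 P.2⟩), ?_⟩
    apply Subtype.ext
    simp only
    rw [← ms_prod]
    unfold ms
    rw [Multiset.toFinsupp_toMultiset, Multiset.map_map]
    have : Multiset.map (Subtype.val ∘ fun P : {x // x ∈ normalizedFactors I.1} =>
        (⟨P.1, hmem P.1 P.2⟩ : {P : Ideal (𝓞 K) // P.IsPrime ∧ P ≠ ⊥})) (normalizedFactors I.1).attach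
        = normalizedFactors I.1 := by
      have h2 : (Subtype.val ∘ fun P : {x // x ∈ normalizedFactors I.1} =>
        (⟨P.1, hmem P.1 P.2⟩ : {P : Ideal (𝓞 K) // P.IsPrime ∧ P ≠ ⊥})) = Subtype.val := by
        funext P; rfl
      rw [h2, Multiset.attach_map_val]
    rw [this, Ideal.prod_normalizedFactors_eq_self I.2]

end Pool.Agent.Helper88.BD
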