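import Mathlib
import Pool.Agent.Helper88.BD.Defs
import Pool.Agent.Helper88.BD.Card

/-!
MP_bd232a_nt, block N7. Absolutely convergent sums over ideals. Proof idea: group the ideals by their norm, card_ideals with η small.
-/

open Polynomial NumberField MeasureTheory Set
open scoped ComplexConjugate

namespace Pool.Agent.Helper88.BD

/-- the ideals of norm `n`, two descriptions -/
noncomputable def fibEquiv (n : ℕ) : {x : NI // Ideal.absNorm x.1 = n} ≃
    {I : Ideal (𝓞 K) // I ≠ ⊥ ∧ Ideal.absNorm I = n} :=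
  Equiv.subtypeSubtypeEquivSubtypeInter (fun I : Ideal (𝓞 K) => I ≠ ⊥) (fun I => Ideal.absNorm I = n)

instance fib_finite' (n : ℕ) : Finite {I : Ideal (𝓞 K) // I ≠ ⊥ ∧ Ideal.absNorm I = n} := by
  rcases Nat.eq_zero_or_pos n with rfl | hn
  · have : IsEmpty {I : Ideal (𝓞 K) // I ≠ ⊥ ∧ Ideal.absNorm I = 0} :=
      ⟨fun x => x.2.1 (Ideal.absNorm_eq_zero_iff.1 x.2.2)⟩
    infer_instance
  · have h : Finite {I : Ideal (𝓞 K) // Ideal.absNorm I = n} := (Ideal.finite_setOfPred_absNorm_eq n).to_subtype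
    exact Finite.of_injective (β := {I : Ideal (𝓞 K) // Ideal.absNorm I = n}) (fun x => ⟨x.1, x.2.2⟩)
      (fun x y hxy => Subtype.ext (by have h2 := congrArg Subtype.val hxy; exact h2))

instance fib_finite (n : ℕ) : Finite {x : NI // Ideal.absNorm x.1 = n} :=
  Finite.of_equiv _ (fibEquiv n).symm

lemma card_fib (n : ℕ) (hn : 1 ≤ n) : Nat.card {x : NI // Ideal.absNorm x.1 = n} ≤
    Nat.card {I : Ideal (𝓞 K) // Ideal.absNorm I = n} := by
  have h : Finite {I : Ideal (𝓞 K) // Ideal.absNorm I = n} := (Ideal.finite_setOfPred_absNorm_eq n).to_subtype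
  exact Nat.card_le_card_of_injective (fun x => (⟨x.1.1, x.2⟩ : {I : Ideal (𝓞 K) // Ideal.absNorm I = n}))
    (fun x y hxy => Subtype.ext (Subtype.ext (by have h2 := congrArg Subtype.val hxy; exact h2)))

theorem summable_NI {σ : ℝ} (hσ : 1 < σ) : Summable fun I : NI => (Ideal.absNorm I.1 : ℝ) ^ (-σ) := by
  rw [← (Equiv.sigmaFiberEquiv (fun I : NI => Ideal.absNorm I.1)).summable_iff]
  have hval : ∀ (n : ℕ) (x : {x : NI // Ideal.absNorm x.1 = n}),
      ((fun I : NI => (Ideal.absNorm I.1 : ℝ) ^ (-σ)) ∘ (Equiv.sigmaFiberEquiv (fun I : NI => Ideal.absNorm I.1))) ⟨n, x⟩ =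
        (n : ℝ) ^ (-σ) := by
    intro n x
    change (Ideal.absNorm x.1.1 : ℝ) ^ (-σ) = _
    rw [x.2]
  refine (summable_sigma_of_nonneg ?_).2 ⟨?_, ?_⟩
  · rintro ⟨n, x⟩
    rw [hval]
    positivity
  · intro n
    exact Summable.of_finite
  · obtain ⟨C, hC⟩ := card_ideals (η := (σ - 1) / 2) (by linarith)
    have hs : Summable fun n : ℕ => |C| * (n : ℝ) ^ ((σ - 1) / 2 - σ) :=
      (Real.summable_nat_rpow.2 (by linarith)).mul_left _
    refine Summable.of_nonneg_of_le (fun n => tsum_nonneg fun x => by rw [hval]; positivity) (fun n => ?_) hs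
    simp only [hval]
    rw [tsum_const, nsmul_eq_mul]
    rcases Nat.eq_zero_or_pos n with rfl | hn
    · have : IsEmpty {x : NI // Ideal.absNorm x.1 = 0} :=
        ⟨fun x => x.1.2 (Ideal.absNorm_eq_zero_iff.1 x.2)⟩
      rw [Nat.card_of_isEmpty]
      simp only [Nat.cast_zero, zero_mul]
      positivity
    · have hn0 : (0 : ℝ) < n := by exact_mod_cast hn
      have h1 : ((Nat.card {x : NI // Ideal.absNorm x.1 = n} : ℕ) : ℝ) ≤ |C| * (n : ℝ) ^ ((σ - 1) / 2) := by
        calc ((Nat.card {x : NI // Ideal.absNorm x.1 = n} : ℕ) : ℝ)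
            ≤ ((Nat.card {I : Ideal (𝓞 K) // Ideal.absNorm I = n} : ℕ) : ℝ) := by exact_mod_cast card_fib n hn
          _ ≤ C * (n : ℝ) ^ ((σ - 1) / 2) := hC n hn
          _ ≤ |C| * (n : ℝ) ^ ((σ - 1) / 2) := by gcongr; exact le_abs_self C
      calc ((Nat.card {x : NI // Ideal.absNorm x.1 = n} : ℕ) : ℝ) * (n : ℝ) ^ (-σ)
          ≤ |C| * (n : ℝ) ^ ((σ - 1) / 2) * (n : ℝ) ^ (-σ) := by gcongr
        _ = |C| * (n : ℝ) ^ ((σ - 1) / 2 - σ) := by
          rw [mul_assoc, ← Real.rpow_add hn0]; ring_nf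

lemma norm_chi (ν x : Fin 3 → ℝ) : ‖chi ν x‖ = 1 := by
  unfold chi
  rw [Complex.norm_exp_ofReal_mul_I]

theorem hasSum_NI (ν : Fin 3 → ℝ) {w : ℕ → ℂ} {C : ℝ} (hw : ∀ n, ‖w n‖ ≤ C) {s : ℂ} (hs : 1 < s.re) :
    LSeriesSummable (fun n => coef ν n * w n) s ∧
    HasSum (fun I : NI => chi ν (ga I.1) * w (Ideal.absNorm I.1) * (Ideal.absNorm I.1 : ℂ) ^ (-s))
      (LSeries (fun n => coef ν n * w n) s) := by
  set f : NI → ℂ := fun I => chi ν (ga I.1) * w (Ideal.absNorm I.1) * (Ideal.absNorm I.1 : ℂ) ^ (-s) with hf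
  have hsum : Summable f := by
    refine Summable.of_norm_bounded ((summable_NI hs).mul_left C) fun I => ?_
    have hpos : 0 < Ideal.absNorm I.1 := Nat.pos_of_ne_zero fun h => I.2 (Ideal.absNorm_eq_zero_iff.1 h)
    simp only [hf]
    rw [norm_mul, norm_mul, norm_chi, one_mul, Complex.norm_natCast_cpow_of_pos hpos, Complex.neg_re]
    gcongr
    exact hw _
  have hsig := ((Equiv.sigmaFiberEquiv (fun I : NI => Ideal.absNorm I.1)).hasSum_iff (f := f)).2 hsum.hasSum
  have hfib : ∀ n : ℕ, HasSum (fun x : {x : NI // Ideal.absNorm x.1 = n} =>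
      (f ∘ (Equiv.sigmaFiberEquiv (fun I : NI => Ideal.absNorm I.1))) ⟨n, x⟩)
      (LSeries.term (fun n => coef ν n * w n) s n) := by
    intro n
    have h1 : Summable (fun x : {x : NI // Ideal.absNorm x.1 = n} =>
      (f ∘ (Equiv.sigmaFiberEquiv (fun I : NI => Ideal.absNorm I.1))) ⟨n, x⟩) := Summable.of_finite
    have hval : ∀ (x : {x : NI // Ideal.absNorm x.1 = n}),
        (f ∘ (Equiv.sigmaFiberEquiv (fun I : NI => Ideal.absNorm I.1))) ⟨n, x⟩ =
          chi ν (ga x.1.1) * (w n * (n : ℂ) ^ (-s)) := by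
      intro x
      change chi ν (ga x.1.1) * w (Ideal.absNorm x.1.1) * (Ideal.absNorm x.1.1 : ℂ) ^ (-s) = _
      rw [x.2, mul_assoc]
    have h2 : ∑' x : {x : NI // Ideal.absNorm x.1 = n},
        (f ∘ (Equiv.sigmaFiberEquiv (fun I : NI => Ideal.absNorm I.1))) ⟨n, x⟩ =
        LSeries.term (fun n => coef ν n * w n) s n := by
      simp only [hval]
      rw [tsum_mul_right]
      have h3 : ∑' x : {x : NI // Ideal.absNorm x.1 = n}, chi ν (ga x.1.1) = coef ν n := by
        unfold coef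
        rw [← (fibEquiv n).tsum_eq]
        rfl
      rw [h3]
      rcases Nat.eq_zero_or_pos n with rfl | hn
      · rw [coef_zero, zero_mul, LSeries.term_zero]
      · rw [LSeries.term_of_ne_zero hn.ne', Complex.cpow_neg, div_eq_mul_inv, mul_assoc]
    rw [← h2]
    exact h1.hasSum
  have hfin := hsig.sigma hfib
  refine ⟨hfin.summable, ?_⟩
  have h4 : LSeries (fun n => coef ν n * w n) s = ∑' I, f I := hfin.tsum_eq
  rw [h4]
  exact hsum.hasSum

end Pool.Agent.Helper88.BD
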