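import Mathlib
import Pool.Agent.Helper88.BD.Defs
import Pool.Agent.Helper88.BD.FinsuppProd
import Pool.Agent.Helper88.BD.IdealFin
import Pool.Agent.Helper88.BD.Chi
import Pool.Agent.Helper88.BD.SumNI
import Pool.Agent.Helper88.BD.Bco

/-!
MP_bd232a_nt, block N9E. Euler product in logarithmic form.
Proof idea: N9F with z_P = chi(P) N P^{-s} (|z_P| = N P^{-σ} < 1, summable by summable_NI), transported by N9U; the summand is
chi(I) N I^{-s} by chi_mul; the sum is LSeries (coef ν) by hasSum_NI with w = 1. -log(1-z) = Σ_{k≥1} z^k/k, the double sum over (P,k)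
is absolutely convergent; group by n = N P^k. For the second part of the statement use this grouping also with |.|.
-/

open Polynomial NumberField MeasureTheory Set
open scoped ComplexConjugate

namespace Pool.Agent.Helper88.BD

namespace EulerAux

/-- Nonzero prime ideals. -/
abbrev PP : Type := {P : Ideal (𝓞 K) // P.IsPrime ∧ P ≠ ⊥}

/-- The summand attached to an ideal. -/
noncomputable def Z (ν : Fin 3 → ℝ) (s : ℂ) (I : Ideal (𝓞 K)) : ℂ :=
  chi ν (ga I) * (Ideal.absNorm I : ℂ) ^ (-s)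

lemma norm_chi_eul (ν x : Fin 3 → ℝ) : ‖chi ν x‖ = 1 := by
  unfold chi
  rw [Complex.norm_exp_ofReal_mul_I]

lemma Z_mul {ν : Fin 3 → ℝ} (hν : IsNu ν) (s : ℂ) {I J : Ideal (𝓞 K)} (hI : I ≠ ⊥) (hJ : J ≠ ⊥) :
    Z ν s (I * J) = Z ν s I * Z ν s J := by
  unfold Z
  rw [chi_mul hν hI hJ, map_mul]
  push_cast
  rw [Complex.natCast_mul_natCast_cpow]
  ring

lemma Z_top {ν : Fin 3 → ℝ} (hν : IsNu ν) (s : ℂ) : Z ν s ⊤ = 1 := by
  unfold Z
  rw [chi_top hν, Ideal.absNorm_top]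
  simp

lemma Z_pow {ν : Fin 3 → ℝ} (hν : IsNu ν) (s : ℂ) {I : Ideal (𝓞 K)} (hI : I ≠ ⊥) (k : ℕ) :
    Z ν s (I ^ k) = Z ν s I ^ k := by
  induction k with
  | zero => rw [pow_zero, pow_zero, Ideal.one_eq_top, Z_top hν]
  | succ k ih => rw [pow_succ, pow_succ, Z_mul hν s (pow_ne_zero k hI) hI, ih]

lemma Z_prod {ν : Fin 3 → ℝ} (hν : IsNu ν) (s : ℂ) (S : Finset PP) (n : PP → ℕ) :
    (∏ P ∈ S, P.1 ^ n P) ≠ ⊥ ∧ Z ν s (∏ P ∈ S, P.1 ^ n P) = ∏ P ∈ S, Z ν s P.1 ^ n P := by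
  classical
  induction S using Finset.induction_on with
  | empty =>
    simp only [Finset.prod_empty]
    exact ⟨one_ne_zero, by rw [Ideal.one_eq_top, Z_top hν]⟩
  | insert P S hP ih =>
    rw [Finset.prod_insert hP, Finset.prod_insert hP]
    have h1 : P.1 ^ n P ≠ ⊥ := pow_ne_zero _ P.2.2
    exact ⟨mul_ne_zero h1 ih.1, by rw [Z_mul hν s h1 ih.1, ih.2, Z_pow hν s P.2.2]⟩

lemma two_le_absNorm (P : PP) : 2 ≤ Ideal.absNorm P.1 := by
  have h0 : Ideal.absNorm P.1 ≠ 0 := by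
    rw [Ne, Ideal.absNorm_eq_zero_iff]; exact P.2.2
  have h1 : Ideal.absNorm P.1 ≠ 1 := by
    rw [Ne, Ideal.absNorm_eq_one_iff]; exact P.2.1.ne_top
  omega

lemma norm_Z (ν : Fin 3 → ℝ) (s : ℂ) (P : PP) :
    ‖Z ν s P.1‖ = (Ideal.absNorm P.1 : ℝ) ^ (-s.re) := by
  unfold Z
  have h2 := two_le_absNorm P
  rw [norm_mul, norm_chi_eul, one_mul, Complex.norm_natCast_cpow_of_pos (by omega)]
  simp

lemma norm_Z_le (ν : Fin 3 → ℝ) {s : ℂ} (hs : 1 < s.re) (P : PP) : ‖Z ν s P.1‖ ≤ 1 / 2 := by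
  rw [norm_Z]
  have h2 : (2 : ℝ) ≤ Ideal.absNorm P.1 := by exact_mod_cast two_le_absNorm P
  calc (Ideal.absNorm P.1 : ℝ) ^ (-s.re) ≤ (Ideal.absNorm P.1 : ℝ) ^ (-1 : ℝ) :=
        Real.rpow_le_rpow_of_exponent_le (by linarith) (by linarith)
    _ = 1 / (Ideal.absNorm P.1 : ℝ) := by rw [Real.rpow_neg_one, one_div]
    _ ≤ 1 / 2 := one_div_le_one_div_of_le (by norm_num) h2

lemma summable_Z (ν : Fin 3 → ℝ) {s : ℂ} (hs : 1 < s.re) : Summable fun P : PP => ‖Z ν s P.1‖ := by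
  have h := summable_NI hs
  have h2 := h.comp_injective (i := fun P : PP => (⟨P.1, P.2.2⟩ : NI))
    (fun P Q h => Subtype.ext (by simpa using h))
  refine h2.congr fun P => ?_
  rw [norm_Z]
  rfl

/-- The double summand. -/
noncomputable def g (ν : Fin 3 → ℝ) (s : ℂ) (p : PP × ℕ) : ℂ :=
  Z ν s p.1.1 ^ (p.2 + 1) / ((p.2 + 1 : ℕ) : ℂ)

lemma norm_g_le (ν : Fin 3 → ℝ) {s : ℂ} (P : PP) (k : ℕ) :
    ‖g ν s (P, k)‖ ≤ ‖Z ν s P.1‖ * ‖Z ν s P.1‖ ^ k := by
  unfold g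
  rw [norm_div, norm_pow, pow_succ, Complex.norm_natCast, mul_comm]
  apply div_le_self (by positivity)
  push_cast
  have : (0 : ℝ) ≤ k := by positivity
  linarith

lemma summable_g (ν : Fin 3 → ℝ) {s : ℂ} (hs : 1 < s.re) : Summable (g ν s) := by
  apply Summable.of_norm
  have h1 : Summable fun p : PP × ℕ => ‖Z ν s p.1.1‖ * (1 / 2 : ℝ) ^ p.2 :=
    (summable_Z ν hs).mul_of_nonneg (summable_geometric_two) (fun _ => norm_nonneg _)
      (fun _ => by positivity)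
  refine Summable.of_nonneg_of_le (fun _ => norm_nonneg _) (fun p => ?_) h1
  refine (norm_g_le ν p.1 p.2).trans ?_
  exact mul_le_mul_of_nonneg_left (pow_le_pow_left₀ (norm_nonneg _) (norm_Z_le ν hs p.1) _)
    (norm_nonneg _)

lemma hasSum_g_fib (ν : Fin 3 → ℝ) {s : ℂ} (hs : 1 < s.re) (P : PP) :
    HasSum (fun k => g ν s (P, k)) (-Complex.log (1 - Z ν s P.1)) := by
  have h1 : ‖Z ν s P.1‖ < 1 := lt_of_le_of_lt (norm_Z_le ν hs P) (by norm_num)
  have h2 := Complex.hasSum_taylorSeries_neg_log h1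
  have h3 := (hasSum_nat_add_iff' 1).2 h2
  simpa [g] using h3

/-- The map to norms. -/
noncomputable def m (p : PP × ℕ) : ℕ := Ideal.absNorm p.1.1 ^ (p.2 + 1)

/-- The fibre over `n`. -/
noncomputable def E (n : ℕ) : {p : Ideal (𝓞 K) × ℕ // p.1.IsPrime ∧ p.1 ≠ ⊥ ∧ 1 ≤ p.2 ∧
    Ideal.absNorm p.1 ^ p.2 = n} ≃ ↑(m ⁻¹' {n}) where
  toFun p := ⟨(⟨p.1.1, p.2.1, p.2.2.1⟩, p.1.2 - 1), by
    have h := p.2.2.2.1
    have h2 := p.2.2.2.2
    simp only [Set.mem_preimage, Set.mem_singleton_iff, m]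
    rw [Nat.sub_add_cancel h]; exact h2⟩
  invFun b := ⟨(b.1.1.1, b.1.2 + 1), b.1.1.2.1, b.1.1.2.2, by simp, b.2⟩
  left_inv p := by
    have h := p.2.2.2.1
    apply Subtype.ext
    simp only
    rw [Nat.sub_add_cancel h]
  right_inv b := by
    apply Subtype.ext
    simp

lemma pow_cpow (N k : ℕ) (s : ℂ) : ((N ^ k : ℕ) : ℂ) ^ s = ((N : ℂ) ^ s) ^ k := by
  induction k with
  | zero => simp
  | succ k ih => rw [pow_succ, Nat.cast_mul, Complex.natCast_mul_natCast_cpow, ih, pow_succ]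

lemma term_eq (ν : Fin 3 → ℝ) (s : ℂ) (n : ℕ) :
    ∑' b : ↑(m ⁻¹' {n}), g ν s b = LSeries.term (bco ν) s n := by
  rcases Nat.eq_zero_or_pos n with h | h
  · subst h
    rw [LSeries.term_zero]
    have : IsEmpty ↑(m ⁻¹' {0}) := ⟨fun b => by
      have h1 : m b.1 = 0 := b.2
      have h2 := two_le_absNorm b.1.1
      exact (pow_ne_zero _ (by omega)) h1⟩
    exact tsum_empty
  · rw [LSeries.term_of_ne_zero (by omega), bco, ← tsum_div_const, ← (E n).tsum_eq]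
    refine tsum_congr fun p => ?_
    have hk := p.2.2.2.1
    have hn := p.2.2.2.2
    have h2 := two_le_absNorm ⟨p.1.1, p.2.1, p.2.2.1⟩
    change Z ν s p.1.1 ^ (p.1.2 - 1 + 1) / ((p.1.2 - 1 + 1 : ℕ) : ℂ) = _
    rw [Nat.sub_add_cancel hk]
    unfold Z
    have hns : (n : ℂ) ^ s = ((Ideal.absNorm p.1.1 : ℂ) ^ s) ^ p.1.2 := by
      rw [← pow_cpow, hn]
    rw [mul_pow, hns, Complex.cpow_neg, inv_pow]
    ring

end EulerAux

open EulerAux

theorem euler {ν : Fin 3 → ℝ} (hν : IsNu ν) {s : ℂ} (hs : 1 < s.re) :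
    LSeriesSummable (bco ν) s ∧ LSeries (coef ν) s = Complex.exp (LSeries (bco ν) s) := by
  have hg := (summable_g ν hs).hasSum
  have h1 : ∑' p, g ν s p = ∑' P : PP, -Complex.log (1 - Z ν s P.1) := by
    rw [(summable_g ν hs).tsum_prod]
    exact tsum_congr fun P => (hasSum_g_fib ν hs P).tsum_eq
  have h2 := hg.tsum_fiberwise m
  have h3 : HasSum (LSeries.term (bco ν) s) (∑' p, g ν s p) := by
    have h4 : (fun c => ∑' b : ↑(m ⁻¹' {c}), g ν s b) = LSeries.term (bco ν) s :=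
      funext fun n => term_eq ν s n
    rw [← h4]
    exact h2
  have h4 : LSeries (bco ν) s = ∑' P : PP, -Complex.log (1 - Z ν s P.1) := by
    rw [← h1]; exact h3.tsum_eq
  refine ⟨h3.summable, ?_⟩
  rw [h4]
  obtain ⟨e, he⟩ := ideal_finsupp
  have h5 := hasSum_finsupp (z := fun P : PP => Z ν s P.1) (summable_Z ν hs)
    (fun P => lt_of_le_of_lt (norm_Z_le ν hs P) (by norm_num))
  have h6 := (hasSum_NI ν (w := fun _ => 1) (C := 1) (by simp) hs).2
  have h7 : (fun n : PP →₀ ℕ => n.prod fun i k => Z ν s i.1 ^ k) =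
      (fun I : NI => chi ν (ga I.1) * 1 * (Ideal.absNorm I.1 : ℂ) ^ (-s)) ∘ e := by
    funext n
    simp only [Function.comp]
    rw [he n, mul_one]
    exact ((Z_prod hν s n.support n).2).symm
  rw [h7, e.hasSum_iff] at h5
  have h8 := h5.unique h6
  simp only [mul_one] at h8
  exact h8.symm

end Pool.Agent.Helper88.BD
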