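import Mathlib
import Pool.Agent.Helper88.BD.Defs
import Pool.Agent.Helper88.BD.Coords
import Pool.Agent.Helper88.BD.Gen
import Pool.Agent.Helper88.BD.Units

/-!
MP_bd232a_nt, block N6. Every nonzero integer is ± ε^k times the chosen generator of its ideal, uniquely.
Proof idea: (I,σ,k) ↦ σ ε^k gen I ∈ 𝓞 K \ 0, transported by N3; bijective: x ↦ I = span {x}, x / gen I is a unit, ε_spec.1.
-/

open Polynomial NumberField MeasureTheory Set
open scoped ComplexConjugate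

namespace Pool.Agent.Helper88.BD

/-- the integer `σ ε^k gen I` -/
noncomputable def orbElt (p : NI × ℤˣ × (Fin 2 → ℤ)) : 𝓞 K :=
  (((p.2.1 : ℤˣ) : ℤ) : 𝓞 K) * ((∏ i, ε i ^ p.2.2 i : (𝓞 K)ˣ) : 𝓞 K) * gen p.1.1

theorem orbElt_unit (σ : ℤˣ) (k : Fin 2 → ℤ) :
    IsUnit ((((σ : ℤˣ) : ℤ) : 𝓞 K) * ((∏ i, ε i ^ k i : (𝓞 K)ˣ) : 𝓞 K)) := by
  refine IsUnit.mul ?_ (Units.isUnit _)
  rcases Int.units_eq_one_or σ with rfl | rfl <;> simp

theorem orbElt_ne_zero (p : NI × ℤˣ × (Fin 2 → ℤ)) : orbElt p ≠ 0 :=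
  mul_ne_zero (orbElt_unit p.2.1 p.2.2).ne_zero (gen_ne_zero p.1)

theorem span_orbElt (p : NI × ℤˣ × (Fin 2 → ℤ)) : Ideal.span {orbElt p} = p.1.1 := by
  rw [orbElt, Ideal.span_singleton_mul_left_unit (orbElt_unit p.2.1 p.2.2), gen_spec]

theorem orbElt_injective : Function.Injective orbElt := by
  rintro ⟨I, σ, k⟩ ⟨I', σ', k'⟩ h
  have hI : I = I' := by
    apply Subtype.ext
    have h1 := span_orbElt (I, σ, k)
    rw [h, span_orbElt] at h1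
    exact h1.symm
  subst hI
  have h2 : (((σ : ℤˣ) : ℤ) : 𝓞 K) * ((∏ i, ε i ^ k i : (𝓞 K)ˣ) : 𝓞 K) =
      (((σ' : ℤˣ) : ℤ) : 𝓞 K) * ((∏ i, ε i ^ k' i : (𝓞 K)ˣ) : 𝓞 K) :=
    mul_right_cancel₀ (gen_ne_zero I) h
  obtain ⟨u, hu⟩ := orbElt_unit σ k
  obtain ⟨p, -, hp⟩ := ε_spec.1 u
  have e1 := hp (σ, k) hu
  have e2 := hp (σ', k') (hu.trans h2)
  have e3 : (σ, k) = (σ', k') := e1.trans e2.symm
  rw [e3]

theorem orbElt_surjective {x : 𝓞 K} (hx : x ≠ 0) : ∃ p, orbElt p = x := by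
  have hI : Ideal.span {x} ≠ ⊥ := by
    rwa [Ne, Ideal.span_singleton_eq_bot]
  have h := gen_spec (Ideal.span {x})
  rw [Ideal.span_singleton_eq_span_singleton] at h
  obtain ⟨u, hu⟩ := h
  obtain ⟨p, hp, -⟩ := ε_spec.1 u
  refine ⟨(⟨Ideal.span {x}, hI⟩, p.1, p.2), ?_⟩
  rw [orbElt, ← hp, mul_comm, hu]

theorem ofC_zero : ofC 0 = 0 := by
  simp [ofC]

theorem abs_φ_orbElt (I : NI) (σ : ℤˣ) (k : Fin 2 → ℤ) (j : Fin 3) :
    |φ j ((orbElt (I, σ, k) : 𝓞 K) : K)| = ga I.1 j * Real.exp (∑ i, k i * L i j) := by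
  have h : ((orbElt (I, σ, k) : 𝓞 K) : K) =
      (((σ : ℤˣ) : ℤ) : K) * (((∏ i, ε i ^ k i : (𝓞 K)ˣ) : 𝓞 K) : K) * ((gen I.1 : 𝓞 K) : K) := by
    change algebraMap (𝓞 K) K _ = _
    rw [orbElt, map_mul, map_mul, map_intCast]
  rw [h, map_mul, map_mul, map_intCast, abs_mul, abs_mul, abs_φ_unit, ga]
  have hσ : |(((σ : ℤˣ) : ℤ) : ℝ)| = 1 := by
    rcases Int.units_eq_one_or σ with rfl | rfl <;> simp
  rw [hσ]
  ring

theorem orb : ∃ e : NI × ℤˣ × (Fin 2 → ℤ) ≃ {m : Fin 3 → ℤ // m ≠ 0},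
    ∀ I σ k, (∀ j, |emb (e (I, σ, k)).1 j| = ga I.1 j * Real.exp (∑ i, k i * L i j)) ∧
      (nrm (e (I, σ, k)).1).natAbs = Ideal.absNorm I.1 := by
  let C : (Fin 3 → ℤ) ≃ 𝓞 K := Equiv.ofBijective ofC ofC_bijective
  have hC : ∀ m, C m = ofC m := fun _ => rfl
  have hCs : ∀ x, ofC (C.symm x) = x := fun x => C.apply_symm_apply x
  let f : NI × ℤˣ × (Fin 2 → ℤ) → {m : Fin 3 → ℤ // m ≠ 0} := fun p =>
    ⟨C.symm (orbElt p), fun h => orbElt_ne_zero p (by rw [← hCs (orbElt p), h, ofC_zero])⟩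
  have hf : Function.Bijective f := by
    constructor
    · intro p p' h
      apply orbElt_injective
      exact C.symm.injective (congrArg Subtype.val h)
    · rintro ⟨m, hm⟩
      have hx : ofC m ≠ 0 := by
        intro h
        apply hm
        apply ofC_bijective.injective
        rw [h, ofC_zero]
      obtain ⟨p, hp⟩ := orbElt_surjective hx
      refine ⟨p, Subtype.ext ?_⟩
      change C.symm (orbElt p) = m
      rw [hp]
      exact C.symm_apply_apply m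
  refine ⟨Equiv.ofBijective f hf, fun I σ k => ?_⟩
  have hv : (Equiv.ofBijective f hf (I, σ, k)).1 = C.symm (orbElt (I, σ, k)) := rfl
  have h1 : ∀ j, |emb (C.symm (orbElt (I, σ, k))) j| = ga I.1 j * Real.exp (∑ i, k i * L i j) := by
    intro j
    rw [← φ_ofC, hCs, abs_φ_orbElt]
  rw [hv]
  refine ⟨h1, ?_⟩
  have h2 : |((nrm (C.symm (orbElt (I, σ, k))) : ℤ) : ℝ)| = (Ideal.absNorm I.1 : ℝ) := by
    rw [← prod_emb, Finset.abs_prod, Finset.prod_congr rfl (fun j _ => h1 j),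
      Finset.prod_mul_distrib, prod_ga, ← Real.exp_sum, Finset.sum_comm]
    have : ∑ i, ∑ j, (k i : ℝ) * L i j = 0 := by
      apply Finset.sum_eq_zero
      intro i _
      rw [← Finset.mul_sum, L_sum, mul_zero]
    rw [this, Real.exp_zero, mul_one]
  rw [← Int.cast_abs, Int.abs_eq_natAbs] at h2
  exact_mod_cast h2

end Pool.Agent.Helper88.BD
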