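import Mathlib
import Pool.Agent.Helper88.BD.Defs
import Pool.Agent.Helper88.BD.Orb
import Pool.Agent.Helper88.BD.Units

/-!
MP_bd232a_nt, block N12. Coefficients as sums over lattice points with a smooth unit partition.
Proof idea: for m = e(I,σ,k): log|emb m j| = log ga I j + Σ_i k_i L_ij so bc(emb m) i = bc(ga I) i + k_i (LM^T invertible);
chi ν (emb m) = chi ν (ga I) by IsNu; Σ_σ Σ_k θ(b_0+k_0)θ(b_1+k_1) = 2.
-/

open Polynomial NumberField MeasureTheory Set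
open scoped ComplexConjugate

namespace Pool.Agent.Helper88.BD

theorem LM_mulVec (w : Fin 3 → ℝ) (j : Fin 3) :
    LM.transpose.mulVec w j = w 0 + ∑ i : Fin 2, w i.succ * L i j := by
  simp only [Matrix.mulVec, dotProduct, Matrix.transpose_apply, Fin.sum_univ_three, Fin.sum_univ_two, LM]
  simp
  ring

theorem isUnit_LMT : IsUnit LM.transpose.det := by
  rw [Matrix.det_transpose]
  exact isUnit_iff_ne_zero.mpr LM_det

theorem bc_spec {x : Fin 3 → ℝ} (j : Fin 3) :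
    ∃ a : ℝ, ∀ j, Real.log |x j| = a + ∑ i, bc x i * L i j := by
  refine ⟨(LM.transpose⁻¹.mulVec (fun j => Real.log |x j|)) 0, fun j => ?_⟩
  have h := LM_mulVec (LM.transpose⁻¹.mulVec (fun j => Real.log |x j|)) j
  rw [Matrix.mulVec_mulVec, Matrix.mul_nonsing_inv _ isUnit_LMT, Matrix.one_mulVec] at h
  exact h

theorem bc_eq {x : Fin 3 → ℝ} {a : ℝ} {b : Fin 2 → ℝ} (h : ∀ j, Real.log |x j| = a + ∑ i, b i * L i j) :
    bc x = b := by
  have h1 : (fun j => Real.log |x j|) = LM.transpose.mulVec (Fin.cons a b) := by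
    funext j
    rw [LM_mulVec, h j]
    simp
  funext i
  unfold bc
  rw [h1, Matrix.mulVec_mulVec, Matrix.nonsing_inv_mul _ isUnit_LMT, Matrix.one_mulVec]
  simp

theorem log_orb {I : NI} {m : Fin 3 → ℤ} {k : Fin 2 → ℤ}
    (h : ∀ j, |emb m j| = ga I.1 j * Real.exp (∑ i, k i * L i j)) (j : Fin 3) :
    Real.log |emb m j| = Real.log |ga I.1 j| + ∑ i, k i * L i j := by
  have hg := ga_pos I j
  rw [h j, Real.log_mul hg.ne' (Real.exp_pos _).ne', Real.log_exp, abs_of_pos hg]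

theorem bc_orb {I : NI} {m : Fin 3 → ℤ} {k : Fin 2 → ℤ}
    (h : ∀ j, |emb m j| = ga I.1 j * Real.exp (∑ i, k i * L i j)) (i : Fin 2) :
    bc (emb m) i = bc (ga I.1) i + k i := by
  obtain ⟨a, ha⟩ := bc_spec (x := ga I.1) 0
  have h2 : bc (emb m) = fun i => bc (ga I.1) i + k i := by
    apply bc_eq (a := a)
    intro j
    rw [log_orb h j, ha j]
    simp only [add_mul, Finset.sum_add_distrib]
    ring
  rw [h2]

theorem chi_orb {ν : Fin 3 → ℝ} (hν : IsNu ν) {I : NI} {m : Fin 3 → ℤ} {k : Fin 2 → ℤ}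
    (h : ∀ j, |emb m j| = ga I.1 j * Real.exp (∑ i, k i * L i j)) :
    chi ν (emb m) = chi ν (ga I.1) := by
  obtain ⟨n0, hn0⟩ := hν.2 0
  obtain ⟨n1, hn1⟩ := hν.2 1
  have e : ∑ j, ν j * Real.log |emb m j| = (∑ j, ν j * Real.log |ga I.1 j|) +
      2 * Real.pi * ((k 0 * n0 + k 1 * n1 : ℤ) : ℝ) := by
    have e1 : ∑ j, ν j * Real.log |emb m j| = (∑ j, ν j * Real.log |ga I.1 j|) +
        (k 0 * (∑ j, ν j * L 0 j) + k 1 * (∑ j, ν j * L 1 j)) := by
      simp only [log_orb h, mul_add, Finset.sum_add_distrib, Fin.sum_univ_two, Finset.mul_sum]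
      congr 1
      congr 1 <;> exact Finset.sum_congr rfl fun j _ => by ring
    rw [e1, hn0, hn1]
    push_cast
    ring
  unfold chi
  rw [e]
  have e3 : (((∑ j, ν j * Real.log |ga I.1 j|) + 2 * Real.pi * ((k 0 * n0 + k 1 * n1 : ℤ) : ℝ) : ℝ) : ℂ) *
      Complex.I = ((∑ j, ν j * Real.log |ga I.1 j| : ℝ) : ℂ) * Complex.I +
      ((k 0 * n0 + k 1 * n1 : ℤ) : ℂ) * (2 * Real.pi * Complex.I) := by
    push_cast
    ring
  rw [e3, Complex.exp_add, Complex.exp_int_mul_two_pi_mul_I, mul_one]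

theorem finite_shift (A b : ℝ) : {n : ℤ | |b + n| ≤ A}.Finite := by
  apply (Set.finite_Icc (⌊-A - b⌋) (⌈A - b⌉)).subset
  intro n hn
  rw [Set.mem_ofPred_eq, abs_le] at hn
  constructor
  · have h1 := Int.floor_le (-A - b)
    have h2 : ((⌊-A - b⌋ : ℤ) : ℝ) ≤ n := by linarith [hn.1]
    exact_mod_cast h2
  · have h1 := Int.le_ceil (A - b)
    have h2 : (n : ℝ) ≤ ((⌈A - b⌉ : ℤ) : ℝ) := by linarith [hn.2]
    exact_mod_cast h2

theorem finite_shift2 (A : ℝ) (b : Fin 2 → ℝ) : {k : Fin 2 → ℤ | ∀ i, |b i + k i| ≤ A}.Finite := by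
  exact Set.Finite.pi' fun i => finite_shift A (b i)

theorem sum_theta2 {θ : ℝ → ℝ} {A : ℝ} (hA : ∀ u, A < |u| → θ u = 0)
    (hθ : ∀ u, ∑' n : ℤ, θ (u + n) = 1) (b : Fin 2 → ℝ) :
    ∑' k : Fin 2 → ℤ, ((θ (b 0 + k 0) : ℂ) * (θ (b 1 + k 1) : ℂ)) = 1 := by
  have hs : ∀ u : ℝ, Summable fun n : ℤ => (θ (u + n) : ℂ) := by
    intro u
    apply summable_of_hasFiniteSupport
    apply (finite_shift A u).subset
    intro n hn
    by_contra hc
    apply hn
    simp only [Set.mem_ofPred_eq, not_le] at hc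
    show (θ (u + n) : ℂ) = 0
    rw [hA _ hc, Complex.ofReal_zero]
  have h1 : ∀ u : ℝ, ∑' n : ℤ, (θ (u + n) : ℂ) = 1 := by
    intro u
    rw [← Complex.ofReal_tsum, hθ u, Complex.ofReal_one]
  have e : ∑' k : Fin 2 → ℤ, ((θ (b 0 + k 0) : ℂ) * (θ (b 1 + k 1) : ℂ)) =
      ∑' p : ℤ × ℤ, ((θ (b 0 + p.1) : ℂ) * (θ (b 1 + p.2) : ℂ)) :=
    (Equiv.tsum_eq (finTwoArrowEquiv ℤ)
      (fun p : ℤ × ℤ => ((θ (b 0 + p.1) : ℂ) * (θ (b 1 + p.2) : ℂ))))
  rw [e]
  have hsp : Summable fun p : ℤ × ℤ => ((θ (b 0 + p.1) : ℂ) * (θ (b 1 + p.2) : ℂ)) := by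
    apply summable_of_hasFiniteSupport
    apply ((finite_shift A (b 0)).prod (finite_shift A (b 1))).subset
    intro p hp
    rw [Function.mem_support] at hp
    constructor
    · by_contra hc
      apply hp
      simp only [Set.mem_ofPred_eq, not_le] at hc
      rw [hA _ hc, Complex.ofReal_zero, zero_mul]
    · by_contra hc
      apply hp
      simp only [Set.mem_ofPred_eq, not_le] at hc
      rw [hA _ hc, Complex.ofReal_zero, mul_zero]
  rw [hsp.tsum_prod]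
  simp only [tsum_mul_left, h1, mul_one]

theorem finite_NI (N : ℕ) : {I : NI | Ideal.absNorm I.1 ≤ N}.Finite :=
  (Ideal.finite_setOfPred_absNorm_le (S := 𝓞 K) N).preimage Subtype.val_injective.injOn

theorem coef_tsum {ν : Fin 3 → ℝ} {h : ℕ → ℂ} {N : ℕ} (hN : ∀ n, N < n → h n = 0) :
    ∑' n, coef ν n * h n = ∑' I : NI, chi ν (ga I.1) * h (Ideal.absNorm I.1) := by
  set G : NI → ℂ := fun I => chi ν (ga I.1) * h (Ideal.absNorm I.1) with hG
  have hsG : Summable G := by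
    apply summable_of_hasFiniteSupport
    apply (finite_NI N).subset
    intro I hI
    by_contra hc
    apply hI
    have hc' : N < Ideal.absNorm I.1 := not_le.mp hc
    show chi ν (ga I.1) * h (Ideal.absNorm I.1) = 0
    rw [hN _ hc', mul_zero]
  let F : NI → ℕ := fun I => Ideal.absNorm I.1
  have e1 : ∑' I : NI, G I = ∑' p : (n : ℕ) × {I : NI // F I = n}, G ((Equiv.sigmaFiberEquiv F) p) :=
    ((Equiv.sigmaFiberEquiv F).tsum_eq G).symm
  have hs2 : Summable fun p : (n : ℕ) × {I : NI // F I = n} => G ((Equiv.sigmaFiberEquiv F) p) :=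
    (Equiv.summable_iff (Equiv.sigmaFiberEquiv F)).mpr hsG
  rw [e1, hs2.tsum_sigma]
  congr 1
  funext n
  have e2 : coef ν n = ∑' I : {I : NI // F I = n}, chi ν (ga I.1.1) := by
    unfold coef
    exact (Equiv.tsum_eq (Equiv.subtypeSubtypeEquivSubtypeInter (fun I : Ideal (𝓞 K) => I ≠ ⊥)
      (fun I => Ideal.absNorm I = n)) (fun I => chi ν (ga I.1))).symm
  rw [e2, ← tsum_mul_right]
  congr 1
  funext I
  show chi ν (ga I.1.1) * h n = chi ν (ga I.1.1) * h (Ideal.absNorm I.1.1)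
  have : Ideal.absNorm I.1.1 = n := I.2
  rw [this]

theorem coef_expand {ν : Fin 3 → ℝ} (hν : IsNu ν) {θ : ℝ → ℝ} {A : ℝ} (hA : ∀ u, A < |u| → θ u = 0)
    (hθ : ∀ u, ∑' n : ℤ, θ (u + n) = 1) {h : ℕ → ℂ} (h0 : h 0 = 0) {N : ℕ} (hN : ∀ n, N < n → h n = 0) :
    (Function.support fun m : Fin 3 → ℤ => (θ (bc (emb m) 0) * θ (bc (emb m) 1) : ℂ) * chi ν (emb m) *
        h (nrm m).natAbs).Finite ∧
    ∑' n, coef ν n * h n = (1 / 2) * ∑' m : Fin 3 → ℤ, (θ (bc (emb m) 0) * θ (bc (emb m) 1) : ℂ) *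
        chi ν (emb m) * h (nrm m).natAbs := by
  obtain ⟨e, he⟩ := orb
  set f : (Fin 3 → ℤ) → ℂ := fun m => (θ (bc (emb m) 0) * θ (bc (emb m) 1) : ℂ) * chi ν (emb m) *
        h (nrm m).natAbs with hf
  have hf0 : f 0 = 0 := by
    have : (nrm 0).natAbs = 0 := by simp [nrm]
    rw [hf]
    simp only [this, h0, mul_zero]
  set g : NI × ℤˣ × (Fin 2 → ℤ) → ℂ := fun p => f (e p).1 with hg
  have hg' : ∀ (I : NI) (σ : ℤˣ) (k : Fin 2 → ℤ), g (I, σ, k) =
      ((θ (bc (ga I.1) 0 + k 0) : ℂ) * (θ (bc (ga I.1) 1 + k 1) : ℂ)) *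
        (chi ν (ga I.1) * h (Ideal.absNorm I.1)) := by
    intro I σ k
    obtain ⟨h1, h2⟩ := he I σ k
    show (θ (bc (emb (e (I, σ, k)).1) 0) * θ (bc (emb (e (I, σ, k)).1) 1) : ℂ) *
      chi ν (emb (e (I, σ, k)).1) * h (nrm (e (I, σ, k)).1).natAbs = _
    rw [bc_orb h1 0, bc_orb h1 1, chi_orb hν h1, h2]
    ring
  have hgs : (Function.support g).Finite := by
    have hfin : (⋃ I ∈ {I : NI | Ideal.absNorm I.1 ≤ N}, ({I} : Set NI) ×ˢ ((Set.univ : Set ℤˣ) ×ˢ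
        {k : Fin 2 → ℤ | ∀ i, |bc (ga I.1) i + k i| ≤ A})).Finite := by
      apply (finite_NI N).biUnion
      intro I _
      exact (Set.finite_singleton I).prod (Set.finite_univ.prod (finite_shift2 A (bc (ga I.1))))
    apply hfin.subset
    rintro ⟨I, σ, k⟩ hp
    rw [Function.mem_support, hg'] at hp
    simp only [Set.mem_iUnion]
    refine ⟨I, ?_, ?_⟩
    · show Ideal.absNorm I.1 ≤ N
      by_contra hc
      apply hp
      rw [hN _ (not_le.mp hc), mul_zero, mul_zero]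
    · refine ⟨rfl, trivial, ?_⟩
      have k0 : |bc (ga I.1) 0 + k 0| ≤ A := by
        by_contra hc
        apply hp
        rw [hA _ (not_le.mp hc)]
        simp
      have k1 : |bc (ga I.1) 1 + k 1| ≤ A := by
        by_contra hc
        apply hp
        rw [hA _ (not_le.mp hc)]
        simp
      intro i
      fin_cases i
      · exact k0
      · exact k1
  have hfs : (Function.support f).Finite := by
    apply (hgs.image (fun p => (e p).1)).subset
    intro m hm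
    have hm0 : m ≠ 0 := by
      rintro rfl
      exact hm hf0
    refine ⟨e.symm ⟨m, hm0⟩, ?_, ?_⟩
    · rw [Function.mem_support, hg]
      simpa using hm
    · simp
  refine ⟨hfs, ?_⟩
  rw [coef_tsum hN]
  have e1 : ∑' m, f m = ∑' m : {m : Fin 3 → ℤ // m ≠ 0}, f m.1 := by
    symm
    apply tsum_subtype_eq_of_support_subset (s := {m : Fin 3 → ℤ | m ≠ 0})
    intro m hm hm0
    apply hm
    rw [hm0, hf0]
  have e2 : ∑' m : {m : Fin 3 → ℤ // m ≠ 0}, f m.1 = ∑' p, g p :=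
    (e.tsum_eq (fun m : {m : Fin 3 → ℤ // m ≠ 0} => f m.1)).symm
  have hsg : Summable g := summable_of_hasFiniteSupport hgs
  have e3 : ∑' p, g p = ∑' I : NI, ∑' q : ℤˣ × (Fin 2 → ℤ), g (I, q) := hsg.tsum_prod
  have e4 : ∀ I : NI, ∑' q : ℤˣ × (Fin 2 → ℤ), g (I, q) = 2 * (chi ν (ga I.1) * h (Ideal.absNorm I.1)) := by
    intro I
    have hsq : Summable fun q : ℤˣ × (Fin 2 → ℤ) => g (I, q) := hsg.prod_factor I
    rw [hsq.tsum_prod]
    have e5 : ∀ σ : ℤˣ, ∑' k : Fin 2 → ℤ, g (I, σ, k) = chi ν (ga I.1) * h (Ideal.absNorm I.1) := by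
      intro σ
      simp only [hg']
      rw [tsum_mul_right, sum_theta2 hA hθ, one_mul]
    simp only [e5]
    rw [tsum_fintype, Finset.sum_const, Finset.card_univ]
    simp
  rw [e1, e2, e3]
  simp only [e4]
  rw [tsum_mul_left]
  ring

end Pool.Agent.Helper88.BD
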