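import Mathlib
import Pool.Agent.Helper88.BD.Defs

/-!
MP_bd232a_nt, block A2D. The different. Proof idea: δ_j = g7'(rt j) = ∏_{i≠j} (rt j - rt i) ≠ 0 (rt_elem, rt_injective); partial fractions by field_simp; k=3,4 from rt_root.
∏ δ_j = -disc = -49. (helper77)
-/

open Polynomial NumberField MeasureTheory Set
open scoped ComplexConjugate

namespace Pool.Agent.Helper88.BD

namespace Delta

theorem δ0 : δ 0 = (rt 0 - rt 1) * (rt 0 - rt 2) := by
  obtain ⟨h1, h2, h3⟩ := rt_elem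
  unfold δ
  linear_combination (2 * rt 0) * h1 - h2

theorem δ1 : δ 1 = (rt 1 - rt 0) * (rt 1 - rt 2) := by
  obtain ⟨h1, h2, h3⟩ := rt_elem
  unfold δ
  linear_combination (2 * rt 1) * h1 - h2

theorem δ2 : δ 2 = (rt 2 - rt 0) * (rt 2 - rt 1) := by
  obtain ⟨h1, h2, h3⟩ := rt_elem
  unfold δ
  linear_combination (2 * rt 2) * h1 - h2

theorem s01 : rt 0 - rt 1 ≠ 0 := sub_ne_zero.mpr (rt_injective.ne (by decide))
theorem s02 : rt 0 - rt 2 ≠ 0 := sub_ne_zero.mpr (rt_injective.ne (by decide))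
theorem s12 : rt 1 - rt 2 ≠ 0 := sub_ne_zero.mpr (rt_injective.ne (by decide))
theorem s10 : rt 1 - rt 0 ≠ 0 := sub_ne_zero.mpr (rt_injective.ne (by decide))
theorem s20 : rt 2 - rt 0 ≠ 0 := sub_ne_zero.mpr (rt_injective.ne (by decide))
theorem s21 : rt 2 - rt 1 ≠ 0 := sub_ne_zero.mpr (rt_injective.ne (by decide))

theorem disc : ((rt 0 - rt 1) * (rt 0 - rt 2) * (rt 1 - rt 2)) ^ 2 = 49 := by
  obtain ⟨h1, h2, h3⟩ := rt_elem
  generalize rt 0 = a at *
  generalize rt 1 = b at *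
  generalize rt 2 = c at *
  have e : ((a - b) * (a - c) * (b - c)) ^ 2 = (a + b + c) ^ 2 * (a * b + a * c + b * c) ^ 2 - 4 * (a * b + a * c + b * c) ^ 3
      - 4 * (a + b + c) ^ 3 * (a * b * c) + 18 * (a + b + c) * (a * b + a * c + b * c) * (a * b * c) - 27 * (a * b * c) ^ 2 := by
    ring
  rw [e, h1, h2, h3]
  norm_num

end Delta

open Delta

theorem δ_ne_zero (j : Fin 3) : δ j ≠ 0 := by
  fin_cases j
  · change δ 0 ≠ 0
    rw [δ0]
    exact mul_ne_zero s01 s02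
  · change δ 1 ≠ 0
    rw [δ1]
    exact mul_ne_zero s10 s12
  · change δ 2 ≠ 0
    rw [δ2]
    exact mul_ne_zero s20 s21

theorem sum_pow_div_delta : (∑ j, 1 / δ j = 0) ∧ (∑ j, rt j / δ j = 0) ∧
    (∑ j, rt j ^ 2 / δ j = 1) ∧ (∑ j, rt j ^ 3 / δ j = -7) ∧ (∑ j, rt j ^ 4 / δ j = 35) := by
  have t0 : ∑ j, 1 / δ j = 0 := by
    rw [Fin.sum_univ_three, δ0, δ1, δ2]
    have := s01; have := s02; have := s12; have := s10; have := s20; have := s21
    field_simp
    ring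
  have t1 : ∑ j, rt j / δ j = 0 := by
    rw [Fin.sum_univ_three, δ0, δ1, δ2]
    have := s01; have := s02; have := s12; have := s10; have := s20; have := s21
    field_simp
    ring
  have t2 : ∑ j, rt j ^ 2 / δ j = 1 := by
    rw [Fin.sum_univ_three, δ0, δ1, δ2]
    have := s01; have := s02; have := s12; have := s10; have := s20; have := s21
    field_simp
    ring
  have t3 : ∑ j, rt j ^ 3 / δ j = -7 := by
    have : ∀ j, rt j ^ 3 / δ j = -7 * (rt j ^ 2 / δ j) - 14 * (rt j / δ j) - 7 * (1 / δ j) := by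
      intro j
      have hj := rt_root j
      have hr : rt j ^ 3 = -7 * rt j ^ 2 - 14 * rt j - 7 := by linarith
      rw [hr]
      ring
    rw [Finset.sum_congr rfl fun j _ => this j, Finset.sum_sub_distrib, Finset.sum_sub_distrib, ← Finset.mul_sum,
      ← Finset.mul_sum, ← Finset.mul_sum, t0, t1, t2]
    norm_num
  have t4 : ∑ j, rt j ^ 4 / δ j = 35 := by
    have : ∀ j, rt j ^ 4 / δ j = -7 * (rt j ^ 3 / δ j) - 14 * (rt j ^ 2 / δ j) - 7 * (rt j / δ j) := by
      intro j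
      have hj := rt_root j
      have hr : rt j ^ 4 = -7 * rt j ^ 3 - 14 * rt j ^ 2 - 7 * rt j := by
        linear_combination rt j * hj
      rw [hr]
      ring
    rw [Finset.sum_congr rfl fun j _ => this j, Finset.sum_sub_distrib, Finset.sum_sub_distrib, ← Finset.mul_sum,
      ← Finset.mul_sum, ← Finset.mul_sum, t1, t2, t3]
    norm_num
  exact ⟨t0, t1, t2, t3, t4⟩

theorem prod_δ : ∏ j, |δ j| = 49 := by
  rw [Fin.prod_univ_three, ← abs_mul, ← abs_mul, δ0, δ1, δ2]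
  have e : (rt 0 - rt 1) * (rt 0 - rt 2) * ((rt 1 - rt 0) * (rt 1 - rt 2)) * ((rt 2 - rt 0) * (rt 2 - rt 1)) =
      -(((rt 0 - rt 1) * (rt 0 - rt 2) * (rt 1 - rt 2)) ^ 2) := by ring
  rw [e, disc]
  norm_num

end Pool.Agent.Helper88.BD
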