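import Mathlib
import Pool.Agent.Helper88.BD.Defs

/-!
MP_bd232a_nt, block A2F. Fourier transform of the Gaussian. Proof idea: linear change of variables x = V y, V the Vandermonde matrix of rt, |det V| = ∏_{i<j}|rt j - rt i| = 7
(its square is 49, rt_elem); `MeasureTheory.Measure.addHaar...` / `MeasureTheory.integral_comp_...` for the matrix; then the integral is a product
(`MeasureTheory.integral_fintype_prod_eq_prod` / integral_fin_nat_prod_eq_prod) of one-dimensional Gaussian integrals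
(`fourierIntegral_gaussian_pi` or `integral_cexp_neg_mul_sq_add...`). Note Σ ξ_i y_i = Σ_j η_j (V y)_j. (helper77)
-/

open Polynomial NumberField MeasureTheory Set
open scoped ComplexConjugate

namespace Pool.Agent.Helper88.BD

namespace FGau

/-- the Vandermonde matrix -/
noncomputable def V : Matrix (Fin 3) (Fin 3) ℝ := Matrix.of fun (j i : Fin 3) => rt j ^ (i : ℕ)

theorem V_apply (x : Fin 3 → ℝ) (j : Fin 3) : V.mulVec x j = x 0 + x 1 * rt j + x 2 * rt j ^ 2 := by
  simp only [Matrix.mulVec, dotProduct, Fin.sum_univ_three, V, Matrix.of_apply, Fin.val_zero, Fin.val_one,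
    Fin.val_two, pow_zero, pow_one]
  ring

theorem det_sq : V.det ^ 2 = 49 := by
  have h0 : V = Matrix.vandermonde rt := rfl
  have h : V.det = (rt 1 - rt 0) * (rt 2 - rt 0) * (rt 2 - rt 1) := by
    rw [Matrix.det_fin_three]
    simp only [V, Matrix.of_apply, Fin.val_zero, Fin.val_one, Fin.val_two, pow_zero, pow_one]
    ring
  rw [h]
  obtain ⟨h1, h2, h3⟩ := rt_elem
  generalize rt 0 = a at *
  generalize rt 1 = b at *
  generalize rt 2 = c at *
  have e : ((b - a) * (c - a) * (c - b)) ^ 2 = (a + b + c) ^ 2 * (a * b + a * c + b * c) ^ 2 - 4 * (a * b + a * c + b * c) ^ 3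
      - 4 * (a + b + c) ^ 3 * (a * b * c) + 18 * (a + b + c) * (a * b + a * c + b * c) * (a * b * c) - 27 * (a * b * c) ^ 2 := by
    ring
  rw [e, h1, h2, h3]
  norm_num

end FGau

open FGau

theorem vandermonde_det : |Matrix.det (Matrix.of fun (j i : Fin 3) => rt j ^ (i : ℕ))| = 7 := by
  have h := det_sq
  have h1 : |V.det| ^ 2 = 7 ^ 2 := by rw [sq_abs, h]; norm_num
  exact (pow_left_inj₀ (abs_nonneg _) (by norm_num) two_ne_zero).1 h1

theorem fourier_gau {t : Fin 3 → ℝ} (ht : ∀ j, 0 < t j) (ξ η : Fin 3 → ℝ)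
    (h : ∀ i : Fin 3, ∑ j, rt j ^ (i : ℕ) * η j = ξ i) :
    ∫ y : Fin 3 → ℝ, Complex.exp (-(2 * Real.pi * Complex.I * (∑ i, ξ i * y i : ℝ))) *
      (Real.exp (-Real.pi * ∑ j, (y 0 + y 1 * rt j + y 2 * rt j ^ 2) ^ 2 / t j) : ℂ) =
    ((Real.sqrt (∏ j, t j) / 7 * Real.exp (-Real.pi * ∑ j, t j * η j ^ 2) : ℝ) : ℂ) := by
  have hdet : |V.det| = 7 := vandermonde_det
  have hV : V.det ≠ 0 := by
    intro h0
    rw [h0] at hdet
    norm_num at hdet
  set b : Fin 3 → ℂ := fun j => ((Real.pi / t j : ℝ) : ℂ) with hb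
  set c : Fin 3 → ℂ := fun j => -(2 * Real.pi * Complex.I * η j) with hc
  have hbre : ∀ j, 0 < (b j).re := fun j => by
    rw [hb, Complex.ofReal_re]
    exact div_pos Real.pi_pos (ht j)
  set G : (Fin 3 → ℝ) → ℂ := fun x => Complex.exp (-∑ j, b j * (x j : ℂ) ^ 2 + ∑ j, c j * x j) with hG
  have hGc : Continuous G := by
    rw [hG]
    fun_prop
  have hint := GaussianFourier.integral_cexp_neg_sum_mul_add hbre c
  have hpt : ∀ y : Fin 3 → ℝ, Complex.exp (-(2 * Real.pi * Complex.I * (∑ i, ξ i * y i : ℝ))) *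
      (Real.exp (-Real.pi * ∑ j, (y 0 + y 1 * rt j + y 2 * rt j ^ 2) ^ 2 / t j) : ℂ) = G (V.mulVec y) := by
    intro y
    rw [hG, Complex.ofReal_exp, ← Complex.exp_add]
    congr 1
    have e1 : ∑ i, ξ i * y i = ∑ j, η j * V.mulVec y j := by
      simp only [V_apply]
      have h0 := h 0
      have h1 := h 1
      have h2 := h 2
      simp only [Fin.sum_univ_three, Fin.val_zero, Fin.val_one, Fin.val_two, pow_zero, pow_one, one_mul] at h0 h1 h2 ⊢
      rw [← h0, ← h1, ← h2]
      ring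
    rw [e1]
    simp only [V_apply, hb, hc]
    push_cast
    simp only [Fin.sum_univ_three]
    ring
  simp only [hpt]
  have hm := Real.map_matrix_volume_pi_eq_smul_volume_pi (M := V) hV
  have h1 : ∫ y, G y ∂(Measure.map (Matrix.toLin' V) volume) = ∫ y, G (V.mulVec y) := by
    rw [integral_map (LinearMap.continuous_of_finiteDimensional _).aemeasurable hGc.aestronglyMeasurable]
    simp only [Matrix.toLin'_apply]
  rw [hm, integral_smul_measure, hint, ENNReal.toReal_ofReal (abs_nonneg _), abs_inv, hdet] at h1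
  rw [← h1]
  have h2 : ∀ j, ((Real.pi : ℂ) / b j) ^ (1 / 2 : ℂ) * Complex.exp (c j ^ 2 / (4 * b j)) =
      ((Real.sqrt (t j) * Real.exp (-Real.pi * (t j * η j ^ 2)) : ℝ) : ℂ) := by
    intro j
    have hp : (Real.pi : ℂ) ≠ 0 := Complex.ofReal_ne_zero.2 Real.pi_pos.ne'
    have htj : (t j : ℂ) ≠ 0 := Complex.ofReal_ne_zero.2 (ht j).ne'
    have e1 : (Real.pi : ℂ) / b j = ((t j : ℝ) : ℂ) := by
      simp only [hb]
      push_cast
      field_simp
    have e2 : c j ^ 2 / (4 * b j) = ((-Real.pi * (t j * η j ^ 2) : ℝ) : ℂ) := by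
      simp only [hb, hc]
      push_cast
      field_simp
      ring_nf
      rw [Complex.I_sq]
      ring
    rw [e1, e2, Real.sqrt_eq_rpow]
    push_cast
    rw [Complex.ofReal_cpow (ht j).le]
    push_cast
    rfl
  rw [Finset.prod_congr rfl fun j _ => h2 j, ← Complex.ofReal_prod, Finset.prod_mul_distrib, ← Real.exp_sum, ← Finset.mul_sum,
    ← Real.sqrt_prod _ (fun j _ => (ht j).le), Complex.real_smul, ← Complex.ofReal_mul]
  congr 1
  ring

end Pool.Agent.Helper88.BD
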