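import Mathlib
import Pool.Agent.Helper88.BD.Defs

/-!
MP_bd232a_nt, block A0. Periodic weights. Proof idea: W m depends only on m mod M (finitely many classes); Wh is a finite sum of bounded terms; nrm is a polynomial.
-/

open Polynomial NumberField MeasureTheory Set
open scoped ComplexConjugate

namespace Pool.Agent.Helper88.BD

theorem periodic_bounded {M : ℕ} [NeZero M] {W : (Fin 3 → ℤ) → ℂ} (hW : ∀ m k, W (m + (M : ℤ) • k) = W m) :
    ∃ B : ℝ, ∀ m, ‖W m‖ ≤ B := by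
  refine ⟨∑ r : Fin 3 → Fin M, ‖W (fun i => ((r i : ℕ) : ℤ))‖, fun m => ?_⟩
  have hM : (0 : ℤ) < M := by exact_mod_cast Nat.pos_of_ne_zero (NeZero.ne M)
  let r : Fin 3 → Fin M := fun i => ⟨(m i % M).toNat, by
    have h1 := Int.emod_nonneg (m i) hM.ne'
    have h2 := Int.emod_lt_of_pos (m i) hM
    omega⟩
  have hm : m = (fun i => ((r i : ℕ) : ℤ)) + (M : ℤ) • (fun i => m i / (M : ℤ)) := by
    funext i
    have h1 := Int.emod_nonneg (m i) hM.ne'
    simp only [r, Pi.add_apply, Pi.smul_apply, smul_eq_mul, Int.toNat_of_nonneg h1]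
    exact (Int.emod_add_mul_ediv (m i) M).symm
  rw [hm, hW]
  exact Finset.single_le_sum (f := fun r : Fin 3 → Fin M => ‖W (fun i => ((r i : ℕ) : ℤ))‖)
    (fun _ _ => norm_nonneg _) (Finset.mem_univ r)

theorem Wh_bounded (M : ℕ) (W : (Fin 3 → ℤ) → ℂ) : ∃ B : ℝ, ∀ m, ‖Wh M W m‖ ≤ B := by
  refine ⟨∑ r : Fin 3 → Fin M, ‖W (fun i => ((r i : ℕ) : ℤ))‖, fun m => ?_⟩
  unfold Wh
  refine (norm_sum_le _ _).trans (Finset.sum_le_sum fun r _ => ?_)
  rw [norm_mul]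
  have h : (2 * Real.pi * Complex.I * (pair m (fun i => ((r i : ℕ) : ℤ)) : ℂ) / (M : ℂ)) =
      ((2 * Real.pi * (pair m (fun i => ((r i : ℕ) : ℤ)) : ℝ) / (M : ℝ) : ℝ) : ℂ) * Complex.I := by
    push_cast
    ring
  rw [h, Complex.norm_exp_ofReal_mul_I, mul_one]

theorem nw_periodic {M : ℕ} (w : ZMod M → ℂ) (m k : Fin 3 → ℤ) : nw w (m + (M : ℤ) • k) = nw w m := by
  unfold nw nrm
  congr 1
  simp only [Pi.add_apply, Pi.smul_apply, smul_eq_mul]
  push_cast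
  simp

theorem Wh_one : Wh 1 (nw (M := 1) fun _ => 1) = nw (M := 1) fun _ => 1 := by
  funext n
  unfold Wh nw pair
  simp

theorem cd_pos (M : ℕ) [NeZero M] (hδ : ∀ j, δ j ≠ 0) (j : Fin 3) : 0 < cd M j := by
  have hM : (0 : ℝ) < M := by exact_mod_cast Nat.pos_of_ne_zero (NeZero.ne M)
  have h := hδ j
  unfold cd
  positivity

end Pool.Agent.Helper88.BD
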