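import Mathlib
import Pool.Agent.Helper88.BD.Defs
import Pool.Agent.Helper88.BD.PoissonDecay
import Pool.Agent.Helper88.BD.Delta
import Pool.Agent.Helper88.BD.FourierGau
import Pool.Agent.Helper88.BD.Gau
import Pool.Agent.Helper88.BD.Weights

/-!
MP_bd232a_nt, block A2T. Theta transformation with periodic weights.
Proof idea: G(x) = exp(-π Σ_j (x_0+x_1 r_j+x_2 r_j²)²/t_j). Σ_m W(m)G(m) = Σ_{r mod M} W(r) Σ_k G(r+Mk); A2P for y ↦ G(r+My); its transform at n is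
M^{-3} e(n·r/M) Ĝ(n/M); with n = H n', H = [[0,0,1],[0,1,-7],[1,-7,35]] (det -1, bijection of ℤ³), A2F with η_j = emb n' j/(M δ_j)
(sum_pow_div_delta says exactly Σ_j rt_j^i emb n' j/δ_j = (H n')_i), and (H n')·r = pair n' r.
-/

open Polynomial NumberField MeasureTheory Set
open scoped ComplexConjugate

namespace Pool.Agent.Helper88.BD

namespace TP

/-- The linear forms `x_0 + x_1 r_j + x_2 r_j²` on real vectors. -/
noncomputable def zf (x : Fin 3 → ℝ) (j : Fin 3) : ℝ := x 0 + x 1 * rt j + x 2 * rt j ^ 2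

/-- The Gaussian on `ℝ³`. -/
noncomputable def G (t x : Fin 3 → ℝ) : ℝ := Real.exp (-Real.pi * ∑ j, zf x j ^ 2 / t j)

theorem zf_cont (j : Fin 3) : Continuous (fun x => zf x j) := by
  unfold zf
  fun_prop

theorem G_cont (t : Fin 3 → ℝ) : Continuous (G t) := by
  unfold G zf
  fun_prop

theorem G_pos (t x : Fin 3 → ℝ) : 0 < G t x := Real.exp_pos _

theorem gpos (c t : Fin 3 → ℝ) (m : Fin 3 → ℤ) : 0 < gau c t m := Real.exp_pos _

/-- The inverse of the Vandermonde matrix. -/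
noncomputable def b : Fin 3 → Fin 3 → ℝ :=
  ![fun j => (rt j ^ 2 + 7 * rt j + 14) / δ j, fun j => (rt j + 7) / δ j, fun j => 1 / δ j]

theorem coord_eq (x : Fin 3 → ℝ) (i : Fin 3) : x i = ∑ j, b i j * zf x j := by
  obtain ⟨h0, h1, h2, h3, h4⟩ := sum_pow_div_delta
  simp only [Fin.sum_univ_three] at *
  fin_cases i
  · simp [b, zf]
    linear_combination -(x 0) * h2 - 7 * x 0 * h1 - 14 * x 0 * h0 - x 1 * h3 - 7 * x 1 * h2
      - 14 * x 1 * h1 - x 2 * h4 - 7 * x 2 * h3 - 14 * x 2 * h2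
  · simp [b, zf]
    linear_combination -(x 0) * h1 - 7 * x 0 * h0 - x 1 * h2 - 7 * x 1 * h1
      - x 2 * h3 - 7 * x 2 * h2
  · simp [b, zf]
    linear_combination -(x 0) * h0 - x 1 * h1 - x 2 * h2

theorem sq_bound {t : Fin 3 → ℝ} (ht : ∀ j, 0 < t j) : ∃ K : ℝ, 0 ≤ K ∧ ∀ (x : Fin 3 → ℝ) (i : Fin 3),
    x i ^ 2 ≤ K * ∑ j, zf x j ^ 2 / t j := by
  refine ⟨∑ i, ∑ j, b i j ^ 2 * t j, ?_, ?_⟩
  · exact Finset.sum_nonneg fun i _ => Finset.sum_nonneg fun j _ => mul_nonneg (sq_nonneg _) (ht j).le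
  · intro x i
    have h1 := Finset.sum_mul_sq_le_sq_mul_sq Finset.univ (fun j => b i j * Real.sqrt (t j))
      (fun j => zf x j / Real.sqrt (t j))
    have h2 : ∀ j, b i j * Real.sqrt (t j) * (zf x j / Real.sqrt (t j)) = b i j * zf x j := by
      intro j
      have := (Real.sqrt_pos.mpr (ht j)).ne'
      field_simp
    have h3 : ∀ j, (b i j * Real.sqrt (t j)) ^ 2 = b i j ^ 2 * t j := by
      intro j
      rw [mul_pow, Real.sq_sqrt (ht j).le]
    have h4 : ∀ j, (zf x j / Real.sqrt (t j)) ^ 2 = zf x j ^ 2 / t j := by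
      intro j
      rw [div_pow, Real.sq_sqrt (ht j).le]
    simp only [h2, h3, h4] at h1
    rw [← coord_eq] at h1
    refine h1.trans ?_
    apply mul_le_mul_of_nonneg_right
    · exact Finset.single_le_sum (f := fun i => ∑ j, b i j ^ 2 * t j)
        (fun i _ => Finset.sum_nonneg fun j _ => mul_nonneg (sq_nonneg _) (ht j).le) (Finset.mem_univ i)
    · exact Finset.sum_nonneg fun j _ => div_nonneg (sq_nonneg _) (ht j).le

theorem decay {t : Fin 3 → ℝ} (ht : ∀ j, 0 < t j) {M : ℝ} (hM : 1 ≤ M) (r : Fin 3 → ℝ) :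
    ∃ C : ℝ, ∀ y : Fin 3 → ℝ, ‖((G t (M • y + r) : ℝ) : ℂ)‖ ≤ C * ∏ i, (1 + y i ^ 2)⁻¹ := by
  obtain ⟨K, hK, hb⟩ := sq_bound ht
  have hR : 0 ≤ ∑ i, r i ^ 2 := Finset.sum_nonneg fun i _ => sq_nonneg _
  set R := ∑ i, r i ^ 2 with hRdef
  refine ⟨6 * Real.exp 1 * (1 + 2 * K + 2 * R) ^ 3, fun y => ?_⟩
  rw [Complex.norm_real, Real.norm_eq_abs, abs_of_pos (G_pos _ _)]
  unfold G
  have hu0 : 0 ≤ ∑ j, zf (M • y + r) j ^ 2 / t j :=
    Finset.sum_nonneg fun j _ => div_nonneg (sq_nonneg _) (ht j).le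
  set u := Real.pi * ∑ j, zf (M • y + r) j ^ 2 / t j with hu
  have hpi : 1 ≤ Real.pi := by linarith [Real.pi_gt_three]
  have hu1 : ∑ j, zf (M • y + r) j ^ 2 / t j ≤ u := by
    rw [hu]
    nlinarith
  have hu2 : 0 ≤ u := hu0.trans hu1
  have e1 : -Real.pi * ∑ j, zf (M • y + r) j ^ 2 / t j = -u := by rw [hu]; ring
  rw [e1]
  have hy : ∀ i, 1 + y i ^ 2 ≤ (1 + 2 * K + 2 * R) * (1 + u) := by
    intro i
    have h1 := hb (M • y + r) i
    have h2 : r i ^ 2 ≤ R := Finset.single_le_sum (f := fun i => r i ^ 2) (fun i _ => sq_nonneg _)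
      (Finset.mem_univ i)
    have h3 : (M • y + r) i = M * y i + r i := by simp
    rw [h3] at h1
    have h4 : y i ^ 2 ≤ (M * y i) ^ 2 := by
      rw [mul_pow]
      have : 1 ≤ M ^ 2 := by nlinarith
      nlinarith [sq_nonneg (y i)]
    have h5 : (M * y i) ^ 2 ≤ 2 * (M * y i + r i) ^ 2 + 2 * r i ^ 2 := by
      nlinarith [sq_nonneg (M * y i + 2 * r i)]
    have h6 : K * ∑ j, zf (M • y + r) j ^ 2 / t j ≤ K * u := mul_le_mul_of_nonneg_left hu1 hK
    have h7 : 0 ≤ R * u := mul_nonneg hR hu2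
    nlinarith
  have hprod : ∏ i, (1 + y i ^ 2) ≤ ((1 + 2 * K + 2 * R) * (1 + u)) ^ 3 := by
    calc ∏ i, (1 + y i ^ 2) ≤ ∏ i : Fin 3, ((1 + 2 * K + 2 * R) * (1 + u)) :=
          Finset.prod_le_prod (fun i _ => by positivity) fun i _ => hy i
      _ = _ := by simp
  have hexp : (1 + u) ^ 3 ≤ 6 * Real.exp 1 * Real.exp u := by
    have := Real.pow_div_factorial_le_exp (1 + u) (by linarith) 3
    rw [Real.exp_add] at this
    have h6 : ((3 : ℕ).factorial : ℝ) = 6 := by norm_num [Nat.factorial]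
    rw [h6, div_le_iff₀ (by norm_num)] at this
    linarith
  have hP : 0 < ∏ i, (1 + y i ^ 2) := Finset.prod_pos fun i _ => by positivity
  rw [Finset.prod_inv_distrib, Real.exp_neg, ← div_eq_mul_inv, le_div_iff₀ hP, inv_mul_eq_div,
    div_le_iff₀ (Real.exp_pos _)]
  calc ∏ i, (1 + y i ^ 2) ≤ ((1 + 2 * K + 2 * R) * (1 + u)) ^ 3 := hprod
    _ = (1 + 2 * K + 2 * R) ^ 3 * (1 + u) ^ 3 := by ring
    _ ≤ (1 + 2 * K + 2 * R) ^ 3 * (6 * Real.exp 1 * Real.exp u) :=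
        mul_le_mul_of_nonneg_left hexp (by positivity)
    _ = _ := by ring

/-- The matrix `H` of the trace form as a bijection of `ℤ³`. -/
def He : (Fin 3 → ℤ) ≃ (Fin 3 → ℤ) where
  toFun n := ![n 2, n 1 - 7 * n 2, n 0 - 7 * n 1 + 35 * n 2]
  invFun n := ![n 2 + 7 * n 1 + 14 * n 0, n 1 + 7 * n 0, n 0]
  left_inv n := by
    funext i
    fin_cases i
    · simp; ring
    · simp
    · simp
  right_inv n := by
    funext i
    fin_cases i
    · simp
    · simp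
    · simp; ring

theorem He_apply (n : Fin 3 → ℤ) : He n = ![n 2, n 1 - 7 * n 2, n 0 - 7 * n 1 + 35 * n 2] := rfl

theorem He_pair (n r : Fin 3 → ℤ) : ∑ i, He n i * r i = pair n r := by
  simp only [He_apply, Fin.sum_univ_three, pair]
  simp
  ring

theorem He_emb (n : Fin 3 → ℤ) (i : Fin 3) : ∑ j, rt j ^ (i : ℕ) * (emb n j / δ j) = (He n i : ℝ) := by
  obtain ⟨h0, h1, h2, h3, h4⟩ := sum_pow_div_delta
  simp only [Fin.sum_univ_three, emb, He_apply] at *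
  fin_cases i
  · simp
    linear_combination (n 0 : ℝ) * h0 + (n 1 : ℝ) * h1 + (n 2 : ℝ) * h2
  · simp
    linear_combination (n 0 : ℝ) * h1 + (n 1 : ℝ) * h2 + (n 2 : ℝ) * h3
  · simp
    linear_combination (n 0 : ℝ) * h2 + (n 1 : ℝ) * h3 + (n 2 : ℝ) * h4

theorem transform {t : Fin 3 → ℝ} (ht : ∀ j, 0 < t j) (M : ℕ) [NeZero M] (r n : Fin 3 → ℤ) :
    ∫ y : Fin 3 → ℝ, Helper52.Circle.chr (He n) y *
      ((G t ((M : ℝ) • y + fun i => (r i : ℝ)) : ℝ) : ℂ) =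
    ((Real.sqrt (∏ j, t j) / (7 * M ^ 3) : ℝ) : ℂ) *
      (Complex.exp (2 * Real.pi * Complex.I * (pair n r : ℂ) / (M : ℂ)) * (gau (cd M) t n : ℂ)) := by
  have hM0 : (M : ℝ) ≠ 0 := by exact_mod_cast NeZero.ne M
  have hMc : (M : ℂ) ≠ 0 := by exact_mod_cast NeZero.ne M
  have hMpos : (0 : ℝ) < M := by
    have : 0 < M := Nat.pos_of_ne_zero (NeZero.ne M)
    exact_mod_cast this
  set rr : Fin 3 → ℝ := fun i => (r i : ℝ) with hrr
  let h : (Fin 3 → ℝ) → ℂ := fun x =>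
    Complex.exp (2 * Real.pi * Complex.I * (pair n r : ℂ) / (M : ℂ)) *
      (Complex.exp (-(2 * Real.pi * Complex.I * ((∑ i, ((He n i : ℝ) / M) * x i : ℝ) : ℂ))) *
        ((Real.exp (-Real.pi * ∑ j, (x 0 + x 1 * rt j + x 2 * rt j ^ 2) ^ 2 / t j) : ℝ) : ℂ))
  have e1 : ∀ y : Fin 3 → ℝ, Helper52.Circle.chr (He n) y * ((G t ((M : ℝ) • y + rr) : ℝ) : ℂ) =
      (fun x => h (x + rr)) ((M : ℝ) • y) := by
    intro y
    rw [Helper52.Circle.chr_eq]
    simp only [h]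
    rw [← mul_assoc, ← Complex.exp_add]
    congr 1
    congr 1
    rw [← He_pair]
    simp only [Fin.sum_univ_three, hrr]
    push_cast
    simp only [Pi.add_apply, Pi.smul_apply, smul_eq_mul]
    push_cast
    field_simp
    ring
  simp_rw [e1]
  rw [Measure.integral_comp_smul volume (fun x => h (x + rr)) (M : ℝ), integral_add_right_eq_self h rr]
  simp only [h]
  rw [integral_const_mul]
  have hη : ∀ i : Fin 3, ∑ j, rt j ^ (i : ℕ) * (emb n j / δ j / M) = (He n i : ℝ) / M := by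
    intro i
    rw [← He_emb, Finset.sum_div]
    apply Finset.sum_congr rfl
    intro j _
    ring
  rw [fourier_gau ht (fun i => (He n i : ℝ) / M) (fun j => emb n j / δ j / M) hη]
  have hg : Real.exp (-Real.pi * ∑ j, t j * (emb n j / δ j / M) ^ 2) = gau (cd M) t n := by
    unfold gau cd
    congr 2
    apply Finset.sum_congr rfl
    intro j _
    have := δ_ne_zero j
    field_simp
  rw [hg]
  simp only [Module.finrank_fin_fun]
  rw [abs_of_pos (by positivity), Complex.real_smul]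
  push_cast
  field_simp

theorem poisson_r {t : Fin 3 → ℝ} (ht : ∀ j, 0 < t j) (M : ℕ) [NeZero M] (r : Fin 3 → ℤ) :
    HasSum (fun n : Fin 3 → ℤ => ((Real.sqrt (∏ j, t j) / (7 * M ^ 3) : ℝ) : ℂ) *
      (Complex.exp (2 * Real.pi * Complex.I * (pair n r : ℂ) / (M : ℂ)) * (gau (cd M) t n : ℂ)))
      (∑' v : Fin 3 → ℤ, ((gau 1 (fun j => (t j)⁻¹) (r + (M : ℤ) • v) : ℝ) : ℂ)) := by
  have hMpos : (1 : ℝ) ≤ M := by
    have : 0 < M := Nat.pos_of_ne_zero (NeZero.ne M)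
    exact_mod_cast this
  obtain ⟨C, hC⟩ := decay ht hMpos (fun i => (r i : ℝ))
  have hsum : Summable (fun n : Fin 3 → ℤ => ((Real.sqrt (∏ j, t j) / (7 * M ^ 3) : ℝ) : ℂ) *
      (Complex.exp (2 * Real.pi * Complex.I * (pair n r : ℂ) / (M : ℂ)) * (gau (cd M) t n : ℂ))) := by
    apply Summable.mul_left
    have hs := gau_summable (cd_pos M δ_ne_zero) ht
    apply Summable.of_norm
    refine hs.congr fun n => ?_
    rw [norm_mul]
    have e : (2 * Real.pi * Complex.I * (pair n r : ℂ) / (M : ℂ)) =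
        ((2 * Real.pi * (pair n r : ℝ) / (M : ℝ) : ℝ) : ℂ) * Complex.I := by
      push_cast
      ring
    rw [e, Complex.norm_exp_ofReal_mul_I, one_mul, Complex.norm_real, Real.norm_eq_abs,
      abs_of_pos (gpos _ _ _)]
  have hf : Continuous (fun y : Fin 3 → ℝ => ((G t ((M : ℝ) • y + fun i => (r i : ℝ)) : ℝ) : ℂ)) := by
    apply Complex.continuous_ofReal.comp
    apply (G_cont t).comp
    fun_prop
  have hs2 : Summable (fun k : Fin 3 → ℤ => ∫ y, Helper52.Circle.chr k y *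
      ((G t ((M : ℝ) • y + fun i => (r i : ℝ)) : ℝ) : ℂ)) := by
    rw [← He.summable_iff]
    refine hsum.congr fun n => ?_
    rw [Function.comp_apply, transform ht M r n]
  have hp := poisson_decay _ hf hC hs2
  rw [← He.hasSum_iff] at hp
  have hv : ∀ v : Fin 3 → ℤ, ((G t ((M : ℝ) • Helper52.Circle.toR v + fun i => (r i : ℝ)) : ℝ) : ℂ) =
      ((gau 1 (fun j => (t j)⁻¹) (r + (M : ℤ) • v) : ℝ) : ℂ) := by
    intro v
    congr 1
    unfold G gau zf emb Helper52.Circle.toR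
    congr 2
    apply Finset.sum_congr rfl
    intro j _
    simp only [Pi.add_apply, Pi.smul_apply, smul_eq_mul, Pi.one_apply]
    push_cast
    rw [div_eq_mul_inv]
    ring
  simp_rw [hv] at hp
  convert hp using 2 with n
  rw [Function.comp_apply, transform ht M r n]

/-- Residues and quotients. -/
def dm (M : ℕ) [NeZero M] : (Fin 3 → ℤ) ≃ (Fin 3 → Fin M) × (Fin 3 → ℤ) :=
  ((Equiv.arrowCongr (Equiv.refl _) (Int.divModEquiv M)).trans
    (Equiv.arrowProdEquivProdArrow (Fin 3) (fun _ => ℤ) (fun _ => Fin M))).trans (Equiv.prodComm _ _)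

theorem dm_symm (M : ℕ) [NeZero M] (p : (Fin 3 → Fin M) × (Fin 3 → ℤ)) :
    (dm M).symm p = (fun i => ((p.1 i : ℕ) : ℤ)) + (M : ℤ) • p.2 := by
  funext i
  simp [dm, Int.divModEquiv, Equiv.arrowProdEquivProdArrow]
  ring

end TP

open TP in
theorem theta_poisson (M : ℕ) [NeZero M] (W : (Fin 3 → ℤ) → ℂ) (hW : ∀ m k, W (m + (M : ℤ) • k) = W m)
    {t : Fin 3 → ℝ} (ht : ∀ j, 0 < t j) :
    Th W 1 (fun j => (t j)⁻¹) =
      ((Real.sqrt (∏ j, t j) / (7 * M ^ 3) : ℝ) : ℂ) * Th (Wh M W) (cd M) t := by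
  have hti : ∀ j, 0 < (fun j => (t j)⁻¹) j := fun j => inv_pos.mpr (ht j)
  have hone : ∀ j : Fin 3, 0 < (1 : Fin 3 → ℝ) j := fun j => by simp
  have hs0 : Summable (gau 1 (fun j => (t j)⁻¹)) := gau_summable hone hti
  obtain ⟨B, hB⟩ := periodic_bounded hW
  have hsW : Summable (fun m : Fin 3 → ℤ => W m * (gau 1 (fun j => (t j)⁻¹) m : ℂ)) := by
    apply Summable.of_norm_bounded (hs0.mul_left B)
    intro m
    rw [norm_mul, Complex.norm_real, Real.norm_eq_abs, abs_of_pos (gpos _ _ _)]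
    exact mul_le_mul_of_nonneg_right (hB m) (gpos _ _ _).le
  unfold Th
  have h1 : ∑' m : Fin 3 → ℤ, W m * (gau 1 (fun j => (t j)⁻¹) m : ℂ) =
      ∑ r : Fin 3 → Fin M, W (fun i => ((r i : ℕ) : ℤ)) *
        ∑' v : Fin 3 → ℤ, ((gau 1 (fun j => (t j)⁻¹) ((fun i => ((r i : ℕ) : ℤ)) + (M : ℤ) • v) : ℝ) : ℂ) := by
    rw [← (dm M).symm.tsum_eq]
    have hs' : Summable (fun p : (Fin 3 → Fin M) × (Fin 3 → ℤ) =>
        W ((dm M).symm p) * (gau 1 (fun j => (t j)⁻¹) ((dm M).symm p) : ℂ)) :=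
      (dm M).symm.summable_iff.mpr hsW
    rw [hs'.tsum_prod, tsum_fintype]
    apply Finset.sum_congr rfl
    intro r _
    rw [← tsum_mul_left]
    apply tsum_congr
    intro v
    rw [dm_symm]
    simp only
    rw [hW]
  rw [h1]
  have h2 : ∀ r : Fin 3 → Fin M, HasSum (fun n : Fin 3 → ℤ =>
      W (fun i => ((r i : ℕ) : ℤ)) * (((Real.sqrt (∏ j, t j) / (7 * M ^ 3) : ℝ) : ℂ) *
      (Complex.exp (2 * Real.pi * Complex.I * (pair n (fun i => ((r i : ℕ) : ℤ)) : ℂ) / (M : ℂ)) *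
        (gau (cd M) t n : ℂ))))
      (W (fun i => ((r i : ℕ) : ℤ)) * ∑' v : Fin 3 → ℤ,
        ((gau 1 (fun j => (t j)⁻¹) ((fun i => ((r i : ℕ) : ℤ)) + (M : ℤ) • v) : ℝ) : ℂ)) :=
    fun r => (poisson_r ht M _).mul_left _
  have h3 := hasSum_sum (s := Finset.univ) (fun r _ => h2 r)
  rw [← h3.tsum_eq, ← tsum_mul_left]
  apply tsum_congr
  intro n
  unfold Wh
  rw [Finset.sum_mul, Finset.mul_sum]
  apply Finset.sum_congr rfl
  intro r _
  ring

end Pool.Agent.Helper88.BD
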