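import Mathlib
import Pool.Agent.Helper88.BD.Defs
import Pool.Agent.Helper88.BD.ThetaPoisson
import Pool.Agent.Helper88.BD.Units
import Pool.Agent.Helper88.BD.Char

/-!
MP_bd232a_nt, block A5. Functional equation of the one-variable theta function. Proof idea: tt (1/τ) y j = (tt τ (-y) j)⁻¹, ∏_j tt τ (-y) j = τ³ (L_sum), theta_poisson,
substitution y ↦ -y in the integral over the symmetric Dm, ch_neg.
-/

open Polynomial NumberField MeasureTheory Set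
open scoped ComplexConjugate

namespace Pool.Agent.Helper88.BD

theorem measurableSet_Dm : MeasurableSet Dm := measurableSet_Icc

theorem neg_mem_Dm {y : Fin 2 → ℝ} : -y ∈ Dm ↔ y ∈ Dm := by
  unfold Dm
  simp only [Set.mem_Icc, Pi.le_def, Pi.neg_apply]
  constructor
  · rintro ⟨h1, h2⟩
    exact ⟨fun i => by linarith [h2 i], fun i => by linarith [h1 i]⟩
  · rintro ⟨h1, h2⟩
    exact ⟨fun i => by linarith [h2 i], fun i => by linarith [h1 i]⟩

theorem integral_Dm_neg (f : (Fin 2 → ℝ) → ℂ) : ∫ y in Dm, f (-y) = ∫ y in Dm, f y := by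
  rw [← integral_indicator measurableSet_Dm, ← integral_indicator measurableSet_Dm,
    ← integral_neg_eq_self (Dm.indicator f)]
  congr 1
  ext y
  by_cases hy : y ∈ Dm
  · rw [Set.indicator_of_mem hy, Set.indicator_of_mem (neg_mem_Dm.2 hy)]
  · rw [Set.indicator_of_notMem hy, Set.indicator_of_notMem (fun h => hy (neg_mem_Dm.1 h))]

theorem tt_pos {τ : ℝ} (hτ : 0 < τ) (y : Fin 2 → ℝ) (j : Fin 3) : 0 < tt τ y j :=
  mul_pos hτ (Real.exp_pos _)

theorem tt_inv (τ : ℝ) (y : Fin 2 → ℝ) : tt (1 / τ) y = fun j => (tt τ (-y) j)⁻¹ := by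
  ext j
  unfold tt
  rw [mul_inv, ← Real.exp_neg, one_div]
  congr 2
  rw [← mul_neg, ← Finset.sum_neg_distrib]
  congr 1
  apply Finset.sum_congr rfl
  intro i _
  simp

theorem prod_tt (τ : ℝ) (y : Fin 2 → ℝ) : ∏ j, tt τ y j = τ ^ 3 := by
  unfold tt
  rw [Finset.prod_mul_distrib, ← Real.exp_sum, Finset.prod_const, Finset.card_univ, Fintype.card_fin]
  have : ∑ j, 2 * ∑ i, y i * L i j = 0 := by
    rw [← Finset.mul_sum, Finset.sum_comm]
    have h : ∀ i, ∑ j, y i * L i j = 0 := by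
      intro i
      rw [← Finset.mul_sum, L_sum, mul_zero]
    simp [h]
  rw [this, Real.exp_zero, mul_one]

theorem sqrt_cube {τ : ℝ} (hτ : 0 < τ) : Real.sqrt (τ ^ 3) = τ ^ (3 / 2 : ℝ) := by
  rw [Real.sqrt_eq_rpow, ← Real.rpow_natCast, ← Real.rpow_mul hτ.le]
  norm_num

theorem fW_FE (ν : Fin 3 → ℝ) (M : ℕ) [NeZero M] (W : (Fin 3 → ℤ) → ℂ) (hW : ∀ m k, W (m + (M : ℤ) • k) = W m)
    {τ : ℝ} (hτ : 0 < τ) :
    fW ν W 1 (1 / τ) = (((1 / (7 * M ^ 3) : ℝ) : ℂ) * ((τ ^ (3 / 2 : ℝ) : ℝ) : ℂ)) * fW (-ν) (Wh M W) (cd M) τ := by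
  unfold fW
  have h1 : ∀ y : Fin 2 → ℝ, Th W 1 (tt (1 / τ) y) * ch ν y =
      (((1 / (7 * M ^ 3) : ℝ) : ℂ) * ((τ ^ (3 / 2 : ℝ) : ℝ) : ℂ)) *
        (fun y' => Th (Wh M W) (cd M) (tt τ y') * ch (-ν) y') (-y) := by
    intro y
    rw [tt_inv τ, theta_poisson M W hW (fun j => tt_pos hτ (-y) j), prod_tt, sqrt_cube hτ]
    have h2 : ch (-ν) (-y) = ch ν y := by
      rw [ch_neg, neg_neg]
    simp only [h2]
    have h3 : ((τ ^ (3 / 2 : ℝ) / (7 * (M : ℝ) ^ 3) : ℝ) : ℂ) =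
        ((1 / (7 * (M : ℝ) ^ 3) : ℝ) : ℂ) * ((τ ^ (3 / 2 : ℝ) : ℝ) : ℂ) := by
      rw [← Complex.ofReal_mul]
      congr 1
      ring
    rw [h3]
    ring
  simp only [h1]
  rw [integral_const_mul]
  congr 1
  exact integral_Dm_neg (fun y' => Th (Wh M W) (cd M) (tt τ y') * ch (-ν) y')

end Pool.Agent.Helper88.BD
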