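import Mathlib
import Pool.Agent.Helper88.BD.Defs

/-!
MP_bd232a_nt, block A6g. Growth of a Mellin transform. Proof idea: split ∫_0^∞ at 1, substitute τ → 1/τ in the first part; both parts are
≤ C' ∫_1^∞ τ^{|Re z|+3/2} e^{-κτ} dτ ≤ C'' Γ(n+1) κ^{-n-1} with n = ⌈|Re z|+3/2⌉, n! ≤ n^n ≤ exp(n²).
-/

open Polynomial NumberField MeasureTheory Set
open scoped ComplexConjugate

namespace Pool.Agent.Helper88.BD

theorem mellin_growth {f : ℝ → ℂ} (hf : ContinuousOn f (Ioi 0)) {C κ : ℝ} (hκ : 0 < κ)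
    (h1 : ∀ τ : ℝ, 1 ≤ τ → ‖f τ‖ ≤ C * Real.exp (-(κ * τ)))
    (h2 : ∀ τ : ℝ, 1 ≤ τ → ‖f (1 / τ)‖ ≤ C * τ ^ (3 / 2 : ℝ) * Real.exp (-(κ * τ))) :
    ∃ A : ℝ, ∀ z : ℂ, ‖mellin f z‖ ≤ Real.exp (A * (1 + ‖z‖) ^ 2) := by
  have hC : 0 ≤ C := by
    have h := h1 1 le_rfl
    by_contra hcon
    push Not at hcon
    have := mul_neg_of_neg_of_pos hcon (Real.exp_pos (-(κ * 1)))
    linarith [norm_nonneg (f 1)]
  refine ⟨8 * C + 16 * (1 + |Real.log κ|), fun z => ?_⟩
  obtain ⟨n, hn⟩ : ∃ n : ℕ, n = ⌈|z.re|⌉₊ + 3 := ⟨_, rfl⟩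
  have hn1 : |z.re| + 3 ≤ n := by
    rw [hn]; push_cast; linarith [Nat.le_ceil |z.re|]
  have hn2 : (n : ℝ) ≤ |z.re| + 4 := by
    have := Nat.ceil_lt_add_one (abs_nonneg z.re)
    rw [hn]; push_cast; linarith
  have hnpos : 0 < n := by rw [hn]; omega
  have habs1 := le_abs_self z.re
  have habs2 := neg_abs_le z.re
  have key : ∀ y : ℝ, 0 < y → Real.exp (-y) ≤ n.factorial / y ^ n := by
    intro y hy
    have h3 := Real.pow_div_factorial_le_exp y hy.le n
    have hf0 : (0 : ℝ) < n.factorial := by exact_mod_cast n.factorial_pos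
    rw [Real.exp_neg, inv_le_comm₀ (Real.exp_pos _) (by positivity), inv_div]
    exact h3
  set K : ℝ := C * (n.factorial / κ ^ n) with hK
  have hK0 : 0 ≤ K := by positivity
  have hpt : ∀ t : ℝ, 0 < t → ‖(t : ℂ) ^ (z - 1) • f t‖ ≤ 2 * K * (1 + t ^ 2)⁻¹ := by
    intro t ht
    rw [norm_smul, Complex.norm_cpow_eq_rpow_re_of_pos ht, Complex.sub_re, Complex.one_re]
    rcases le_total 1 t with h | h
    · have e1 : t ^ (z.re - 1) ≤ t ^ n / t ^ 2 := by
        calc t ^ (z.re - 1) ≤ t ^ ((n : ℝ) - 2) :=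
              Real.rpow_le_rpow_of_exponent_le h (by linarith)
          _ = t ^ n / t ^ 2 := by
              rw [Real.rpow_sub ht, Real.rpow_natCast]
              norm_num
      have e2 : ‖f t‖ ≤ C * (n.factorial / (κ * t) ^ n) :=
        (h1 t h).trans (mul_le_mul_of_nonneg_left (key _ (by positivity)) hC)
      calc t ^ (z.re - 1) * ‖f t‖ ≤ (t ^ n / t ^ 2) * (C * (n.factorial / (κ * t) ^ n)) :=
            mul_le_mul e1 e2 (norm_nonneg _) (by positivity)
        _ = K * (t ^ 2)⁻¹ := by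
            rw [hK, mul_pow]
            field_simp
        _ ≤ K * (2 * (1 + t ^ 2)⁻¹) := by
            apply mul_le_mul_of_nonneg_left _ hK0
            rw [← div_eq_mul_inv, inv_eq_one_div, div_le_div_iff₀ (by positivity) (by positivity)]
            nlinarith
        _ = 2 * K * (1 + t ^ 2)⁻¹ := by ring
    · have e1 : t ^ (z.re - 1) ≤ t ^ (3 / 2 : ℝ) / t ^ n := by
        calc t ^ (z.re - 1) ≤ t ^ ((3 / 2 : ℝ) - (n : ℝ)) :=
              Real.rpow_le_rpow_of_exponent_ge ht h (by linarith)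
          _ = t ^ (3 / 2 : ℝ) / t ^ n := by rw [Real.rpow_sub ht, Real.rpow_natCast]
      have h3 : 1 ≤ 1 / t := by rw [le_div_iff₀ ht]; linarith
      have e2 : ‖f t‖ ≤ C * (t ^ (3 / 2 : ℝ))⁻¹ * (n.factorial / (κ * (1 / t)) ^ n) := by
        have h4 := h2 (1 / t) h3
        rw [one_div_one_div] at h4
        have e3 : (1 / t : ℝ) ^ (3 / 2 : ℝ) = (t ^ (3 / 2 : ℝ))⁻¹ := by
          rw [one_div, Real.inv_rpow ht.le]
        rw [e3] at h4
        exact h4.trans (mul_le_mul_of_nonneg_left (key _ (by positivity)) (by positivity))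
      calc t ^ (z.re - 1) * ‖f t‖ ≤ (t ^ (3 / 2 : ℝ) / t ^ n) *
            (C * (t ^ (3 / 2 : ℝ))⁻¹ * (n.factorial / (κ * (1 / t)) ^ n)) :=
            mul_le_mul e1 e2 (norm_nonneg _) (by positivity)
        _ = K * 1 := by
            have ht3 : t ^ (3 / 2 : ℝ) ≠ 0 := (Real.rpow_pos_of_pos ht _).ne'
            rw [hK, mul_pow, div_pow, one_pow]
            field_simp
        _ ≤ K * (2 * (1 + t ^ 2)⁻¹) := by
            apply mul_le_mul_of_nonneg_left _ hK0
            rw [← div_eq_mul_inv, le_div_iff₀ (by positivity)]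
            nlinarith
        _ = 2 * K * (1 + t ^ 2)⁻¹ := by ring
  have hint : Integrable (fun t : ℝ => 2 * K * (1 + t ^ 2)⁻¹) := integrable_inv_one_add_sq.const_mul _
  have hb : ‖mellin f z‖ ≤ 2 * K * Real.pi := by
    have e1 : ‖mellin f z‖ ≤ ∫ t in Ioi (0 : ℝ), 2 * K * (1 + t ^ 2)⁻¹ := by
      unfold mellin
      apply norm_integral_le_of_norm_le hint.integrableOn
      filter_upwards [self_mem_ae_restrict measurableSet_Ioi] with t ht
      exact hpt t ht
    refine e1.trans ?_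
    refine (setIntegral_le_integral hint (Filter.Eventually.of_forall fun t => ?_)).trans ?_
    · positivity
    · rw [integral_const_mul, integral_univ_inv_one_add_sq]
  refine hb.trans ?_
  have hz : |z.re| ≤ ‖z‖ := Complex.abs_re_le_norm z
  have hz0 := norm_nonneg z
  have hn3 : (n : ℝ) ≤ 4 * (1 + ‖z‖) := by linarith
  have hn0 : (0 : ℝ) < n := by exact_mod_cast hnpos
  have hn1' : (1 : ℝ) ≤ n := by exact_mod_cast hnpos
  have b1 : 8 * C ≤ Real.exp (8 * C) := by linarith [Real.add_one_le_exp (8 * C)]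
  have b2 : (n.factorial : ℝ) ≤ Real.exp ((n : ℝ) ^ 2) := by
    calc (n.factorial : ℝ) ≤ (n : ℝ) ^ n := by exact_mod_cast Nat.factorial_le_pow n
      _ = Real.exp (Real.log n * n) := by
          rw [mul_comm, Real.exp_nat_mul, Real.exp_log hn0]
      _ ≤ Real.exp ((n : ℝ) ^ 2) := by
          apply Real.exp_le_exp.2
          have : Real.log n ≤ n := (Real.log_le_sub_one_of_pos hn0).trans (by linarith)
          nlinarith
  have b3 : (κ ^ n)⁻¹ ≤ Real.exp ((n : ℝ) ^ 2 * |Real.log κ|) := by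
    have e1 : κ ^ n = Real.exp (n * Real.log κ) := by
      rw [Real.exp_nat_mul, Real.exp_log hκ]
    rw [e1, ← Real.exp_neg]
    apply Real.exp_le_exp.2
    have h3 := neg_abs_le (Real.log κ)
    have h4 := abs_nonneg (Real.log κ)
    calc -(n * Real.log κ) = n * (-Real.log κ) := by ring
      _ ≤ n * |Real.log κ| := mul_le_mul_of_nonneg_left (by linarith) hn0.le
      _ ≤ (n : ℝ) ^ 2 * |Real.log κ| := mul_le_mul_of_nonneg_right (by nlinarith) h4
  calc 2 * K * Real.pi ≤ 2 * K * 4 := by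
        apply mul_le_mul_of_nonneg_left Real.pi_le_four (by positivity)
    _ = 8 * C * n.factorial * (κ ^ n)⁻¹ := by rw [hK]; ring
    _ ≤ Real.exp (8 * C) * Real.exp ((n : ℝ) ^ 2) * Real.exp ((n : ℝ) ^ 2 * |Real.log κ|) := by
        apply mul_le_mul _ b3 (by positivity) (by positivity)
        exact mul_le_mul b1 b2 (by positivity) (by positivity)
    _ = Real.exp (8 * C + (n : ℝ) ^ 2 + (n : ℝ) ^ 2 * |Real.log κ|) := by
        rw [← Real.exp_add, ← Real.exp_add]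
    _ ≤ _ := by
        apply Real.exp_le_exp.2
        have h4 := abs_nonneg (Real.log κ)
        have h5 : (n : ℝ) ^ 2 ≤ 16 * (1 + ‖z‖) ^ 2 := by
          calc (n : ℝ) ^ 2 ≤ (4 * (1 + ‖z‖)) ^ 2 := pow_le_pow_left₀ hn0.le hn3 2
            _ = 16 * (1 + ‖z‖) ^ 2 := by ring
        have h6 : 1 ≤ (1 + ‖z‖) ^ 2 := by nlinarith
        have h7 : 8 * C ≤ 8 * C * (1 + ‖z‖) ^ 2 := by nlinarith
        have h8 : (n : ℝ) ^ 2 * |Real.log κ| ≤ 16 * (1 + ‖z‖) ^ 2 * |Real.log κ| :=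
          mul_le_mul_of_nonneg_right h5 h4
        calc 8 * C + (n : ℝ) ^ 2 + (n : ℝ) ^ 2 * |Real.log κ| ≤
            8 * C * (1 + ‖z‖) ^ 2 + 16 * (1 + ‖z‖) ^ 2 + 16 * (1 + ‖z‖) ^ 2 * |Real.log κ| := by
              linarith
          _ = (8 * C + 16 * (1 + |Real.log κ|)) * (1 + ‖z‖) ^ 2 := by ring

end Pool.Agent.Helper88.BD
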