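import Mathlib
import Pool.Agent.Helper88.BD.Defs
import Pool.Agent.Helper88.BD.Cont
import Pool.Agent.Helper88.BD.Decay
import Pool.Agent.Helper88.BD.FE
import Pool.Agent.Helper88.BD.MellinGrowth
import Pool.Agent.Helper88.BD.Weights
import Pool.Agent.Helper88.BD.Delta

/-!
MP_bd232a_nt, block A6. Entire continuation. Proof idea: WeakFEPair with f = fW ν W 1, g = fW (-ν) (Wh M W) (cd M), k = 3/2, ε = 1/(7M³), f₀ = g₀ = 0
(IsStrongFEPair: differentiable_Λ, hasMellin, functional_equation). -ν satisfies IsNu.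
-/

open Polynomial NumberField MeasureTheory Set
open scoped ComplexConjugate

namespace Pool.Agent.Helper88.BD

theorem IsNu.neg {ν : Fin 3 → ℝ} (hν : IsNu ν) : IsNu (-ν) := by
  refine ⟨by simpa using hν.1, fun i => ?_⟩
  obtain ⟨k, hk⟩ := hν.2 i
  refine ⟨-k, ?_⟩
  simp only [Pi.neg_apply, neg_mul, Finset.sum_neg_distrib, hk]
  push_cast
  ring

theorem exp_decay_isBigO {g : ℝ → ℂ} {C κ : ℝ} (hκ : 0 < κ)
    (h : ∀ τ : ℝ, 1 ≤ τ → ‖g τ‖ ≤ C * Real.exp (-(κ * τ))) (r : ℝ) :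
    g =O[Filter.atTop] (fun x : ℝ => x ^ r) := by
  have h1 : g =O[Filter.atTop] (fun x : ℝ => Real.exp (-κ * x)) := by
    refine Asymptotics.IsBigO.of_bound C ?_
    filter_upwards [Filter.eventually_ge_atTop 1] with τ hτ
    rw [Real.norm_of_nonneg (Real.exp_pos _).le]
    simpa [neg_mul] using h τ hτ
  exact h1.trans (isLittleO_exp_neg_mul_rpow_atTop hκ r).isBigO

theorem mellin_fW {ν : Fin 3 → ℝ} (hν : IsNu ν) (h0 : ν ≠ 0) (M : ℕ) [NeZero M] (W : (Fin 3 → ℤ) → ℂ)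
    (hW : ∀ m k, W (m + (M : ℤ) • k) = W m) :
    Differentiable ℂ (mellin (fW ν W 1)) ∧
    (∀ z : ℂ, mellin (fW ν W 1) (3 / 2 - z) =
      ((1 / (7 * M ^ 3) : ℝ) : ℂ) * mellin (fW (-ν) (Wh M W) (cd M)) z) ∧
    ∃ A : ℝ, ∀ z : ℂ, ‖mellin (fW ν W 1) z‖ ≤ Real.exp (A * (1 + ‖z‖) ^ 2) := by
  obtain ⟨B, hB⟩ := periodic_bounded hW
  obtain ⟨B', hB'⟩ := Wh_bounded M W
  have hcd : ∀ j, 0 < cd M j := cd_pos M δ_ne_zero
  have h1 : ∀ j : Fin 3, (0 : ℝ) < (1 : Fin 3 → ℝ) j := fun _ => one_pos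
  have h0' : -ν ≠ 0 := neg_ne_zero.2 h0
  have hcf := fW_continuousOn ν hB h1
  have hcg := fW_continuousOn (-ν) hB' hcd
  obtain ⟨C, κ, hκ, hC⟩ := fW_decay hν h0 hB h1
  obtain ⟨C', κ', hκ', hC'⟩ := fW_decay hν.neg h0' hB' hcd
  have hM : (0 : ℝ) < (M : ℝ) := by
    have := NeZero.pos M
    exact_mod_cast this
  have hε : (((1 / (7 * M ^ 3) : ℝ)) : ℂ) ≠ 0 := by
    rw [Complex.ofReal_ne_zero]
    positivity
  let P : WeakFEPair ℂ :=
    { f := fW ν W 1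
      g := fW (-ν) (Wh M W) (cd M)
      k := 3 / 2
      ε := ((1 / (7 * M ^ 3) : ℝ) : ℂ)
      f₀ := 0
      g₀ := 0
      hf_int := hcf.locallyIntegrableOn measurableSet_Ioi
      hg_int := hcg.locallyIntegrableOn measurableSet_Ioi
      hk := by norm_num
      hε := hε
      h_feq := fun x hx => by
        rw [fW_FE ν M W hW hx, smul_eq_mul]
      hf_top := fun r => by
        simpa using exp_decay_isBigO hκ hC r
      hg_top := fun r => by
        simpa using exp_decay_isBigO hκ' hC' r }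
  have hP : IsStrongFEPair P := ⟨rfl, rfl⟩
  refine ⟨?_, ?_, ?_⟩
  · have h := hP.differentiable_Λ
    rw [hP.Λ_eq] at h
    exact h
  · intro z
    have h := P.functional_equation z
    rw [hP.Λ_eq, hP.symm_Λ_eq, smul_eq_mul] at h
    have e : ((P.k : ℝ) : ℂ) = 3 / 2 := by
      change (((3 / 2 : ℝ)) : ℂ) = 3 / 2
      push_cast
      rfl
    rw [e] at h
    exact h
  · set κ₀ := min κ κ' with hκ₀
    set C₀ := max |C| (‖((1 / (7 * M ^ 3) : ℝ) : ℂ)‖ * |C'|) with hC₀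
    refine mellin_growth (f := fW ν W 1) (C := C₀) (κ := κ₀) hcf (lt_min hκ hκ') ?_ ?_
    · intro τ hτ
      have hτ0 : 0 ≤ τ := by linarith
      calc ‖fW ν W 1 τ‖ ≤ C * Real.exp (-(κ * τ)) := hC τ hτ
        _ ≤ C₀ * Real.exp (-(κ₀ * τ)) := by
          have hle : C ≤ C₀ := (le_abs_self C).trans (le_max_left _ _)
          have hC0 : 0 ≤ C₀ := (abs_nonneg C).trans (le_max_left _ _)
          refine mul_le_mul hle ?_ (Real.exp_pos _).le hC0
          apply Real.exp_le_exp.2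
          have : κ₀ * τ ≤ κ * τ := mul_le_mul_of_nonneg_right (min_le_left _ _) hτ0
          linarith
    · intro τ hτ
      have hτ0 : 0 < τ := by linarith
      rw [fW_FE ν M W hW hτ0, norm_mul, norm_mul]
      have hpow : 0 ≤ τ ^ (3 / 2 : ℝ) := Real.rpow_nonneg hτ0.le _
      rw [Complex.norm_real (τ ^ (3 / 2 : ℝ)), Real.norm_of_nonneg hpow]
      calc ‖(((1 / (7 * M ^ 3) : ℝ)) : ℂ)‖ * τ ^ (3 / 2 : ℝ) * ‖fW (-ν) (Wh M W) (cd M) τ‖
          ≤ ‖(((1 / (7 * M ^ 3) : ℝ)) : ℂ)‖ * τ ^ (3 / 2 : ℝ) * (|C'| * Real.exp (-(κ₀ * τ))) := by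
            refine mul_le_mul_of_nonneg_left ?_ (by positivity)
            refine (hC' τ hτ).trans ?_
            refine mul_le_mul (le_abs_self _) ?_ (Real.exp_pos _).le (abs_nonneg _)
            apply Real.exp_le_exp.2
            have : κ₀ * τ ≤ κ' * τ := mul_le_mul_of_nonneg_right (min_le_right _ _) hτ0.le
            linarith
        _ = (‖(((1 / (7 * M ^ 3) : ℝ)) : ℂ)‖ * |C'|) * τ ^ (3 / 2 : ℝ) * Real.exp (-(κ₀ * τ)) := by ring
        _ ≤ C₀ * τ ^ (3 / 2 : ℝ) * Real.exp (-(κ₀ * τ)) := by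
            gcongr
            exact le_max_right _ _

end Pool.Agent.Helper88.BD
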