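import Mathlib
import Pool.Agent.Helper88.BD.Defs
import Pool.Agent.Helper88.BD.Units

/-!
MP_bd232a_nt, block A7. The local integral. Proof idea: v = log τ, linear change of variables u_j = v + 2 Σ_i y_i L_ij (determinant 4 det LM up to sign), the integrand becomes
∏_j exp(-π g_j e^{u_j}) e^{u_j (s - iν_j)/2} (Σν_j = 0, L_sum), and ∫_ℝ exp(-a e^u) e^{zu} du = Γ(z) a^{-z} (Re z > 0; substitution x = e^u and
`Complex.integral_cpow_mul_exp_neg_mul_Ioi`). Gammaℝ s = π^{-s/2} Γ(s/2).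
-/

open Polynomial NumberField MeasureTheory Set
open scoped ComplexConjugate

namespace Pool.Agent.Helper88.BD

theorem loc_integrableOn_cpow_exp {a : ℝ} (ha : 0 < a) {z : ℂ} (hz : 0 < z.re) :
    IntegrableOn (fun x : ℝ => (x : ℂ) ^ (z - 1) * Complex.exp (-((a : ℂ) * x))) (Ioi 0) := by
  have h := Complex.GammaIntegral_convergent hz
  have h2 : IntegrableOn (fun x : ℝ => ((Real.exp (-(a * x)) : ℝ) : ℂ) * ((a * x : ℝ) : ℂ) ^ (z - 1))
      (Ioi 0) := by
    have := (integrableOn_Ioi_comp_mul_left_iff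
      (fun x : ℝ => ((Real.exp (-x) : ℝ) : ℂ) * (x : ℂ) ^ (z - 1)) 0 ha).mpr (by simpa using h)
    simpa using this
  have h3 : IntegrableOn (fun x : ℝ => ((a : ℂ) ^ (z - 1))⁻¹ *
      (((Real.exp (-(a * x)) : ℝ) : ℂ) * ((a * x : ℝ) : ℂ) ^ (z - 1))) (Ioi 0) := h2.const_mul _
  refine h3.congr_fun ?_ measurableSet_Ioi
  intro x hx
  have hx' : (0 : ℝ) < x := hx
  have ha1 : (a : ℂ) ≠ 0 := by exact_mod_cast ha.ne'
  have ha0 : (a : ℂ) ^ (z - 1) ≠ 0 := Complex.cpow_ne_zero_iff.mpr (Or.inl ha1)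
  show ((a : ℂ) ^ (z - 1))⁻¹ * (((Real.exp (-(a * x)) : ℝ) : ℂ) * ((a * x : ℝ) : ℂ) ^ (z - 1)) =
    (x : ℂ) ^ (z - 1) * Complex.exp (-((a : ℂ) * x))
  rw [Complex.ofReal_mul, Complex.mul_cpow_ofReal_nonneg ha.le hx'.le, Complex.ofReal_exp]
  push_cast
  field_simp

theorem integral_exp_exp {a : ℝ} (ha : 0 < a) {z : ℂ} (hz : 0 < z.re) :
    Integrable (fun u : ℝ => (Real.exp (-(a * Real.exp u)) : ℂ) * Complex.exp (z * u)) ∧
    ∫ u : ℝ, (Real.exp (-(a * Real.exp u)) : ℂ) * Complex.exp (z * u) = Complex.Gamma z * (a : ℂ) ^ (-z) := by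
  have himg : Real.exp '' univ = Ioi 0 := by rw [image_univ, Real.range_exp]
  have hder : ∀ x ∈ (univ : Set ℝ), HasDerivWithinAt Real.exp (Real.exp x) univ x :=
    fun x _ => (Real.hasDerivAt_exp x).hasDerivWithinAt
  have hinj : InjOn Real.exp univ := Real.exp_injective.injOn
  have key : ∀ u : ℝ, |Real.exp u| • (((Real.exp u : ℝ) : ℂ) ^ (z - 1) *
      Complex.exp (-((a : ℂ) * ((Real.exp u : ℝ) : ℂ)))) =
      (Real.exp (-(a * Real.exp u)) : ℂ) * Complex.exp (z * u) := by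
    intro u
    rw [abs_of_pos (Real.exp_pos u), Complex.real_smul,
      Complex.cpow_def_of_ne_zero (by exact_mod_cast (Real.exp_pos u).ne'),
      ← Complex.ofReal_log (Real.exp_pos u).le, Real.log_exp]
    push_cast
    rw [← mul_assoc, ← Complex.exp_add, mul_comm]
    congr 2
    ring
  have h1 := loc_integrableOn_cpow_exp ha hz
  have h2 := Complex.integral_cpow_mul_exp_neg_mul_Ioi hz ha
  constructor
  · rw [← himg, integrableOn_image_iff_integrableOn_abs_deriv_smul MeasurableSet.univ hder hinj,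
      integrableOn_univ] at h1
    refine h1.congr (Filter.Eventually.of_forall fun u => ?_)
    exact key u
  · rw [← himg, integral_image_eq_integral_abs_deriv_smul MeasurableSet.univ hder hinj,
      setIntegral_univ] at h2
    rw [← integral_congr_ae (Filter.Eventually.of_forall fun u => key u), h2, one_div, mul_comm,
      Complex.inv_cpow, Complex.cpow_neg]
    rw [Complex.arg_ofReal_of_nonneg ha.le]
    exact Real.pi_pos.ne

/-- The matrix of the linear change of variables. -/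
noncomputable def loc_chM : Matrix (Fin 3) (Fin 3) ℝ := fun j i => ![1, 2 * L 0 j, 2 * L 1 j] i

theorem loc_chM_det : loc_chM.det = 4 * LM.det := by
  have : loc_chM = LM.transpose * Matrix.diagonal ![1, 2, 2] := by
    ext j i
    rw [Matrix.mul_diagonal]
    fin_cases i <;> simp [loc_chM, LM, Matrix.transpose_apply, mul_comm]
  rw [this, Matrix.det_mul, Matrix.det_transpose, Matrix.det_diagonal, Fin.prod_univ_three]
  simp
  ring

theorem loc_chM_mulVec (v : ℝ) (y : Fin 2 → ℝ) (j : Fin 3) :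
    loc_chM.mulVec (Fin.cons v y) j = v + 2 * ∑ i, y i * L i j := by
  rw [Matrix.mulVec, dotProduct, Fin.sum_univ_three, Fin.sum_univ_two]
  simp only [loc_chM, Matrix.cons_val_zero, Matrix.cons_val_one, Matrix.cons_val_two, Matrix.head_cons,
    Matrix.tail_cons]
  have e0 : (Fin.cons v y : Fin 3 → ℝ) 0 = v := rfl
  have e1 : (Fin.cons v y : Fin 3 → ℝ) 1 = y 0 := rfl
  have e2 : (Fin.cons v y : Fin 3 → ℝ) 2 = y 1 := rfl
  rw [e0, e1, e2]
  simp
  ring

/-- The factors of the integrand in the new variables. -/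
noncomputable def loc_Gfac (ν g : Fin 3 → ℝ) (s : ℂ) (j : Fin 3) (u : ℝ) : ℂ :=
  (Real.exp (-(Real.pi * g j * Real.exp u)) : ℂ) *
    Complex.exp ((s - (ν j : ℂ) * Complex.I) / 2 * u)

theorem loc_Gfac_int {ν g : Fin 3 → ℝ} (hg : ∀ j, 0 < g j) {s : ℂ} (hs : 0 < s.re) (j : Fin 3) :
    Integrable (loc_Gfac ν g s j) ∧ ∫ u, loc_Gfac ν g s j u =
      Complex.Gammaℝ (s - (ν j : ℂ) * Complex.I) * (g j : ℂ) ^ (-(s - (ν j : ℂ) * Complex.I) / 2) := by
  have hz : 0 < ((s - (ν j : ℂ) * Complex.I) / 2).re := by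
    simp
    exact hs
  obtain ⟨h1, h2⟩ := integral_exp_exp (mul_pos Real.pi_pos (hg j)) hz
  refine ⟨h1, ?_⟩
  unfold loc_Gfac
  rw [h2, Complex.Gammaℝ_def, Complex.ofReal_mul, Complex.mul_cpow_ofReal_nonneg Real.pi_pos.le (hg j).le]
  rw [show -((s - (ν j : ℂ) * Complex.I) / 2) = -(s - (ν j : ℂ) * Complex.I) / 2 by ring]
  ring

/-- The integrand in the variables `u`. -/
noncomputable def loc_Hfun (ν g : Fin 3 → ℝ) (s : ℂ) (u : Fin 3 → ℝ) : ℂ := ∏ j, loc_Gfac ν g s j (u j)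

theorem loc_Hfun_int {ν g : Fin 3 → ℝ} (hg : ∀ j, 0 < g j) {s : ℂ} (hs : 0 < s.re) :
    Integrable (loc_Hfun ν g s) ∧ ∫ u, loc_Hfun ν g s u =
      gam ν s * ∏ j, (g j : ℂ) ^ (-(s - (ν j : ℂ) * Complex.I) / 2) := by
  constructor
  · exact Integrable.fintype_prod (f := loc_Gfac ν g s) (μ := fun _ => volume)
      (fun j => (loc_Gfac_int hg hs j).1)
  · have := integral_fintype_prod_eq_prod (μ := fun _ : Fin 3 => (volume : Measure ℝ))
      (loc_Gfac ν g s)
    unfold loc_Hfun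
    rw [volume_pi, this]
    simp_rw [(loc_Gfac_int hg hs _).2]
    rw [Finset.prod_mul_distrib]
    rfl

theorem loc_Hfun_lin {ν g : Fin 3 → ℝ} (hg : ∀ j, 0 < g j) {s : ℂ} (hs : 0 < s.re) :
    Integrable (fun w : Fin 3 → ℝ => loc_Hfun ν g s (loc_chM.mulVec w)) ∧
    ∫ w : Fin 3 → ℝ, loc_Hfun ν g s (loc_chM.mulVec w) =
      ((1 / (4 * |LM.det|) : ℝ) : ℂ) * ∫ u, loc_Hfun ν g s u := by
  have hdet : loc_chM.det ≠ 0 := by
    rw [loc_chM_det]
    exact mul_ne_zero (by norm_num) LM_det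
  have hmap := Real.map_matrix_volume_pi_eq_smul_volume_pi hdet
  have hemb : MeasurableEmbedding (Matrix.toLin' loc_chM : (Fin 3 → ℝ) → (Fin 3 → ℝ)) := by
    have hi : Function.Injective (Matrix.toLin' loc_chM) := by
      rw [Matrix.toLin'_apply', Matrix.coe_mulVecLin]
      exact Matrix.mulVec_injective_of_isUnit
        ((Matrix.isUnit_iff_isUnit_det _).mpr (isUnit_iff_ne_zero.mpr hdet))
    exact (LinearMap.continuous_of_finiteDimensional _).measurableEmbedding hi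
  have hI := (loc_Hfun_int (ν := ν) hg hs).1
  have hc : |loc_chM.det⁻¹| = 1 / (4 * |LM.det|) := by
    rw [loc_chM_det, abs_inv, abs_mul, abs_of_pos (by norm_num : (0 : ℝ) < 4), one_div]
  constructor
  · have h1 : Integrable (loc_Hfun ν g s) (Measure.map (Matrix.toLin' loc_chM) volume) := by
      rw [hmap]
      exact hI.smul_measure ENNReal.ofReal_ne_top
    exact (hemb.integrable_map_iff.mp h1)
  · have h2 : ∫ u, loc_Hfun ν g s u ∂(Measure.map (Matrix.toLin' loc_chM) volume) =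
        ∫ w, loc_Hfun ν g s (Matrix.toLin' loc_chM w) := hemb.integral_map _
    rw [hmap, integral_smul_measure, ENNReal.toReal_ofReal (abs_nonneg _), hc,
      Complex.real_smul] at h2
    exact h2.symm

theorem loc_Hfun_prod {ν g : Fin 3 → ℝ} (hg : ∀ j, 0 < g j) {s : ℂ} (hs : 0 < s.re) :
    Integrable (fun p : ℝ × (Fin 2 → ℝ) => loc_Hfun ν g s (loc_chM.mulVec (Fin.cons p.1 p.2))) ∧
    ∫ p : ℝ × (Fin 2 → ℝ), loc_Hfun ν g s (loc_chM.mulVec (Fin.cons p.1 p.2)) =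
      ((1 / (4 * |LM.det|) : ℝ) : ℂ) * ∫ u, loc_Hfun ν g s u := by
  obtain ⟨h1, h2⟩ := loc_Hfun_lin (ν := ν) hg hs
  have hmp := (volume_preserving_piFinSuccAbove (fun _ : Fin 3 => ℝ) 0).symm
  have he : ∀ p : ℝ × (Fin 2 → ℝ),
      (MeasurableEquiv.piFinSuccAbove (fun _ : Fin 3 => ℝ) 0).symm p = Fin.cons p.1 p.2 := by
    intro p
    change Fin.insertNth (α := fun _ : Fin 3 => ℝ) 0 p.1 p.2 = _
    rw [Fin.insertNth_zero']
  constructor
  · have := (hmp.integrable_comp_emb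
      (MeasurableEquiv.measurableEmbedding _)
      (g := fun w : Fin 3 → ℝ => loc_Hfun ν g s (loc_chM.mulVec w))).mpr h1
    refine this.congr (Filter.Eventually.of_forall fun p => ?_)
    simp only [Function.comp_apply]
    rw [he p]
  · rw [← h2, ← hmp.integral_comp (MeasurableEquiv.measurableEmbedding _)]
    refine integral_congr_ae (Filter.Eventually.of_forall fun p => ?_)
    simp only []
    rw [he p]

theorem local_integral {ν : Fin 3 → ℝ} (hν : ∑ j, ν j = 0) {g : Fin 3 → ℝ} (hg : ∀ j, 0 < g j) {s : ℂ}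
    (hs : 0 < s.re) :
    Integrable (fun p : ℝ × (Fin 2 → ℝ) => (p.1 : ℂ) ^ (3 * s / 2 - 1) *
      (Real.exp (-Real.pi * ∑ j, tt p.1 p.2 j * g j) : ℂ) * ch ν p.2) ((volume.restrict (Ioi 0)).prod volume) ∧
    ∫ p : ℝ × (Fin 2 → ℝ), (p.1 : ℂ) ^ (3 * s / 2 - 1) *
      (Real.exp (-Real.pi * ∑ j, tt p.1 p.2 j * g j) : ℂ) * ch ν p.2 ∂((volume.restrict (Ioi 0)).prod volume) =
    (1 / (4 * |LM.det|) : ℝ) * gam ν s * ∏ j, (g j : ℂ) ^ (-(s - (ν j : ℂ) * Complex.I) / 2) := by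
  set Kf : ℝ × (Fin 2 → ℝ) → ℂ := fun p => (p.1 : ℂ) ^ (3 * s / 2 - 1) *
      (Real.exp (-Real.pi * ∑ j, tt p.1 p.2 j * g j) : ℂ) * ch ν p.2 with hK
  have hmeas : (volume.restrict (Ioi (0 : ℝ))).prod (volume : Measure (Fin 2 → ℝ)) =
      ((volume : Measure ℝ).prod (volume : Measure (Fin 2 → ℝ))).restrict (Ioi 0 ×ˢ univ) := by
    rw [← Measure.prod_restrict, Measure.restrict_univ]
  set fm : ℝ × (Fin 2 → ℝ) → ℝ × (Fin 2 → ℝ) := Prod.map Real.exp id with hfm
  have himg : fm '' univ = Ioi 0 ×ˢ univ := by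
    rw [hfm, ← univ_prod_univ, Set.prodMap_image_prod, image_univ, Real.range_exp, image_univ,
      Set.range_id]
  set fm' : ℝ × (Fin 2 → ℝ) → (ℝ × (Fin 2 → ℝ)) →L[ℝ] (ℝ × (Fin 2 → ℝ)) := fun p =>
    ((1 : ℝ →L[ℝ] ℝ).smulRight (Real.exp p.1)).prodMap (ContinuousLinearMap.id ℝ (Fin 2 → ℝ)) with hfm'
  have hder : ∀ p ∈ (univ : Set (ℝ × (Fin 2 → ℝ))), HasFDerivWithinAt fm (fm' p) univ p := by
    intro p _
    apply HasFDerivAt.hasFDerivWithinAt
    exact HasFDerivAt.prodMap p (Real.hasDerivAt_exp p.1).hasFDerivAt (hasFDerivAt_id p.2)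
  have hinj : InjOn fm univ := (Prod.map_injective.mpr ⟨Real.exp_injective, Function.injective_id⟩).injOn
  have hdet : ∀ p, (fm' p).det = Real.exp p.1 := by
    intro p
    rw [hfm', ContinuousLinearMap.det]
    have : ((((1 : ℝ →L[ℝ] ℝ).smulRight (Real.exp p.1)).prodMap
        (ContinuousLinearMap.id ℝ (Fin 2 → ℝ)) : (ℝ × (Fin 2 → ℝ)) →L[ℝ] (ℝ × (Fin 2 → ℝ))) :
        (ℝ × (Fin 2 → ℝ)) →ₗ[ℝ] (ℝ × (Fin 2 → ℝ))) =
        LinearMap.prodMap (((1 : ℝ →L[ℝ] ℝ).smulRight (Real.exp p.1) : ℝ →L[ℝ] ℝ) : ℝ →ₗ[ℝ] ℝ)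
          LinearMap.id := rfl
    rw [this, LinearMap.det_prodMap, LinearMap.det_id, mul_one]
    simp
  have key : ∀ p, |(fm' p).det| • Kf (fm p) = loc_Hfun ν g s (loc_chM.mulVec (Fin.cons p.1 p.2)) := by
    intro p
    rw [hdet, abs_of_pos (Real.exp_pos _)]
    obtain ⟨v, y⟩ := p
    have hT : ∑ j, ∑ i, y i * L i j = 0 := by
      rw [Finset.sum_comm]
      simp_rw [← Finset.mul_sum, L_sum]
      simp
    have hu : ∀ j, loc_chM.mulVec (Fin.cons v y) j = v + 2 * ∑ i, y i * L i j := loc_chM_mulVec v y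
    have hlog : (((Real.exp v : ℝ) : ℂ)) ^ (3 * s / 2 - 1) = Complex.exp (v * (3 * s / 2 - 1)) := by
      rw [Complex.cpow_def_of_ne_zero (by exact_mod_cast (Real.exp_pos v).ne'),
        ← Complex.ofReal_log (Real.exp_pos v).le, Real.log_exp]
    simp only [hK, hfm, Prod.map_apply, id_eq, loc_Hfun, loc_Gfac, Complex.real_smul]
    simp_rw [hu]
    rw [hlog, Finset.prod_mul_distrib, ← Complex.exp_sum, ← Complex.ofReal_prod, ← Real.exp_sum]
    have e1 : ∑ j, -(Real.pi * g j * Real.exp (v + 2 * ∑ i, y i * L i j)) =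
        -Real.pi * ∑ j, tt (Real.exp v) y j * g j := by
      rw [Finset.mul_sum]
      refine Finset.sum_congr rfl fun j _ => ?_
      rw [tt, Real.exp_add]
      ring
    rw [e1]
    have e2 : ∑ j, (s - (ν j : ℂ) * Complex.I) / 2 * ((v + 2 * ∑ i, y i * L i j : ℝ) : ℂ) =
        3 * s / 2 * v + -(((∑ j, ν j * ∑ i, y i * L i j : ℝ) : ℂ) * Complex.I) := by
      have a1 : ∑ j, (s - (ν j : ℂ) * Complex.I) / 2 * ((v + 2 * ∑ i, y i * L i j : ℝ) : ℂ) =
          3 * s / 2 * v - Complex.I * v / 2 * ((∑ j, ν j : ℝ) : ℂ) +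
          s * ((∑ j, ∑ i, y i * L i j : ℝ) : ℂ) -
          Complex.I * ((∑ j, ν j * ∑ i, y i * L i j : ℝ) : ℂ) := by
        rw [Complex.ofReal_sum, Complex.ofReal_sum, Complex.ofReal_sum, Finset.mul_sum,
          Finset.mul_sum, Finset.mul_sum, Fin.sum_univ_three, Fin.sum_univ_three,
          Fin.sum_univ_three, Fin.sum_univ_three]
        push_cast
        ring
      rw [a1, hν, hT]
      push_cast
      ring
    rw [e2, Complex.exp_add, ch]
    have e3 : ((Real.exp v : ℝ) : ℂ) * Complex.exp (v * (3 * s / 2 - 1)) =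
        Complex.exp (3 * s / 2 * v) := by
      rw [Complex.ofReal_exp, ← Complex.exp_add]
      congr 1
      ring
    rw [← e3]
    ring
  obtain ⟨h1, h2⟩ := loc_Hfun_prod (ν := ν) hg hs
  have hI := (loc_Hfun_int (ν := ν) hg hs).2
  constructor
  · rw [hmeas]
    change IntegrableOn Kf (Ioi 0 ×ˢ univ) _
    rw [← himg, integrableOn_image_iff_integrableOn_abs_det_fderiv_smul _ MeasurableSet.univ hder hinj,
      integrableOn_univ]
    refine Integrable.congr h1 (Filter.Eventually.of_forall fun p => ?_)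
    exact (key p).symm
  · rw [hmeas]
    rw [← himg, integral_image_eq_integral_abs_det_fderiv_smul _ MeasurableSet.univ hder hinj,
      setIntegral_univ]
    rw [integral_congr_ae (Filter.Eventually.of_forall fun p => key p)]
    erw [h2]
    rw [hI]
    ring

end Pool.Agent.Helper88.BD
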