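import Mathlib
import Pool.Agent.Helper88.BD.Defs
import Pool.Agent.Helper52.Circle.Poisson

/-!
MP_bd232a_nt, block A8u. Unfolding over ℤ². Proof idea: Helper52.Circle.integral_unfold (box 0 = (0,1]²) shifted by 1/2; Dm and the half-open square agree a.e.;
for the product version use Fubini or repeat the proof (disjoint union of (Ioi 0) × (Dm + k) up to null sets, translation invariance).
-/

open Polynomial NumberField MeasureTheory Set
open scoped ComplexConjugate

namespace Pool.Agent.Helper88.BD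

namespace UnfoldAux

/-- half-open unit squares centred at `k` -/
def Bx (k : Fin 2 → ℤ) : Set (Fin 2 → ℝ) :=
  Set.pi Set.univ fun i => Ico ((k i : ℝ) - 1 / 2) ((k i : ℝ) + 1 / 2)

lemma meas_Bx (k : Fin 2 → ℤ) : MeasurableSet (Bx k) :=
  MeasurableSet.univ_pi fun _ => measurableSet_Ico

lemma mem_Bx (k : Fin 2 → ℤ) (x : Fin 2 → ℝ) :
    x ∈ Bx k ↔ ∀ i, (k i : ℝ) - 1 / 2 ≤ x i ∧ x i < (k i : ℝ) + 1 / 2 := by
  simp [Bx, Set.mem_pi]

lemma disj_Bx : Pairwise (Function.onFun Disjoint Bx) := by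
  intro v w hvw
  rw [Function.onFun, Set.disjoint_left]
  intro x hx hy
  apply hvw
  rw [mem_Bx] at hx hy
  funext i
  have h1 := hx i
  have h2 := hy i
  have h3 : (v i : ℝ) < w i + 1 := by linarith
  have h4 : (w i : ℝ) < v i + 1 := by linarith
  have h5 : v i < w i + 1 := by exact_mod_cast h3
  have h6 : w i < v i + 1 := by exact_mod_cast h4
  omega

lemma iUnion_Bx : (⋃ v, Bx v) = Set.univ := by
  rw [Set.eq_univ_iff_forall]
  intro x
  rw [Set.mem_iUnion]
  refine ⟨fun i => ⌊x i + 1 / 2⌋, ?_⟩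
  rw [mem_Bx]
  intro i
  have h1 := Int.floor_le (x i + 1 / 2)
  have h2 := Int.lt_floor_add_one (x i + 1 / 2)
  constructor <;> linarith

lemma restrict_Bx_zero : (volume : Measure (Fin 2 → ℝ)).restrict (Bx 0) = volume.restrict Dm := by
  apply Measure.restrict_congr_set
  have h := Measure.univ_pi_Ico_ae_eq_Icc (μ := fun _ : Fin 2 => (volume : Measure ℝ))
    (f := fun _ => -(1 / 2 : ℝ)) (g := fun _ => (1 / 2 : ℝ))
  rw [← volume_pi] at h
  have e : Bx 0 = Set.pi Set.univ fun _ : Fin 2 => Ico (-(1 / 2 : ℝ)) (1 / 2) := by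
    unfold Bx
    simp
  rw [e]
  exact h

lemma mp (k : Fin 2 → ℤ) : MeasurePreserving (fun y : Fin 2 → ℝ => y + fun i => (k i : ℝ))
    (volume.restrict (Bx 0)) (volume.restrict (Bx k)) := by
  have h := (measurePreserving_add_right (volume : Measure (Fin 2 → ℝ))
    (fun i => (k i : ℝ))).restrict_preimage (meas_Bx k)
  have e : (fun y : Fin 2 → ℝ => y + fun i => (k i : ℝ)) ⁻¹' (Bx k) = Bx 0 := by
    ext x
    rw [Set.mem_preimage, mem_Bx, mem_Bx]
    constructor
    · intro h i
      have := h i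
      simp only [Pi.add_apply] at this
      simp only [Pi.zero_apply, Int.cast_zero]
      constructor <;> linarith
    · intro h i
      have := h i
      simp only [Pi.zero_apply, Int.cast_zero] at this
      simp only [Pi.add_apply]
      constructor <;> linarith
  rw [e] at h
  exact h

/-- translation in the second factor -/
noncomputable def Te (k : Fin 2 → ℤ) : (ℝ × (Fin 2 → ℝ)) ≃ᵐ (ℝ × (Fin 2 → ℝ)) :=
  MeasurableEquiv.prodCongr (MeasurableEquiv.refl ℝ)
    (MeasurableEquiv.addRight (fun i => (k i : ℝ)))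

lemma mpT (k : Fin 2 → ℤ) : MeasurePreserving (Te k)
    (((volume : Measure ℝ).restrict (Ioi 0)).prod (volume.restrict (Bx 0)))
    (((volume : Measure ℝ).restrict (Ioi 0)).prod (volume.restrict (Bx k))) :=
  (MeasurePreserving.id _).prod (mp k)

lemma prod_restrict_Bx (k : Fin 2 → ℤ) :
    ((volume : Measure ℝ).restrict (Ioi 0)).prod ((volume : Measure (Fin 2 → ℝ)).restrict (Bx k)) =
    (((volume : Measure ℝ).restrict (Ioi 0)).prod volume).restrict (Set.univ ×ˢ Bx k) := by
  rw [← Measure.prod_restrict, Measure.restrict_univ]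

end UnfoldAux

open UnfoldAux

theorem unfold_prod {H : ℝ × (Fin 2 → ℝ) → ℂ} (hH : Integrable H ((volume.restrict (Ioi 0)).prod volume)) :
    (∀ k : Fin 2 → ℤ, Integrable (fun p : ℝ × (Fin 2 → ℝ) => H (p.1, fun i => p.2 i + k i))
      ((volume.restrict (Ioi 0)).prod (volume.restrict Dm))) ∧
    HasSum (fun k : Fin 2 → ℤ => ∫ p : ℝ × (Fin 2 → ℝ), H (p.1, fun i => p.2 i + k i)
      ∂((volume.restrict (Ioi 0)).prod (volume.restrict Dm)))
      (∫ p, H p ∂((volume.restrict (Ioi 0)).prod volume)) := by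
  rw [← restrict_Bx_zero]
  have hk : ∀ k : Fin 2 → ℤ, Integrable H
      (((volume : Measure ℝ).restrict (Ioi 0)).prod (volume.restrict (Bx k))) := by
    intro k
    rw [prod_restrict_Bx]
    exact hH.integrableOn
  refine ⟨fun k => ?_, ?_⟩
  · exact ((mpT k).integrable_comp_emb (Te k).measurableEmbedding).2 (hk k)
  · have h1 : HasSum (fun k : Fin 2 → ℤ => ∫ p in (Set.univ ×ˢ Bx k : Set (ℝ × (Fin 2 → ℝ))), H p
        ∂((volume.restrict (Ioi 0)).prod volume)) (∫ p, H p ∂((volume.restrict (Ioi 0)).prod volume)) := by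
      have hU : (⋃ k, (Set.univ ×ˢ Bx k : Set (ℝ × (Fin 2 → ℝ)))) = Set.univ := by
        rw [← Set.prod_iUnion, iUnion_Bx, Set.univ_prod_univ]
      have := hasSum_integral_iUnion (μ := ((volume : Measure ℝ).restrict (Ioi 0)).prod volume)
        (f := H) (s := fun k : Fin 2 → ℤ => (Set.univ ×ˢ Bx k : Set (ℝ × (Fin 2 → ℝ))))
        (fun k => MeasurableSet.univ.prod (meas_Bx k))
        (by
          intro v w hvw
          have := disj_Bx hvw
          rw [Function.onFun] at this ⊢
          exact Set.disjoint_prod.2 (Or.inr this))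
        (by rw [hU]; exact hH.integrableOn)
      rwa [hU, setIntegral_univ] at this
    have e : (fun k : Fin 2 → ℤ => ∫ p in (Set.univ ×ˢ Bx k : Set (ℝ × (Fin 2 → ℝ))), H p
        ∂((volume.restrict (Ioi 0)).prod volume)) =
        (fun k : Fin 2 → ℤ => ∫ p : ℝ × (Fin 2 → ℝ), H (p.1, fun i => p.2 i + k i)
          ∂((volume.restrict (Ioi 0)).prod (volume.restrict (Bx 0)))) := by
      funext k
      rw [← prod_restrict_Bx]
      exact ((mpT k).integral_comp (Te k).measurableEmbedding H).symm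
    rw [← e]
    exact h1

end Pool.Agent.Helper88.BD
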