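import Mathlib
import Pool.Agent.Helper88.BD.Defs
import Pool.Agent.Helper88.BD.Orb
import Pool.Agent.Helper88.BD.SumNI
import Pool.Agent.Helper88.BD.Decay
import Pool.Agent.Helper88.BD.Local
import Pool.Agent.Helper88.BD.Unfold
import Pool.Agent.Helper88.BD.Char
import Pool.Agent.Helper88.BD.Weights

/-!
MP_bd232a_nt, block A8. The Mellin transform of the theta function is the completed L-function.
-/

open Polynomial NumberField MeasureTheory Set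
open scoped ComplexConjugate

namespace Pool.Agent.Helper88.BD

theorem summable_lintegral {α ι : Type*} [MeasurableSpace α] [Countable ι] {μ : Measure α} {F : ι → α → ℂ}
    (hF : ∀ i, Integrable (F i) μ) (hs : Summable fun i => ∫ a, ‖F i a‖ ∂μ) :
    ∑' i, ∫⁻ a : α, ‖F i a‖ₑ ∂μ ≠ ⊤ := by
  have (i : ι) : ∫⁻ a, ‖F i a‖ₑ ∂μ = ‖∫ a, ‖F i a‖ ∂μ‖ₑ := by
    dsimp [enorm]
    rw [lintegral_coe_eq_integral _ (hF i).norm, ENNReal.coe_nnreal_eq, coe_nnnorm,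
      Real.norm_of_nonneg (integral_nonneg (fun a ↦ norm_nonneg (F i a)))]
    simp only [coe_nnnorm]
  rw [funext this]
  exact ENNReal.tsum_coe_ne_top_iff_summable.2 <| NNReal.summable_coe.1 hs.abs

theorem ae_summable_norm {α ι : Type*} [MeasurableSpace α] [Countable ι] {μ : Measure α} {F : ι → α → ℂ}
    (hF : ∀ i, Integrable (F i) μ) (hs : Summable fun i => ∫ a, ‖F i a‖ ∂μ) :
    ∀ᵐ a ∂μ, Summable fun i => ‖F i a‖ := by
  have h1 := summable_lintegral hF hs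
  have h2 : ∫⁻ a, ∑' i, ‖F i a‖ₑ ∂μ ≠ ⊤ := by
    rw [lintegral_tsum (fun i => (hF i).1.enorm)]
    exact h1
  have h3 := ae_lt_top' (AEMeasurable.tsum fun i => (hF i).1.enorm) h2
  filter_upwards [h3] with a ha
  have : ∑' i, ((‖F i a‖₊ : NNReal) : ENNReal) ≠ ⊤ := ha.ne
  rw [ENNReal.tsum_coe_ne_top_iff_summable] at this
  exact NNReal.summable_coe.2 this

theorem integrable_tsum' {α ι : Type*} [MeasurableSpace α] [Countable ι] {μ : Measure α} {F : ι → α → ℂ}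
    (hF : ∀ i, Integrable (F i) μ) (hs : Summable fun i => ∫ a, ‖F i a‖ ∂μ) :
    Integrable (fun a => ∑' i, F i a) μ := by
  have h1 := summable_lintegral hF hs
  have h2 := ae_summable_norm hF hs
  refine ⟨?_, ?_⟩
  · refine aestronglyMeasurable_of_tendsto_ae (u := Filter.atTop) (f := fun (s : Finset ι) a => ∑ i ∈ s, F i a)
      ?_ ?_
    · intro s
      have := Finset.aestronglyMeasurable_sum (μ := μ) s (f := F) (fun i _ => (hF i).1)
      refine this.congr ?_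
      filter_upwards with a
      simp
    · filter_upwards [h2] with a ha
      exact (Summable.of_norm ha).hasSum
  · have h3 : ∫⁻ a, ‖∑' i, F i a‖ₑ ∂μ ≤ ∑' i, ∫⁻ a, ‖F i a‖ₑ ∂μ := by
      rw [← lintegral_tsum (fun i => (hF i).1.enorm)]
      exact lintegral_mono fun a => enorm_tsum_le_tsum_enorm
    exact lt_of_le_of_lt h3 (lt_top_iff_ne_top.mpr h1)

theorem tt_shift (τ : ℝ) (y : Fin 2 → ℝ) (k : Fin 2 → ℤ) (j : Fin 3) :
    tt τ (fun i => y i + k i) j = tt τ y j * Real.exp (2 * ∑ i, k i * L i j) := by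
  unfold tt
  rw [mul_assoc, ← Real.exp_add]
  congr 2
  rw [← mul_add, ← Finset.sum_add_distrib]
  congr 1
  apply Finset.sum_congr rfl
  intro i _
  ring

/-- The integrand attached to the ideal `I`. -/
noncomputable def Hf (ν : Fin 3 → ℝ) (s : ℂ) (g : Fin 3 → ℝ) (p : ℝ × (Fin 2 → ℝ)) : ℂ :=
  (p.1 : ℂ) ^ (3 * s / 2 - 1) * (Real.exp (-Real.pi * ∑ j, tt p.1 p.2 j * g j) : ℂ) * ch ν p.2

theorem ch_zero (y : Fin 2 → ℝ) : ch 0 y = 1 := by
  simp [ch]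

theorem norm_Hf (ν : Fin 3 → ℝ) (s : ℂ) (g : Fin 3 → ℝ) {p : ℝ × (Fin 2 → ℝ)} (hp : 0 < p.1) :
    ((‖Hf ν s g p‖ : ℝ) : ℂ) = Hf 0 (s.re : ℂ) g p := by
  unfold Hf
  rw [norm_mul, norm_mul, ch_norm, mul_one, ch_zero, mul_one, Complex.norm_cpow_eq_rpow_re_of_pos hp,
    Complex.norm_real, Real.norm_eq_abs, abs_of_pos (Real.exp_pos _)]
  push_cast
  congr 1
  rw [Complex.ofReal_cpow hp.le]
  congr 1
  have : (3 * s / 2 - 1).re = 3 * s.re / 2 - 1 := by simp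
  rw [this]
  push_cast
  ring

theorem prod_cpow_ga {ν : Fin 3 → ℝ} (I : NI) {c : Fin 3 → ℝ} (hc : ∀ j, 0 < c j) (s : ℂ) :
    ∏ j, ((c j * ga I.1 j ^ 2 : ℝ) : ℂ) ^ (-(s - (ν j : ℂ) * Complex.I) / 2) =
      (∏ j, (c j : ℂ) ^ (-(s - (ν j : ℂ) * Complex.I) / 2)) *
        (chi ν (ga I.1) * (Ideal.absNorm I.1 : ℂ) ^ (-s)) := by
  have hg := ga_pos I
  have h1 : ∀ j, ((c j * ga I.1 j ^ 2 : ℝ) : ℂ) ^ (-(s - (ν j : ℂ) * Complex.I) / 2) =
      (c j : ℂ) ^ (-(s - (ν j : ℂ) * Complex.I) / 2) *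
        ((ga I.1 j : ℂ) ^ (-s) * Complex.exp (((ν j * Real.log |ga I.1 j| : ℝ) : ℂ) * Complex.I)) := by
    intro j
    have hgj := hg j
    rw [Complex.ofReal_mul, Complex.mul_cpow_ofReal_nonneg (hc j).le (by positivity)]
    congr 1
    have hne : (ga I.1 j : ℂ) ≠ 0 := by exact_mod_cast hgj.ne'
    have hne2 : ((ga I.1 j ^ 2 : ℝ) : ℂ) ≠ 0 := by exact_mod_cast (pow_pos hgj 2).ne'
    rw [Complex.cpow_def_of_ne_zero hne2, Complex.cpow_def_of_ne_zero hne, ← Complex.exp_add,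
      ← Complex.ofReal_log (by positivity), ← Complex.ofReal_log hgj.le, Real.log_pow, abs_of_pos hgj]
    congr 1
    push_cast
    ring
  rw [Finset.prod_congr rfl (fun j _ => h1 j), Finset.prod_mul_distrib, Finset.prod_mul_distrib]
  congr 1
  rw [mul_comm]
  congr 1
  · unfold chi
    rw [← Complex.exp_sum, ← Finset.sum_mul]
    push_cast
    rfl
  · have h2 : ∏ j, (ga I.1 j : ℂ) ^ (-s) = (∏ j, (ga I.1 j : ℂ)) ^ (-s) := by
      rw [Fin.prod_univ_three, Fin.prod_univ_three, ← Complex.ofReal_mul,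
        Complex.mul_cpow_ofReal_nonneg (mul_pos (hg 0) (hg 1)).le (hg 2).le, Complex.ofReal_mul,
        Complex.mul_cpow_ofReal_nonneg (hg 0).le (hg 1).le]
    rw [h2]
    congr 1
    have := prod_ga I.1
    exact_mod_cast congrArg (fun x : ℝ => (x : ℂ)) this

theorem Hf_integrable {ν : Fin 3 → ℝ} (hν : ∑ j, ν j = 0) {g : Fin 3 → ℝ} (hg : ∀ j, 0 < g j) {s : ℂ}
    (hs : 0 < s.re) : Integrable (Hf ν s g) ((volume.restrict (Ioi 0)).prod volume) :=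
  (local_integral hν hg hs).1

theorem ae_fst_pos : ∀ᵐ p : ℝ × (Fin 2 → ℝ) ∂((volume.restrict (Ioi 0)).prod volume), 0 < p.1 := by
  have h : ∀ᵐ x : ℝ ∂(volume.restrict (Ioi (0 : ℝ))), 0 < x := ae_restrict_mem measurableSet_Ioi
  exact Measure.quasiMeasurePreserving_fst.ae h

/-- The L¹ norm of the integrand. -/
theorem norm_integral_Hf {ν : Fin 3 → ℝ} (s : ℂ) {g : Fin 3 → ℝ} (hg : ∀ j, 0 < g j) (hs : 0 < s.re) :
    ((∫ p, ‖Hf ν s g p‖ ∂((volume.restrict (Ioi 0)).prod volume) : ℝ) : ℂ) =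
      (1 / (4 * |LM.det|) : ℝ) * gam 0 (s.re : ℂ) * ∏ j, (g j : ℂ) ^ (-((s.re : ℂ) - ((0 : Fin 3 → ℝ) j : ℂ) * Complex.I) / 2) := by
  rw [← integral_complex_ofReal, ← (local_integral (ν := 0) (by simp) hg (s := (s.re : ℂ)) (by simpa using hs)).2]
  apply integral_congr_ae
  filter_upwards [ae_fst_pos] with p hp
  rw [norm_Hf ν s g hp, Hf]

theorem unfold_norm {ν : Fin 3 → ℝ} {s : ℂ} {g : Fin 3 → ℝ}
    (hH : Integrable (Hf ν s g) ((volume.restrict (Ioi 0)).prod volume)) :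
    HasSum (fun k : Fin 2 → ℤ => ∫ p : ℝ × (Fin 2 → ℝ), ‖Hf ν s g (p.1, fun i => p.2 i + k i)‖
      ∂((volume.restrict (Ioi 0)).prod (volume.restrict Dm)))
      (∫ p, ‖Hf ν s g p‖ ∂((volume.restrict (Ioi 0)).prod volume)) := by
  have h := (unfold_prod (H := fun p => ((‖Hf ν s g p‖ : ℝ) : ℂ)) hH.norm.ofReal).2
  rw [← Complex.hasSum_ofReal]
  simpa only [integral_complex_ofReal] using h

theorem hasSum_units_prod {a : (Fin 2 → ℤ) → ℂ} {A : ℂ} (h : HasSum a A) :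
    HasSum (fun q : ℤˣ × (Fin 2 → ℤ) => a q.2) (2 * A) := by
  have h1 : HasSum (fun _ : ℤˣ => A) (2 * A) := by
    have := hasSum_fintype (fun _ : ℤˣ => A)
    simpa [Fintype.card_units_int] using this
  have h2 : Summable (fun q : ℤˣ × (Fin 2 → ℤ) => a q.2) := by
    apply Summable.of_norm
    rw [summable_prod_of_nonneg (fun _ => norm_nonneg _)]
    exact ⟨fun _ => h.summable.norm, Summable.of_finite⟩
  have h3 := h2.hasSum.prod_fiberwise (fun _ => h)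
  rw [h3.unique h1] at h3
  have := h2.hasSum
  rwa [(h2.hasSum.prod_fiberwise (fun _ => h)).unique h1] at this

theorem Hf_shift {ν : Fin 3 → ℝ} (hν : IsNu ν) (s : ℂ) (g : Fin 3 → ℝ) (p : ℝ × (Fin 2 → ℝ)) (k : Fin 2 → ℤ) :
    Hf ν s g (p.1, fun i => p.2 i + k i) = (p.1 : ℂ) ^ (3 * s / 2 - 1) *
      ((Real.exp (-Real.pi * ∑ j, tt p.1 p.2 j * (Real.exp (2 * ∑ i, k i * L i j) * g j)) : ℂ) * ch ν p.2) := by
  unfold Hf
  simp only [tt_shift, ch_period hν]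
  rw [mul_assoc]
  congr 4
  congr 1
  apply Finset.sum_congr rfl
  intro j _
  ring

theorem chi_zero (x : Fin 3 → ℝ) : chi 0 x = 1 := by
  simp [chi]

theorem norm_integral_eq {ν : Fin 3 → ℝ} (s : ℂ) {c : Fin 3 → ℝ} (hc : ∀ j, 0 < c j) (hs : 0 < s.re) (I : NI) :
    ∫ p, ‖Hf ν s (fun j => c j * ga I.1 j ^ 2) p‖ ∂((volume.restrict (Ioi 0)).prod volume) =
      ‖(1 / (4 * |LM.det|) : ℝ) * gam 0 (s.re : ℂ) *
        (∏ j, (c j : ℂ) ^ (-((s.re : ℂ) - ((0 : Fin 3 → ℝ) j : ℂ) * Complex.I) / 2))‖ *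
      (Ideal.absNorm I.1 : ℝ) ^ (-s.re) := by
  have hg : ∀ j, 0 < c j * ga I.1 j ^ 2 := fun j => mul_pos (hc j) (pow_pos (ga_pos I j) 2)
  have h := norm_integral_Hf (ν := ν) s hg hs
  rw [prod_cpow_ga (ν := 0) I hc, chi_zero, one_mul, ← mul_assoc] at h
  have h2 := congrArg norm h
  rw [Complex.norm_real, Real.norm_eq_abs, abs_of_nonneg (integral_nonneg fun _ => norm_nonneg _),
    norm_mul] at h2
  rw [h2]
  congr 1
  have hN : (0 : ℝ) < Ideal.absNorm I.1 := by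
    rw [← prod_ga]
    exact Finset.prod_pos fun j _ => ga_pos I j
  have := Complex.norm_cpow_eq_rpow_re_of_pos hN (-(s.re : ℂ))
  simpa using this

theorem orb_gau {c : Fin 3 → ℝ} {m : Fin 3 → ℤ} {I : NI} {k : Fin 2 → ℤ}
    (h : ∀ j, |emb m j| = ga I.1 j * Real.exp (∑ i, k i * L i j)) (τ : ℝ) (y : Fin 2 → ℝ) :
    gau c (tt τ y) m =
      Real.exp (-Real.pi * ∑ j, tt τ y j * (Real.exp (2 * ∑ i, k i * L i j) * (c j * ga I.1 j ^ 2))) := by
  unfold gau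
  congr 2
  apply Finset.sum_congr rfl
  intro j _
  rw [← sq_abs (emb m j), h j, mul_pow, two_mul, Real.exp_add]
  ring

theorem nw_orb {M : ℕ} {w : ZMod M → ℂ} (hw : ∀ n, w (-n) = w n) {m : Fin 3 → ℤ} {N : ℕ}
    (h : (nrm m).natAbs = N) : nw w m = w (N : ZMod M) := by
  unfold nw
  rcases Int.natAbs_eq (nrm m) with h1 | h1
  · rw [h1, h]
    push_cast
    rfl
  · rw [h1, h]
    push_cast
    exact hw _

theorem mellin_LSeries {ν : Fin 3 → ℝ} (hν : IsNu ν) (h0 : ν ≠ 0) {M : ℕ} [NeZero M] {w : ZMod M → ℂ}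
    (hw : ∀ n, w (-n) = w n) {c : Fin 3 → ℝ} (hc : ∀ j, 0 < c j) {s : ℂ} (hs : 1 < s.re) :
    mellin (fW ν (nw w) c) (3 * s / 2) = (1 / (2 * |LM.det|) : ℝ) * gam ν s *
      (∏ j, (c j : ℂ) ^ (-(s - (ν j : ℂ) * Complex.I) / 2)) * LSeries (fun n => coef ν n * w n) s := by
  classical
  obtain ⟨e, he⟩ := orb
  have hs0 : 0 < s.re := by linarith
  obtain ⟨B, hB⟩ : ∃ B : ℝ, ∀ n : ZMod M, ‖w n‖ ≤ B := by
    obtain ⟨B, hB⟩ := (Set.finite_range fun n : ZMod M => ‖w n‖).bddAbove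
    exact ⟨B, fun n => hB ⟨n, rfl⟩⟩
  have hcount : Countable NI := by
    have : Function.Injective (fun I : NI => e (I, 1, 0)) := by
      intro I J h
      have := e.injective h
      simpa using this
    exact this.countable
  -- the terms
  set g : NI → Fin 3 → ℝ := fun I j => c j * ga I.1 j ^ 2 with hgdef
  have hg : ∀ I j, 0 < g I j := fun I j => mul_pos (hc j) (pow_pos (ga_pos I j) 2)
  set wt : NI → ℂ := fun I => w (Ideal.absNorm I.1 : ZMod M) with hwt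
  set Φ : NI × ℤˣ × (Fin 2 → ℤ) → ℝ × (Fin 2 → ℝ) → ℂ := fun i p =>
    wt i.1 * Hf ν s (g i.1) (p.1, fun l => p.2 l + i.2.2 l) with hΦ
  set μ := (volume.restrict (Ioi (0 : ℝ))).prod (volume.restrict Dm) with hμ
  have hH : ∀ I, Integrable (Hf ν s (g I)) ((volume.restrict (Ioi 0)).prod volume) :=
    fun I => Hf_integrable hν.1 (hg I) hs0
  have hΦi : ∀ i, Integrable (Φ i) μ := fun i => ((unfold_prod (hH i.1)).1 i.2.2).const_mul _
  have hnorm : ∀ i, ∫ p, ‖Φ i p‖ ∂μ = ‖wt i.1‖ *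
      ∫ p, ‖Hf ν s (g i.1) (p.1, fun l => p.2 l + i.2.2 l)‖ ∂μ := by
    intro i
    rw [← integral_const_mul]
    apply integral_congr_ae
    filter_upwards with p
    rw [hΦ, norm_mul]
  have hsum : Summable fun i => ∫ p, ‖Φ i p‖ ∂μ := by
    rw [summable_prod_of_nonneg (fun i => integral_nonneg fun _ => norm_nonneg _)]
    have hin : ∀ I : NI, HasSum (fun q : ℤˣ × (Fin 2 → ℤ) => ((∫ p, ‖Φ (I, q) p‖ ∂μ : ℝ) : ℂ))
        (2 * ((‖wt I‖ * ∫ p, ‖Hf ν s (g I) p‖ ∂((volume.restrict (Ioi 0)).prod volume) : ℝ) : ℂ)) := by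
      intro I
      have h1 := (unfold_norm (hH I)).mul_left ‖wt I‖
      rw [← Complex.hasSum_ofReal] at h1
      have h2 := hasSum_units_prod h1
      simpa only [hnorm] using h2
    have hin' : ∀ I : NI, HasSum (fun q : ℤˣ × (Fin 2 → ℤ) => (∫ p, ‖Φ (I, q) p‖ ∂μ : ℝ))
        (2 * (‖wt I‖ * ∫ p, ‖Hf ν s (g I) p‖ ∂((volume.restrict (Ioi 0)).prod volume))) := by
      intro I
      have := hin I
      rw [← Complex.hasSum_ofReal]
      simpa using this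
    refine ⟨fun I => (hin' I).summable, ?_⟩
    have hts : ∀ I : NI, ∑' q : ℤˣ × (Fin 2 → ℤ), (∫ p, ‖Φ (I, q) p‖ ∂μ : ℝ) =
        2 * (‖wt I‖ * ∫ p, ‖Hf ν s (g I) p‖ ∂((volume.restrict (Ioi 0)).prod volume)) :=
      fun I => (hin' I).tsum_eq
    simp only [hts]
    simp only [hgdef, norm_integral_eq (ν := ν) s hc hs0]
    set K0 := ‖(1 / (4 * |LM.det|) : ℝ) * gam 0 (s.re : ℂ) *
        (∏ j, (c j : ℂ) ^ (-((s.re : ℂ) - ((0 : Fin 3 → ℝ) j : ℂ) * Complex.I) / 2))‖ with hK0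
    have hS := (summable_NI hs).mul_left (2 * (B * K0))
    refine Summable.of_nonneg_of_le (fun I => by positivity) (fun I => ?_) hS
    have hb : ‖wt I‖ ≤ B := hB _
    have hN : 0 ≤ (Ideal.absNorm I.1 : ℝ) ^ (-s.re) := by positivity
    have hK : 0 ≤ K0 := norm_nonneg _
    calc 2 * (‖wt I‖ * (K0 * (Ideal.absNorm I.1 : ℝ) ^ (-s.re)))
        ≤ 2 * (B * (K0 * (Ideal.absNorm I.1 : ℝ) ^ (-s.re))) := by gcongr
      _ = 2 * (B * K0) * (Ideal.absNorm I.1 : ℝ) ^ (-s.re) := by ring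
  have hmain := hasSum_integral_of_summable_integral_norm hΦi hsum
  -- left side
  have hfib : ∀ I : NI, HasSum (fun q : ℤˣ × (Fin 2 → ℤ) => ∫ p, Φ (I, q) p ∂μ)
      (2 * (wt I * ∫ p, Hf ν s (g I) p ∂((volume.restrict (Ioi 0)).prod volume))) := by
    intro I
    have h1 := ((unfold_prod (hH I)).2).mul_left (wt I)
    have h2 := hasSum_units_prod h1
    convert h2 using 2 with q
    rw [← integral_const_mul]
  have hleft := hmain.prod_fiberwise hfib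
  have hval : ∀ I : NI, 2 * (wt I * ∫ p, Hf ν s (g I) p ∂((volume.restrict (Ioi 0)).prod volume)) =
      ((1 / (2 * |LM.det|) : ℝ) * gam ν s * (∏ j, (c j : ℂ) ^ (-(s - (ν j : ℂ) * Complex.I) / 2))) *
        (chi ν (ga I.1) * w (Ideal.absNorm I.1 : ZMod M) * (Ideal.absNorm I.1 : ℂ) ^ (-s)) := by
    intro I
    have h1 := (local_integral hν.1 (hg I) hs0).2
    have h2 := prod_cpow_ga (ν := ν) I hc s
    have h3 : ∫ p, Hf ν s (g I) p ∂((volume.restrict (Ioi 0)).prod volume) =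
        (1 / (4 * |LM.det|) : ℝ) * gam ν s * ∏ j, (g I j : ℂ) ^ (-(s - (ν j : ℂ) * Complex.I) / 2) := h1
    rw [h3]
    have h4 : ∏ j, (g I j : ℂ) ^ (-(s - (ν j : ℂ) * Complex.I) / 2) = (∏ j, (c j : ℂ) ^ (-(s - (ν j : ℂ) * Complex.I) / 2)) *
        (chi ν (ga I.1) * (Ideal.absNorm I.1 : ℂ) ^ (-s)) := h2
    rw [h4, hwt]
    have hd : (LM.det : ℝ) ≠ 0 := LM_det
    have hd2 : (|LM.det| : ℝ) ≠ 0 := abs_ne_zero.mpr hd
    have hd3 : ((|LM.det| : ℝ) : ℂ) ≠ 0 := by exact_mod_cast hd2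
    generalize (∏ j, (c j : ℂ) ^ (-(s - (ν j : ℂ) * Complex.I) / 2)) = P
    push_cast
    field_simp
    ring
  have hwN : ∀ n : ℕ, ‖w (n : ZMod M)‖ ≤ B := fun n => hB _
  have hLS := (hasSum_NI ν (w := fun n => w (n : ZMod M)) hwN hs).2.mul_left
    ((1 / (2 * |LM.det|) : ℝ) * gam ν s * (∏ j, (c j : ℂ) ^ (-(s - (ν j : ℂ) * Complex.I) / 2)))
  have hEq : ∫ p, ∑' i, Φ i p ∂μ = ((1 / (2 * |LM.det|) : ℝ) * gam ν s *
      (∏ j, (c j : ℂ) ^ (-(s - (ν j : ℂ) * Complex.I) / 2))) * LSeries (fun n => coef ν n * w n) s := by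
    refine hleft.unique ?_
    rw [funext hval]
    exact hLS
  rw [← hEq, hμ, integral_prod _ (integrable_tsum' hΦi hsum)]
  unfold mellin
  apply setIntegral_congr_fun measurableSet_Ioi
  intro τ hτ
  have hτ0 : 0 < τ := hτ
  obtain ⟨BW, hBW⟩ : ∃ B : ℝ, ∀ m, ‖nw w m‖ ≤ B := ⟨B, fun m => hB _⟩
  simp only
  rw [fW_eq hν h0 hBW hc hτ0, smul_eq_mul, ← integral_const_mul]
  apply integral_congr_ae
  filter_upwards with y
  rw [← e.tsum_eq (fun m : {m : Fin 3 → ℤ // m ≠ 0} => nw w m.1 * (gau c (tt τ y) m.1 : ℂ)), ← tsum_mul_right,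
    ← tsum_mul_left]
  apply tsum_congr
  intro i
  obtain ⟨I, σ, k⟩ := i
  rw [nw_orb hw (he I σ k).2, orb_gau (he I σ k).1]
  have h5 := Hf_shift hν s (g I) (τ, y) k
  simp only [hΦ]
  rw [h5]
  simp only [hwt, hgdef]
  ring

end Pool.Agent.Helper88.BD
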