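import Mathlib
import Pool.Agent.Helper88.BD.Defs
import Pool.Agent.Helper88.BD.MellinL
import Pool.Agent.Helper88.BD.MellinFE

/-!
MP_bd232a_nt, block A9. The twisted L-functions are entire. Proof idea: definition of Fw, mellin_LSeries with c = 1, gam ν s ≠ 0 for Re s > 0 (Gammaℝ_ne_zero_of_re_pos), mellin_fW,
`Complex.differentiable_Gammaℝ_inv`, nw_periodic.
-/

open Polynomial NumberField MeasureTheory Set
open scoped ComplexConjugate

namespace Pool.Agent.Helper88.BD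

theorem gam_ne_zero (ν : Fin 3 → ℝ) {s : ℂ} (hs : 0 < s.re) : gam ν s ≠ 0 := by
  unfold gam
  rw [Finset.prod_ne_zero_iff]
  intro j _
  apply Complex.Gammaℝ_ne_zero_of_re_pos
  simpa using hs

theorem gam_inv_differentiable (ν : Fin 3 → ℝ) : Differentiable ℂ (fun s => (gam ν s)⁻¹) := by
  have h : (fun s => (gam ν s)⁻¹) = fun s => ∏ j, (Complex.Gammaℝ (s - (ν j : ℂ) * Complex.I))⁻¹ := by
    ext s
    unfold gam
    rw [Finset.prod_inv_distrib]
  rw [h]
  apply Differentiable.fun_finsetProd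
  intro j _
  exact Complex.differentiable_Gammaℝ_inv.comp (differentiable_id.sub_const _)

theorem Fw_LSeries {ν : Fin 3 → ℝ} (hν : IsNu ν) (h0 : ν ≠ 0) {M : ℕ} [NeZero M] {w : ZMod M → ℂ}
    (hw : ∀ n, w (-n) = w n) {s : ℂ} (hs : 1 < s.re) :
    Fw ν w s = LSeries (fun n => coef ν n * w n) s := by
  unfold Fw
  rw [mellin_LSeries hν h0 hw (c := 1) (fun j => one_pos) hs]
  have hg : gam ν s ≠ 0 := gam_ne_zero ν (by linarith)
  have hd : ((|LM.det| : ℝ) : ℂ) ≠ 0 := by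
    rw [Ne, Complex.ofReal_eq_zero, abs_eq_zero]
    exact LM_det
  have h1 : ∏ j : Fin 3, (((1 : Fin 3 → ℝ) j : ℝ) : ℂ) ^ (-(s - (ν j : ℂ) * Complex.I) / 2) = 1 := by
    apply Finset.prod_eq_one
    intro j _
    simp
  rw [h1]
  push_cast
  field_simp

theorem Fw_differentiable {ν : Fin 3 → ℝ} (hν : IsNu ν) (h0 : ν ≠ 0) {M : ℕ} [NeZero M] (w : ZMod M → ℂ) :
    Differentiable ℂ (Fw ν w) := by
  unfold Fw
  have h1 := (mellin_fW hν h0 M (nw w) (nw_periodic w)).1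
  have h2 : Differentiable ℂ (fun s : ℂ => mellin (fW ν (nw w) 1) (3 * s / 2)) :=
    h1.comp ((differentiable_id.const_mul (3 : ℂ)).div_const 2)
  exact ((gam_inv_differentiable ν).const_mul _).mul h2

theorem F_LSeries {ν : Fin 3 → ℝ} (hν : IsNu ν) (h0 : ν ≠ 0) {s : ℂ} (hs : 1 < s.re) :
    F ν s = LSeries (coef ν) s := by
  unfold F
  rw [Fw_LSeries hν h0 (fun _ => rfl) hs]
  simp

end Pool.Agent.Helper88.BD
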