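import Mathlib
import Pool.Agent.Helper88.BD.Defs
import Pool.Agent.Helper88.BD.FwBasic

/-!
MP_bd232a_nt, block A10. Functional equation. Proof idea: mellin_fW with M = 1, W = 1 (Wh_one): mellin f (3/2 - z) = (1/7) mellin g z, z = 3s/2; by mellin_LSeries for -ν with c = cd 1
(cd 1 j = 1/δ_j², prod_δ) and for c = 1, mellin g (3s/2) = 49^s chi ν δ * mellin (fW (-ν) 1 1) (3s/2) for Re s > 1, hence for all s (identity theorem,
both sides entire). LSeries (coef (-ν)) (conj s) = conj (LSeries (coef ν) s).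
-/

open Polynomial NumberField MeasureTheory Set
open scoped ComplexConjugate

namespace Pool.Agent.Helper88.BD

/-- the entire completed function -/
noncomputable def Lam (ν : Fin 3 → ℝ) (s : ℂ) : ℂ :=
  (7 : ℂ) ^ s * mellin (fW ν (nw (M := 1) fun _ => 1) 1) (3 * s / 2)

theorem ch_conj (ν : Fin 3 → ℝ) (y : Fin 2 → ℝ) : ch (-ν) y = conj (ch ν y) := by
  unfold ch
  rw [← Complex.exp_conj]
  congr 1
  simp only [map_neg, map_mul, Complex.conj_ofReal, Complex.conj_I]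
  push_cast
  simp only [Pi.neg_apply, Complex.ofReal_neg, neg_mul, Finset.sum_neg_distrib]
  ring

theorem Th_one_conj (c t : Fin 3 → ℝ) :
    conj (Th (nw (M := 1) fun _ => 1) c t) = Th (nw (M := 1) fun _ => 1) c t := by
  unfold Th nw
  rw [Complex.conj_tsum]
  simp [Complex.conj_ofReal]

theorem fW_one_conj (ν c : Fin 3 → ℝ) (τ : ℝ) :
    fW (-ν) (nw (M := 1) fun _ => 1) c τ = conj (fW ν (nw (M := 1) fun _ => 1) c τ) := by
  unfold fW
  rw [← integral_conj]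
  congr 1
  ext y
  rw [map_mul, Th_one_conj, ch_conj]

theorem mellin_conj' (f : ℝ → ℂ) (s : ℂ) :
    mellin (fun t => conj (f t)) s = conj (mellin f (conj s)) := by
  unfold mellin
  rw [← integral_conj]
  apply setIntegral_congr_fun measurableSet_Ioi
  intro t ht
  have ht' : (0 : ℝ) < t := ht
  simp only [smul_eq_mul, map_mul]
  congr 1
  have h1 : conj s - 1 = conj (s - 1) := by simp
  rw [h1, Complex.cpow_conj _ _ (by
    rw [Complex.arg_ofReal_of_nonneg ht'.le]; exact Real.pi_pos.ne), Complex.conj_conj,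
    Complex.conj_ofReal]

theorem mellin_one_conj (ν c : Fin 3 → ℝ) (z : ℂ) :
    mellin (fW (-ν) (nw (M := 1) fun _ => 1) c) z =
      conj (mellin (fW ν (nw (M := 1) fun _ => 1) c) (conj z)) := by
  rw [← mellin_conj']
  congr 1
  ext τ
  exact fW_one_conj ν c τ

theorem prod_cd (ν : Fin 3 → ℝ) (s : ℂ) :
    ∏ j, ((cd 1 j : ℝ) : ℂ) ^ (-(s - (((-ν) j : ℝ) : ℂ) * Complex.I) / 2) =
      (49 : ℂ) ^ s * chi ν δ := by
  have hj : ∀ j, ((cd 1 j : ℝ) : ℂ) ^ (-(s - (((-ν) j : ℝ) : ℂ) * Complex.I) / 2) =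
      Complex.exp (((Real.log |δ j| : ℝ) : ℂ) * s + ((ν j * Real.log |δ j| : ℝ) : ℂ) * Complex.I) := by
    intro j
    have hδ := δ_ne_zero j
    have hpos : 0 < cd 1 j := cd_pos 1 δ_ne_zero j
    rw [Complex.cpow_def_of_ne_zero (by exact_mod_cast hpos.ne'), ← Complex.ofReal_log hpos.le]
    congr 1
    have hl : Real.log (cd 1 j) = -2 * Real.log |δ j| := by
      unfold cd
      rw [Nat.cast_one, one_pow, one_mul, one_div, Real.log_inv, ← sq_abs, Real.log_pow]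
      push_cast; ring
    rw [hl]
    simp only [Pi.neg_apply]
    push_cast
    ring
  rw [Finset.prod_congr rfl (fun j _ => hj j), ← Complex.exp_sum, Finset.sum_add_distrib,
    Complex.exp_add]
  congr 1
  · rw [← Finset.sum_mul, Complex.cpow_def_of_ne_zero (by norm_num)]
    congr 2
    rw [← Complex.ofReal_sum, ← Real.log_prod (fun j _ => abs_ne_zero.mpr (δ_ne_zero j)), prod_δ,
      Complex.ofReal_log (by norm_num)]
    push_cast; rfl
  · unfold chi
    congr 1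
    rw [← Finset.sum_mul, Complex.ofReal_sum]

theorem gam_ne_zero_func (ν : Fin 3 → ℝ) {s : ℂ} (hs : 0 < s.re) : gam ν s ≠ 0 := by
  unfold gam
  rw [Finset.prod_ne_zero_iff]
  intro j _
  apply Complex.Gammaℝ_ne_zero_of_re_pos
  simpa using hs

theorem prod_one_cpow (ν : Fin 3 → ℝ) (s : ℂ) :
    ∏ j, (((1 : Fin 3 → ℝ) j : ℝ) : ℂ) ^ (-(s - (((-ν) j : ℝ) : ℂ) * Complex.I) / 2) = 1 := by
  apply Finset.prod_eq_one
  intro j _
  simp

/-- the functional equation of the Mellin transform -/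
theorem mellin_dual {ν : Fin 3 → ℝ} (hν : IsNu ν) (h0 : ν ≠ 0) (s : ℂ) :
    mellin (fW ν (nw (M := 1) fun _ => 1) 1) (3 / 2 - 3 * s / 2) =
      (1 / 7 : ℂ) * ((49 : ℂ) ^ s * chi ν δ *
        mellin (fW (-ν) (nw (M := 1) fun _ => 1) 1) (3 * s / 2)) := by
  have h0' : -ν ≠ 0 := by simpa using h0
  have A := mellin_fW hν h0 1 (nw (M := 1) fun _ => 1) (nw_periodic _)
  have A' := mellin_fW hν.neg h0' 1 (nw (M := 1) fun _ => 1) (nw_periodic _)
  have hFE := A.2.1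
  rw [Wh_one] at hFE
  have e7 : (((1 / (7 * ((1 : ℕ) : ℝ) ^ 3) : ℝ)) : ℂ) = 1 / 7 := by norm_num
  rw [e7] at hFE
  rw [hFE]
  congr 1
  -- both sides are entire in `s`
  have hg : ∀ z, mellin (fW (-ν) (nw (M := 1) fun _ => 1) (cd 1)) z =
      7 * mellin (fW ν (nw (M := 1) fun _ => 1) 1) (3 / 2 - z) := by
    intro z; rw [hFE z]; ring
  have hd : Differentiable ℂ
      (fun s : ℂ => mellin (fW (-ν) (nw (M := 1) fun _ => 1) (cd 1)) (3 * s / 2)) := by
    have : (fun s : ℂ => mellin (fW (-ν) (nw (M := 1) fun _ => 1) (cd 1)) (3 * s / 2)) =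
        fun s => 7 * mellin (fW ν (nw (M := 1) fun _ => 1) 1) (3 / 2 - 3 * s / 2) := by
      ext s; exact hg _
    rw [this]
    exact (A.1.comp (by fun_prop : Differentiable ℂ fun s : ℂ => 3 / 2 - 3 * s / 2)).const_mul _
  have hd2 : Differentiable ℂ (fun s : ℂ => (49 : ℂ) ^ s * chi ν δ *
        mellin (fW (-ν) (nw (M := 1) fun _ => 1) 1) (3 * s / 2)) := by
    refine Differentiable.mul (Differentiable.mul ?_ (differentiable_const _))
      (A'.1.comp (by fun_prop : Differentiable ℂ fun s : ℂ => 3 * s / 2))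
    intro s
    exact (differentiableAt_id).const_cpow (Or.inl (by norm_num))
  have hev : (fun s : ℂ => mellin (fW (-ν) (nw (M := 1) fun _ => 1) (cd 1)) (3 * s / 2)) =ᶠ[nhds (2 : ℂ)]
      (fun s : ℂ => (49 : ℂ) ^ s * chi ν δ *
        mellin (fW (-ν) (nw (M := 1) fun _ => 1) 1) (3 * s / 2)) := by
    have hopen : IsOpen {s : ℂ | 1 < s.re} := isOpen_lt continuous_const Complex.continuous_re
    filter_upwards [hopen.mem_nhds (show (2 : ℂ) ∈ {s : ℂ | 1 < s.re} by simp)] with s hs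
    have B1 := mellin_LSeries hν.neg (M := 1) (w := fun _ => 1) h0' (fun _ => rfl)
      (c := cd 1) (fun j => cd_pos 1 δ_ne_zero j) hs
    have B2 := mellin_LSeries hν.neg (M := 1) (w := fun _ => 1) h0' (fun _ => rfl)
      (c := 1) (fun j => by simp) hs
    rw [B1, B2, prod_cd, prod_one_cpow]
    ring
  have hA1 : AnalyticOnNhd ℂ
      (fun s : ℂ => mellin (fW (-ν) (nw (M := 1) fun _ => 1) (cd 1)) (3 * s / 2)) univ :=
    fun z _ => hd.analyticAt z
  have hA2 : AnalyticOnNhd ℂ (fun s : ℂ => (49 : ℂ) ^ s * chi ν δ *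
        mellin (fW (-ν) (nw (M := 1) fun _ => 1) 1) (3 * s / 2)) univ :=
    fun z _ => hd2.analyticAt z
  exact congr_fun (hA1.eq_of_eventuallyEq hA2 hev) s

theorem seven_conj (s : ℂ) : conj ((7 : ℂ) ^ s) = (7 : ℂ) ^ conj s := by
  rw [Complex.cpow_def_of_ne_zero (by norm_num), Complex.cpow_def_of_ne_zero (by norm_num),
    ← Complex.exp_conj, map_mul]
  congr 2
  rw [show (7 : ℂ) = ((7 : ℝ) : ℂ) by norm_num, ← Complex.ofReal_log (by norm_num),
    Complex.conj_ofReal]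

theorem Lam_FE {ν : Fin 3 → ℝ} (hν : IsNu ν) (h0 : ν ≠ 0) (s : ℂ) :
    Lam ν s = chi ν δ * conj (Lam ν (1 - conj s)) := by
  have h := mellin_dual hν h0 (1 - s)
  have e1 : (3 : ℂ) / 2 - 3 * (1 - s) / 2 = 3 * s / 2 := by ring
  rw [e1, mellin_one_conj] at h
  unfold Lam
  rw [map_mul, seven_conj]
  have e2 : conj (1 - conj s) = 1 - s := by simp
  have e3 : conj (3 * (1 - s) / 2) = 3 * (1 - conj s) / 2 := by
    have c3 : conj (3 : ℂ) = 3 := Complex.conj_ofNat 3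
    have c2 : conj (2 : ℂ) = 2 := Complex.conj_ofNat 2
    simp only [map_div₀, map_mul, map_sub, map_one, c3, c2]
  rw [e2, h, e3]
  have e4 : (7 : ℂ) ^ s * (1 / 7 * (49 : ℂ) ^ (1 - s)) = (7 : ℂ) ^ (1 - s) := by
    have h49 : (49 : ℂ) ^ (1 - s) = (7 : ℂ) ^ (2 * (1 - s)) := by
      rw [show (2 : ℂ) * (1 - s) = (1 - s) + (1 - s) by ring, Complex.cpow_add _ _ (by norm_num)]
      rw [show (49 : ℂ) = ((7 : ℝ) : ℂ) * ((7 : ℝ) : ℂ) by norm_num,
        Complex.mul_cpow_ofReal_nonneg (by norm_num) (by norm_num)]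
      norm_num
    rw [h49]
    have : (1 / 7 : ℂ) = (7 : ℂ) ^ (-1 : ℂ) := by
      rw [Complex.cpow_neg_one]; norm_num
    rw [this, ← Complex.cpow_add _ _ (by norm_num), ← Complex.cpow_add _ _ (by norm_num)]
    congr 1; ring
  rw [← e4]
  ring

theorem F_eq_Lam (ν : Fin 3 → ℝ) (s : ℂ) :
    F ν s = 2 * |LM.det| * (gam ν s)⁻¹ * (7 : ℂ) ^ (-s) * Lam ν s := by
  unfold F Fw Lam
  have h7 : (7 : ℂ) ^ (-s) * (7 : ℂ) ^ s = 1 := by
    rw [← Complex.cpow_add _ _ (by norm_num)]; simp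
  linear_combination (-(2 * ((|LM.det| : ℝ) : ℂ) * (gam ν s)⁻¹ *
    mellin (fW ν (nw (M := 1) fun _ => 1) 1) (3 * s / 2))) * h7

theorem Lam_eq_F (ν : Fin 3 → ℝ) {s : ℂ} (h1 : 0 < s.re) :
    (7 : ℂ) ^ s * gam ν s * F ν s = 2 * |LM.det| * Lam ν s := by
  rw [F_eq_Lam]
  have h7 : (7 : ℂ) ^ s * (7 : ℂ) ^ (-s) = 1 := by
    rw [← Complex.cpow_add _ _ (by norm_num)]; simp
  have hg : gam ν s * (gam ν s)⁻¹ = 1 := mul_inv_cancel₀ (gam_ne_zero_func ν h1)
  calc _ = 2 * |LM.det| * Lam ν s * (gam ν s * (gam ν s)⁻¹) * ((7 : ℂ) ^ s * (7 : ℂ) ^ (-s)) := by ring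
    _ = _ := by rw [hg, h7]; ring

theorem F_FE {ν : Fin 3 → ℝ} (hν : IsNu ν) (h0 : ν ≠ 0) {s : ℂ} (h1 : 0 < s.re) (h2 : s.re < 1) :
    (7 : ℂ) ^ s * gam ν s * F ν s =
      chi ν δ * conj ((7 : ℂ) ^ (1 - conj s) * gam ν (1 - conj s) * F ν (1 - conj s)) := by
  rw [Lam_eq_F ν h1, Lam_eq_F ν (s := 1 - conj s) (by simpa using h2), Lam_FE hν h0 s]
  simp only [map_mul, Complex.conj_ofReal, Complex.conj_ofNat]
  ring


end Pool.Agent.Helper88.BD
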