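import Mathlib
import Pool.Agent.Helper88.BD.Defs
import Pool.Agent.Helper88.BD.FwBasic
import Pool.Agent.Helper88.BD.Euler

/-!
MP_bd232a_nt, block A13. Nonvanishing on Re s = 1. Proof idea: 3-4-1: for σ > 1, |LSeries(coef 0)(σ)^3 LSeries(coef ν)(σ+it)^4 LSeries(coef (2ν))(σ+2it)| ≥ 1, because the real part of
3 b^0_n + 4 b^ν_n n^{-it} + b^{2ν}_n n^{-2it} is Σ Re(3+4z+z²)/k ≥ 0, z = chi(P)^k n^{-it}, |z| = 1 (euler for 0, ν, 2ν; definition of bco).
(σ-1) LSeries(coef 0)(σ) is bounded near 1 (coef 0 n = number of ideals; `NumberField.tendsto_sub_one_mul_dedekindZeta_nhdsGT`), F(2ν) is continuous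
at 1+2it (2ν ≠ 0), F ν(σ+it) = O(σ-1) if F ν(1+it) = 0.
-/

open Polynomial NumberField MeasureTheory Set
open scoped ComplexConjugate

namespace Pool.Agent.Helper88.BD

theorem nv_chi_zero (x : Fin 3 → ℝ) : chi 0 x = 1 := by
  simp [chi]

theorem nv_chi_two (ν x : Fin 3 → ℝ) : chi (2 • ν) x = chi ν x ^ 2 := by
  unfold chi
  rw [← Complex.exp_nat_mul]
  congr 1
  simp only [Pi.smul_apply, nsmul_eq_mul]
  push_cast
  simp_rw [mul_assoc]
  rw [← Finset.mul_sum]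
  ring

theorem nv_chi_norm (ν x : Fin 3 → ℝ) : ‖chi ν x‖ = 1 := by
  unfold chi
  rw [Complex.norm_exp_ofReal_mul_I]

theorem nv_three_four_one {z : ℂ} (hz : ‖z‖ = 1) : 0 ≤ (3 + 4 * z + z ^ 2).re := by
  have h : z.re ^ 2 + z.im ^ 2 = 1 := by
    have := Complex.sq_norm z
    rw [hz, Complex.normSq_apply] at this
    nlinarith
  have e : (3 + 4 * z + z ^ 2).re = 3 + 4 * z.re + (z.re ^ 2 - z.im ^ 2) := by
    simp [pow_two]
  rw [e]
  nlinarith [sq_nonneg (z.re + 1)]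

/-- The index set of the coefficient `b_n`. -/
abbrev NvIdx (n : ℕ) : Type :=
  {p : Ideal (𝓞 K) × ℕ // p.1.IsPrime ∧ p.1 ≠ ⊥ ∧ 1 ≤ p.2 ∧ Ideal.absNorm p.1 ^ p.2 = n}

theorem nv_bco_re_nonneg (ν : Fin 3 → ℝ) (n : ℕ) {w : ℂ} (hw : ‖w‖ = 1) :
    0 ≤ (3 * bco 0 n + 4 * (bco ν n * w) + bco (2 • ν) n * w ^ 2).re := by
  have hn : ∀ (μ : Fin 3 → ℝ) (p : NvIdx n), ‖chi μ (ga p.1.1) ^ p.1.2 / (p.1.2 : ℂ)‖ = 1 / (p.1.2 : ℝ) := by
    intro μ p
    rw [norm_div, norm_pow, nv_chi_norm, one_pow, Complex.norm_natCast]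
  by_cases h : Summable (fun p : NvIdx n => 1 / (p.1.2 : ℝ))
  · have hs : ∀ μ : Fin 3 → ℝ, Summable (fun p : NvIdx n => chi μ (ga p.1.1) ^ p.1.2 / (p.1.2 : ℂ)) := by
      intro μ
      apply Summable.of_norm
      simp_rw [hn μ]
      exact h
    have h0 := (hs 0).hasSum.mul_left 3
    have h1 := ((hs ν).hasSum.mul_right w).mul_left 4
    have h2 := (hs (2 • ν)).hasSum.mul_right (w ^ 2)
    have h3 := Complex.hasSum_re ((h0.add h1).add h2)
    refine h3.nonneg fun p => ?_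
    have hk : (0 : ℝ) < (p.1.2 : ℝ) := by
      exact_mod_cast p.2.2.2.1
    have e : 3 * (chi 0 (ga p.1.1) ^ p.1.2 / (p.1.2 : ℂ)) + 4 * (chi ν (ga p.1.1) ^ p.1.2 / (p.1.2 : ℂ) * w) +
        chi (2 • ν) (ga p.1.1) ^ p.1.2 / (p.1.2 : ℂ) * w ^ 2 =
        ((1 / (p.1.2 : ℝ) : ℝ) : ℂ) * (3 + 4 * (chi ν (ga p.1.1) ^ p.1.2 * w) +
          (chi ν (ga p.1.1) ^ p.1.2 * w) ^ 2) := by
      rw [nv_chi_zero, nv_chi_two]
      push_cast
      ring
    rw [e, Complex.re_ofReal_mul]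
    apply mul_nonneg (by positivity)
    apply nv_three_four_one
    rw [norm_mul, norm_pow, nv_chi_norm, hw]
    simp
  · have hz : ∀ μ : Fin 3 → ℝ, bco μ n = 0 := by
      intro μ
      apply tsum_eq_zero_of_not_summable
      intro hs
      apply h
      have := hs.norm
      refine this.congr fun p => ?_
      exact hn μ p
    simp [hz]

theorem nv_isNu_zero : IsNu 0 := ⟨by simp, fun i => ⟨0, by simp⟩⟩

theorem nv_isNu_two {ν : Fin 3 → ℝ} (hν : IsNu ν) : IsNu (2 • ν) := by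
  refine ⟨?_, fun i => ?_⟩
  · simp only [Pi.smul_apply]
    rw [← Finset.smul_sum, hν.1, smul_zero]
  · obtain ⟨k, hk⟩ := hν.2 i
    refine ⟨2 * k, ?_⟩
    simp only [Pi.smul_apply, smul_mul_assoc]
    rw [← Finset.smul_sum, hk]
    push_cast
    ring

theorem nv_coef_zero (n : ℕ) (hn : n ≠ 0) : coef 0 n = (Nat.card {I : Ideal (𝓞 K) // Ideal.absNorm I = n} : ℂ) := by
  have hfin : Finite {I : Ideal (𝓞 K) // I ≠ ⊥ ∧ Ideal.absNorm I = n} := by
    have : {I : Ideal (𝓞 K) | I ≠ ⊥ ∧ Ideal.absNorm I = n}.Finite :=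
      (Ideal.finite_setOfPred_absNorm_eq n).subset fun I hI => hI.2
    exact this.to_subtype
  have := Fintype.ofFinite {I : Ideal (𝓞 K) // I ≠ ⊥ ∧ Ideal.absNorm I = n}
  unfold coef
  simp_rw [nv_chi_zero]
  rw [tsum_fintype]
  simp only [Finset.sum_const, Finset.card_univ, nsmul_eq_mul, mul_one]
  rw [← Nat.card_eq_fintype_card]
  congr 1
  apply Nat.card_congr
  refine Equiv.subtypeEquivRight fun I => ⟨fun h => h.2, fun h => ⟨?_, h⟩⟩
  rintro rfl
  rw [Ideal.absNorm_bot] at h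
  exact hn h.symm

theorem nv_LSeries_coef_zero (s : ℂ) : LSeries (coef 0) s = dedekindZeta K s := by
  unfold dedekindZeta
  apply LSeries_congr
  intro n hn
  exact nv_coef_zero n hn

theorem nv_ge_one {ν : Fin 3 → ℝ} (hν : IsNu ν) (t : ℝ) {σ : ℝ} (hσ : 1 < σ) :
    1 ≤ ‖LSeries (coef 0) (σ : ℂ) ^ 3 * LSeries (coef ν) (σ + t * Complex.I) ^ 4 *
      LSeries (coef (2 • ν)) (σ + 2 * t * Complex.I)‖ := by
  have hs0 : 1 < ((σ : ℂ)).re := by simpa using hσ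
  have hs1 : 1 < ((σ : ℂ) + t * Complex.I).re := by simpa using hσ
  have hs2 : 1 < ((σ : ℂ) + 2 * t * Complex.I).re := by simpa using hσ
  obtain ⟨a0, e0⟩ := euler nv_isNu_zero hs0
  obtain ⟨a1, e1⟩ := euler hν hs1
  obtain ⟨a2, e2⟩ := euler (nv_isNu_two hν) hs2
  rw [e0, e1, e2, ← Complex.exp_nat_mul, ← Complex.exp_nat_mul, ← Complex.exp_add, ← Complex.exp_add,
    Complex.norm_exp]
  apply Real.one_le_exp
  have h0 := a0.hasSum.mul_left 3
  have h1 := a1.hasSum.mul_left 4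
  have h2 := a2.hasSum
  have h3 := Complex.hasSum_re ((h0.add h1).add h2)
  have h4 : 0 ≤ (3 * (∑' n, LSeries.term (bco 0) σ n) +
      4 * (∑' n, LSeries.term (bco ν) (σ + t * Complex.I) n) +
      ∑' n, LSeries.term (bco (2 • ν)) (σ + 2 * t * Complex.I) n).re := by
    refine h3.nonneg fun n => ?_
    rcases eq_or_ne n 0 with rfl | hn
    · simp
    · have hn0 : (n : ℂ) ≠ 0 := by exact_mod_cast hn
      have hnp : (0 : ℝ) < (n : ℝ) := by exact_mod_cast Nat.pos_of_ne_zero hn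
      set w : ℂ := (n : ℂ) ^ (-(t * Complex.I)) with hw
      have hwn : ‖w‖ = 1 := by
        rw [hw, Complex.norm_natCast_cpow_of_pos (Nat.pos_of_ne_zero hn)]
        simp
      have t1 : (n : ℂ) ^ ((σ : ℂ) + t * Complex.I) = (n : ℂ) ^ (σ : ℂ) * w⁻¹ := by
        rw [Complex.cpow_add _ _ hn0, hw, Complex.cpow_neg, inv_inv]
      have t2 : (n : ℂ) ^ ((σ : ℂ) + 2 * t * Complex.I) = (n : ℂ) ^ (σ : ℂ) * (w ^ 2)⁻¹ := by
        rw [Complex.cpow_add _ _ hn0, hw, ← Complex.cpow_nat_mul, ← Complex.cpow_neg]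
        congr 2
        push_cast
        ring
      have hr : (n : ℂ) ^ (σ : ℂ) = (((n : ℝ) ^ σ : ℝ) : ℂ) := by
        rw [Complex.ofReal_cpow hnp.le, Complex.ofReal_natCast]
      have hrp : 0 < (n : ℝ) ^ σ := Real.rpow_pos_of_pos hnp σ
      rw [LSeries.term_of_ne_zero hn, LSeries.term_of_ne_zero hn, LSeries.term_of_ne_zero hn, t1, t2, hr]
      have e : 3 * (bco 0 n / (((n : ℝ) ^ σ : ℝ) : ℂ)) + 4 * (bco ν n / ((((n : ℝ) ^ σ : ℝ) : ℂ) * w⁻¹)) +
          bco (2 • ν) n / ((((n : ℝ) ^ σ : ℝ) : ℂ) * (w ^ 2)⁻¹) =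
          ((((n : ℝ) ^ σ)⁻¹ : ℝ) : ℂ) * (3 * bco 0 n + 4 * (bco ν n * w) + bco (2 • ν) n * w ^ 2) := by
        rw [div_mul_eq_div_div, div_mul_eq_div_div, div_inv_eq_mul, div_inv_eq_mul]
        push_cast
        ring
      rw [e, Complex.re_ofReal_mul]
      exact mul_nonneg (by positivity) (nv_bco_re_nonneg ν n hwn)
  have h5 : (((3 : ℕ) : ℂ) * LSeries (bco 0) σ + ((4 : ℕ) : ℂ) * LSeries (bco ν) (σ + t * Complex.I) +
      LSeries (bco (2 • ν)) (σ + 2 * t * Complex.I)) = (3 * (∑' n, LSeries.term (bco 0) σ n) +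
      4 * (∑' n, LSeries.term (bco ν) (σ + t * Complex.I) n) +
      ∑' n, LSeries.term (bco (2 • ν)) (σ + 2 * t * Complex.I) n) := by
    unfold LSeries
    push_cast
    rfl
  rw [h5]
  exact h4

theorem F_ne_zero {ν : Fin 3 → ℝ} (hν : IsNu ν) (h0 : ν ≠ 0) (t : ℝ) : F ν (1 + t * Complex.I) ≠ 0 := by
  intro hF
  have h20 : 2 • ν ≠ 0 := by
    intro h
    apply h0
    have : (2 : ℝ) • ν = 0 := by
      rw [← h]
      ext j
      simp
    exact (smul_eq_zero.mp this).resolve_left (by norm_num)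
  have hν2 := nv_isNu_two hν
  have hd1 : Differentiable ℂ (F ν) := Fw_differentiable (M := 1) hν h0 (fun _ => 1)
  have hd2 : Differentiable ℂ (F (2 • ν)) := Fw_differentiable (M := 1) hν2 h20 (fun _ => 1)
  -- the three limits
  have hz := tendsto_sub_one_mul_dedekindZeta_nhdsGT K
  set d := deriv (F ν) (1 + t * Complex.I) with hdd
  have hφ : HasDerivAt (fun σ : ℝ => F ν ((σ : ℂ) + t * Complex.I)) d 1 := by
    have h1 : HasDerivAt (F ν) d (((1 : ℝ) : ℂ) + t * Complex.I) := by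
      rw [Complex.ofReal_one]
      exact (hd1 _).hasDerivAt
    have h2 : HasDerivAt (fun σ : ℝ => (σ : ℂ) + t * Complex.I) 1 1 := by
      have := (hasDerivAt_id (1 : ℝ)).ofReal_comp
      simpa using this.add_const (t * Complex.I)
    have := HasDerivAt.comp (1 : ℝ) h1 h2
    rw [mul_one] at this
    exact this
  have hsl : Filter.Tendsto (slope (fun σ : ℝ => F ν ((σ : ℂ) + t * Complex.I)) 1) (nhdsWithin 1 (Ioi 1)) (nhds d) :=
    (hasDerivAt_iff_tendsto_slope.mp hφ).mono_left (nhdsWithin_mono _ (fun x hx => ne_of_gt hx))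
  have hc2 : Filter.Tendsto (fun σ : ℝ => F (2 • ν) ((σ : ℂ) + 2 * t * Complex.I)) (nhdsWithin 1 (Ioi 1))
      (nhds (F (2 • ν) (((1 : ℝ) : ℂ) + 2 * t * Complex.I))) := by
    have : Continuous (fun σ : ℝ => F (2 • ν) ((σ : ℂ) + 2 * t * Complex.I)) :=
      hd2.continuous.comp (by fun_prop)
    exact (this.tendsto 1).mono_left nhdsWithin_le_nhds
  have hid : Filter.Tendsto (fun σ : ℝ => ((σ : ℂ) - 1)) (nhdsWithin 1 (Ioi 1)) (nhds 0) := by
    have : Continuous (fun σ : ℝ => (σ : ℂ) - 1) := by fun_prop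
    have h := (this.tendsto 1).mono_left (nhdsWithin_le_nhds (s := Ioi 1))
    simpa using h
  have hprod := ((hid.mul (hz.pow 3)).mul (hsl.pow 4)).mul hc2
  rw [zero_mul, zero_mul, zero_mul] at hprod
  have hge : ∀ᶠ σ : ℝ in nhdsWithin 1 (Ioi 1), 1 ≤ ‖((σ : ℂ) - 1) * (((σ : ℂ) - 1) * dedekindZeta K σ) ^ 3 *
      (slope (fun σ : ℝ => F ν ((σ : ℂ) + t * Complex.I)) 1 σ) ^ 4 *
      F (2 • ν) ((σ : ℂ) + 2 * t * Complex.I)‖ := by
    filter_upwards [self_mem_nhdsWithin] with σ hσ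
    have hσ' : 1 < σ := hσ
    have h1 := nv_ge_one hν t hσ'
    have hs1 : 1 < ((σ : ℂ) + t * Complex.I).re := by simpa using hσ'
    have hs2 : 1 < ((σ : ℂ) + 2 * t * Complex.I).re := by simpa using hσ'
    rw [← F_LSeries hν h0 hs1, ← F_LSeries hν2 h20 hs2, nv_LSeries_coef_zero] at h1
    have hne : (σ : ℂ) - 1 ≠ 0 := by
      rw [sub_ne_zero]
      exact_mod_cast hσ'.ne'
    have e : ((σ : ℂ) - 1) * (((σ : ℂ) - 1) * dedekindZeta K σ) ^ 3 *
        (slope (fun σ : ℝ => F ν ((σ : ℂ) + t * Complex.I)) 1 σ) ^ 4 *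
        F (2 • ν) ((σ : ℂ) + 2 * t * Complex.I) = dedekindZeta K σ ^ 3 * F ν (σ + t * Complex.I) ^ 4 *
        F (2 • ν) (σ + 2 * t * Complex.I) := by
      rw [slope_def_module]
      simp only [Complex.ofReal_one]
      rw [hF, sub_zero, Complex.real_smul]
      push_cast
      field_simp
    rw [e]
    exact h1
  have hlim := hprod.norm
  rw [norm_zero] at hlim
  have := ge_of_tendsto hlim hge
  linarith

end Pool.Agent.Helper88.BD
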