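import Mathlib
import Pool.Agent.Helper88.BD.Defs
import Pool.Agent.Helper88.BD.Norm

/-!
MP_bd232a_nt, block N3b. Norm of an integer in coordinates.
Proof idea: `Algebra.coe_norm_int`, N2 (norm_eq_prod), φ_ofC, prod_emb.
-/

open Polynomial NumberField MeasureTheory Set
open scoped ComplexConjugate

namespace Pool.Agent.Helper88.BD

theorem norm_ofC (m : Fin 3 → ℤ) : Algebra.norm ℤ (ofC m) = nrm m := by
  have h1 : ((Algebra.norm ℤ (ofC m) : ℤ) : ℚ) = Algebra.norm ℚ ((ofC m : 𝓞 K) : K) :=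
    Algebra.coe_norm_int (ofC m)
  have h2 : (((Algebra.norm ℤ (ofC m) : ℤ) : ℚ) : ℝ) = ((nrm m : ℤ) : ℝ) := by
    rw [h1, norm_eq_prod, ← prod_emb]
    exact Finset.prod_congr rfl fun j _ => φ_ofC m j
  exact_mod_cast h2

end Pool.Agent.Helper88.BD
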