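import Mathlib
import Pool.Agent.Helper88.BD.Defs
import Pool.Agent.Helper88.BD.Units

/-!
MP_bd232a_nt, block N11. Existence of an infinity type with all coordinates nonzero.
Proof idea: LM is invertible, so for k : Fin 2 → ℤ there is a unique ν(k) with LM.mulVec ν = (0, 2πk_0, 2πk_1); ν_j(1,n) = A_j + n B_j with
(A_j,B_j) ≠ 0 (otherwise the j-th coordinate vanishes on the whole image, i.e. the j-th row of LM⁻¹ is (x,0,0), then (row j of LM⁻¹)·LM = e_j gives
x(1,1,1) = e_j, impossible); a product of three nonzero linear polynomials in n is nonzero for some natural n.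
-/

open Polynomial NumberField MeasureTheory Set
open scoped ComplexConjugate

namespace Pool.Agent.Helper88.BD

theorem exists_nu : ∃ ν, IsNu ν ∧ ∀ j, ν j ≠ 0 := by
  have hdet : IsUnit LM.det := isUnit_iff_ne_zero.mpr LM_det
  have hinv1 : LM⁻¹ * LM = 1 := Matrix.nonsing_inv_mul LM hdet
  have hinv2 : LM * LM⁻¹ = 1 := Matrix.mul_nonsing_inv LM hdet
  set P := LM⁻¹ with hP
  -- the rows of the inverse are not multiples of the first coordinate vector
  have hrow : ∀ j, ¬ (P j 1 = 0 ∧ P j 2 = 0) := by
    rintro j ⟨h1, h2⟩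
    have key : ∀ m, P j 0 = (1 : Matrix (Fin 3) (Fin 3) ℝ) j m := by
      intro m
      have h := congrFun (congrFun hinv1 j) m
      rw [Matrix.mul_apply, Fin.sum_univ_three, h1, h2] at h
      have h0 : LM 0 m = 1 := rfl
      rw [h0] at h
      linarith
    have ha := key j
    have hb := key (j + 1)
    rw [Matrix.one_apply_eq] at ha
    rw [Matrix.one_apply_ne (by fin_cases j <;> decide)] at hb
    linarith
  -- choose n
  have hfin : (⋃ j : Fin 3, {n : ℕ | P j 1 + n * P j 2 = 0}).Finite := by
    refine Set.finite_iUnion fun j => Set.Subsingleton.finite ?_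
    intro m hm n hn
    simp only [Set.mem_setOf_eq] at hm hn
    by_cases h2 : P j 2 = 0
    · exfalso
      rw [h2] at hm
      exact hrow j ⟨by linarith, h2⟩
    · have : ((m : ℝ) - n) * P j 2 = 0 := by linarith
      have := (mul_eq_zero.mp this).resolve_right h2
      exact_mod_cast (sub_eq_zero.mp this)
  obtain ⟨n, hn⟩ := hfin.exists_notMem
  simp only [Set.mem_iUnion, Set.mem_setOf_eq, not_exists] at hn
  let w : Fin 3 → ℝ := ![0, 2 * Real.pi * 1, 2 * Real.pi * n]
  have hν : LM.mulVec (P.mulVec w) = w := by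
    rw [Matrix.mulVec_mulVec, hinv2, Matrix.one_mulVec]
  have hcoord : ∀ j, P.mulVec w j = 2 * Real.pi * (P j 1 + n * P j 2) := by
    intro j
    rw [Matrix.mulVec, dotProduct, Fin.sum_univ_three]
    simp only [w, Matrix.cons_val_zero, Matrix.cons_val_one, Matrix.cons_val]
    ring
  refine ⟨P.mulVec w, ⟨?_, ?_⟩, ?_⟩
  · have h := congrFun hν 0
    rw [Matrix.mulVec, dotProduct] at h
    have hw : w 0 = 0 := rfl
    rw [hw] at h
    rw [← h]
    refine Finset.sum_congr rfl fun j _ => ?_
    have h0 : LM 0 j = 1 := rfl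
    rw [h0, one_mul]
  · intro i
    have h := congrFun hν i.succ
    rw [Matrix.mulVec, dotProduct] at h
    have hL : ∀ j, LM i.succ j = L i j := by
      intro j
      fin_cases i <;> rfl
    have e : ∑ j, P.mulVec w j * L i j = w i.succ := by
      rw [← h]
      exact Finset.sum_congr rfl fun j _ => by rw [hL, mul_comm]
    rw [e]
    fin_cases i
    · exact ⟨1, by change 2 * Real.pi * 1 = _; norm_num⟩
    · exact ⟨n, by change 2 * Real.pi * (n : ℝ) = _; norm_num⟩
  · intro j
    rw [hcoord j]
    exact mul_ne_zero (mul_ne_zero two_ne_zero Real.pi_ne_zero) (hn j)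

end Pool.Agent.Helper88.BD
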