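import Mathlib
import Pool.Agent.Helper88.BD.Defs

/-!
MP_bd232a_nt, block A11. Growth of 1/Γ. Proof: Euler's product `1/Γ(z) = lim z ∏ (1 + z/k) n^{-z}`,
`|1 + w| ≤ exp(Re w + |w|²/2)`, and `log n ≤ H_n ≤ 1 + log n` give `|1/Γ(z)| ≤ exp((1+|z|)²)`.
-/

open Polynomial NumberField MeasureTheory Set
open scoped ComplexConjugate

namespace Pool.Agent.Helper88.BD

theorem norm_one_add_le_exp (w : ℂ) : ‖1 + w‖ ≤ Real.exp (w.re + ‖w‖ ^ 2 / 2) := by
  have h1 : ‖1 + w‖ ^ 2 = 1 + (2 * w.re + ‖w‖ ^ 2) := by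
    rw [← Complex.normSq_eq_norm_sq, ← Complex.normSq_eq_norm_sq, Complex.normSq_apply,
      Complex.normSq_apply]
    simp
    ring
  have h2 : ‖1 + w‖ ^ 2 ≤ Real.exp (w.re + ‖w‖ ^ 2 / 2) ^ 2 := by
    rw [h1, ← Real.exp_nat_mul]
    have := Real.add_one_le_exp (2 * w.re + ‖w‖ ^ 2)
    have e : ((2 : ℕ) : ℝ) * (w.re + ‖w‖ ^ 2 / 2) = 2 * w.re + ‖w‖ ^ 2 := by
      push_cast; ring
    rw [e]
    linarith
  exact (pow_le_pow_iff_left₀ (norm_nonneg _) (Real.exp_pos _).le two_ne_zero).1 h2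

theorem sum_inv_sq_le (n : ℕ) :
    ∑ j ∈ Finset.range n, 1 / ((j : ℝ) + 1) ^ 2 ≤ 2 := by
  have key : ∀ n : ℕ, ∑ j ∈ Finset.range (n + 1), 1 / ((j : ℝ) + 1) ^ 2 ≤ 2 - 1 / ((n : ℝ) + 1) := by
    intro n
    induction n with
    | zero => simp; norm_num
    | succ k ih =>
      rw [Finset.sum_range_succ]
      have hk : (0 : ℝ) ≤ (k : ℝ) := Nat.cast_nonneg k
      have h : 1 / (((k + 1 : ℕ) : ℝ) + 1) ^ 2 ≤ 1 / ((k : ℝ) + 1) - 1 / (((k + 1 : ℕ) : ℝ) + 1) := by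
        push_cast
        rw [div_sub_div _ _ (by positivity) (by positivity), div_le_div_iff₀ (by positivity) (by positivity)]
        nlinarith
      linarith
  rcases n with _ | n
  · simp
  · have := key n
    have h2 : (0 : ℝ) ≤ 1 / ((n : ℝ) + 1) := by positivity
    linarith

theorem prod_bound (z : ℂ) (n : ℕ) :
    ∏ j ∈ Finset.range n, ‖1 + z / ((j : ℂ) + 1)‖ ≤
      Real.exp (z.re * (∑ j ∈ Finset.range n, 1 / ((j : ℝ) + 1)) + ‖z‖ ^ 2) := by
  calc ∏ j ∈ Finset.range n, ‖1 + z / ((j : ℂ) + 1)‖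
      ≤ ∏ j ∈ Finset.range n, Real.exp (z.re * (1 / ((j : ℝ) + 1)) + ‖z‖ ^ 2 / 2 * (1 / ((j : ℝ) + 1) ^ 2)) := by
        apply Finset.prod_le_prod (fun _ _ => norm_nonneg _)
        intro j _
        refine (norm_one_add_le_exp _).trans (Real.exp_le_exp.2 (le_of_eq ?_))
        have h1 : ((j : ℂ) + 1) = (((j : ℝ) + 1 : ℝ) : ℂ) := by push_cast; rfl
        have hj : (0 : ℝ) < (j : ℝ) + 1 := by positivity
        rw [h1, Complex.div_ofReal_re, norm_div, Complex.norm_real, Real.norm_of_nonneg hj.le]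
        field_simp
    _ = Real.exp (∑ j ∈ Finset.range n, (z.re * (1 / ((j : ℝ) + 1)) + ‖z‖ ^ 2 / 2 * (1 / ((j : ℝ) + 1) ^ 2))) := by
        rw [Real.exp_sum]
    _ ≤ _ := by
        apply Real.exp_le_exp.2
        rw [Finset.sum_add_distrib, ← Finset.mul_sum, ← Finset.mul_sum]
        have := sum_inv_sq_le n
        have h2 : (0 : ℝ) ≤ ‖z‖ ^ 2 / 2 := by positivity
        nlinarith

theorem norm_inv_GammaSeq_le (z : ℂ) {n : ℕ} (hn : n ≠ 0) :
    ‖(Complex.GammaSeq z n)⁻¹‖ ≤ Real.exp ((1 + ‖z‖) ^ 2) := by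
  have hn0 : (0 : ℝ) < (n : ℝ) := by positivity
  have hfac : (Nat.factorial n : ℂ) = ∏ j ∈ Finset.range n, ((j : ℂ) + 1) := by
    rw [← Finset.prod_range_add_one_eq_factorial]
    push_cast
    rfl
  have hprod : ∏ j ∈ Finset.range (n + 1), (z + (j : ℂ)) =
      z * ∏ j ∈ Finset.range n, (z + ((j : ℂ) + 1)) := by
    rw [Finset.prod_range_succ']
    push_cast
    rw [add_zero, mul_comm]
  have hne : ∏ j ∈ Finset.range n, ((j : ℂ) + 1) ≠ 0 := by
    rw [Finset.prod_ne_zero_iff]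
    intro j _
    exact Nat.cast_add_one_ne_zero j
  have e : (Complex.GammaSeq z n)⁻¹ =
      z * (∏ j ∈ Finset.range n, (1 + z / ((j : ℂ) + 1))) * ((n : ℂ) ^ z)⁻¹ := by
    have h3 : ∏ j ∈ Finset.range n, (1 + z / ((j : ℂ) + 1)) =
        (∏ j ∈ Finset.range n, (z + ((j : ℂ) + 1))) / ∏ j ∈ Finset.range n, ((j : ℂ) + 1) := by
      rw [← Finset.prod_div_distrib]
      apply Finset.prod_congr rfl
      intro j _
      have : (j : ℂ) + 1 ≠ 0 := Nat.cast_add_one_ne_zero j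
      field_simp
      ring
    rw [h3, Complex.GammaSeq, hprod, hfac, inv_div]
    have hnz : (n : ℂ) ^ z ≠ 0 := by
      rw [Complex.cpow_ne_zero_iff]
      left
      exact_mod_cast hn
    field_simp
  rw [e, norm_mul, norm_mul, norm_prod, norm_inv, Complex.norm_natCast_cpow_of_pos (Nat.pos_of_ne_zero hn)]
  have hH1 : Real.log n ≤ ∑ j ∈ Finset.range n, 1 / ((j : ℝ) + 1) := by
    have h := log_add_one_le_harmonic n
    have h' : Real.log n ≤ Real.log ((n + 1 : ℕ) : ℝ) := by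
      apply Real.log_le_log hn0
      push_cast
      linarith
    have h'' : ((harmonic n : ℚ) : ℝ) = ∑ j ∈ Finset.range n, 1 / ((j : ℝ) + 1) := by
      simp [harmonic]
    rw [h''] at h
    exact h'.trans h
  have hH2 : ∑ j ∈ Finset.range n, 1 / ((j : ℝ) + 1) ≤ 1 + Real.log n := by
    have h := harmonic_le_one_add_log n
    have h'' : ((harmonic n : ℚ) : ℝ) = ∑ j ∈ Finset.range n, 1 / ((j : ℝ) + 1) := by
      simp [harmonic]
    rw [h''] at h
    exact h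
  have h5 : ((n : ℝ) ^ z.re)⁻¹ = Real.exp (-(Real.log n * z.re)) := by
    rw [Real.rpow_def_of_pos hn0, Real.exp_neg]
  rw [h5]
  have hz : ‖z‖ ≤ Real.exp ‖z‖ := by
    have := Real.add_one_le_exp ‖z‖
    linarith
  have hre : |z.re| ≤ ‖z‖ := Complex.abs_re_le_norm z
  calc (‖z‖ * ∏ j ∈ Finset.range n, ‖1 + z / ((j : ℂ) + 1)‖) * Real.exp (-(Real.log n * z.re))
      ≤ Real.exp ‖z‖ * Real.exp (z.re * (∑ j ∈ Finset.range n, 1 / ((j : ℝ) + 1)) + ‖z‖ ^ 2) *
          Real.exp (-(Real.log n * z.re)) := by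
        gcongr
        exact prod_bound z n
    _ = Real.exp (‖z‖ + ‖z‖ ^ 2 + z.re * ((∑ j ∈ Finset.range n, 1 / ((j : ℝ) + 1)) - Real.log n)) := by
        rw [← Real.exp_add, ← Real.exp_add]
        congr 1
        ring
    _ ≤ Real.exp ((1 + ‖z‖) ^ 2) := by
        apply Real.exp_le_exp.2
        have h6 : z.re * ((∑ j ∈ Finset.range n, 1 / ((j : ℝ) + 1)) - Real.log n) ≤ ‖z‖ * 1 := by
          have h7 : z.re ≤ ‖z‖ := (le_abs_self _).trans hre
          have h8 : 0 ≤ (∑ j ∈ Finset.range n, 1 / ((j : ℝ) + 1)) - Real.log n := by linarith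
          have h9 : (∑ j ∈ Finset.range n, 1 / ((j : ℝ) + 1)) - Real.log n ≤ 1 := by linarith
          calc z.re * ((∑ j ∈ Finset.range n, 1 / ((j : ℝ) + 1)) - Real.log n)
              ≤ ‖z‖ * ((∑ j ∈ Finset.range n, 1 / ((j : ℝ) + 1)) - Real.log n) :=
                mul_le_mul_of_nonneg_right h7 h8
            _ ≤ ‖z‖ * 1 := mul_le_mul_of_nonneg_left h9 (norm_nonneg _)
        nlinarith [norm_nonneg z]

theorem norm_inv_Gamma_le (z : ℂ) : ‖(Complex.Gamma z)⁻¹‖ ≤ Real.exp ((1 + ‖z‖) ^ 2) := by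
  by_cases h : Complex.Gamma z = 0
  · rw [h, inv_zero, norm_zero]
    exact (Real.exp_pos _).le
  · have ht := ((Complex.GammaSeq_tendsto_Gamma z).inv₀ h).norm
    refine le_of_tendsto ht ?_
    filter_upwards [Filter.eventually_ne_atTop 0] with n hn
    exact norm_inv_GammaSeq_le z hn

theorem invGamma_growth : ∃ A : ℝ, ∀ s : ℂ, ‖(Complex.Gammaℝ s)⁻¹‖ ≤ Real.exp (A * (1 + ‖s‖) ^ 2) := by
  refine ⟨2, fun s => ?_⟩
  rw [Complex.Gammaℝ_def, mul_inv, norm_mul, ← Complex.cpow_neg, Complex.norm_cpow_eq_rpow_re_of_pos Real.pi_pos]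
  have h1 : ‖(Complex.Gamma (s / 2))⁻¹‖ ≤ Real.exp ((1 + ‖s‖ / 2) ^ 2) := by
    have := norm_inv_Gamma_le (s / 2)
    simpa using this
  have h2 : Real.pi ^ (-(-s / 2)).re ≤ Real.exp ‖s‖ := by
    rw [Real.rpow_def_of_pos Real.pi_pos]
    apply Real.exp_le_exp.2
    have e : (-(-s / 2)).re = s.re / 2 := by simp [neg_div]
    rw [e]
    have hlog : Real.log Real.pi ≤ 2 := by
      have h4 : Real.pi ≤ 4 := Real.pi_le_four
      have : Real.log Real.pi ≤ Real.log (Real.exp 2) := by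
        apply Real.log_le_log Real.pi_pos
        have := Real.add_one_le_exp (2 : ℝ)
        have e2 : Real.exp 2 = Real.exp 1 * Real.exp 1 := by rw [← Real.exp_add]; norm_num
        have e1 : (2 : ℝ) ≤ Real.exp 1 := by
          have := Real.add_one_le_exp (1 : ℝ); linarith
        nlinarith
      rwa [Real.log_exp] at this
    have hlog0 : 0 ≤ Real.log Real.pi := Real.log_nonneg (by linarith [Real.pi_gt_three])
    have hre : s.re ≤ ‖s‖ := Complex.re_le_norm s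
    have hs : 0 ≤ ‖s‖ := norm_nonneg s
    calc Real.log Real.pi * (s.re / 2) ≤ Real.log Real.pi * (‖s‖ / 2) := by gcongr
      _ ≤ 2 * (‖s‖ / 2) := by gcongr
      _ = ‖s‖ := by ring
  calc Real.pi ^ (-(-s / 2)).re * ‖(Complex.Gamma (s / 2))⁻¹‖
      ≤ Real.exp ‖s‖ * Real.exp ((1 + ‖s‖ / 2) ^ 2) := by gcongr
    _ = Real.exp (‖s‖ + (1 + ‖s‖ / 2) ^ 2) := (Real.exp_add _ _).symm
    _ ≤ Real.exp (2 * (1 + ‖s‖) ^ 2) := by
        apply Real.exp_le_exp.2
        nlinarith [norm_nonneg s]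

end Pool.Agent.Helper88.BD
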