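import Mathlib
import Pool.Agent.Helper88.BD.Defs
import Pool.Agent.Helper88.BD.FwBasic
import Pool.Agent.Helper88.BD.Func
import Pool.Agent.Helper88.BD.InvGamma
import Pool.Agent.Helper88.BD.Euler
import Pool.Agent.Helper88.BD.Card
import Pool.Agent.Helper88.BD.Bco
import Pool.Agent.Helper88.BD.MellinFE
import Pool.Agent.Helper88.BD.Weights

/-!
MP_bd232a_nt, block A12. F ν is in the Selberg class. Proof idea: all parts are in the imported files; finite order: mellin_fW (growth), invGamma_growth at s - iν_j; the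
functional equation F_FE with Gammaℝ s = π^{-s/2} Γ(s/2), ∏ π^{iν_j/2} = 1.
-/

open Polynomial NumberField MeasureTheory Set
open scoped ComplexConjugate

namespace Pool.Agent.Helper88.BD

theorem norm_coef_le {η : ℝ} (hη : 0 < η) (ν : Fin 3 → ℝ) : ∃ C : ℝ, ∀ n : ℕ, 1 ≤ n →
    ‖coef ν n‖ ≤ C * (n : ℝ) ^ η := by
  obtain ⟨C, hC⟩ := card_ideals hη
  exact ⟨C, fun n hn => (norm_coef ν n).trans (hC n hn)⟩

theorem summable_coef (ν : Fin 3 → ℝ) {s : ℂ} (hs : 1 < s.re) : LSeriesSummable (coef ν) s := by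
  have hη : 0 < (s.re - 1) / 2 := by linarith
  obtain ⟨C, hC⟩ := norm_coef_le hη ν
  refine LSeriesSummable_of_le_const_mul_rpow (x := 1 + (s.re - 1) / 2) (by linarith)
    ⟨C, fun n hn => ?_⟩
  have := hC n (Nat.one_le_iff_ne_zero.2 hn)
  simpa using this

theorem gam_inv_growth (ν : Fin 3 → ℝ) : ∃ A : ℝ, ∀ s : ℂ, ‖(gam ν s)⁻¹‖ ≤ Real.exp (A * (1 + ‖s‖) ^ 2) := by
  obtain ⟨A, hA⟩ := invGamma_growth
  set N : ℝ := ∑ j, |ν j| with hN
  have hN0 : 0 ≤ N := Finset.sum_nonneg fun _ _ => abs_nonneg _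
  refine ⟨3 * (|A| * (1 + N) ^ 2), fun s => ?_⟩
  have h1 : ∀ j, ‖(Complex.Gammaℝ (s - (ν j : ℂ) * Complex.I))⁻¹‖ ≤
      Real.exp (|A| * (1 + N) ^ 2 * (1 + ‖s‖) ^ 2) := by
    intro j
    refine (hA _).trans (Real.exp_le_exp.2 ?_)
    have h2 : ‖s - (ν j : ℂ) * Complex.I‖ ≤ ‖s‖ + N := by
      refine (norm_sub_le _ _).trans ?_
      rw [norm_mul, Complex.norm_I, mul_one, Complex.norm_real, Real.norm_eq_abs]
      have : |ν j| ≤ N := Finset.single_le_sum (f := fun j => |ν j|) (fun _ _ => abs_nonneg _) (Finset.mem_univ j)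
      linarith
    have h3 : 1 + ‖s - (ν j : ℂ) * Complex.I‖ ≤ (1 + N) * (1 + ‖s‖) := by
      nlinarith [norm_nonneg s]
    calc A * (1 + ‖s - (ν j : ℂ) * Complex.I‖) ^ 2 ≤ |A| * (1 + ‖s - (ν j : ℂ) * Complex.I‖) ^ 2 := by
          gcongr
          exact le_abs_self A
      _ ≤ |A| * ((1 + N) * (1 + ‖s‖)) ^ 2 := by gcongr
      _ = |A| * (1 + N) ^ 2 * (1 + ‖s‖) ^ 2 := by ring
  have e : (gam ν s)⁻¹ = ∏ j, (Complex.Gammaℝ (s - (ν j : ℂ) * Complex.I))⁻¹ := by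
    rw [gam, Finset.prod_inv_distrib]
  rw [e, norm_prod]
  calc ∏ j, ‖(Complex.Gammaℝ (s - (ν j : ℂ) * Complex.I))⁻¹‖
      ≤ ∏ _j : Fin 3, Real.exp (|A| * (1 + N) ^ 2 * (1 + ‖s‖) ^ 2) :=
        Finset.prod_le_prod (fun _ _ => norm_nonneg _) (fun j _ => h1 j)
    _ = Real.exp (3 * (|A| * (1 + N) ^ 2) * (1 + ‖s‖) ^ 2) := by
        rw [Finset.prod_const, Finset.card_univ, Fintype.card_fin, ← Real.exp_nat_mul]
        congr 1
        push_cast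
        ring

theorem F_growth {ν : Fin 3 → ℝ} (hν : IsNu ν) (h0 : ν ≠ 0) :
    ∃ A : ℝ, ∀ s : ℂ, ‖F ν s‖ ≤ Real.exp (A * (1 + ‖s‖) ^ 2) := by
  obtain ⟨A1, hA1⟩ := gam_inv_growth ν
  obtain ⟨A2, hA2⟩ := (mellin_fW hν h0 1 (nw (M := 1) fun _ => 1) (nw_periodic _)).2.2
  refine ⟨2 * |LM.det| + |A1| + 4 * |A2|, fun s => ?_⟩
  have hs : 0 ≤ ‖s‖ := norm_nonneg s
  have h1 : (1 : ℝ) ≤ (1 + ‖s‖) ^ 2 := by nlinarith
  have hF : F ν s = 2 * |LM.det| * (gam ν s)⁻¹ * mellin (fW ν (nw (M := 1) fun _ => 1) 1) (3 * s / 2) := rfl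
  rw [hF, norm_mul, norm_mul, norm_mul, Complex.norm_real, Complex.norm_ofNat, Real.norm_eq_abs, abs_abs]
  have hc : 2 * |LM.det| ≤ Real.exp (2 * |LM.det| * (1 + ‖s‖) ^ 2) := by
    have h := Real.add_one_le_exp (2 * |LM.det| * (1 + ‖s‖) ^ 2)
    have h2 : 2 * |LM.det| * 1 ≤ 2 * |LM.det| * (1 + ‖s‖) ^ 2 := by gcongr
    linarith
  have hm : ‖mellin (fW ν (nw (M := 1) fun _ => 1) 1) (3 * s / 2)‖ ≤ Real.exp (4 * |A2| * (1 + ‖s‖) ^ 2) := by
    refine (hA2 _).trans (Real.exp_le_exp.2 ?_)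
    have e : ‖3 * s / 2‖ = 3 / 2 * ‖s‖ := by
      rw [norm_div, norm_mul]
      simp
      ring
    rw [e]
    calc A2 * (1 + 3 / 2 * ‖s‖) ^ 2 ≤ |A2| * (1 + 3 / 2 * ‖s‖) ^ 2 := by gcongr; exact le_abs_self _
      _ ≤ |A2| * (4 * (1 + ‖s‖) ^ 2) := by gcongr; nlinarith
      _ = 4 * |A2| * (1 + ‖s‖) ^ 2 := by ring
  have hg : ‖(gam ν s)⁻¹‖ ≤ Real.exp (|A1| * (1 + ‖s‖) ^ 2) := by
    refine (hA1 s).trans (Real.exp_le_exp.2 ?_)
    gcongr
    exact le_abs_self _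
  calc 2 * |LM.det| * ‖(gam ν s)⁻¹‖ * ‖mellin (fW ν (nw (M := 1) fun _ => 1) 1) (3 * s / 2)‖
      ≤ Real.exp (2 * |LM.det| * (1 + ‖s‖) ^ 2) * Real.exp (|A1| * (1 + ‖s‖) ^ 2) *
          Real.exp (4 * |A2| * (1 + ‖s‖) ^ 2) := by gcongr
    _ = Real.exp ((2 * |LM.det| + |A1| + 4 * |A2|) * (1 + ‖s‖) ^ 2) := by
        rw [← Real.exp_add, ← Real.exp_add]
        congr 1
        ring

theorem FEdata_gamma {ν : Fin 3 → ℝ} (hν : IsNu ν) (s : ℂ) :
    ((FEdata ν).Q : ℂ) ^ s * (∏ j, Complex.Gamma ((FEdata ν).lam j * s + (FEdata ν).mu j)) =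
      (7 : ℂ) ^ s * gam ν s := by
  change (((7 * Real.pi ^ (-(3 / 2) : ℝ) : ℝ)) : ℂ) ^ s *
    (∏ j : Fin 3, Complex.Gamma ((((1 / 2 : ℝ)) : ℂ) * s + -((ν j : ℂ) * Complex.I) / 2)) = _
  have hpi : (0 : ℝ) < Real.pi ^ (-(3 / 2) : ℝ) := Real.rpow_pos_of_pos Real.pi_pos _
  have h1 : (((7 * Real.pi ^ (-(3 / 2) : ℝ) : ℝ)) : ℂ) ^ s = (7 : ℂ) ^ s * (Real.pi : ℂ) ^ (-(3 / 2) * s) := by
    have him : (Complex.log (Real.pi : ℂ) * ((-(3 / 2) : ℝ) : ℂ)).im = 0 := by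
      rw [← Complex.ofReal_log Real.pi_pos.le, ← Complex.ofReal_mul, Complex.ofReal_im]
    rw [Complex.ofReal_mul, Complex.mul_cpow_ofReal_nonneg (by norm_num) hpi.le,
      Complex.ofReal_cpow Real.pi_pos.le, ← Complex.cpow_mul]
    · push_cast
      ring_nf
    · rw [him]
      linarith [Real.pi_pos]
    · rw [him]
      exact Real.pi_pos.le
  have hpc : (Real.pi : ℂ) ≠ 0 := by exact_mod_cast Real.pi_ne_zero
  have h2 : gam ν s = (Real.pi : ℂ) ^ (-(3 / 2) * s) *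
      ∏ j : Fin 3, Complex.Gamma ((((1 / 2 : ℝ)) : ℂ) * s + -((ν j : ℂ) * Complex.I) / 2) := by
    unfold gam
    simp only [Complex.Gammaℝ_def]
    rw [Finset.prod_mul_distrib]
    congr 1
    · rw [Fin.prod_univ_three, ← Complex.cpow_add _ _ hpc, ← Complex.cpow_add _ _ hpc]
      congr 1
      have h3 : ∑ j : Fin 3, (ν j : ℂ) = 0 := by
        have := hν.1
        exact_mod_cast this
      rw [Fin.sum_univ_three] at h3
      linear_combination (Complex.I / 2) * h3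
    · apply Finset.prod_congr rfl
      intro j _
      congr 1
      push_cast
      ring
  rw [h1, h2]
  ring

theorem isSelberg {ν : Fin 3 → ℝ} (hν : IsNu ν) (h0 : ν ≠ 0) :
    Helper19.BD.IsSelbergWith (F ν) (coef ν) (FEdata ν) where
  summable := fun s hs => summable_coef ν hs
  eq := fun s hs => F_LSeries hν h0 hs
  entire := by
    obtain ⟨A, hA⟩ := F_growth hν h0
    refine ⟨0, F ν, Fw_differentiable hν h0 _, fun s _ => by rw [pow_zero, one_mul], A, 2, fun s => ?_⟩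
    have := hA s
    rw [Real.rpow_two]
    exact this
  fe := by
    intro s h1 h2
    have e : ∀ s, (FEdata ν).Phi (F ν) s = (7 : ℂ) ^ s * gam ν s * F ν s := by
      intro s
      unfold Helper19.BD.FE.Phi
      rw [FEdata_gamma hν]
    rw [e, e]
    exact F_FE hν h0 h1 h2
  ramanujan := fun η hη => norm_coef_le hη ν
  euler := by
    refine ⟨bco ν, 0, 3, by norm_num, fun n hn => bco_eq_zero ν hn, fun n _ => ?_, fun s hs => ?_⟩
    · rw [Real.rpow_zero, mul_one]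
      exact bco_bound ν n
    · refine ⟨(euler hν hs).1, ?_⟩
      rw [F_LSeries hν h0 hs]
      exact (euler hν hs).2

theorem FEdata_deg (ν : Fin 3 → ℝ) : (FEdata ν).deg = 3 := by
  unfold Helper19.BD.FE.deg
  change 2 * ∑ _j : Fin 3, (1 / 2 : ℝ) = 3
  norm_num

end Pool.Agent.Helper88.BD
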