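import Mathlib
import Pool.Agent.Helper88.BD.Defs
import Pool.Agent.Helper88.BD.NonVan
import Pool.Agent.Helper88.BD.Func

/-!
MP_bd232a_nt, block A14. Zeros in Re s ≤ 0. Proof idea: F_eq_Lam: for Re s ≤ 0, Lam ν s ≠ 0 because Lam ν (1 - conj s) = const * gam * F ≠ 0 there (Re ≥ 1: euler and A13);
so F ν s = 0 iff (gam ν s)⁻¹ = 0 iff s - iν_j = -2n for some j, n (Gammaℝ_eq_zero_iff).
-/

open Polynomial NumberField MeasureTheory Set
open scoped ComplexConjugate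

namespace Pool.Agent.Helper88.BD

/-- `F ν` has no zeros on and to the right of the line `Re s = 1`. -/
theorem F_ne_zero_right {ν : Fin 3 → ℝ} (hν : IsNu ν) (h0 : ν ≠ 0) {s : ℂ} (hs : 1 ≤ s.re) : F ν s ≠ 0 := by
  rcases hs.eq_or_lt with h | h
  · have e : s = 1 + (s.im : ℂ) * Complex.I := by
      apply Complex.ext <;> simp [← h]
    rw [e]
    exact F_ne_zero hν h0 s.im
  · rw [F_LSeries hν h0 h, (euler hν h).2]
    exact Complex.exp_ne_zero _

/-- The completed function has no zeros in `Re s ≤ 0`. -/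
theorem Lam_ne_zero_left {ν : Fin 3 → ℝ} (hν : IsNu ν) (h0 : ν ≠ 0) {s : ℂ} (hs : s.re ≤ 0) :
    Lam ν s ≠ 0 ∧ (2 * |LM.det| : ℂ) ≠ 0 := by
  have h1 : (1 : ℝ) ≤ (1 - conj s).re := by simpa using hs
  have h2 : (7 : ℂ) ^ (1 - conj s) * gam ν (1 - conj s) * F ν (1 - conj s) ≠ 0 :=
    mul_ne_zero (mul_ne_zero (by rw [Complex.cpow_def_of_ne_zero (by norm_num)]; exact Complex.exp_ne_zero _)
      (gam_ne_zero ν (by linarith))) (F_ne_zero_right hν h0 h1)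
  rw [Lam_eq_F ν (by linarith)] at h2
  refine ⟨?_, left_ne_zero_of_mul h2⟩
  rw [Lam_FE hν h0 s]
  refine mul_ne_zero ?_ ?_
  · unfold chi
    exact Complex.exp_ne_zero _
  · exact (_root_.map_ne_zero _).2 (right_ne_zero_of_mul h2)

/-- In `Re s ≤ 0` the zeros of `F ν` are the poles of the gamma factor. -/
theorem F_zero_iff_left {ν : Fin 3 → ℝ} (hν : IsNu ν) (h0 : ν ≠ 0) {s : ℂ} (hs : s.re ≤ 0) :
    F ν s = 0 ↔ ∃ (j : Fin 3) (n : ℕ), s - (ν j : ℂ) * Complex.I = -(2 * n) := by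
  obtain ⟨h1, h2⟩ := Lam_ne_zero_left hν h0 hs
  have h7 : (7 : ℂ) ^ (-s) ≠ 0 := by
    rw [Complex.cpow_def_of_ne_zero (by norm_num)]
    exact Complex.exp_ne_zero _
  have h3 : F ν s = 0 ↔ gam ν s = 0 := by
    rw [F_eq_Lam]
    constructor
    · intro h
      by_contra hg
      exact mul_ne_zero (mul_ne_zero (mul_ne_zero h2 (inv_ne_zero hg)) h7) h1 h
    · intro h
      rw [h]
      simp
  rw [h3]
  unfold gam
  rw [Finset.prod_eq_zero_iff]
  constructor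
  · rintro ⟨j, -, hj⟩
    obtain ⟨n, hn⟩ := Complex.Gammaℝ_eq_zero_iff.1 hj
    exact ⟨j, n, hn⟩
  · rintro ⟨j, n, hn⟩
    exact ⟨j, Finset.mem_univ _, Complex.Gammaℝ_eq_zero_iff.2 ⟨n, hn⟩⟩

theorem F_zero_line {ν : Fin 3 → ℝ} (hν : IsNu ν) (h0 : ν ≠ 0) {t : ℝ} (ht : ∀ j, t ≠ ν j) :
    F ν (t * Complex.I) ≠ 0 := by
  intro h
  rw [F_zero_iff_left hν h0 (by simp)] at h
  obtain ⟨j, n, hn⟩ := h
  have h1 := congrArg Complex.im hn
  simp at h1
  exact ht j (by linarith)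

theorem F_trivial_zeros {ν : Fin 3 → ℝ} (hν : IsNu ν) (h0 : ν ≠ 0) {s : ℂ} (hs : s.re < 0) :
    F ν s = 0 ↔ ∃ (j : Fin 3) (m : ℕ), 1 ≤ m ∧ s = (ν j : ℂ) * Complex.I - 2 * m := by
  rw [F_zero_iff_left hν h0 hs.le]
  constructor
  · rintro ⟨j, n, hn⟩
    refine ⟨j, n, ?_, ?_⟩
    · rcases Nat.eq_zero_or_pos n with h | h
      · exfalso
        rw [h] at hn
        have h1 := congrArg Complex.re hn
        simp at h1
        linarith
      · exact h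
    · linear_combination hn
  · rintro ⟨j, m, -, hm⟩
    exact ⟨j, m, by rw [hm]; ring⟩

end Pool.Agent.Helper88.BD
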