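import Mathlib
import Pool.Agent.Helper88.BD.Norm
import Pool.Agent.Helper88.BD.Coords
import Pool.Agent.Helper88.BD.NormC
import Pool.Agent.Helper88.BD.Discr
import Pool.Agent.Helper88.BD.Pid
import Pool.Agent.Helper88.BD.Gen
import Pool.Agent.Helper88.BD.Places
import Pool.Agent.Helper88.BD.Fund
import Pool.Agent.Helper88.BD.Units
import Pool.Agent.Helper88.BD.Orb
import Pool.Agent.Helper88.BD.Chi
import Pool.Agent.Helper88.BD.MultBound
import Pool.Agent.Helper88.BD.CardMul
import Pool.Agent.Helper88.BD.CardPP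
import Pool.Agent.Helper88.BD.Card
import Pool.Agent.Helper88.BD.SumNI
import Pool.Agent.Helper88.BD.Bco
import Pool.Agent.Helper88.BD.FinsuppProd
import Pool.Agent.Helper88.BD.IdealFin
import Pool.Agent.Helper88.BD.Euler
import Pool.Agent.Helper88.BD.Inert
import Pool.Agent.Helper88.BD.CoefInert
import Pool.Agent.Helper88.BD.Nu
import Pool.Agent.Helper88.BD.Expand
import Pool.Agent.Helper88.BD.Weights
import Pool.Agent.Helper88.BD.Gau
import Pool.Agent.Helper88.BD.PoissonDecay
import Pool.Agent.Helper88.BD.Delta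
import Pool.Agent.Helper88.BD.FourierGau
import Pool.Agent.Helper88.BD.ThetaPoisson
import Pool.Agent.Helper88.BD.Cont
import Pool.Agent.Helper88.BD.Char
import Pool.Agent.Helper88.BD.Decay
import Pool.Agent.Helper88.BD.FE
import Pool.Agent.Helper88.BD.MellinGrowth
import Pool.Agent.Helper88.BD.MellinFE
import Pool.Agent.Helper88.BD.Local
import Pool.Agent.Helper88.BD.Unfold
import Pool.Agent.Helper88.BD.MellinL
import Pool.Agent.Helper88.BD.FwBasic
import Pool.Agent.Helper88.BD.Func
import Pool.Agent.Helper88.BD.InvGamma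
import Pool.Agent.Helper88.BD.Selberg
import Pool.Agent.Helper88.BD.NonVan
import Pool.Agent.Helper88.BD.Zeros
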