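import Mathlib
import Pool.Agent.Helper19.BD.Interface
import Pool.Agent.Helper97.BD.Growth
import Pool.Agent.Helper71.BDA.BasicTh
import Pool.Agent.Helper88.BD.Selberg
import Pool.Agent.Helper88.BD.Zeros
import Pool.Agent.Helper88.BD.CoefInert
import Pool.Agent.Helper88.BD.Expand
import Pool.Agent.Helper88.BD.Nu

/-!
MP_bd232a_nt: assembly of the output of parts N + A (structure `HeckeF` of the interface).
-/

open Polynomial NumberField MeasureTheory Set
open scoped ComplexConjugate ContDiff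

namespace Pool.Agent.Helper88.BD

open Pool.Agent.Helper71.BDA (th)

theorem FEdata_eq (ν : Fin 3 → ℝ) : FEdata ν = Helper19.BD.feNu ν (chi ν δ) (FEdata ν).hom := by
  unfold FEdata Helper19.BD.feNu
  congr 1
  funext j
  rw [mul_comm]

theorem Gammaℝ_conj (s : ℂ) : Complex.Gammaℝ (conj s) = conj (Complex.Gammaℝ s) := by
  rw [Complex.Gammaℝ_def, Complex.Gammaℝ_def, map_mul, ← Complex.Gamma_conj, map_div₀, Complex.conj_ofNat]
  congr 1
  have harg : ((Real.pi : ℝ) : ℂ).arg ≠ Real.pi := by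
    rw [Complex.arg_ofReal_of_nonneg Real.pi_pos.le]; exact Real.pi_pos.ne
  rw [show -(conj s) / 2 = conj (-s / 2) by rw [map_div₀, map_neg, Complex.conj_ofNat],
    Complex.cpow_conj _ _ harg, Complex.conj_ofReal]

/-- the cone function -/
noncomputable def wc (ν x : Fin 3 → ℝ) : ℂ :=
  haveI := Classical.propDecidable (∀ j, x j ≠ 0)
  if ∀ j, x j ≠ 0 then (th (bc x 0) * th (bc x 1) : ℂ) * chi ν x else 0

theorem bc_smul {t : ℝ} (ht : 0 < t) {x : Fin 3 → ℝ} (hx : ∀ j, x j ≠ 0) : bc (t • x) = bc x := by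
  obtain ⟨a, ha⟩ := bc_spec (x := x) 0
  apply bc_eq (a := Real.log t + a)
  intro j
  rw [Pi.smul_apply, smul_eq_mul, abs_mul, Real.log_mul (abs_pos.mpr ht.ne').ne' (abs_pos.mpr (hx j)).ne',
    abs_of_pos ht, ha j]
  ring

theorem chi_smul {ν : Fin 3 → ℝ} (hν : IsNu ν) {t : ℝ} (ht : 0 < t) {x : Fin 3 → ℝ} (hx : ∀ j, x j ≠ 0) :
    chi ν (t • x) = chi ν x := by
  unfold chi
  congr 3
  have : ∀ j, ν j * Real.log |(t • x) j| = Real.log t * ν j + ν j * Real.log |x j| := by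
    intro j
    rw [Pi.smul_apply, smul_eq_mul, abs_mul, Real.log_mul (abs_pos.mpr ht.ne').ne' (abs_pos.mpr (hx j)).ne',
      abs_of_pos ht]
    ring
  rw [Finset.sum_congr rfl (fun j _ => this j), Finset.sum_add_distrib, ← Finset.mul_sum, hν.1]
  ring

theorem wc_hom {ν : Fin 3 → ℝ} (hν : IsNu ν) (t : ℝ) (x : Fin 3 → ℝ) (ht : 0 < t) : wc ν (t • x) = wc ν x := by
  unfold wc
  by_cases hx : ∀ j, x j ≠ 0
  · have hx' : ∀ j, (t • x) j ≠ 0 := fun j => by
      rw [Pi.smul_apply, smul_eq_mul]; exact mul_ne_zero ht.ne' (hx j)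
    rw [if_pos hx, if_pos hx', bc_smul ht hx, chi_smul hν ht hx]
  · have hx' : ¬ ∀ j, (t • x) j ≠ 0 := by
      intro h
      apply hx
      intro j
      have := h j
      rw [Pi.smul_apply, smul_eq_mul] at this
      exact right_ne_zero_of_mul this
    rw [if_neg hx, if_neg hx']

theorem wc_smooth (ν : Fin 3 → ℝ) : ContDiffOn ℝ ∞ (wc ν) {x | ∀ j, x j ≠ 0} := by
  have hlog : ∀ j : Fin 3, ContDiffOn ℝ ∞ (fun x : Fin 3 → ℝ => Real.log |x j|) {x | ∀ j, x j ≠ 0} := by
    intro j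
    have : (fun x : Fin 3 → ℝ => Real.log |x j|) = fun x => Real.log (x j) := by
      funext x; rw [Real.log_abs]
    rw [this]
    apply ContDiffOn.log
    · exact (contDiff_apply ℝ ℝ j).contDiffOn
    · intro x hx; exact hx j
  have hbc : ∀ i : Fin 2, ContDiffOn ℝ ∞ (fun x : Fin 3 → ℝ => bc x i) {x | ∀ j, x j ≠ 0} := by
    intro i
    unfold bc Matrix.mulVec dotProduct
    apply ContDiffOn.sum
    intro j _
    exact contDiffOn_const.mul (hlog j)
  have hth : ∀ i : Fin 2, ContDiffOn ℝ ∞ (fun x : Fin 3 → ℝ => ((th (bc x i) : ℝ) : ℂ)) {x | ∀ j, x j ≠ 0} := by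
    intro i
    exact Complex.ofRealCLM.contDiff.comp_contDiffOn
      (Helper71.BDA.th_smooth.comp_contDiffOn (hbc i))
  have hchi : ContDiffOn ℝ ∞ (fun x : Fin 3 → ℝ => chi ν x) {x | ∀ j, x j ≠ 0} := by
    have hs : ContDiffOn ℝ ∞ (fun x : Fin 3 → ℝ => ∑ j, ν j * Real.log |x j|) {x | ∀ j, x j ≠ 0} :=
      ContDiffOn.sum fun j _ => contDiffOn_const.mul (hlog j)
    have hs2 : ContDiffOn ℝ ∞ (fun x : Fin 3 → ℝ => ((∑ j, ν j * Real.log |x j| : ℝ) : ℂ)) {x | ∀ j, x j ≠ 0} :=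
      Complex.ofRealCLM.contDiff.comp_contDiffOn hs
    exact (hs2.mul contDiffOn_const).cexp
  refine (((hth 0).mul (hth 1)).mul hchi).congr ?_
  intro x hx
  unfold wc
  rw [if_pos (show ∀ j, x j ≠ 0 from hx)]

theorem wc_supp (ν : Fin 3 → ℝ) : ∃ K : ℝ, 1 < K ∧ ∀ x, wc ν x ≠ 0 → ∀ i j, |x i| ≤ K * |x j| := by
  set R : ℝ := ∑ i : Fin 2, ∑ j : Fin 3, |L i j| with hR
  have hR0 : 0 ≤ R := Finset.sum_nonneg fun i _ => Finset.sum_nonneg fun j _ => abs_nonneg _
  refine ⟨Real.exp (4 * R + 1), by rw [Real.one_lt_exp_iff]; positivity, ?_⟩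
  intro x hx i j
  unfold wc at hx
  by_cases h : ∀ j, x j ≠ 0
  · rw [if_pos h] at hx
    have h0 : th (bc x 0) ≠ 0 := by
      intro h0; apply hx; rw [h0]; simp
    have h1 : th (bc x 1) ≠ 0 := by
      intro h0; apply hx; rw [h0]; simp
    have hb : ∀ b : ℝ, th b ≠ 0 → |b| ≤ 2 := by
      intro b hb
      have hb1 : 0 < b := by
        by_contra hc; exact hb (Helper71.BDA.th_zero_of_le (not_lt.mp hc))
      have hb2 : b < 2 := by
        by_contra hc; exact hb (Helper71.BDA.th_zero_of_ge (not_lt.mp hc))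
      rw [abs_of_pos hb1]; exact hb2.le
    have hb0 := hb _ h0
    have hb1 := hb _ h1
    obtain ⟨a, ha⟩ := bc_spec (x := x) 0
    have hbound : ∀ l : Fin 3, |∑ i, bc x i * L i l| ≤ 2 * R := by
      intro l
      calc |∑ i, bc x i * L i l| ≤ ∑ i, |bc x i * L i l| := Finset.abs_sum_le_sum_abs _ _
        _ ≤ ∑ i : Fin 2, 2 * ∑ j : Fin 3, |L i j| := by
            apply Finset.sum_le_sum
            intro i _
            rw [abs_mul]
            have h2 : |bc x i| ≤ 2 := by fin_cases i <;> assumption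
            have h3 : |L i l| ≤ ∑ j : Fin 3, |L i j| :=
              Finset.single_le_sum (f := fun j => |L i j|) (fun _ _ => abs_nonneg _) (Finset.mem_univ l)
            gcongr
        _ = 2 * R := by rw [hR, Finset.mul_sum]
    have hi := ha i
    have hj := ha j
    have h3 : Real.log |x i| ≤ (4 * R + 1) + Real.log |x j| := by
      have h4 := (abs_le.mp (hbound i)).2
      have h5 := (abs_le.mp (hbound j)).1
      rw [hi, hj]
      linarith
    have hxi : 0 < |x i| := abs_pos.mpr (h i)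
    have hxj : 0 < |x j| := abs_pos.mpr (h j)
    calc |x i| = Real.exp (Real.log |x i|) := (Real.exp_log hxi).symm
      _ ≤ Real.exp ((4 * R + 1) + Real.log |x j|) := Real.exp_le_exp.mpr h3
      _ = Real.exp (4 * R + 1) * |x j| := by rw [Real.exp_add, Real.exp_log hxj]
  · rw [if_neg h] at hx
    exact absurd rfl hx

/-- the basis of the lattice -/
noncomputable def AM : Matrix (Fin 3) (Fin 3) ℝ := Matrix.of fun j i => rt j ^ (i : ℕ)

theorem AM_mulVec (y : Fin 3 → ℤ) : AM.mulVec (fun i => (y i : ℝ)) = emb y := by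
  funext j
  simp only [AM, Matrix.mulVec, dotProduct, Fin.sum_univ_three, Matrix.of_apply, emb]
  simp
  ring

theorem AM_det : AM.det ≠ 0 := by
  have : AM = Matrix.vandermonde rt := by
    ext j i
    simp [AM, Matrix.vandermonde_apply]
  rw [this]
  exact Matrix.det_vandermonde_ne_zero_iff.mpr rt_injective

theorem coef_lattice {ν : Fin 3 → ℝ} (hν : IsNu ν) (n : ℕ) (hn : 1 ≤ n) :
    coef ν n = (1 / 2) * ∑' y : Fin 3 → ℤ,
      if |∏ j, AM.mulVec (fun i => (y i : ℝ)) j| = n then wc ν (AM.mulVec (fun i => (y i : ℝ))) else 0 := by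
  have hA : ∀ u, (2 : ℝ) < |u| → th u = 0 := by
    intro u hu
    rcases le_or_gt u 0 with h | h
    · exact Helper71.BDA.th_zero_of_le h
    · rw [abs_of_pos h] at hu
      exact Helper71.BDA.th_zero_of_ge hu.le
  have hθ : ∀ u, ∑' n : ℤ, th (u + n) = 1 := fun u => (Helper71.BDA.th_hasSum u).tsum_eq
  have h := (coef_expand hν hA hθ (h := fun k => if k = n then 1 else 0) (by
    rw [if_neg]; omega) (N := n) (fun k hk => by rw [if_neg]; omega)).2
  rw [tsum_eq_single n (fun k hk => by rw [if_neg hk, mul_zero]), if_pos rfl, mul_one] at h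
  rw [h]
  congr 1
  apply tsum_congr
  intro y
  rw [AM_mulVec, prod_emb]
  have hiff : (|(nrm y : ℝ)| = n) ↔ (nrm y).natAbs = n := by
    rw [← Int.cast_abs, Int.abs_eq_natAbs]
    norm_cast
  by_cases hy : (nrm y).natAbs = n
  · rw [if_pos hy, if_pos (hiff.mpr hy), mul_one, wc]
    have hne : ∀ j, emb y j ≠ 0 := by
      intro j h0
      have : (nrm y : ℝ) = 0 := by
        rw [← prod_emb]
        exact Finset.prod_eq_zero (Finset.mem_univ j) h0
      have h1 : nrm y = 0 := by exact_mod_cast this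
      rw [h1] at hy
      simp at hy
      omega
    rw [if_pos hne]
  · rw [if_neg hy, if_neg (fun h => hy (hiff.mp h)), mul_zero]

theorem coef_inert' {ν : Fin 3 → ℝ} (hν : IsNu ν) (p : ℕ) (hp : p.Prime) (h0 : p % 7 ≠ 0) (h1 : p % 7 ≠ 1)
    (h6 : p % 7 ≠ 6) (n : ℕ) (hn : 1 ≤ n) :
    coef ν (p * n) = if p ^ 2 ∣ n then coef ν (n / p ^ 2) else 0 := by
  have hlt : p % 7 < 7 := Nat.mod_lt _ (by norm_num)
  have hmod : p % 7 = 2 ∨ p % 7 = 3 ∨ p % 7 = 4 ∨ p % 7 = 5 := by omega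
  obtain ⟨k, m, hm, rfl⟩ := Nat.exists_eq_pow_mul_and_not_dvd (n := n) (by omega) p hp.ne_one
  have e1 : p * (p ^ k * m) = p ^ (k + 1) * m := by ring
  rw [e1, coef_inert hν hp hmod hm]
  by_cases hk : 2 ≤ k
  · obtain ⟨l, rfl⟩ := Nat.exists_eq_add_of_le hk
    have e2 : p ^ (2 + l) * m = p ^ 2 * (p ^ l * m) := by ring
    have hp2 : 0 < p ^ 2 := pow_pos hp.pos 2
    rw [e2, if_pos (Dvd.intro _ rfl), Nat.mul_div_cancel_left _ hp2, coef_inert hν hp hmod hm]
    have : (3 ∣ 2 + l + 1) ↔ 3 ∣ l := by omega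
    simp only [this]
  · have hnd : ¬ p ^ 2 ∣ p ^ k * m := by
      intro hd
      have hc : Nat.Coprime (p ^ 2) m := (Nat.Coprime.pow_left 2 ((Nat.Prime.coprime_iff_not_dvd hp).mpr hm))
      have h3 : p ^ 2 ∣ p ^ k := hc.dvd_of_dvd_mul_right hd
      have h4 := (Nat.pow_dvd_pow_iff_le_right hp.one_lt).mp h3
      exact hk h4
    rw [if_neg hnd, if_neg (by omega)]

theorem F_growth_strip {ν : Fin 3 → ℝ} (hν : IsNu ν) (h0 : ν ≠ 0) (σ₁ σ₂ : ℝ) :
    ∃ A C : ℝ, ∀ s : ℂ, σ₁ ≤ s.re → s.re ≤ σ₂ → ‖F ν s‖ ≤ C * (1 + |s.im|) ^ A := by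
  obtain ⟨C, A, hC, hA, h⟩ := (isSelberg hν h0).growth σ₁ σ₂
  have hcont : Continuous (F ν) := (Fw_differentiable (M := 1) hν h0 _).continuous
  have hK : IsCompact ((fun p : ℝ × ℝ => (⟨p.1, p.2⟩ : ℂ)) '' (Icc σ₁ σ₂ ×ˢ Icc (-1) 1)) := by
    apply (isCompact_Icc.prod isCompact_Icc).image
    have : (fun p : ℝ × ℝ => (⟨p.1, p.2⟩ : ℂ)) = fun p => (p.1 : ℂ) + (p.2 : ℂ) * Complex.I := by
      funext p
      apply Complex.ext <;> simp
    rw [this]
    fun_prop
  obtain ⟨D, hD⟩ := hK.exists_bound_of_continuousOn hcont.continuousOn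
  refine ⟨A, max C D, fun s h1 h2 => ?_⟩
  have hone : (1 : ℝ) ≤ 1 + |s.im| := by linarith [abs_nonneg s.im]
  have hpow : (1 : ℝ) ≤ (1 + |s.im|) ^ A := Real.one_le_rpow hone hA
  by_cases h3 : 1 ≤ |s.im|
  · calc ‖F ν s‖ ≤ C * |s.im| ^ A := h s h1 h2 h3
      _ ≤ C * (1 + |s.im|) ^ A := by
          apply mul_le_mul_of_nonneg_left _ hC.le
          apply Real.rpow_le_rpow (abs_nonneg _) _ hA
          linarith
      _ ≤ max C D * (1 + |s.im|) ^ A := by gcongr; exact le_max_left _ _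
  · have h4 : ‖F ν s‖ ≤ D := by
      apply hD
      refine ⟨(s.re, s.im), ⟨⟨h1, h2⟩, ?_⟩, by simp⟩
      exact abs_le.mp (not_le.mp h3).le
    have h5 : 0 ≤ max C D := le_trans hC.le (le_max_left _ _)
    calc ‖F ν s‖ ≤ max C D := h4.trans (le_max_right _ _)
      _ ≤ max C D * (1 + |s.im|) ^ A := le_mul_of_one_le_right h5 hpow

theorem hecke : Nonempty Helper19.BD.HeckeF := by
  obtain ⟨ν, hν, hne⟩ := exists_nu
  have h0 : ν ≠ 0 := by
    intro h
    exact hne 0 (by rw [h]; rfl)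
  refine ⟨{
    nu := ν
    F := F ν
    a := coef ν
    om := chi ν δ
    hom := (FEdata ν).hom
    nu_ne := hne
    nu_sum := hν.1
    diff := Fw_differentiable (M := 1) hν h0 _
    selberg := by rw [← FEdata_eq]; exact isSelberg hν h0
    a_zero := coef_zero ν
    a_one := coef_one hν
    fe := ?_
    growth := F_growth_strip hν h0
    zeros_left := ?_
    zeros_zero := fun t ht => F_zero_line hν h0 ht
    inert := fun p hp h1 h2 h3 n hn => coef_inert' hν p hp h1 h2 h3 n hn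
    twist := ?_
    A := AM
    hA := AM_det
    w := wc ν
    w_smooth := wc_smooth ν
    w_hom := wc_hom hν
    w_supp := wc_supp ν
    w_zero := ?_
    coeff := fun n hn => coef_lattice hν n hn
    norm_int := fun y => ⟨(nrm y).natAbs, by
      rw [AM_mulVec, prod_emb, ← Int.cast_abs, Int.abs_eq_natAbs, Int.cast_natCast]⟩ }⟩
  · intro s h1 h2
    have h := F_FE hν h0 h1 h2
    have e1 : gam ν s = ∏ j, Complex.Gammaℝ (s - Complex.I * ν j) := by
      unfold gam
      apply Finset.prod_congr rfl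
      intro j _
      rw [mul_comm]
    rw [e1] at h
    rw [h, map_mul, map_mul]
    congr 2
    congr 1
    · have harg : ((7 : ℝ) : ℂ).arg ≠ Real.pi := by
        rw [Complex.arg_ofReal_of_nonneg (by norm_num)]; exact Real.pi_pos.ne
      have e7 : (7 : ℂ) = ((7 : ℝ) : ℂ) := by norm_num
      have e8 : (1 : ℂ) - conj s = conj (1 - s) := by simp
      rw [e8, e7, Complex.cpow_conj _ _ harg, Complex.conj_conj, Complex.conj_ofReal]
    · unfold gam
      rw [map_prod]
      apply Finset.prod_congr rfl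
      intro j _
      rw [← Gammaℝ_conj]
      congr 1
      simp
      ring
  · intro s hs hF
    obtain ⟨j, m, hm, rfl⟩ := (F_trivial_zeros hν h0 hs).mp hF
    exact ⟨j, m, hm, by rw [mul_comm]⟩
  · intro m _ ψ hψ
    refine ⟨Fw ν (fun n : ZMod m => ψ n), Fw_differentiable hν h0 _, ?_⟩
    intro s hs
    rw [Fw_LSeries hν h0 (fun n => DirichletCharacter.Even.eval_neg ψ n hψ) hs]
    congr 1
    funext n
    rw [mul_comm]
  · unfold wc
    rw [if_neg]
    push Not
    exact ⟨0, rfl⟩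

end Pool.Agent.Helper88.BD
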